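import Pool.Agent.H7.HilbEx1

set_option autoImplicit false

namespace Pool.H7.HilbEx

variable {k A : Type*} [Field k] [CommRing A] [Algebra k A]

/-- the linear form `∑ c i x i` -/
def lf (x : Fin 12 → A) (c : Fin 12 → k) : A := ∑ i, algebraMap k A (c i) * x i

/-- the pairs `(i, j)` such that the products `x i * x j` form a basis of `A_2` -/
def basisList : List (Fin 12 × Fin 12) :=
  [(0, 1), (0, 2), (0, 3), (0, 4), (0, 5), (0, 6), (0, 7), (0, 8), (0, 9), (0, 10), (0, 11), (1, 3), (1, 4), (1, 5), (1, 6), (1, 7), (1, 8), (1, 9), (1, 10), (1, 11), (2, 3), (2, 4), (2, 5), (2, 6), (2, 7), (2, 8), (2, 9), (2, 10), (2, 11), (3, 4), (3, 5), (3, 8), (3, 9), (4, 10), (5, 11), (6, 7), (6, 8), (6, 9), (6, 10), (6, 11), (8, 9), (8, 10), (8, 11), (9, 10), (9, 11)]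

/-- the products `x i * x j`, `(i,j) ∈ basisList`, are linearly independent -/
def Ind (k : Type*) {A : Type*} [Field k] [CommRing A] [Algebra k A] (x : Fin 12 → A) : Prop :=
  ∀ L : List (k × (Fin 12 × Fin 12)), L.map Prod.snd = basisList →
    (L.map fun t => algebraMap k A t.1 * (x t.2.1 * x t.2.2)).sum = 0 → ∀ t ∈ L, t.1 = 0

lemma eqs_of_mul_eq_zero {w : k} {x : Fin 12 → A} (h : Rels (algebraMap k A w) x)
    (hind : Ind k x) (c e : Fin 12 → k)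
    (hce : lf x c * lf x e = 0) : Eqs w c e := by
  rw [lf, lf, expand h] at hce
  have key := hind [
      ((c 0*e 1 + c 1*e 0) - (c 1*e 2 + c 2*e 1), (0, 1)),
      ((c 0*e 2 + c 2*e 0) - (c 1*e 2 + c 2*e 1), (0, 2)),
      ((c 0*e 3 + c 3*e 0) - (c 3*e 6 + c 6*e 3), (0, 3)),
      ((c 0*e 4 + c 4*e 0) - w^2*(c 4*e 7 + c 7*e 4) + (c 4*e 11 + c 11*e 4), (0, 4)),
      ((c 0*e 5 + c 5*e 0) + (c 5*e 10 + c 10*e 5), (0, 5)),
      ((c 0*e 6 + c 6*e 0) - (c 3*e 6 + c 6*e 3), (0, 6)),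
      ((c 0*e 7 + c 7*e 0) - w*(c 4*e 7 + c 7*e 4) - w*(c 7*e 11 + c 11*e 7), (0, 7)),
      ((c 0*e 8 + c 8*e 0), (0, 8)),
      ((c 0*e 9 + c 9*e 0), (0, 9)),
      ((c 0*e 10 + c 10*e 0) + w*(c 5*e 10 + c 10*e 5), (0, 10)),
      ((c 0*e 11 + c 11*e 0) + w^2*(c 4*e 11 + c 11*e 4) + w*(c 7*e 11 + c 11*e 7), (0, 11)),
      ((c 1*e 3 + c 3*e 1) + w*(c 3*e 11 + c 11*e 3), (1, 3)),
      ((c 1*e 4 + c 4*e 1) - w*(c 4*e 6 + c 6*e 4), (1, 4)),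
      ((c 1*e 5 + c 5*e 1) - (c 5*e 7 + c 7*e 5) + w*(c 5*e 9 + c 9*e 5), (1, 5)),
      ((c 1*e 6 + c 6*e 1) - (c 4*e 6 + c 6*e 4), (1, 6)),
      ((c 1*e 7 + c 7*e 1) - w*(c 5*e 7 + c 7*e 5) - w^2*(c 7*e 9 + c 9*e 7), (1, 7)),
      ((c 1*e 8 + c 8*e 1), (1, 8)),
      ((c 1*e 9 + c 9*e 1) + w^2*(c 5*e 9 + c 9*e 5) + w^2*(c 7*e 9 + c 9*e 7), (1, 9)),
      ((c 1*e 10 + c 10*e 1), (1, 10)),
      ((c 1*e 11 + c 11*e 1) + w*(c 3*e 11 + c 11*e 3), (1, 11)),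
      ((c 2*e 3 + c 3*e 2) - w*(c 3*e 7 + c 7*e 3) + w^2*(c 3*e 10 + c 10*e 3), (2, 3)),
      ((c 2*e 4 + c 4*e 2) + w^2*(c 4*e 9 + c 9*e 4), (2, 4)),
      ((c 2*e 5 + c 5*e 2) - w^2*(c 5*e 6 + c 6*e 5), (2, 5)),
      ((c 2*e 6 + c 6*e 2) - (c 5*e 6 + c 6*e 5), (2, 6)),
      ((c 2*e 7 + c 7*e 2) - w*(c 3*e 7 + c 7*e 3) - (c 7*e 10 + c 10*e 7), (2, 7)),
      ((c 2*e 8 + c 8*e 2), (2, 8)),
      ((c 2*e 9 + c 9*e 2) + w*(c 4*e 9 + c 9*e 4), (2, 9)),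
      ((c 2*e 10 + c 10*e 2) + w^2*(c 3*e 10 + c 10*e 3) + (c 7*e 10 + c 10*e 7), (2, 10)),
      ((c 2*e 11 + c 11*e 2), (2, 11)),
      ((c 3*e 4 + c 4*e 3) - (c 4*e 5 + c 5*e 4) - w^2*(c 4*e 8 + c 8*e 4), (3, 4)),
      ((c 3*e 5 + c 5*e 3) - (c 4*e 5 + c 5*e 4) + (c 5*e 8 + c 8*e 5), (3, 5)),
      ((c 3*e 8 + c 8*e 3) + w*(c 4*e 8 + c 8*e 4) + w^2*(c 5*e 8 + c 8*e 5), (3, 8)),
      ((c 3*e 9 + c 9*e 3), (3, 9)),
      ((c 4*e 10 + c 10*e 4), (4, 10)),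
      ((c 5*e 11 + c 11*e 5), (5, 11)),
      ((c 6*e 7 + c 7*e 6) + w^2*(c 7*e 8 + c 8*e 7), (6, 7)),
      ((c 6*e 8 + c 8*e 6) + w^2*(c 7*e 8 + c 8*e 7), (6, 8)),
      ((c 6*e 9 + c 9*e 6), (6, 9)),
      ((c 6*e 10 + c 10*e 6), (6, 10)),
      ((c 6*e 11 + c 11*e 6), (6, 11)),
      ((c 8*e 9 + c 9*e 8), (8, 9)),
      ((c 8*e 10 + c 10*e 8), (8, 10)),
      ((c 8*e 11 + c 11*e 8), (8, 11)),
      ((c 9*e 10 + c 10*e 9) - w^2*(c 10*e 11 + c 11*e 10), (9, 10)),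
      ((c 9*e 11 + c 11*e 9) - w*(c 10*e 11 + c 11*e 10), (9, 11))] rfl (by
    rw [← hce]
    simp only [List.map_cons, List.map_nil, List.sum_cons, List.sum_nil, map_add, map_sub, map_mul, map_pow,
      add_zero, add_assoc])
  simp only [List.forall_mem_cons] at key
  obtain ⟨h0_1, h0_2, h0_3, h0_4, h0_5, h0_6, h0_7, h0_8, h0_9, h0_10, h0_11, h1_3, h1_4, h1_5, h1_6, h1_7, h1_8, h1_9, h1_10, h1_11, h2_3, h2_4, h2_5, h2_6, h2_7, h2_8, h2_9, h2_10, h2_11, h3_4, h3_5, h3_8, h3_9, h4_10, h5_11, h6_7, h6_8, h6_9, h6_10, h6_11, h8_9, h8_10, h8_11, h9_10, h9_11, _⟩ := key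
  exact ⟨h0_1, h0_2, h0_3, h0_4, h0_5, h0_6, h0_7, h0_8, h0_9, h0_10, h0_11, h1_3, h1_4, h1_5, h1_6, h1_7, h1_8, h1_9, h1_10, h1_11, h2_3, h2_4, h2_5, h2_6, h2_7, h2_8, h2_9, h2_10, h2_11, h3_4, h3_5, h3_8, h3_9, h4_10, h5_11, h6_7, h6_8, h6_9, h6_10, h6_11, h8_9, h8_10, h8_11, h9_10, h9_11⟩

lemma mul_eq_zero_of_eqs {w : k} {x : Fin 12 → A} (h : Rels (algebraMap k A w) x)
    (c e : Fin 12 → k) (he : Eqs w c e) : lf x c * lf x e = 0 := by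
  rw [lf, lf, expand h]
  have h0_1 := congrArg (algebraMap k A) he.p_0_1
  have h0_2 := congrArg (algebraMap k A) he.p_0_2
  have h0_3 := congrArg (algebraMap k A) he.p_0_3
  have h0_4 := congrArg (algebraMap k A) he.p_0_4
  have h0_5 := congrArg (algebraMap k A) he.p_0_5
  have h0_6 := congrArg (algebraMap k A) he.p_0_6
  have h0_7 := congrArg (algebraMap k A) he.p_0_7
  have h0_8 := congrArg (algebraMap k A) he.p_0_8
  have h0_9 := congrArg (algebraMap k A) he.p_0_9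
  have h0_10 := congrArg (algebraMap k A) he.p_0_10
  have h0_11 := congrArg (algebraMap k A) he.p_0_11
  have h1_3 := congrArg (algebraMap k A) he.p_1_3
  have h1_4 := congrArg (algebraMap k A) he.p_1_4
  have h1_5 := congrArg (algebraMap k A) he.p_1_5
  have h1_6 := congrArg (algebraMap k A) he.p_1_6
  have h1_7 := congrArg (algebraMap k A) he.p_1_7
  have h1_8 := congrArg (algebraMap k A) he.p_1_8
  have h1_9 := congrArg (algebraMap k A) he.p_1_9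
  have h1_10 := congrArg (algebraMap k A) he.p_1_10
  have h1_11 := congrArg (algebraMap k A) he.p_1_11
  have h2_3 := congrArg (algebraMap k A) he.p_2_3
  have h2_4 := congrArg (algebraMap k A) he.p_2_4
  have h2_5 := congrArg (algebraMap k A) he.p_2_5
  have h2_6 := congrArg (algebraMap k A) he.p_2_6
  have h2_7 := congrArg (algebraMap k A) he.p_2_7
  have h2_8 := congrArg (algebraMap k A) he.p_2_8
  have h2_9 := congrArg (algebraMap k A) he.p_2_9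
  have h2_10 := congrArg (algebraMap k A) he.p_2_10
  have h2_11 := congrArg (algebraMap k A) he.p_2_11
  have h3_4 := congrArg (algebraMap k A) he.p_3_4
  have h3_5 := congrArg (algebraMap k A) he.p_3_5
  have h3_8 := congrArg (algebraMap k A) he.p_3_8
  have h3_9 := congrArg (algebraMap k A) he.p_3_9
  have h4_10 := congrArg (algebraMap k A) he.p_4_10
  have h5_11 := congrArg (algebraMap k A) he.p_5_11
  have h6_7 := congrArg (algebraMap k A) he.p_6_7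
  have h6_8 := congrArg (algebraMap k A) he.p_6_8
  have h6_9 := congrArg (algebraMap k A) he.p_6_9
  have h6_10 := congrArg (algebraMap k A) he.p_6_10
  have h6_11 := congrArg (algebraMap k A) he.p_6_11
  have h8_9 := congrArg (algebraMap k A) he.p_8_9
  have h8_10 := congrArg (algebraMap k A) he.p_8_10
  have h8_11 := congrArg (algebraMap k A) he.p_8_11
  have h9_10 := congrArg (algebraMap k A) he.p_9_10
  have h9_11 := congrArg (algebraMap k A) he.p_9_11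
  simp only [map_add, map_sub, map_mul, map_pow, map_zero] at h0_1 h0_2 h0_3 h0_4 h0_5 h0_6 h0_7 h0_8 h0_9 h0_10 h0_11 h1_3 h1_4 h1_5 h1_6 h1_7 h1_8 h1_9 h1_10 h1_11 h2_3 h2_4 h2_5 h2_6 h2_7 h2_8 h2_9 h2_10 h2_11 h3_4 h3_5 h3_8 h3_9 h4_10 h5_11 h6_7 h6_8 h6_9 h6_10 h6_11 h8_9 h8_10 h8_11 h9_10 h9_11
  rw [h0_1, h0_2, h0_3, h0_4, h0_5, h0_6, h0_7, h0_8, h0_9, h0_10, h0_11, h1_3, h1_4, h1_5, h1_6, h1_7, h1_8, h1_9, h1_10, h1_11, h2_3, h2_4, h2_5, h2_6, h2_7, h2_8, h2_9, h2_10, h2_11, h3_4, h3_5, h3_8, h3_9, h4_10, h5_11, h6_7, h6_8, h6_9, h6_10, h6_11, h8_9, h8_10, h8_11, h9_10, h9_11]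
  simp only [zero_mul, add_zero]

end Pool.H7.HilbEx
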