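import Pool.Agent.H7.HilbMain

set_option autoImplicit false

namespace Pool.H7.HilbRigid

open MvPolynomial

variable {n d : ℕ} {k : Type*} [Field k] {b : Fin d → (Fin n →₀ ℕ)}

/-- Rigidity of an ideal `I`: every `k[x]`-linear map `I → k[x]/I` which does not raise degrees is
induced by an affine vector field `∑_i (α_i + ∑_j γ_ij x_j) ∂_i`. -/
def Rigid (I : Ideal (MvPolynomial (Fin n) k)) : Prop :=
  ∀ φ : I →ₗ[MvPolynomial (Fin n) k] (MvPolynomial (Fin n) k ⧸ I),
    (∀ (e : ℕ) (f : I), (f : MvPolynomial (Fin n) k).IsHomogeneous e →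
        ∃ g : MvPolynomial (Fin n) k, g.totalDegree ≤ e ∧ φ f = Ideal.Quotient.mk I g) →
    ∃ (α : Fin n → k) (γ : Fin n → Fin n → k), ∀ f : I,
      φ f = Ideal.Quotient.mk I
        (∑ i, (C (α i) + ∑ j, C (γ i j) * X j) * pderiv i (f : MvPolynomial (Fin n) k))

lemma homogeneousComponent_lift (e : ℕ) (v : Fin d → k) :
    homogeneousComponent e (lift b v) = lift b (fun j => if (b j).degree = e then v j else 0) := by
  rw [lift, map_sum, lift]
  refine Finset.sum_congr rfl fun j _ => ?_
  by_cases hj : (b j).degree = e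
  · rw [if_pos hj]
    exact homogeneousComponent_eq_self (isHomogeneous_monomial _ hj)
  · rw [if_neg hj, monomial_zero]
    have h2 : (monomial (b j) (v j) : MvPolynomial (Fin n) k) ∈
        homogeneousSubmodule (Fin n) k (b j).degree := by
      rw [mem_homogeneousSubmodule]
      exact isHomogeneous_monomial _ rfl
    rw [homogeneousComponent_of_mem h2, if_neg (fun h => hj h.symm)]

lemma HasCoords.graded {J : HilbPt k n d} {c : (Fin n →₀ ℕ) → Fin d → k} (hc : HasCoords b J c)
    (hJ : ∀ f ∈ J.ideal, ∀ e, homogeneousComponent e f ∈ J.ideal) : Graded b c := by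
  intro m j hne
  by_contra hdeg
  have h1 : (monomial m 1 - lift b (c m) : MvPolynomial (Fin n) k) ∈ J.ideal := hc m
  have h2 := hJ _ h1 (b j).degree
  have h3 : (monomial m 1 : MvPolynomial (Fin n) k) ∈
      homogeneousSubmodule (Fin n) k m.degree := by
    rw [mem_homogeneousSubmodule]
    exact isHomogeneous_monomial _ rfl
  rw [map_sub, homogeneousComponent_of_mem h3, if_neg hdeg, homogeneousComponent_lift, zero_sub] at h2
  have h4 := hc.indep _ ((Ideal.neg_mem_iff _).mp h2)
  have h5 := congrFun h4 j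
  rw [Pi.zero_apply, if_pos rfl] at h5
  exact hne h5

lemma totalDegree_lift_le (e : ℕ) (v : Fin d → k) (hv : ∀ j, e < (b j).degree → v j = 0) :
    (lift b v).totalDegree ≤ e := by
  rw [lift]
  apply totalDegree_finsetSum_le
  intro j _
  by_cases hj : e < (b j).degree
  · rw [hv j hj, monomial_zero, totalDegree_zero]
    exact Nat.zero_le _
  · refine le_trans (totalDegree_monomial_le _ _) ?_
    have : (b j).degree ≤ e := not_lt.mp hj
    rw [Finsupp.degree_eq_sum] at this
    rw [Finsupp.sum_fintype _ _ (fun _ => rfl)]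
    exact this

lemma HasCoords.rigidC {J : HilbPt k n d} {c : (Fin n →₀ ℕ) → Fin d → k} (hc : HasCoords b J c)
    (hrig : Rigid J.ideal) : RigidC b c := by
  intro ψ hψ1 hψ2
  have hpt := hc.isPoint
  have hmem : ∀ f : J.ideal, nf c (f : MvPolynomial (Fin n) k) = 0 :=
    fun f => (hc.nf_eq_zero_iff _).mpr f.2
  -- multiplication by a variable
  have hX : ∀ (i : Fin n) (f : MvPolynomial (Fin n) k), f ∈ J.ideal →
      Ideal.Quotient.mk J.ideal (lift b (ψ (X i * f))) =
        Ideal.Quotient.mk J.ideal (X i * lift b (ψ f)) := by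
    intro i f hf
    rw [hψ1 f ((hc.nf_eq_zero_iff _).mpr hf) i]
    have h1 : (∑ j, ψ f j • c (b j + Finsupp.single i 1)) = nf c (X i * lift b (ψ f)) := by
      rw [hpt.nf_X_mul, hpt.nf_lift]
    rw [h1]
    symm
    exact Ideal.Quotient.eq.mpr (hc.sub_mem _)
  have hmul : ∀ (p f : MvPolynomial (Fin n) k), f ∈ J.ideal →
      Ideal.Quotient.mk J.ideal (lift b (ψ (p * f))) =
        Ideal.Quotient.mk J.ideal (p * lift b (ψ f)) := by
    intro p
    induction p using MvPolynomial.induction_on with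
    | C r =>
      intro f _
      rw [← smul_eq_C_mul, map_smul, lift_smul]
    | add p q hp hq =>
      intro f hf
      rw [add_mul, map_add, lift_add, map_add, hp f hf, hq f hf, add_mul, map_add]
    | mul_X p i hp =>
      intro f hf
      rw [mul_assoc, hp _ (J.ideal.mul_mem_left _ hf), map_mul, hX i f hf, ← map_mul, mul_assoc]
  let φ : J.ideal →ₗ[MvPolynomial (Fin n) k] (MvPolynomial (Fin n) k ⧸ J.ideal) :=
    { toFun := fun f => Ideal.Quotient.mk J.ideal (lift b (ψ (f : MvPolynomial (Fin n) k)))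
      map_add' := by
        intro f g
        rw [Submodule.coe_add, map_add, lift_add, map_add]
      map_smul' := by
        intro p f
        rw [Submodule.coe_smul, smul_eq_mul, hmul p _ f.2, RingHom.id_apply]
        rfl }
  have hφ : ∀ f : J.ideal, φ f = Ideal.Quotient.mk J.ideal (lift b (ψ (f : MvPolynomial (Fin n) k))) :=
    fun _ => rfl
  obtain ⟨α, γ, h⟩ := hrig φ (by
    intro e f hfe
    exact ⟨lift b (ψ f), totalDegree_lift_le e _ (fun j hj => hψ2 e _ hfe (hmem f) j hj), hφ f⟩)
  refine ⟨α, γ, fun f hf => ?_⟩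
  have h1 := h ⟨f, (hc.nf_eq_zero_iff _).mp hf⟩
  rw [hφ] at h1
  have h2 := Ideal.Quotient.eq.mp h1
  rw [← hc.nf_eq_zero_iff, map_sub, hpt.nf_lift, sub_eq_zero] at h2
  exact h2

attribute [local instance] MvPolynomial.gradedAlgebra in
/-- ideals generated by homogeneous polynomials are homogeneous -/
lemma homogeneousComponent_mem_span {S : Set (MvPolynomial (Fin n) k)}
    (hS : ∀ f ∈ S, ∃ e, f.IsHomogeneous e) (f : MvPolynomial (Fin n) k) (hf : f ∈ Ideal.span S)
    (e : ℕ) : homogeneousComponent e f ∈ Ideal.span S := by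
  have h1 : (Ideal.span S).IsHomogeneous (homogeneousSubmodule (Fin n) k) := by
    apply Ideal.homogeneous_span
    intro x hx
    obtain ⟨e, he⟩ := hS x hx
    exact ⟨e, he⟩
  exact homogeneousComponent_mem_of_mem h1 hf e

/-- a monomial basis of the quotient gives coordinates -/
lemma exists_hasCoords (J : HilbPt k n d)
    (hb : Submodule.span k (Set.range fun j => Ideal.Quotient.mk J.ideal (monomial (b j) (1 : k))) = ⊤) :
    ∃ c, HasCoords b J c := by
  have h1 : ∀ m : Fin n →₀ ℕ, ∃ v : Fin d → k,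
      (monomial m 1 - ∑ j, monomial (b j) (v j) : MvPolynomial (Fin n) k) ∈ J.ideal := by
    intro m
    have h2 : Ideal.Quotient.mk J.ideal (monomial m (1 : k)) ∈
      Submodule.span k (Set.range fun j => Ideal.Quotient.mk J.ideal (monomial (b j) (1 : k))) := by
      rw [hb]; trivial
    rw [Submodule.mem_span_range_iff_exists_fun] at h2
    obtain ⟨v, hv⟩ := h2
    refine ⟨v, ?_⟩
    rw [← Ideal.Quotient.eq, ← hv, map_sum]
    refine Finset.sum_congr rfl fun j _ => ?_
    have h3 : (monomial (b j) (v j) : MvPolynomial (Fin n) k) = v j • monomial (b j) (1 : k) := by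
      rw [smul_monomial, smul_eq_mul, mul_one]
    rw [h3]
    rfl
  choose c hc using h1
  exact ⟨c, hc⟩

/-- **Main theorem.** Let `k` be algebraically closed and let `J1`, `J2` be two closed points of
`Hilb^d(𝔸ⁿ_k)`, `d > 0`, given by homogeneous rigid ideals with a common monomial basis. If some
irreducible subset of the Hilbert scheme contains both, then they are `GL_n(k)`-equivalent. -/
theorem main [IsAlgClosed k] (hd : 0 < d) (b : Fin d → (Fin n →₀ ℕ)) {Z : Set (HilbPt k n d)}
    (hZ : IsPreirreducible Z) {J1 J2 : HilbPt k n d} (hJ1 : J1 ∈ Z) (hJ2 : J2 ∈ Z)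
    (hb1 : Submodule.span k
      (Set.range fun j => Ideal.Quotient.mk J1.ideal (monomial (b j) (1 : k))) = ⊤)
    (hb2 : Submodule.span k
      (Set.range fun j => Ideal.Quotient.mk J2.ideal (monomial (b j) (1 : k))) = ⊤)
    (hh1 : ∀ f ∈ J1.ideal, ∀ e, homogeneousComponent e f ∈ J1.ideal)
    (hh2 : ∀ f ∈ J2.ideal, ∀ e, homogeneousComponent e f ∈ J2.ideal)
    (hr1 : Rigid J1.ideal) (hr2 : Rigid J2.ideal) :
    ∃ g : Matrix (Fin n) (Fin n) k, IsUnit g ∧
      ∀ f ∈ J1.ideal, aeval (fun i => ∑ j, C (g i j) * X j : Fin n → MvPolynomial (Fin n) k) f ∈ J2.ideal := by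
  obtain ⟨c1, hc1⟩ := exists_hasCoords J1 hb1
  obtain ⟨c2, hc2⟩ := exists_hasCoords J2 hb2
  obtain ⟨B, B', hB, h⟩ := equiv_of_mem_irreducible hd hZ hJ1 hJ2 hc1 hc2 (hc1.graded hh1)
    (hc2.graded hh2) (hc1.rigidC hr1) (hc2.rigidC hr2)
  refine ⟨B, IsUnit.of_mul_eq_one B' hB, fun f hf => ?_⟩
  have := h f hf
  rw [subst] at this
  simpa using this

end Pool.H7.HilbRigid
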