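import Mathlib

set_option autoImplicit false

/-!
Square-zero elements and multiplication tables in degree two for the algebras `A_w`.
-/

namespace Pool.H7.HilbEx

/-- The defining relations of `A_w` for twelve elements `x i` of a commutative ring. -/
structure Rels {A : Type*} [CommRing A] (w : A) (x : Fin 12 → A) : Prop where
  sq : ∀ i, x i * x i = 0
  r_0_1_2 : x 1 * x 2 + (x 0 * x 2) + (x 0 * x 1) = 0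
  r_0_3_6 : x 3 * x 6 + (x 0 * x 6) + (x 0 * x 3) = 0
  r_0_5_10 : x 5 * x 10 - w*(x 0 * x 10) - (x 0 * x 5) = 0
  r_1_3_11 : x 3 * x 11 - w*(x 1 * x 11) - w*(x 1 * x 3) = 0
  r_1_4_6 : x 4 * x 6 + (x 1 * x 6) + w*(x 1 * x 4) = 0
  r_2_4_9 : x 4 * x 9 - w*(x 2 * x 9) - w^2*(x 2 * x 4) = 0
  r_2_5_6 : x 5 * x 6 + (x 2 * x 6) + w^2*(x 2 * x 5) = 0
  r_6_7_8 : x 7 * x 8 - w^2*(x 6 * x 8) - w^2*(x 6 * x 7) = 0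
  r_9_10_11 : x 10 * x 11 + w*(x 9 * x 11) + w^2*(x 9 * x 10) = 0
  r_0_4_7 : x 4 * x 7 + w*(x 0 * x 7) + w^2*(x 0 * x 4) = 0
  r_0_4_11 : x 4 * x 11 - w^2*(x 0 * x 11) - (x 0 * x 4) = 0
  r_0_7_11 : x 7 * x 11 - w*(x 0 * x 11) + w*(x 0 * x 7) = 0
  r_1_5_7 : x 5 * x 7 + w*(x 1 * x 7) + (x 1 * x 5) = 0
  r_1_5_9 : x 5 * x 9 - w^2*(x 1 * x 9) - w*(x 1 * x 5) = 0
  r_1_7_9 : x 7 * x 9 - w^2*(x 1 * x 9) + w^2*(x 1 * x 7) = 0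
  r_2_3_7 : x 3 * x 7 + w*(x 2 * x 7) + w*(x 2 * x 3) = 0
  r_2_3_10 : x 3 * x 10 - w^2*(x 2 * x 10) - w^2*(x 2 * x 3) = 0
  r_2_7_10 : x 7 * x 10 - (x 2 * x 10) + (x 2 * x 7) = 0
  r_3_4_5 : x 4 * x 5 + (x 3 * x 5) + (x 3 * x 4) = 0
  r_3_4_8 : x 4 * x 8 - w*(x 3 * x 8) + w^2*(x 3 * x 4) = 0
  r_3_5_8 : x 5 * x 8 - w^2*(x 3 * x 8) - (x 3 * x 5) = 0

/-- The forty-five quadratic equations expressing `ℓ(c) ℓ(e) = 0`. -/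
structure Eqs {k : Type*} [CommRing k] (w : k) (c e : Fin 12 → k) : Prop where
  p_0_1 : (c 0*e 1 + c 1*e 0) - (c 1*e 2 + c 2*e 1) = 0
  p_0_2 : (c 0*e 2 + c 2*e 0) - (c 1*e 2 + c 2*e 1) = 0
  p_0_3 : (c 0*e 3 + c 3*e 0) - (c 3*e 6 + c 6*e 3) = 0
  p_0_4 : (c 0*e 4 + c 4*e 0) - w^2*(c 4*e 7 + c 7*e 4) + (c 4*e 11 + c 11*e 4) = 0
  p_0_5 : (c 0*e 5 + c 5*e 0) + (c 5*e 10 + c 10*e 5) = 0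
  p_0_6 : (c 0*e 6 + c 6*e 0) - (c 3*e 6 + c 6*e 3) = 0
  p_0_7 : (c 0*e 7 + c 7*e 0) - w*(c 4*e 7 + c 7*e 4) - w*(c 7*e 11 + c 11*e 7) = 0
  p_0_8 : (c 0*e 8 + c 8*e 0) = 0
  p_0_9 : (c 0*e 9 + c 9*e 0) = 0
  p_0_10 : (c 0*e 10 + c 10*e 0) + w*(c 5*e 10 + c 10*e 5) = 0
  p_0_11 : (c 0*e 11 + c 11*e 0) + w^2*(c 4*e 11 + c 11*e 4) + w*(c 7*e 11 + c 11*e 7) = 0
  p_1_3 : (c 1*e 3 + c 3*e 1) + w*(c 3*e 11 + c 11*e 3) = 0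
  p_1_4 : (c 1*e 4 + c 4*e 1) - w*(c 4*e 6 + c 6*e 4) = 0
  p_1_5 : (c 1*e 5 + c 5*e 1) - (c 5*e 7 + c 7*e 5) + w*(c 5*e 9 + c 9*e 5) = 0
  p_1_6 : (c 1*e 6 + c 6*e 1) - (c 4*e 6 + c 6*e 4) = 0
  p_1_7 : (c 1*e 7 + c 7*e 1) - w*(c 5*e 7 + c 7*e 5) - w^2*(c 7*e 9 + c 9*e 7) = 0
  p_1_8 : (c 1*e 8 + c 8*e 1) = 0
  p_1_9 : (c 1*e 9 + c 9*e 1) + w^2*(c 5*e 9 + c 9*e 5) + w^2*(c 7*e 9 + c 9*e 7) = 0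
  p_1_10 : (c 1*e 10 + c 10*e 1) = 0
  p_1_11 : (c 1*e 11 + c 11*e 1) + w*(c 3*e 11 + c 11*e 3) = 0
  p_2_3 : (c 2*e 3 + c 3*e 2) - w*(c 3*e 7 + c 7*e 3) + w^2*(c 3*e 10 + c 10*e 3) = 0
  p_2_4 : (c 2*e 4 + c 4*e 2) + w^2*(c 4*e 9 + c 9*e 4) = 0
  p_2_5 : (c 2*e 5 + c 5*e 2) - w^2*(c 5*e 6 + c 6*e 5) = 0
  p_2_6 : (c 2*e 6 + c 6*e 2) - (c 5*e 6 + c 6*e 5) = 0
  p_2_7 : (c 2*e 7 + c 7*e 2) - w*(c 3*e 7 + c 7*e 3) - (c 7*e 10 + c 10*e 7) = 0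
  p_2_8 : (c 2*e 8 + c 8*e 2) = 0
  p_2_9 : (c 2*e 9 + c 9*e 2) + w*(c 4*e 9 + c 9*e 4) = 0
  p_2_10 : (c 2*e 10 + c 10*e 2) + w^2*(c 3*e 10 + c 10*e 3) + (c 7*e 10 + c 10*e 7) = 0
  p_2_11 : (c 2*e 11 + c 11*e 2) = 0
  p_3_4 : (c 3*e 4 + c 4*e 3) - (c 4*e 5 + c 5*e 4) - w^2*(c 4*e 8 + c 8*e 4) = 0
  p_3_5 : (c 3*e 5 + c 5*e 3) - (c 4*e 5 + c 5*e 4) + (c 5*e 8 + c 8*e 5) = 0
  p_3_8 : (c 3*e 8 + c 8*e 3) + w*(c 4*e 8 + c 8*e 4) + w^2*(c 5*e 8 + c 8*e 5) = 0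
  p_3_9 : (c 3*e 9 + c 9*e 3) = 0
  p_4_10 : (c 4*e 10 + c 10*e 4) = 0
  p_5_11 : (c 5*e 11 + c 11*e 5) = 0
  p_6_7 : (c 6*e 7 + c 7*e 6) + w^2*(c 7*e 8 + c 8*e 7) = 0
  p_6_8 : (c 6*e 8 + c 8*e 6) + w^2*(c 7*e 8 + c 8*e 7) = 0
  p_6_9 : (c 6*e 9 + c 9*e 6) = 0
  p_6_10 : (c 6*e 10 + c 10*e 6) = 0
  p_6_11 : (c 6*e 11 + c 11*e 6) = 0
  p_8_9 : (c 8*e 9 + c 9*e 8) = 0
  p_8_10 : (c 8*e 10 + c 10*e 8) = 0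
  p_8_11 : (c 8*e 11 + c 11*e 8) = 0
  p_9_10 : (c 9*e 10 + c 10*e 9) - w^2*(c 10*e 11 + c 11*e 10) = 0
  p_9_11 : (c 9*e 11 + c 11*e 9) - w*(c 10*e 11 + c 11*e 10) = 0

lemma sum12 {A : Type*} [AddCommMonoid A] (f : Fin 12 → A) : ∑ i, f i =
    f 0 + f 1 + f 2 + f 3 + f 4 + f 5 + f 6 + f 7 + f 8 + f 9 + f 10 + f 11 := by
  simp only [Fin.sum_univ_succ, Fin.sum_univ_zero]
  simp only [add_assoc, add_zero]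
  rfl

lemma expand {A : Type*} [CommRing A] {w : A} {x : Fin 12 → A} (h : Rels w x) (c e : Fin 12 → A) :
    (∑ i, c i * x i) * (∑ i, e i * x i) =
      ((c 0*e 1 + c 1*e 0) - (c 1*e 2 + c 2*e 1)) * (x 0 * x 1) +
      ((c 0*e 2 + c 2*e 0) - (c 1*e 2 + c 2*e 1)) * (x 0 * x 2) +
      ((c 0*e 3 + c 3*e 0) - (c 3*e 6 + c 6*e 3)) * (x 0 * x 3) +
      ((c 0*e 4 + c 4*e 0) - w^2*(c 4*e 7 + c 7*e 4) + (c 4*e 11 + c 11*e 4)) * (x 0 * x 4) +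
      ((c 0*e 5 + c 5*e 0) + (c 5*e 10 + c 10*e 5)) * (x 0 * x 5) +
      ((c 0*e 6 + c 6*e 0) - (c 3*e 6 + c 6*e 3)) * (x 0 * x 6) +
      ((c 0*e 7 + c 7*e 0) - w*(c 4*e 7 + c 7*e 4) - w*(c 7*e 11 + c 11*e 7)) * (x 0 * x 7) +
      ((c 0*e 8 + c 8*e 0)) * (x 0 * x 8) +
      ((c 0*e 9 + c 9*e 0)) * (x 0 * x 9) +
      ((c 0*e 10 + c 10*e 0) + w*(c 5*e 10 + c 10*e 5)) * (x 0 * x 10) +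
      ((c 0*e 11 + c 11*e 0) + w^2*(c 4*e 11 + c 11*e 4) + w*(c 7*e 11 + c 11*e 7)) * (x 0 * x 11) +
      ((c 1*e 3 + c 3*e 1) + w*(c 3*e 11 + c 11*e 3)) * (x 1 * x 3) +
      ((c 1*e 4 + c 4*e 1) - w*(c 4*e 6 + c 6*e 4)) * (x 1 * x 4) +
      ((c 1*e 5 + c 5*e 1) - (c 5*e 7 + c 7*e 5) + w*(c 5*e 9 + c 9*e 5)) * (x 1 * x 5) +
      ((c 1*e 6 + c 6*e 1) - (c 4*e 6 + c 6*e 4)) * (x 1 * x 6) +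
      ((c 1*e 7 + c 7*e 1) - w*(c 5*e 7 + c 7*e 5) - w^2*(c 7*e 9 + c 9*e 7)) * (x 1 * x 7) +
      ((c 1*e 8 + c 8*e 1)) * (x 1 * x 8) +
      ((c 1*e 9 + c 9*e 1) + w^2*(c 5*e 9 + c 9*e 5) + w^2*(c 7*e 9 + c 9*e 7)) * (x 1 * x 9) +
      ((c 1*e 10 + c 10*e 1)) * (x 1 * x 10) +
      ((c 1*e 11 + c 11*e 1) + w*(c 3*e 11 + c 11*e 3)) * (x 1 * x 11) +
      ((c 2*e 3 + c 3*e 2) - w*(c 3*e 7 + c 7*e 3) + w^2*(c 3*e 10 + c 10*e 3)) * (x 2 * x 3) +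
      ((c 2*e 4 + c 4*e 2) + w^2*(c 4*e 9 + c 9*e 4)) * (x 2 * x 4) +
      ((c 2*e 5 + c 5*e 2) - w^2*(c 5*e 6 + c 6*e 5)) * (x 2 * x 5) +
      ((c 2*e 6 + c 6*e 2) - (c 5*e 6 + c 6*e 5)) * (x 2 * x 6) +
      ((c 2*e 7 + c 7*e 2) - w*(c 3*e 7 + c 7*e 3) - (c 7*e 10 + c 10*e 7)) * (x 2 * x 7) +
      ((c 2*e 8 + c 8*e 2)) * (x 2 * x 8) +
      ((c 2*e 9 + c 9*e 2) + w*(c 4*e 9 + c 9*e 4)) * (x 2 * x 9) +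
      ((c 2*e 10 + c 10*e 2) + w^2*(c 3*e 10 + c 10*e 3) + (c 7*e 10 + c 10*e 7)) * (x 2 * x 10) +
      ((c 2*e 11 + c 11*e 2)) * (x 2 * x 11) +
      ((c 3*e 4 + c 4*e 3) - (c 4*e 5 + c 5*e 4) - w^2*(c 4*e 8 + c 8*e 4)) * (x 3 * x 4) +
      ((c 3*e 5 + c 5*e 3) - (c 4*e 5 + c 5*e 4) + (c 5*e 8 + c 8*e 5)) * (x 3 * x 5) +
      ((c 3*e 8 + c 8*e 3) + w*(c 4*e 8 + c 8*e 4) + w^2*(c 5*e 8 + c 8*e 5)) * (x 3 * x 8) +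
      ((c 3*e 9 + c 9*e 3)) * (x 3 * x 9) +
      ((c 4*e 10 + c 10*e 4)) * (x 4 * x 10) +
      ((c 5*e 11 + c 11*e 5)) * (x 5 * x 11) +
      ((c 6*e 7 + c 7*e 6) + w^2*(c 7*e 8 + c 8*e 7)) * (x 6 * x 7) +
      ((c 6*e 8 + c 8*e 6) + w^2*(c 7*e 8 + c 8*e 7)) * (x 6 * x 8) +
      ((c 6*e 9 + c 9*e 6)) * (x 6 * x 9) +
      ((c 6*e 10 + c 10*e 6)) * (x 6 * x 10) +
      ((c 6*e 11 + c 11*e 6)) * (x 6 * x 11) +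
      ((c 8*e 9 + c 9*e 8)) * (x 8 * x 9) +
      ((c 8*e 10 + c 10*e 8)) * (x 8 * x 10) +
      ((c 8*e 11 + c 11*e 8)) * (x 8 * x 11) +
      ((c 9*e 10 + c 10*e 9) - w^2*(c 10*e 11 + c 11*e 10)) * (x 9 * x 10) +
      ((c 9*e 11 + c 11*e 9) - w*(c 10*e 11 + c 11*e 10)) * (x 9 * x 11) := by
  rw [sum12, sum12]
  linear_combination (c 0*e 0) * h.sq 0 +
    (c 1*e 1) * h.sq 1 +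
    (c 2*e 2) * h.sq 2 +
    (c 3*e 3) * h.sq 3 +
    (c 4*e 4) * h.sq 4 +
    (c 5*e 5) * h.sq 5 +
    (c 6*e 6) * h.sq 6 +
    (c 7*e 7) * h.sq 7 +
    (c 8*e 8) * h.sq 8 +
    (c 9*e 9) * h.sq 9 +
    (c 10*e 10) * h.sq 10 +
    (c 11*e 11) * h.sq 11 +
    (c 1*e 2 + c 2*e 1) * h.r_0_1_2 +
    (c 3*e 6 + c 6*e 3) * h.r_0_3_6 +
    (c 5*e 10 + c 10*e 5) * h.r_0_5_10 +
    (c 3*e 11 + c 11*e 3) * h.r_1_3_11 +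
    (c 4*e 6 + c 6*e 4) * h.r_1_4_6 +
    (c 4*e 9 + c 9*e 4) * h.r_2_4_9 +
    (c 5*e 6 + c 6*e 5) * h.r_2_5_6 +
    (c 7*e 8 + c 8*e 7) * h.r_6_7_8 +
    (c 10*e 11 + c 11*e 10) * h.r_9_10_11 +
    (c 4*e 7 + c 7*e 4) * h.r_0_4_7 +
    (c 4*e 11 + c 11*e 4) * h.r_0_4_11 +
    (c 7*e 11 + c 11*e 7) * h.r_0_7_11 +
    (c 5*e 7 + c 7*e 5) * h.r_1_5_7 +
    (c 5*e 9 + c 9*e 5) * h.r_1_5_9 +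
    (c 7*e 9 + c 9*e 7) * h.r_1_7_9 +
    (c 3*e 7 + c 7*e 3) * h.r_2_3_7 +
    (c 3*e 10 + c 10*e 3) * h.r_2_3_10 +
    (c 7*e 10 + c 10*e 7) * h.r_2_7_10 +
    (c 4*e 5 + c 5*e 4) * h.r_3_4_5 +
    (c 4*e 8 + c 8*e 4) * h.r_3_4_8 +
    (c 5*e 8 + c 8*e 5) * h.r_3_5_8

end Pool.H7.HilbEx
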