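import Pool.Agent.H7.HilbEx2

set_option autoImplicit false

namespace Pool.H7.HilbEx

/-- the Boolean constraints on the support of a square-zero vector -/
def cond (b0 b1 b2 b3 b4 b5 b6 b7 b8 b9 b10 b11 : Bool) : Bool :=
  !(b0 && b8) &&
  !(b0 && b9) &&
  !(b1 && b8) &&
  !(b1 && b10) &&
  !(b2 && b8) &&
  !(b2 && b11) &&
  !(b3 && b9) &&
  !(b4 && b10) &&
  !(b5 && b11) &&
  !(b6 && b9) &&
  !(b6 && b10) &&
  !(b6 && b11) &&
  !(b8 && b9) &&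
  !(b8 && b10) &&
  !(b8 && b11) &&
  !(b0 && b1 && !b2) &&
  !(b0 && !b1 && b2) &&
  !(!b0 && b1 && b2) &&
  !(b0 && b3 && !b6) &&
  !(b0 && !b3 && b6) &&
  !(!b0 && b3 && b6) &&
  !(b0 && b5 && !b10) &&
  !(b0 && !b5 && b10) &&
  !(!b0 && b5 && b10) &&
  !(b1 && b3 && !b11) &&
  !(b1 && !b3 && b11) &&
  !(!b1 && b3 && b11) &&
  !(b1 && b4 && !b6) &&
  !(b1 && !b4 && b6) &&
  !(!b1 && b4 && b6) &&
  !(b2 && b4 && !b9) &&
  !(b2 && !b4 && b9) &&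
  !(!b2 && b4 && b9) &&
  !(b2 && b5 && !b6) &&
  !(b2 && !b5 && b6) &&
  !(!b2 && b5 && b6) &&
  !(b6 && b7 && !b8) &&
  !(b6 && !b7 && b8) &&
  !(!b6 && b7 && b8) &&
  !(b9 && b10 && !b11) &&
  !(b9 && !b10 && b11) &&
  !(!b9 && b10 && b11) &&
  !(b0 && b4 && !b7 && !b11) &&
  !(b0 && b7 && !b4 && !b11) &&
  !(b0 && b11 && !b4 && !b7) &&
  !(b4 && b7 && !b0 && !b11) &&
  !(b4 && b11 && !b0 && !b7) &&
  !(b7 && b11 && !b0 && !b4) &&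
  !(b1 && b5 && !b7 && !b9) &&
  !(b1 && b7 && !b5 && !b9) &&
  !(b1 && b9 && !b5 && !b7) &&
  !(b5 && b7 && !b1 && !b9) &&
  !(b5 && b9 && !b1 && !b7) &&
  !(b7 && b9 && !b1 && !b5) &&
  !(b2 && b3 && !b7 && !b10) &&
  !(b2 && b7 && !b3 && !b10) &&
  !(b2 && b10 && !b3 && !b7) &&
  !(b3 && b7 && !b2 && !b10) &&
  !(b3 && b10 && !b2 && !b7) &&
  !(b7 && b10 && !b2 && !b3) &&
  !(b3 && b4 && !b5 && !b8) &&
  !(b3 && b5 && !b4 && !b8) &&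
  !(b3 && b8 && !b4 && !b5) &&
  !(b4 && b5 && !b3 && !b8) &&
  !(b4 && b8 && !b3 && !b5) &&
  !(b5 && b8 && !b3 && !b4)

/-- the possible supports -/
def concl (b0 b1 b2 b3 b4 b5 b6 b7 b8 b9 b10 b11 : Bool) : Bool :=
  !(b1 || b2 || b3 || b4 || b5 || b6 || b7 || b8 || b9 || b10 || b11) ||
  !(b0 || b2 || b3 || b4 || b5 || b6 || b7 || b8 || b9 || b10 || b11) ||
  !(b0 || b1 || b3 || b4 || b5 || b6 || b7 || b8 || b9 || b10 || b11) ||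
  !(b0 || b1 || b2 || b4 || b5 || b6 || b7 || b8 || b9 || b10 || b11) ||
  !(b0 || b1 || b2 || b3 || b5 || b6 || b7 || b8 || b9 || b10 || b11) ||
  !(b0 || b1 || b2 || b3 || b4 || b6 || b7 || b8 || b9 || b10 || b11) ||
  !(b0 || b1 || b2 || b3 || b4 || b5 || b7 || b8 || b9 || b10 || b11) ||
  !(b0 || b1 || b2 || b3 || b4 || b5 || b6 || b8 || b9 || b10 || b11) ||
  !(b0 || b1 || b2 || b3 || b4 || b5 || b6 || b7 || b9 || b10 || b11) ||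
  !(b0 || b1 || b2 || b3 || b4 || b5 || b6 || b7 || b8 || b10 || b11) ||
  !(b0 || b1 || b2 || b3 || b4 || b5 || b6 || b7 || b8 || b9 || b11) ||
  !(b0 || b1 || b2 || b3 || b4 || b5 || b6 || b7 || b8 || b9 || b10) ||
  (!(b3 || b4 || b5 || b6 || b7 || b8 || b9 || b10 || b11) && b0 && b1 && b2) ||
  (!(b1 || b2 || b4 || b5 || b7 || b8 || b9 || b10 || b11) && b0 && b3 && b6) ||
  (!(b1 || b2 || b3 || b4 || b6 || b7 || b8 || b9 || b11) && b0 && b5 && b10) ||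
  (!(b0 || b2 || b4 || b5 || b6 || b7 || b8 || b9 || b10) && b1 && b3 && b11) ||
  (!(b0 || b2 || b3 || b5 || b7 || b8 || b9 || b10 || b11) && b1 && b4 && b6) ||
  (!(b0 || b1 || b3 || b5 || b6 || b7 || b8 || b10 || b11) && b2 && b4 && b9) ||
  (!(b0 || b1 || b3 || b4 || b7 || b8 || b9 || b10 || b11) && b2 && b5 && b6) ||
  (!(b0 || b1 || b2 || b3 || b4 || b5 || b9 || b10 || b11) && b6 && b7 && b8) ||
  (!(b0 || b1 || b2 || b3 || b4 || b5 || b6 || b7 || b8) && b9 && b10 && b11) ||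
  (!(b1 || b2 || b3 || b5 || b6 || b8 || b9 || b10) && ((b0 && b4 && b7) || (b0 && b4 && b11) || (b0 && b7 && b11) || (b4 && b7 && b11))) ||
  (!(b0 || b2 || b3 || b4 || b6 || b8 || b10 || b11) && ((b1 && b5 && b7) || (b1 && b5 && b9) || (b1 && b7 && b9) || (b5 && b7 && b9))) ||
  (!(b0 || b1 || b4 || b5 || b6 || b8 || b9 || b11) && ((b2 && b3 && b7) || (b2 && b3 && b10) || (b2 && b7 && b10) || (b3 && b7 && b10))) ||
  (!(b0 || b1 || b2 || b6 || b7 || b9 || b10 || b11) && ((b3 && b4 && b5) || (b3 && b4 && b8) || (b3 && b5 && b8) || (b4 && b5 && b8)))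

lemma cond_concl : ∀ b0 b1 b2 b3 b4 b5 b6 b7 b8 b9 b10 b11 : Bool,
    (!cond b0 b1 b2 b3 b4 b5 b6 b7 b8 b9 b10 b11 || concl b0 b1 b2 b3 b4 b5 b6 b7 b8 b9 b10 b11) = true := by
  decide +kernel

end Pool.H7.HilbEx
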