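import Pool.Agent.H7.HilbEx3

set_option autoImplicit false

namespace Pool.H7.HilbEx

variable {k : Type*} [Field k]

/-- the twenty-one isolated square-zero vectors: the twelve coordinate vectors, and one vector for
each line with exactly three points. -/
def Yv (w : k) : Fin 21 → Fin 12 → k :=
  ![![1, 0, 0, 0, 0, 0, 0, 0, 0, 0, 0, 0],
    ![0, 1, 0, 0, 0, 0, 0, 0, 0, 0, 0, 0],
    ![0, 0, 1, 0, 0, 0, 0, 0, 0, 0, 0, 0],
    ![0, 0, 0, 1, 0, 0, 0, 0, 0, 0, 0, 0],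
    ![0, 0, 0, 0, 1, 0, 0, 0, 0, 0, 0, 0],
    ![0, 0, 0, 0, 0, 1, 0, 0, 0, 0, 0, 0],
    ![0, 0, 0, 0, 0, 0, 1, 0, 0, 0, 0, 0],
    ![0, 0, 0, 0, 0, 0, 0, 1, 0, 0, 0, 0],
    ![0, 0, 0, 0, 0, 0, 0, 0, 1, 0, 0, 0],
    ![0, 0, 0, 0, 0, 0, 0, 0, 0, 1, 0, 0],
    ![0, 0, 0, 0, 0, 0, 0, 0, 0, 0, 1, 0],
    ![0, 0, 0, 0, 0, 0, 0, 0, 0, 0, 0, 1],
    ![1, 1, 1, 0, 0, 0, 0, 0, 0, 0, 0, 0],
    ![1, 0, 0, 1, 0, 0, 1, 0, 0, 0, 0, 0],
    ![1, 0, 0, 0, 0, -w ^ 2, 0, 0, 0, 0, -1, 0],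
    ![0, 1, 0, -w ^ 2, 0, 0, 0, 0, 0, 0, 0, -w ^ 2],
    ![0, 1, 0, 0, 1, 0, w ^ 2, 0, 0, 0, 0, 0],
    ![0, 0, 1, 0, -w ^ 2, 0, 0, 0, 0, -w, 0, 0],
    ![0, 0, 1, 0, 0, 1, w, 0, 0, 0, 0, 0],
    ![0, 0, 0, 0, 0, 0, 1, -w, -w, 0, 0, 0],
    ![0, 0, 0, 0, 0, 0, 0, 0, 0, 1, w ^ 2, w]]

lemma cl2 {b1 b2 : Bool} {P1 P2 : Prop} (h1 : b1 = true ↔ P1) (h2 : b2 = true ↔ P2)
    (h : P1 → P2 → False) : (!(b1 && b2)) = true := by cases b1 <;> cases b2 <;> simp_all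

lemma cl3a {b1 b2 b3 : Bool} {P1 P2 P3 : Prop} (h1 : b1 = true ↔ P1) (h2 : b2 = true ↔ P2)
    (h3 : b3 = true ↔ P3) (h : P1 → P2 → ¬ P3 → False) : (!(b1 && b2 && !b3)) = true := by
  cases b1 <;> cases b2 <;> cases b3 <;> simp_all

lemma cl3b {b1 b2 b3 : Bool} {P1 P2 P3 : Prop} (h1 : b1 = true ↔ P1) (h2 : b2 = true ↔ P2)
    (h3 : b3 = true ↔ P3) (h : P1 → ¬ P2 → P3 → False) : (!(b1 && !b2 && b3)) = true := by
  cases b1 <;> cases b2 <;> cases b3 <;> simp_all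

lemma cl3c {b1 b2 b3 : Bool} {P1 P2 P3 : Prop} (h1 : b1 = true ↔ P1) (h2 : b2 = true ↔ P2)
    (h3 : b3 = true ↔ P3) (h : ¬ P1 → P2 → P3 → False) : (!(!b1 && b2 && b3)) = true := by
  cases b1 <;> cases b2 <;> cases b3 <;> simp_all

lemma cl4 {b1 b2 b3 b4 : Bool} {P1 P2 P3 P4 : Prop} (h1 : b1 = true ↔ P1) (h2 : b2 = true ↔ P2)
    (h3 : b3 = true ↔ P3) (h4 : b4 = true ↔ P4) (h : P1 → P2 → ¬ P3 → ¬ P4 → False) :
    (!(b1 && b2 && !b3 && !b4)) = true := by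
  cases b1 <;> cases b2 <;> cases b3 <;> cases b4 <;> simp_all

lemma support_cases {w : k} (hw : w ^ 2 + w + 1 = 0) (h2 : (2 : k) ≠ 0) {c : Fin 12 → k}
    (h : Eqs w c c)
    (b0 b1 b2 b3 b4 b5 b6 b7 b8 b9 b10 b11 : Bool)
    (hb0 : b0 = true ↔ c 0 ≠ 0)
    (hb1 : b1 = true ↔ c 1 ≠ 0)
    (hb2 : b2 = true ↔ c 2 ≠ 0)
    (hb3 : b3 = true ↔ c 3 ≠ 0)
    (hb4 : b4 = true ↔ c 4 ≠ 0)
    (hb5 : b5 = true ↔ c 5 ≠ 0)
    (hb6 : b6 = true ↔ c 6 ≠ 0)
    (hb7 : b7 = true ↔ c 7 ≠ 0)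
    (hb8 : b8 = true ↔ c 8 ≠ 0)
    (hb9 : b9 = true ↔ c 9 ≠ 0)
    (hb10 : b10 = true ↔ c 10 ≠ 0)
    (hb11 : b11 = true ↔ c 11 ≠ 0) :
    concl b0 b1 b2 b3 b4 b5 b6 b7 b8 b9 b10 b11 = true := by
  have hwne : w ≠ 0 := by rintro rfl; norm_num at hw
  have k1 : (!(b0 && b8)) = true := cl2 hb0 hb8 (by
    have e1 := h.p_0_8
    clear h; intro h1 h3; grind)
  have k2 : (!(b0 && b9)) = true := cl2 hb0 hb9 (by
    have e1 := h.p_0_9
    clear h; intro h1 h3; grind)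
  have k3 : (!(b1 && b8)) = true := cl2 hb1 hb8 (by
    have e1 := h.p_1_8
    clear h; intro h1 h3; grind)
  have k4 : (!(b1 && b10)) = true := cl2 hb1 hb10 (by
    have e1 := h.p_1_10
    clear h; intro h1 h3; grind)
  have k5 : (!(b2 && b8)) = true := cl2 hb2 hb8 (by
    have e1 := h.p_2_8
    clear h; intro h1 h3; grind)
  have k6 : (!(b2 && b11)) = true := cl2 hb2 hb11 (by
    have e1 := h.p_2_11
    clear h; intro h1 h3; grind)
  have k7 : (!(b3 && b9)) = true := cl2 hb3 hb9 (by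
    have e1 := h.p_3_9
    clear h; intro h1 h3; grind)
  have k8 : (!(b4 && b10)) = true := cl2 hb4 hb10 (by
    have e1 := h.p_4_10
    clear h; intro h1 h3; grind)
  have k9 : (!(b5 && b11)) = true := cl2 hb5 hb11 (by
    have e1 := h.p_5_11
    clear h; intro h1 h3; grind)
  have k10 : (!(b6 && b9)) = true := cl2 hb6 hb9 (by
    have e1 := h.p_6_9
    clear h; intro h1 h3; grind)
  have k11 : (!(b6 && b10)) = true := cl2 hb6 hb10 (by
    have e1 := h.p_6_10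
    clear h; intro h1 h3; grind)
  have k12 : (!(b6 && b11)) = true := cl2 hb6 hb11 (by
    have e1 := h.p_6_11
    clear h; intro h1 h3; grind)
  have k13 : (!(b8 && b9)) = true := cl2 hb8 hb9 (by
    have e1 := h.p_8_9
    clear h; intro h1 h3; grind)
  have k14 : (!(b8 && b10)) = true := cl2 hb8 hb10 (by
    have e1 := h.p_8_10
    clear h; intro h1 h3; grind)
  have k15 : (!(b8 && b11)) = true := cl2 hb8 hb11 (by
    have e1 := h.p_8_11
    clear h; intro h1 h3; grind)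
  have k16 : (!(b0 && b1 && !b2)) = true := cl3a hb0 hb1 hb2 (by
    have e1 := h.p_0_1
    have e2 := h.p_0_2
    clear h; intro h1 h3 h4; grind)
  have k17 : (!(b0 && !b1 && b2)) = true := cl3b hb0 hb1 hb2 (by
    have e1 := h.p_0_1
    have e2 := h.p_0_2
    clear h; intro h1 h3 h4; grind)
  have k18 : (!(!b0 && b1 && b2)) = true := cl3c hb0 hb1 hb2 (by
    have e1 := h.p_0_1
    have e2 := h.p_0_2
    clear h; intro h1 h3 h4; grind)
  have k19 : (!(b0 && b3 && !b6)) = true := cl3a hb0 hb3 hb6 (by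
    have e1 := h.p_0_3
    have e2 := h.p_0_6
    clear h; intro h1 h3 h4; grind)
  have k20 : (!(b0 && !b3 && b6)) = true := cl3b hb0 hb3 hb6 (by
    have e1 := h.p_0_3
    have e2 := h.p_0_6
    clear h; intro h1 h3 h4; grind)
  have k21 : (!(!b0 && b3 && b6)) = true := cl3c hb0 hb3 hb6 (by
    have e1 := h.p_0_3
    have e2 := h.p_0_6
    clear h; intro h1 h3 h4; grind)
  have k22 : (!(b0 && b5 && !b10)) = true := cl3a hb0 hb5 hb10 (by
    have e1 := h.p_0_5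
    have e2 := h.p_0_10
    clear h; intro h1 h3 h4; grind)
  have k23 : (!(b0 && !b5 && b10)) = true := cl3b hb0 hb5 hb10 (by
    have e1 := h.p_0_5
    have e2 := h.p_0_10
    clear h; intro h1 h3 h4; grind)
  have k24 : (!(!b0 && b5 && b10)) = true := cl3c hb0 hb5 hb10 (by
    have e1 := h.p_0_5
    have e2 := h.p_0_10
    clear h; intro h1 h3 h4; grind)
  have k25 : (!(b1 && b3 && !b11)) = true := cl3a hb1 hb3 hb11 (by
    have e1 := h.p_1_3
    have e2 := h.p_1_11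
    clear h; intro h1 h3 h4; grind)
  have k26 : (!(b1 && !b3 && b11)) = true := cl3b hb1 hb3 hb11 (by
    have e1 := h.p_1_3
    have e2 := h.p_1_11
    clear h; intro h1 h3 h4; grind)
  have k27 : (!(!b1 && b3 && b11)) = true := cl3c hb1 hb3 hb11 (by
    have e1 := h.p_1_3
    have e2 := h.p_1_11
    clear h; intro h1 h3 h4; grind)
  have k28 : (!(b1 && b4 && !b6)) = true := cl3a hb1 hb4 hb6 (by
    have e1 := h.p_1_4
    have e2 := h.p_1_6
    clear h; intro h1 h3 h4; grind)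
  have k29 : (!(b1 && !b4 && b6)) = true := cl3b hb1 hb4 hb6 (by
    have e1 := h.p_1_4
    have e2 := h.p_1_6
    clear h; intro h1 h3 h4; grind)
  have k30 : (!(!b1 && b4 && b6)) = true := cl3c hb1 hb4 hb6 (by
    have e1 := h.p_1_4
    have e2 := h.p_1_6
    clear h; intro h1 h3 h4; grind)
  have k31 : (!(b2 && b4 && !b9)) = true := cl3a hb2 hb4 hb9 (by
    have e1 := h.p_2_4
    have e2 := h.p_2_9
    clear h; intro h1 h3 h4; grind)
  have k32 : (!(b2 && !b4 && b9)) = true := cl3b hb2 hb4 hb9 (by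
    have e1 := h.p_2_4
    have e2 := h.p_2_9
    clear h; intro h1 h3 h4; grind)
  have k33 : (!(!b2 && b4 && b9)) = true := cl3c hb2 hb4 hb9 (by
    have e1 := h.p_2_4
    have e2 := h.p_2_9
    clear h; intro h1 h3 h4; grind)
  have k34 : (!(b2 && b5 && !b6)) = true := cl3a hb2 hb5 hb6 (by
    have e1 := h.p_2_5
    have e2 := h.p_2_6
    clear h; intro h1 h3 h4; grind)
  have k35 : (!(b2 && !b5 && b6)) = true := cl3b hb2 hb5 hb6 (by
    have e1 := h.p_2_5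
    have e2 := h.p_2_6
    clear h; intro h1 h3 h4; grind)
  have k36 : (!(!b2 && b5 && b6)) = true := cl3c hb2 hb5 hb6 (by
    have e1 := h.p_2_5
    have e2 := h.p_2_6
    clear h; intro h1 h3 h4; grind)
  have k37 : (!(b6 && b7 && !b8)) = true := cl3a hb6 hb7 hb8 (by
    have e1 := h.p_6_7
    have e2 := h.p_6_8
    clear h; intro h1 h3 h4; grind)
  have k38 : (!(b6 && !b7 && b8)) = true := cl3b hb6 hb7 hb8 (by
    have e1 := h.p_6_7
    have e2 := h.p_6_8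
    clear h; intro h1 h3 h4; grind)
  have k39 : (!(!b6 && b7 && b8)) = true := cl3c hb6 hb7 hb8 (by
    have e1 := h.p_6_7
    have e2 := h.p_6_8
    clear h; intro h1 h3 h4; grind)
  have k40 : (!(b9 && b10 && !b11)) = true := cl3a hb9 hb10 hb11 (by
    have e1 := h.p_9_10
    have e2 := h.p_9_11
    clear h; intro h1 h3 h4; grind)
  have k41 : (!(b9 && !b10 && b11)) = true := cl3b hb9 hb10 hb11 (by
    have e1 := h.p_9_10
    have e2 := h.p_9_11
    clear h; intro h1 h3 h4; grind)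
  have k42 : (!(!b9 && b10 && b11)) = true := cl3c hb9 hb10 hb11 (by
    have e1 := h.p_9_10
    have e2 := h.p_9_11
    clear h; intro h1 h3 h4; grind)
  have k43 : (!(b0 && b4 && !b7 && !b11)) = true := cl4 hb0 hb4 hb7 hb11 (by
    have e1 := h.p_0_4
    have e2 := h.p_0_7
    have e3 := h.p_0_11
    clear h; intro h1 h3 h4 h5; grind)
  have k44 : (!(b0 && b7 && !b4 && !b11)) = true := cl4 hb0 hb7 hb4 hb11 (by
    have e1 := h.p_0_4
    have e2 := h.p_0_7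
    have e3 := h.p_0_11
    clear h; intro h1 h3 h4 h5; grind)
  have k45 : (!(b0 && b11 && !b4 && !b7)) = true := cl4 hb0 hb11 hb4 hb7 (by
    have e1 := h.p_0_4
    have e2 := h.p_0_7
    have e3 := h.p_0_11
    clear h; intro h1 h3 h4 h5; grind)
  have k46 : (!(b4 && b7 && !b0 && !b11)) = true := cl4 hb4 hb7 hb0 hb11 (by
    have e1 := h.p_0_4
    have e2 := h.p_0_7
    have e3 := h.p_0_11
    clear h; intro h1 h3 h4 h5; grind)
  have k47 : (!(b4 && b11 && !b0 && !b7)) = true := cl4 hb4 hb11 hb0 hb7 (by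
    have e1 := h.p_0_4
    have e2 := h.p_0_7
    have e3 := h.p_0_11
    clear h; intro h1 h3 h4 h5; grind)
  have k48 : (!(b7 && b11 && !b0 && !b4)) = true := cl4 hb7 hb11 hb0 hb4 (by
    have e1 := h.p_0_4
    have e2 := h.p_0_7
    have e3 := h.p_0_11
    clear h; intro h1 h3 h4 h5; grind)
  have k49 : (!(b1 && b5 && !b7 && !b9)) = true := cl4 hb1 hb5 hb7 hb9 (by
    have e1 := h.p_1_5
    have e2 := h.p_1_7
    have e3 := h.p_1_9
    clear h; intro h1 h3 h4 h5; grind)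
  have k50 : (!(b1 && b7 && !b5 && !b9)) = true := cl4 hb1 hb7 hb5 hb9 (by
    have e1 := h.p_1_5
    have e2 := h.p_1_7
    have e3 := h.p_1_9
    clear h; intro h1 h3 h4 h5; grind)
  have k51 : (!(b1 && b9 && !b5 && !b7)) = true := cl4 hb1 hb9 hb5 hb7 (by
    have e1 := h.p_1_5
    have e2 := h.p_1_7
    have e3 := h.p_1_9
    clear h; intro h1 h3 h4 h5; grind)
  have k52 : (!(b5 && b7 && !b1 && !b9)) = true := cl4 hb5 hb7 hb1 hb9 (by
    have e1 := h.p_1_5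
    have e2 := h.p_1_7
    have e3 := h.p_1_9
    clear h; intro h1 h3 h4 h5; grind)
  have k53 : (!(b5 && b9 && !b1 && !b7)) = true := cl4 hb5 hb9 hb1 hb7 (by
    have e1 := h.p_1_5
    have e2 := h.p_1_7
    have e3 := h.p_1_9
    clear h; intro h1 h3 h4 h5; grind)
  have k54 : (!(b7 && b9 && !b1 && !b5)) = true := cl4 hb7 hb9 hb1 hb5 (by
    have e1 := h.p_1_5
    have e2 := h.p_1_7
    have e3 := h.p_1_9
    clear h; intro h1 h3 h4 h5; grind)
  have k55 : (!(b2 && b3 && !b7 && !b10)) = true := cl4 hb2 hb3 hb7 hb10 (by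
    have e1 := h.p_2_3
    have e2 := h.p_2_7
    have e3 := h.p_2_10
    clear h; intro h1 h3 h4 h5; grind)
  have k56 : (!(b2 && b7 && !b3 && !b10)) = true := cl4 hb2 hb7 hb3 hb10 (by
    have e1 := h.p_2_3
    have e2 := h.p_2_7
    have e3 := h.p_2_10
    clear h; intro h1 h3 h4 h5; grind)
  have k57 : (!(b2 && b10 && !b3 && !b7)) = true := cl4 hb2 hb10 hb3 hb7 (by
    have e1 := h.p_2_3
    have e2 := h.p_2_7
    have e3 := h.p_2_10
    clear h; intro h1 h3 h4 h5; grind)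
  have k58 : (!(b3 && b7 && !b2 && !b10)) = true := cl4 hb3 hb7 hb2 hb10 (by
    have e1 := h.p_2_3
    have e2 := h.p_2_7
    have e3 := h.p_2_10
    clear h; intro h1 h3 h4 h5; grind)
  have k59 : (!(b3 && b10 && !b2 && !b7)) = true := cl4 hb3 hb10 hb2 hb7 (by
    have e1 := h.p_2_3
    have e2 := h.p_2_7
    have e3 := h.p_2_10
    clear h; intro h1 h3 h4 h5; grind)
  have k60 : (!(b7 && b10 && !b2 && !b3)) = true := cl4 hb7 hb10 hb2 hb3 (by
    have e1 := h.p_2_3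
    have e2 := h.p_2_7
    have e3 := h.p_2_10
    clear h; intro h1 h3 h4 h5; grind)
  have k61 : (!(b3 && b4 && !b5 && !b8)) = true := cl4 hb3 hb4 hb5 hb8 (by
    have e1 := h.p_3_4
    have e2 := h.p_3_5
    have e3 := h.p_3_8
    clear h; intro h1 h3 h4 h5; grind)
  have k62 : (!(b3 && b5 && !b4 && !b8)) = true := cl4 hb3 hb5 hb4 hb8 (by
    have e1 := h.p_3_4
    have e2 := h.p_3_5
    have e3 := h.p_3_8
    clear h; intro h1 h3 h4 h5; grind)
  have k63 : (!(b3 && b8 && !b4 && !b5)) = true := cl4 hb3 hb8 hb4 hb5 (by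
    have e1 := h.p_3_4
    have e2 := h.p_3_5
    have e3 := h.p_3_8
    clear h; intro h1 h3 h4 h5; grind)
  have k64 : (!(b4 && b5 && !b3 && !b8)) = true := cl4 hb4 hb5 hb3 hb8 (by
    have e1 := h.p_3_4
    have e2 := h.p_3_5
    have e3 := h.p_3_8
    clear h; intro h1 h3 h4 h5; grind)
  have k65 : (!(b4 && b8 && !b3 && !b5)) = true := cl4 hb4 hb8 hb3 hb5 (by
    have e1 := h.p_3_4
    have e2 := h.p_3_5
    have e3 := h.p_3_8
    clear h; intro h1 h3 h4 h5; grind)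
  have k66 : (!(b5 && b8 && !b3 && !b4)) = true := cl4 hb5 hb8 hb3 hb4 (by
    have e1 := h.p_3_4
    have e2 := h.p_3_5
    have e3 := h.p_3_8
    clear h; intro h1 h3 h4 h5; grind)
  have hc : cond b0 b1 b2 b3 b4 b5 b6 b7 b8 b9 b10 b11 = true := by
    simp only [cond, k1, k2, k3, k4, k5, k6, k7, k8, k9, k10, k11, k12, k13, k14, k15, k16, k17, k18, k19, k20, k21, k22, k23, k24, k25, k26, k27, k28, k29, k30, k31, k32, k33, k34, k35, k36, k37, k38, k39, k40, k41, k42, k43, k44, k45, k46, k47, k48, k49, k50, k51, k52, k53, k54, k55, k56, k57, k58, k59, k60, k61, k62, k63, k64, k65, k66, Bool.and_true]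
  have := cond_concl b0 b1 b2 b3 b4 b5 b6 b7 b8 b9 b10 b11
  rw [hc] at this
  simpa using this

end Pool.H7.HilbEx
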