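import Pool.Agent.H7.HilbEx4

set_option autoImplicit false

namespace Pool.H7.HilbEx

variable {k : Type*} [Field k]

lemma ker_0 {w : k} (hw : w ^ 2 + w + 1 = 0) {e : Fin 12 → k} (h : Eqs w (Yv w 0) e) :
    e = e 0 • Yv w 0 := by
  have hwne : w ≠ 0 := by rintro rfl; norm_num at hw
  have c0 : Yv w 0 0 = 1 := rfl
  have c1 : Yv w 0 1 = 0 := rfl
  have c2 : Yv w 0 2 = 0 := rfl
  have c3 : Yv w 0 3 = 0 := rfl
  have c4 : Yv w 0 4 = 0 := rfl
  have c5 : Yv w 0 5 = 0 := rfl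
  have c6 : Yv w 0 6 = 0 := rfl
  have c7 : Yv w 0 7 = 0 := rfl
  have c8 : Yv w 0 8 = 0 := rfl
  have c9 : Yv w 0 9 = 0 := rfl
  have c10 : Yv w 0 10 = 0 := rfl
  have c11 : Yv w 0 11 = 0 := rfl
  generalize Yv w 0 = c at *
  have e1 : e 1 = 0 := by
    have f1 := h.p_0_1
    have f2 := h.p_0_2
    clear h; simp only [c0, c1, c2] at f1 f2
    clear c0 c1 c2 c3 c4 c5 c6 c7 c8 c9 c10 c11; grind
  have e2 : e 2 = 0 := by
    have f1 := h.p_0_1
    have f2 := h.p_0_2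
    clear h; simp only [c0, c1, c2] at f1 f2
    clear c0 c1 c2 c3 c4 c5 c6 c7 c8 c9 c10 c11; grind
  have e3 : e 3 = 0 := by
    have f1 := h.p_0_3
    have f2 := h.p_0_6
    clear h; simp only [c0, c3, c6] at f1 f2
    clear c0 c1 c2 c3 c4 c5 c6 c7 c8 c9 c10 c11; grind
  have e4 : e 4 = 0 := by
    have f1 := h.p_0_4
    have f2 := h.p_0_7
    have f3 := h.p_0_11
    clear h; simp only [c0, c4, c7, c11] at f1 f2 f3
    clear c0 c1 c2 c3 c4 c5 c6 c7 c8 c9 c10 c11; grind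
  have e5 : e 5 = 0 := by
    have f1 := h.p_0_5
    have f2 := h.p_0_10
    clear h; simp only [c0, c5, c10] at f1 f2
    clear c0 c1 c2 c3 c4 c5 c6 c7 c8 c9 c10 c11; grind
  have e6 : e 6 = 0 := by
    have f1 := h.p_0_3
    have f2 := h.p_0_6
    clear h; simp only [c0, c3, c6] at f1 f2
    clear c0 c1 c2 c3 c4 c5 c6 c7 c8 c9 c10 c11; grind
  have e7 : e 7 = 0 := by
    have f1 := h.p_0_4
    have f2 := h.p_0_7
    have f3 := h.p_0_11
    clear h; simp only [c0, c4, c7, c11] at f1 f2 f3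
    clear c0 c1 c2 c3 c4 c5 c6 c7 c8 c9 c10 c11; grind
  have e8 : e 8 = 0 := by
    have f1 := h.p_0_8
    clear h; simp only [c0, c8] at f1
    clear c0 c1 c2 c3 c4 c5 c6 c7 c8 c9 c10 c11; grind
  have e9 : e 9 = 0 := by
    have f1 := h.p_0_9
    clear h; simp only [c0, c9] at f1
    clear c0 c1 c2 c3 c4 c5 c6 c7 c8 c9 c10 c11; grind
  have e10 : e 10 = 0 := by
    have f1 := h.p_0_5
    have f2 := h.p_0_10
    clear h; simp only [c0, c5, c10] at f1 f2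
    clear c0 c1 c2 c3 c4 c5 c6 c7 c8 c9 c10 c11; grind
  have e11 : e 11 = 0 := by
    have f1 := h.p_0_4
    have f2 := h.p_0_7
    have f3 := h.p_0_11
    clear h; simp only [c0, c4, c7, c11] at f1 f2 f3
    clear c0 c1 c2 c3 c4 c5 c6 c7 c8 c9 c10 c11; grind
  funext q
  fin_cases q
  · change e 0 = e 0 * c 0; rw [c0, mul_one]
  · change e 1 = e 0 * c 1; rw [c1, mul_zero, e1]
  · change e 2 = e 0 * c 2; rw [c2, mul_zero, e2]
  · change e 3 = e 0 * c 3; rw [c3, mul_zero, e3]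
  · change e 4 = e 0 * c 4; rw [c4, mul_zero, e4]
  · change e 5 = e 0 * c 5; rw [c5, mul_zero, e5]
  · change e 6 = e 0 * c 6; rw [c6, mul_zero, e6]
  · change e 7 = e 0 * c 7; rw [c7, mul_zero, e7]
  · change e 8 = e 0 * c 8; rw [c8, mul_zero, e8]
  · change e 9 = e 0 * c 9; rw [c9, mul_zero, e9]
  · change e 10 = e 0 * c 10; rw [c10, mul_zero, e10]
  · change e 11 = e 0 * c 11; rw [c11, mul_zero, e11]

lemma ker_1 {w : k} (hw : w ^ 2 + w + 1 = 0) {e : Fin 12 → k} (h : Eqs w (Yv w 1) e) :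
    e = e 1 • Yv w 1 := by
  have hwne : w ≠ 0 := by rintro rfl; norm_num at hw
  have c0 : Yv w 1 0 = 0 := rfl
  have c1 : Yv w 1 1 = 1 := rfl
  have c2 : Yv w 1 2 = 0 := rfl
  have c3 : Yv w 1 3 = 0 := rfl
  have c4 : Yv w 1 4 = 0 := rfl
  have c5 : Yv w 1 5 = 0 := rfl
  have c6 : Yv w 1 6 = 0 := rfl
  have c7 : Yv w 1 7 = 0 := rfl
  have c8 : Yv w 1 8 = 0 := rfl
  have c9 : Yv w 1 9 = 0 := rfl
  have c10 : Yv w 1 10 = 0 := rfl
  have c11 : Yv w 1 11 = 0 := rfl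
  generalize Yv w 1 = c at *
  have e0 : e 0 = 0 := by
    have f1 := h.p_0_1
    have f2 := h.p_0_2
    clear h; simp only [c0, c1, c2] at f1 f2
    clear c0 c1 c2 c3 c4 c5 c6 c7 c8 c9 c10 c11; grind
  have e2 : e 2 = 0 := by
    have f1 := h.p_0_1
    have f2 := h.p_0_2
    clear h; simp only [c0, c1, c2] at f1 f2
    clear c0 c1 c2 c3 c4 c5 c6 c7 c8 c9 c10 c11; grind
  have e3 : e 3 = 0 := by
    have f1 := h.p_1_3
    have f2 := h.p_1_11
    clear h; simp only [c1, c3, c11] at f1 f2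
    clear c0 c1 c2 c3 c4 c5 c6 c7 c8 c9 c10 c11; grind
  have e4 : e 4 = 0 := by
    have f1 := h.p_1_4
    have f2 := h.p_1_6
    clear h; simp only [c1, c4, c6] at f1 f2
    clear c0 c1 c2 c3 c4 c5 c6 c7 c8 c9 c10 c11; grind
  have e5 : e 5 = 0 := by
    have f1 := h.p_1_5
    have f2 := h.p_1_7
    have f3 := h.p_1_9
    clear h; simp only [c1, c5, c7, c9] at f1 f2 f3
    clear c0 c1 c2 c3 c4 c5 c6 c7 c8 c9 c10 c11; grind
  have e6 : e 6 = 0 := by
    have f1 := h.p_1_4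
    have f2 := h.p_1_6
    clear h; simp only [c1, c4, c6] at f1 f2
    clear c0 c1 c2 c3 c4 c5 c6 c7 c8 c9 c10 c11; grind
  have e7 : e 7 = 0 := by
    have f1 := h.p_1_5
    have f2 := h.p_1_7
    have f3 := h.p_1_9
    clear h; simp only [c1, c5, c7, c9] at f1 f2 f3
    clear c0 c1 c2 c3 c4 c5 c6 c7 c8 c9 c10 c11; grind
  have e8 : e 8 = 0 := by
    have f1 := h.p_1_8
    clear h; simp only [c1, c8] at f1
    clear c0 c1 c2 c3 c4 c5 c6 c7 c8 c9 c10 c11; grind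
  have e9 : e 9 = 0 := by
    have f1 := h.p_1_5
    have f2 := h.p_1_7
    have f3 := h.p_1_9
    clear h; simp only [c1, c5, c7, c9] at f1 f2 f3
    clear c0 c1 c2 c3 c4 c5 c6 c7 c8 c9 c10 c11; grind
  have e10 : e 10 = 0 := by
    have f1 := h.p_1_10
    clear h; simp only [c1, c10] at f1
    clear c0 c1 c2 c3 c4 c5 c6 c7 c8 c9 c10 c11; grind
  have e11 : e 11 = 0 := by
    have f1 := h.p_1_3
    have f2 := h.p_1_11
    clear h; simp only [c1, c3, c11] at f1 f2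
    clear c0 c1 c2 c3 c4 c5 c6 c7 c8 c9 c10 c11; grind
  funext q
  fin_cases q
  · change e 0 = e 1 * c 0; rw [c0, mul_zero, e0]
  · change e 1 = e 1 * c 1; rw [c1, mul_one]
  · change e 2 = e 1 * c 2; rw [c2, mul_zero, e2]
  · change e 3 = e 1 * c 3; rw [c3, mul_zero, e3]
  · change e 4 = e 1 * c 4; rw [c4, mul_zero, e4]
  · change e 5 = e 1 * c 5; rw [c5, mul_zero, e5]
  · change e 6 = e 1 * c 6; rw [c6, mul_zero, e6]
  · change e 7 = e 1 * c 7; rw [c7, mul_zero, e7]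
  · change e 8 = e 1 * c 8; rw [c8, mul_zero, e8]
  · change e 9 = e 1 * c 9; rw [c9, mul_zero, e9]
  · change e 10 = e 1 * c 10; rw [c10, mul_zero, e10]
  · change e 11 = e 1 * c 11; rw [c11, mul_zero, e11]

lemma ker_2 {w : k} (hw : w ^ 2 + w + 1 = 0) {e : Fin 12 → k} (h : Eqs w (Yv w 2) e) :
    e = e 2 • Yv w 2 := by
  have hwne : w ≠ 0 := by rintro rfl; norm_num at hw
  have c0 : Yv w 2 0 = 0 := rfl
  have c1 : Yv w 2 1 = 0 := rfl
  have c2 : Yv w 2 2 = 1 := rfl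
  have c3 : Yv w 2 3 = 0 := rfl
  have c4 : Yv w 2 4 = 0 := rfl
  have c5 : Yv w 2 5 = 0 := rfl
  have c6 : Yv w 2 6 = 0 := rfl
  have c7 : Yv w 2 7 = 0 := rfl
  have c8 : Yv w 2 8 = 0 := rfl
  have c9 : Yv w 2 9 = 0 := rfl
  have c10 : Yv w 2 10 = 0 := rfl
  have c11 : Yv w 2 11 = 0 := rfl
  generalize Yv w 2 = c at *
  have e0 : e 0 = 0 := by
    have f1 := h.p_0_1
    have f2 := h.p_0_2
    clear h; simp only [c0, c1, c2] at f1 f2
    clear c0 c1 c2 c3 c4 c5 c6 c7 c8 c9 c10 c11; grind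
  have e1 : e 1 = 0 := by
    have f1 := h.p_0_1
    have f2 := h.p_0_2
    clear h; simp only [c0, c1, c2] at f1 f2
    clear c0 c1 c2 c3 c4 c5 c6 c7 c8 c9 c10 c11; grind
  have e3 : e 3 = 0 := by
    have f1 := h.p_2_3
    have f2 := h.p_2_7
    have f3 := h.p_2_10
    clear h; simp only [c2, c3, c7, c10] at f1 f2 f3
    clear c0 c1 c2 c3 c4 c5 c6 c7 c8 c9 c10 c11; grind
  have e4 : e 4 = 0 := by
    have f1 := h.p_2_4
    have f2 := h.p_2_9
    clear h; simp only [c2, c4, c9] at f1 f2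
    clear c0 c1 c2 c3 c4 c5 c6 c7 c8 c9 c10 c11; grind
  have e5 : e 5 = 0 := by
    have f1 := h.p_2_5
    have f2 := h.p_2_6
    clear h; simp only [c2, c5, c6] at f1 f2
    clear c0 c1 c2 c3 c4 c5 c6 c7 c8 c9 c10 c11; grind
  have e6 : e 6 = 0 := by
    have f1 := h.p_2_5
    have f2 := h.p_2_6
    clear h; simp only [c2, c5, c6] at f1 f2
    clear c0 c1 c2 c3 c4 c5 c6 c7 c8 c9 c10 c11; grind
  have e7 : e 7 = 0 := by
    have f1 := h.p_2_3
    have f2 := h.p_2_7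
    have f3 := h.p_2_10
    clear h; simp only [c2, c3, c7, c10] at f1 f2 f3
    clear c0 c1 c2 c3 c4 c5 c6 c7 c8 c9 c10 c11; grind
  have e8 : e 8 = 0 := by
    have f1 := h.p_2_8
    clear h; simp only [c2, c8] at f1
    clear c0 c1 c2 c3 c4 c5 c6 c7 c8 c9 c10 c11; grind
  have e9 : e 9 = 0 := by
    have f1 := h.p_2_4
    have f2 := h.p_2_9
    clear h; simp only [c2, c4, c9] at f1 f2
    clear c0 c1 c2 c3 c4 c5 c6 c7 c8 c9 c10 c11; grind
  have e10 : e 10 = 0 := by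
    have f1 := h.p_2_3
    have f2 := h.p_2_7
    have f3 := h.p_2_10
    clear h; simp only [c2, c3, c7, c10] at f1 f2 f3
    clear c0 c1 c2 c3 c4 c5 c6 c7 c8 c9 c10 c11; grind
  have e11 : e 11 = 0 := by
    have f1 := h.p_2_11
    clear h; simp only [c2, c11] at f1
    clear c0 c1 c2 c3 c4 c5 c6 c7 c8 c9 c10 c11; grind
  funext q
  fin_cases q
  · change e 0 = e 2 * c 0; rw [c0, mul_zero, e0]
  · change e 1 = e 2 * c 1; rw [c1, mul_zero, e1]
  · change e 2 = e 2 * c 2; rw [c2, mul_one]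
  · change e 3 = e 2 * c 3; rw [c3, mul_zero, e3]
  · change e 4 = e 2 * c 4; rw [c4, mul_zero, e4]
  · change e 5 = e 2 * c 5; rw [c5, mul_zero, e5]
  · change e 6 = e 2 * c 6; rw [c6, mul_zero, e6]
  · change e 7 = e 2 * c 7; rw [c7, mul_zero, e7]
  · change e 8 = e 2 * c 8; rw [c8, mul_zero, e8]
  · change e 9 = e 2 * c 9; rw [c9, mul_zero, e9]
  · change e 10 = e 2 * c 10; rw [c10, mul_zero, e10]
  · change e 11 = e 2 * c 11; rw [c11, mul_zero, e11]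

lemma ker_3 {w : k} (hw : w ^ 2 + w + 1 = 0) {e : Fin 12 → k} (h : Eqs w (Yv w 3) e) :
    e = e 3 • Yv w 3 := by
  have hwne : w ≠ 0 := by rintro rfl; norm_num at hw
  have c0 : Yv w 3 0 = 0 := rfl
  have c1 : Yv w 3 1 = 0 := rfl
  have c2 : Yv w 3 2 = 0 := rfl
  have c3 : Yv w 3 3 = 1 := rfl
  have c4 : Yv w 3 4 = 0 := rfl
  have c5 : Yv w 3 5 = 0 := rfl
  have c6 : Yv w 3 6 = 0 := rfl
  have c7 : Yv w 3 7 = 0 := rfl
  have c8 : Yv w 3 8 = 0 := rfl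
  have c9 : Yv w 3 9 = 0 := rfl
  have c10 : Yv w 3 10 = 0 := rfl
  have c11 : Yv w 3 11 = 0 := rfl
  generalize Yv w 3 = c at *
  have e0 : e 0 = 0 := by
    have f1 := h.p_0_3
    have f2 := h.p_0_6
    clear h; simp only [c0, c3, c6] at f1 f2
    clear c0 c1 c2 c3 c4 c5 c6 c7 c8 c9 c10 c11; grind
  have e1 : e 1 = 0 := by
    have f1 := h.p_1_3
    have f2 := h.p_1_11
    clear h; simp only [c1, c3, c11] at f1 f2
    clear c0 c1 c2 c3 c4 c5 c6 c7 c8 c9 c10 c11; grind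
  have e2 : e 2 = 0 := by
    have f1 := h.p_2_3
    have f2 := h.p_2_7
    have f3 := h.p_2_10
    clear h; simp only [c2, c3, c7, c10] at f1 f2 f3
    clear c0 c1 c2 c3 c4 c5 c6 c7 c8 c9 c10 c11; grind
  have e4 : e 4 = 0 := by
    have f1 := h.p_3_4
    have f2 := h.p_3_5
    have f3 := h.p_3_8
    clear h; simp only [c3, c4, c5, c8] at f1 f2 f3
    clear c0 c1 c2 c3 c4 c5 c6 c7 c8 c9 c10 c11; grind
  have e5 : e 5 = 0 := by
    have f1 := h.p_3_4
    have f2 := h.p_3_5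
    have f3 := h.p_3_8
    clear h; simp only [c3, c4, c5, c8] at f1 f2 f3
    clear c0 c1 c2 c3 c4 c5 c6 c7 c8 c9 c10 c11; grind
  have e6 : e 6 = 0 := by
    have f1 := h.p_0_3
    have f2 := h.p_0_6
    clear h; simp only [c0, c3, c6] at f1 f2
    clear c0 c1 c2 c3 c4 c5 c6 c7 c8 c9 c10 c11; grind
  have e7 : e 7 = 0 := by
    have f1 := h.p_2_3
    have f2 := h.p_2_7
    have f3 := h.p_2_10
    clear h; simp only [c2, c3, c7, c10] at f1 f2 f3
    clear c0 c1 c2 c3 c4 c5 c6 c7 c8 c9 c10 c11; grind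
  have e8 : e 8 = 0 := by
    have f1 := h.p_3_4
    have f2 := h.p_3_5
    have f3 := h.p_3_8
    clear h; simp only [c3, c4, c5, c8] at f1 f2 f3
    clear c0 c1 c2 c3 c4 c5 c6 c7 c8 c9 c10 c11; grind
  have e9 : e 9 = 0 := by
    have f1 := h.p_3_9
    clear h; simp only [c3, c9] at f1
    clear c0 c1 c2 c3 c4 c5 c6 c7 c8 c9 c10 c11; grind
  have e10 : e 10 = 0 := by
    have f1 := h.p_2_3
    have f2 := h.p_2_7
    have f3 := h.p_2_10
    clear h; simp only [c2, c3, c7, c10] at f1 f2 f3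
    clear c0 c1 c2 c3 c4 c5 c6 c7 c8 c9 c10 c11; grind
  have e11 : e 11 = 0 := by
    have f1 := h.p_1_3
    have f2 := h.p_1_11
    clear h; simp only [c1, c3, c11] at f1 f2
    clear c0 c1 c2 c3 c4 c5 c6 c7 c8 c9 c10 c11; grind
  funext q
  fin_cases q
  · change e 0 = e 3 * c 0; rw [c0, mul_zero, e0]
  · change e 1 = e 3 * c 1; rw [c1, mul_zero, e1]
  · change e 2 = e 3 * c 2; rw [c2, mul_zero, e2]
  · change e 3 = e 3 * c 3; rw [c3, mul_one]
  · change e 4 = e 3 * c 4; rw [c4, mul_zero, e4]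
  · change e 5 = e 3 * c 5; rw [c5, mul_zero, e5]
  · change e 6 = e 3 * c 6; rw [c6, mul_zero, e6]
  · change e 7 = e 3 * c 7; rw [c7, mul_zero, e7]
  · change e 8 = e 3 * c 8; rw [c8, mul_zero, e8]
  · change e 9 = e 3 * c 9; rw [c9, mul_zero, e9]
  · change e 10 = e 3 * c 10; rw [c10, mul_zero, e10]
  · change e 11 = e 3 * c 11; rw [c11, mul_zero, e11]

lemma ker_4 {w : k} (hw : w ^ 2 + w + 1 = 0) {e : Fin 12 → k} (h : Eqs w (Yv w 4) e) :
    e = e 4 • Yv w 4 := by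
  have hwne : w ≠ 0 := by rintro rfl; norm_num at hw
  have c0 : Yv w 4 0 = 0 := rfl
  have c1 : Yv w 4 1 = 0 := rfl
  have c2 : Yv w 4 2 = 0 := rfl
  have c3 : Yv w 4 3 = 0 := rfl
  have c4 : Yv w 4 4 = 1 := rfl
  have c5 : Yv w 4 5 = 0 := rfl
  have c6 : Yv w 4 6 = 0 := rfl
  have c7 : Yv w 4 7 = 0 := rfl
  have c8 : Yv w 4 8 = 0 := rfl
  have c9 : Yv w 4 9 = 0 := rfl
  have c10 : Yv w 4 10 = 0 := rfl
  have c11 : Yv w 4 11 = 0 := rfl
  generalize Yv w 4 = c at *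
  have e0 : e 0 = 0 := by
    have f1 := h.p_0_4
    have f2 := h.p_0_7
    have f3 := h.p_0_11
    clear h; simp only [c0, c4, c7, c11] at f1 f2 f3
    clear c0 c1 c2 c3 c4 c5 c6 c7 c8 c9 c10 c11; grind
  have e1 : e 1 = 0 := by
    have f1 := h.p_1_4
    have f2 := h.p_1_6
    clear h; simp only [c1, c4, c6] at f1 f2
    clear c0 c1 c2 c3 c4 c5 c6 c7 c8 c9 c10 c11; grind
  have e2 : e 2 = 0 := by
    have f1 := h.p_2_4
    have f2 := h.p_2_9
    clear h; simp only [c2, c4, c9] at f1 f2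
    clear c0 c1 c2 c3 c4 c5 c6 c7 c8 c9 c10 c11; grind
  have e3 : e 3 = 0 := by
    have f1 := h.p_3_4
    have f2 := h.p_3_5
    have f3 := h.p_3_8
    clear h; simp only [c3, c4, c5, c8] at f1 f2 f3
    clear c0 c1 c2 c3 c4 c5 c6 c7 c8 c9 c10 c11; grind
  have e5 : e 5 = 0 := by
    have f1 := h.p_3_4
    have f2 := h.p_3_5
    have f3 := h.p_3_8
    clear h; simp only [c3, c4, c5, c8] at f1 f2 f3
    clear c0 c1 c2 c3 c4 c5 c6 c7 c8 c9 c10 c11; grind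
  have e6 : e 6 = 0 := by
    have f1 := h.p_1_4
    have f2 := h.p_1_6
    clear h; simp only [c1, c4, c6] at f1 f2
    clear c0 c1 c2 c3 c4 c5 c6 c7 c8 c9 c10 c11; grind
  have e7 : e 7 = 0 := by
    have f1 := h.p_0_4
    have f2 := h.p_0_7
    have f3 := h.p_0_11
    clear h; simp only [c0, c4, c7, c11] at f1 f2 f3
    clear c0 c1 c2 c3 c4 c5 c6 c7 c8 c9 c10 c11; grind
  have e8 : e 8 = 0 := by
    have f1 := h.p_3_4
    have f2 := h.p_3_5
    have f3 := h.p_3_8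
    clear h; simp only [c3, c4, c5, c8] at f1 f2 f3
    clear c0 c1 c2 c3 c4 c5 c6 c7 c8 c9 c10 c11; grind
  have e9 : e 9 = 0 := by
    have f1 := h.p_2_4
    have f2 := h.p_2_9
    clear h; simp only [c2, c4, c9] at f1 f2
    clear c0 c1 c2 c3 c4 c5 c6 c7 c8 c9 c10 c11; grind
  have e10 : e 10 = 0 := by
    have f1 := h.p_4_10
    clear h; simp only [c4, c10] at f1
    clear c0 c1 c2 c3 c4 c5 c6 c7 c8 c9 c10 c11; grind
  have e11 : e 11 = 0 := by
    have f1 := h.p_0_4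
    have f2 := h.p_0_7
    have f3 := h.p_0_11
    clear h; simp only [c0, c4, c7, c11] at f1 f2 f3
    clear c0 c1 c2 c3 c4 c5 c6 c7 c8 c9 c10 c11; grind
  funext q
  fin_cases q
  · change e 0 = e 4 * c 0; rw [c0, mul_zero, e0]
  · change e 1 = e 4 * c 1; rw [c1, mul_zero, e1]
  · change e 2 = e 4 * c 2; rw [c2, mul_zero, e2]
  · change e 3 = e 4 * c 3; rw [c3, mul_zero, e3]
  · change e 4 = e 4 * c 4; rw [c4, mul_one]
  · change e 5 = e 4 * c 5; rw [c5, mul_zero, e5]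
  · change e 6 = e 4 * c 6; rw [c6, mul_zero, e6]
  · change e 7 = e 4 * c 7; rw [c7, mul_zero, e7]
  · change e 8 = e 4 * c 8; rw [c8, mul_zero, e8]
  · change e 9 = e 4 * c 9; rw [c9, mul_zero, e9]
  · change e 10 = e 4 * c 10; rw [c10, mul_zero, e10]
  · change e 11 = e 4 * c 11; rw [c11, mul_zero, e11]

lemma ker_5 {w : k} (hw : w ^ 2 + w + 1 = 0) {e : Fin 12 → k} (h : Eqs w (Yv w 5) e) :
    e = e 5 • Yv w 5 := by
  have hwne : w ≠ 0 := by rintro rfl; norm_num at hw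
  have c0 : Yv w 5 0 = 0 := rfl
  have c1 : Yv w 5 1 = 0 := rfl
  have c2 : Yv w 5 2 = 0 := rfl
  have c3 : Yv w 5 3 = 0 := rfl
  have c4 : Yv w 5 4 = 0 := rfl
  have c5 : Yv w 5 5 = 1 := rfl
  have c6 : Yv w 5 6 = 0 := rfl
  have c7 : Yv w 5 7 = 0 := rfl
  have c8 : Yv w 5 8 = 0 := rfl
  have c9 : Yv w 5 9 = 0 := rfl
  have c10 : Yv w 5 10 = 0 := rfl
  have c11 : Yv w 5 11 = 0 := rfl
  generalize Yv w 5 = c at *
  have e0 : e 0 = 0 := by
    have f1 := h.p_0_5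
    have f2 := h.p_0_10
    clear h; simp only [c0, c5, c10] at f1 f2
    clear c0 c1 c2 c3 c4 c5 c6 c7 c8 c9 c10 c11; grind
  have e1 : e 1 = 0 := by
    have f1 := h.p_1_5
    have f2 := h.p_1_7
    have f3 := h.p_1_9
    clear h; simp only [c1, c5, c7, c9] at f1 f2 f3
    clear c0 c1 c2 c3 c4 c5 c6 c7 c8 c9 c10 c11; grind
  have e2 : e 2 = 0 := by
    have f1 := h.p_2_5
    have f2 := h.p_2_6
    clear h; simp only [c2, c5, c6] at f1 f2
    clear c0 c1 c2 c3 c4 c5 c6 c7 c8 c9 c10 c11; grind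
  have e3 : e 3 = 0 := by
    have f1 := h.p_3_4
    have f2 := h.p_3_5
    have f3 := h.p_3_8
    clear h; simp only [c3, c4, c5, c8] at f1 f2 f3
    clear c0 c1 c2 c3 c4 c5 c6 c7 c8 c9 c10 c11; grind
  have e4 : e 4 = 0 := by
    have f1 := h.p_3_4
    have f2 := h.p_3_5
    have f3 := h.p_3_8
    clear h; simp only [c3, c4, c5, c8] at f1 f2 f3
    clear c0 c1 c2 c3 c4 c5 c6 c7 c8 c9 c10 c11; grind
  have e6 : e 6 = 0 := by
    have f1 := h.p_2_5
    have f2 := h.p_2_6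
    clear h; simp only [c2, c5, c6] at f1 f2
    clear c0 c1 c2 c3 c4 c5 c6 c7 c8 c9 c10 c11; grind
  have e7 : e 7 = 0 := by
    have f1 := h.p_1_5
    have f2 := h.p_1_7
    have f3 := h.p_1_9
    clear h; simp only [c1, c5, c7, c9] at f1 f2 f3
    clear c0 c1 c2 c3 c4 c5 c6 c7 c8 c9 c10 c11; grind
  have e8 : e 8 = 0 := by
    have f1 := h.p_3_4
    have f2 := h.p_3_5
    have f3 := h.p_3_8
    clear h; simp only [c3, c4, c5, c8] at f1 f2 f3
    clear c0 c1 c2 c3 c4 c5 c6 c7 c8 c9 c10 c11; grind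
  have e9 : e 9 = 0 := by
    have f1 := h.p_1_5
    have f2 := h.p_1_7
    have f3 := h.p_1_9
    clear h; simp only [c1, c5, c7, c9] at f1 f2 f3
    clear c0 c1 c2 c3 c4 c5 c6 c7 c8 c9 c10 c11; grind
  have e10 : e 10 = 0 := by
    have f1 := h.p_0_5
    have f2 := h.p_0_10
    clear h; simp only [c0, c5, c10] at f1 f2
    clear c0 c1 c2 c3 c4 c5 c6 c7 c8 c9 c10 c11; grind
  have e11 : e 11 = 0 := by
    have f1 := h.p_5_11
    clear h; simp only [c5, c11] at f1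
    clear c0 c1 c2 c3 c4 c5 c6 c7 c8 c9 c10 c11; grind
  funext q
  fin_cases q
  · change e 0 = e 5 * c 0; rw [c0, mul_zero, e0]
  · change e 1 = e 5 * c 1; rw [c1, mul_zero, e1]
  · change e 2 = e 5 * c 2; rw [c2, mul_zero, e2]
  · change e 3 = e 5 * c 3; rw [c3, mul_zero, e3]
  · change e 4 = e 5 * c 4; rw [c4, mul_zero, e4]
  · change e 5 = e 5 * c 5; rw [c5, mul_one]
  · change e 6 = e 5 * c 6; rw [c6, mul_zero, e6]
  · change e 7 = e 5 * c 7; rw [c7, mul_zero, e7]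
  · change e 8 = e 5 * c 8; rw [c8, mul_zero, e8]
  · change e 9 = e 5 * c 9; rw [c9, mul_zero, e9]
  · change e 10 = e 5 * c 10; rw [c10, mul_zero, e10]
  · change e 11 = e 5 * c 11; rw [c11, mul_zero, e11]

lemma ker_6 {w : k} (hw : w ^ 2 + w + 1 = 0) {e : Fin 12 → k} (h : Eqs w (Yv w 6) e) :
    e = e 6 • Yv w 6 := by
  have hwne : w ≠ 0 := by rintro rfl; norm_num at hw
  have c0 : Yv w 6 0 = 0 := rfl
  have c1 : Yv w 6 1 = 0 := rfl
  have c2 : Yv w 6 2 = 0 := rfl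
  have c3 : Yv w 6 3 = 0 := rfl
  have c4 : Yv w 6 4 = 0 := rfl
  have c5 : Yv w 6 5 = 0 := rfl
  have c6 : Yv w 6 6 = 1 := rfl
  have c7 : Yv w 6 7 = 0 := rfl
  have c8 : Yv w 6 8 = 0 := rfl
  have c9 : Yv w 6 9 = 0 := rfl
  have c10 : Yv w 6 10 = 0 := rfl
  have c11 : Yv w 6 11 = 0 := rfl
  generalize Yv w 6 = c at *
  have e0 : e 0 = 0 := by
    have f1 := h.p_0_3
    have f2 := h.p_0_6
    clear h; simp only [c0, c3, c6] at f1 f2
    clear c0 c1 c2 c3 c4 c5 c6 c7 c8 c9 c10 c11; grind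
  have e1 : e 1 = 0 := by
    have f1 := h.p_1_4
    have f2 := h.p_1_6
    clear h; simp only [c1, c4, c6] at f1 f2
    clear c0 c1 c2 c3 c4 c5 c6 c7 c8 c9 c10 c11; grind
  have e2 : e 2 = 0 := by
    have f1 := h.p_2_5
    have f2 := h.p_2_6
    clear h; simp only [c2, c5, c6] at f1 f2
    clear c0 c1 c2 c3 c4 c5 c6 c7 c8 c9 c10 c11; grind
  have e3 : e 3 = 0 := by
    have f1 := h.p_0_3
    have f2 := h.p_0_6
    clear h; simp only [c0, c3, c6] at f1 f2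
    clear c0 c1 c2 c3 c4 c5 c6 c7 c8 c9 c10 c11; grind
  have e4 : e 4 = 0 := by
    have f1 := h.p_1_4
    have f2 := h.p_1_6
    clear h; simp only [c1, c4, c6] at f1 f2
    clear c0 c1 c2 c3 c4 c5 c6 c7 c8 c9 c10 c11; grind
  have e5 : e 5 = 0 := by
    have f1 := h.p_2_5
    have f2 := h.p_2_6
    clear h; simp only [c2, c5, c6] at f1 f2
    clear c0 c1 c2 c3 c4 c5 c6 c7 c8 c9 c10 c11; grind
  have e7 : e 7 = 0 := by
    have f1 := h.p_6_7
    have f2 := h.p_6_8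
    clear h; simp only [c6, c7, c8] at f1 f2
    clear c0 c1 c2 c3 c4 c5 c6 c7 c8 c9 c10 c11; grind
  have e8 : e 8 = 0 := by
    have f1 := h.p_6_7
    have f2 := h.p_6_8
    clear h; simp only [c6, c7, c8] at f1 f2
    clear c0 c1 c2 c3 c4 c5 c6 c7 c8 c9 c10 c11; grind
  have e9 : e 9 = 0 := by
    have f1 := h.p_6_9
    clear h; simp only [c6, c9] at f1
    clear c0 c1 c2 c3 c4 c5 c6 c7 c8 c9 c10 c11; grind
  have e10 : e 10 = 0 := by
    have f1 := h.p_6_10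
    clear h; simp only [c6, c10] at f1
    clear c0 c1 c2 c3 c4 c5 c6 c7 c8 c9 c10 c11; grind
  have e11 : e 11 = 0 := by
    have f1 := h.p_6_11
    clear h; simp only [c6, c11] at f1
    clear c0 c1 c2 c3 c4 c5 c6 c7 c8 c9 c10 c11; grind
  funext q
  fin_cases q
  · change e 0 = e 6 * c 0; rw [c0, mul_zero, e0]
  · change e 1 = e 6 * c 1; rw [c1, mul_zero, e1]
  · change e 2 = e 6 * c 2; rw [c2, mul_zero, e2]
  · change e 3 = e 6 * c 3; rw [c3, mul_zero, e3]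
  · change e 4 = e 6 * c 4; rw [c4, mul_zero, e4]
  · change e 5 = e 6 * c 5; rw [c5, mul_zero, e5]
  · change e 6 = e 6 * c 6; rw [c6, mul_one]
  · change e 7 = e 6 * c 7; rw [c7, mul_zero, e7]
  · change e 8 = e 6 * c 8; rw [c8, mul_zero, e8]
  · change e 9 = e 6 * c 9; rw [c9, mul_zero, e9]
  · change e 10 = e 6 * c 10; rw [c10, mul_zero, e10]
  · change e 11 = e 6 * c 11; rw [c11, mul_zero, e11]

lemma ker_7 {w : k} (hw : w ^ 2 + w + 1 = 0) {e : Fin 12 → k} (h : Eqs w (Yv w 7) e) :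
    e = e 7 • Yv w 7 := by
  have hwne : w ≠ 0 := by rintro rfl; norm_num at hw
  have c0 : Yv w 7 0 = 0 := rfl
  have c1 : Yv w 7 1 = 0 := rfl
  have c2 : Yv w 7 2 = 0 := rfl
  have c3 : Yv w 7 3 = 0 := rfl
  have c4 : Yv w 7 4 = 0 := rfl
  have c5 : Yv w 7 5 = 0 := rfl
  have c6 : Yv w 7 6 = 0 := rfl
  have c7 : Yv w 7 7 = 1 := rfl
  have c8 : Yv w 7 8 = 0 := rfl
  have c9 : Yv w 7 9 = 0 := rfl
  have c10 : Yv w 7 10 = 0 := rfl
  have c11 : Yv w 7 11 = 0 := rfl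
  generalize Yv w 7 = c at *
  have e0 : e 0 = 0 := by
    have f1 := h.p_0_4
    have f2 := h.p_0_7
    have f3 := h.p_0_11
    clear h; simp only [c0, c4, c7, c11] at f1 f2 f3
    clear c0 c1 c2 c3 c4 c5 c6 c7 c8 c9 c10 c11; grind
  have e1 : e 1 = 0 := by
    have f1 := h.p_1_5
    have f2 := h.p_1_7
    have f3 := h.p_1_9
    clear h; simp only [c1, c5, c7, c9] at f1 f2 f3
    clear c0 c1 c2 c3 c4 c5 c6 c7 c8 c9 c10 c11; grind
  have e2 : e 2 = 0 := by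
    have f1 := h.p_2_3
    have f2 := h.p_2_7
    have f3 := h.p_2_10
    clear h; simp only [c2, c3, c7, c10] at f1 f2 f3
    clear c0 c1 c2 c3 c4 c5 c6 c7 c8 c9 c10 c11; grind
  have e3 : e 3 = 0 := by
    have f1 := h.p_2_3
    have f2 := h.p_2_7
    have f3 := h.p_2_10
    clear h; simp only [c2, c3, c7, c10] at f1 f2 f3
    clear c0 c1 c2 c3 c4 c5 c6 c7 c8 c9 c10 c11; grind
  have e4 : e 4 = 0 := by
    have f1 := h.p_0_4
    have f2 := h.p_0_7
    have f3 := h.p_0_11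
    clear h; simp only [c0, c4, c7, c11] at f1 f2 f3
    clear c0 c1 c2 c3 c4 c5 c6 c7 c8 c9 c10 c11; grind
  have e5 : e 5 = 0 := by
    have f1 := h.p_1_5
    have f2 := h.p_1_7
    have f3 := h.p_1_9
    clear h; simp only [c1, c5, c7, c9] at f1 f2 f3
    clear c0 c1 c2 c3 c4 c5 c6 c7 c8 c9 c10 c11; grind
  have e6 : e 6 = 0 := by
    have f1 := h.p_6_7
    have f2 := h.p_6_8
    clear h; simp only [c6, c7, c8] at f1 f2
    clear c0 c1 c2 c3 c4 c5 c6 c7 c8 c9 c10 c11; grind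
  have e8 : e 8 = 0 := by
    have f1 := h.p_6_7
    have f2 := h.p_6_8
    clear h; simp only [c6, c7, c8] at f1 f2
    clear c0 c1 c2 c3 c4 c5 c6 c7 c8 c9 c10 c11; grind
  have e9 : e 9 = 0 := by
    have f1 := h.p_1_5
    have f2 := h.p_1_7
    have f3 := h.p_1_9
    clear h; simp only [c1, c5, c7, c9] at f1 f2 f3
    clear c0 c1 c2 c3 c4 c5 c6 c7 c8 c9 c10 c11; grind
  have e10 : e 10 = 0 := by
    have f1 := h.p_2_3
    have f2 := h.p_2_7
    have f3 := h.p_2_10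
    clear h; simp only [c2, c3, c7, c10] at f1 f2 f3
    clear c0 c1 c2 c3 c4 c5 c6 c7 c8 c9 c10 c11; grind
  have e11 : e 11 = 0 := by
    have f1 := h.p_0_4
    have f2 := h.p_0_7
    have f3 := h.p_0_11
    clear h; simp only [c0, c4, c7, c11] at f1 f2 f3
    clear c0 c1 c2 c3 c4 c5 c6 c7 c8 c9 c10 c11; grind
  funext q
  fin_cases q
  · change e 0 = e 7 * c 0; rw [c0, mul_zero, e0]
  · change e 1 = e 7 * c 1; rw [c1, mul_zero, e1]
  · change e 2 = e 7 * c 2; rw [c2, mul_zero, e2]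
  · change e 3 = e 7 * c 3; rw [c3, mul_zero, e3]
  · change e 4 = e 7 * c 4; rw [c4, mul_zero, e4]
  · change e 5 = e 7 * c 5; rw [c5, mul_zero, e5]
  · change e 6 = e 7 * c 6; rw [c6, mul_zero, e6]
  · change e 7 = e 7 * c 7; rw [c7, mul_one]
  · change e 8 = e 7 * c 8; rw [c8, mul_zero, e8]
  · change e 9 = e 7 * c 9; rw [c9, mul_zero, e9]
  · change e 10 = e 7 * c 10; rw [c10, mul_zero, e10]
  · change e 11 = e 7 * c 11; rw [c11, mul_zero, e11]

lemma ker_8 {w : k} (hw : w ^ 2 + w + 1 = 0) {e : Fin 12 → k} (h : Eqs w (Yv w 8) e) :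
    e = e 8 • Yv w 8 := by
  have hwne : w ≠ 0 := by rintro rfl; norm_num at hw
  have c0 : Yv w 8 0 = 0 := rfl
  have c1 : Yv w 8 1 = 0 := rfl
  have c2 : Yv w 8 2 = 0 := rfl
  have c3 : Yv w 8 3 = 0 := rfl
  have c4 : Yv w 8 4 = 0 := rfl
  have c5 : Yv w 8 5 = 0 := rfl
  have c6 : Yv w 8 6 = 0 := rfl
  have c7 : Yv w 8 7 = 0 := rfl
  have c8 : Yv w 8 8 = 1 := rfl
  have c9 : Yv w 8 9 = 0 := rfl
  have c10 : Yv w 8 10 = 0 := rfl
  have c11 : Yv w 8 11 = 0 := rfl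
  generalize Yv w 8 = c at *
  have e0 : e 0 = 0 := by
    have f1 := h.p_0_8
    clear h; simp only [c0, c8] at f1
    clear c0 c1 c2 c3 c4 c5 c6 c7 c8 c9 c10 c11; grind
  have e1 : e 1 = 0 := by
    have f1 := h.p_1_8
    clear h; simp only [c1, c8] at f1
    clear c0 c1 c2 c3 c4 c5 c6 c7 c8 c9 c10 c11; grind
  have e2 : e 2 = 0 := by
    have f1 := h.p_2_8
    clear h; simp only [c2, c8] at f1
    clear c0 c1 c2 c3 c4 c5 c6 c7 c8 c9 c10 c11; grind
  have e3 : e 3 = 0 := by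
    have f1 := h.p_3_4
    have f2 := h.p_3_5
    have f3 := h.p_3_8
    clear h; simp only [c3, c4, c5, c8] at f1 f2 f3
    clear c0 c1 c2 c3 c4 c5 c6 c7 c8 c9 c10 c11; grind
  have e4 : e 4 = 0 := by
    have f1 := h.p_3_4
    have f2 := h.p_3_5
    have f3 := h.p_3_8
    clear h; simp only [c3, c4, c5, c8] at f1 f2 f3
    clear c0 c1 c2 c3 c4 c5 c6 c7 c8 c9 c10 c11; grind
  have e5 : e 5 = 0 := by
    have f1 := h.p_3_4
    have f2 := h.p_3_5
    have f3 := h.p_3_8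
    clear h; simp only [c3, c4, c5, c8] at f1 f2 f3
    clear c0 c1 c2 c3 c4 c5 c6 c7 c8 c9 c10 c11; grind
  have e6 : e 6 = 0 := by
    have f1 := h.p_6_7
    have f2 := h.p_6_8
    clear h; simp only [c6, c7, c8] at f1 f2
    clear c0 c1 c2 c3 c4 c5 c6 c7 c8 c9 c10 c11; grind
  have e7 : e 7 = 0 := by
    have f1 := h.p_6_7
    have f2 := h.p_6_8
    clear h; simp only [c6, c7, c8] at f1 f2
    clear c0 c1 c2 c3 c4 c5 c6 c7 c8 c9 c10 c11; grind
  have e9 : e 9 = 0 := by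
    have f1 := h.p_8_9
    clear h; simp only [c8, c9] at f1
    clear c0 c1 c2 c3 c4 c5 c6 c7 c8 c9 c10 c11; grind
  have e10 : e 10 = 0 := by
    have f1 := h.p_8_10
    clear h; simp only [c8, c10] at f1
    clear c0 c1 c2 c3 c4 c5 c6 c7 c8 c9 c10 c11; grind
  have e11 : e 11 = 0 := by
    have f1 := h.p_8_11
    clear h; simp only [c8, c11] at f1
    clear c0 c1 c2 c3 c4 c5 c6 c7 c8 c9 c10 c11; grind
  funext q
  fin_cases q
  · change e 0 = e 8 * c 0; rw [c0, mul_zero, e0]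
  · change e 1 = e 8 * c 1; rw [c1, mul_zero, e1]
  · change e 2 = e 8 * c 2; rw [c2, mul_zero, e2]
  · change e 3 = e 8 * c 3; rw [c3, mul_zero, e3]
  · change e 4 = e 8 * c 4; rw [c4, mul_zero, e4]
  · change e 5 = e 8 * c 5; rw [c5, mul_zero, e5]
  · change e 6 = e 8 * c 6; rw [c6, mul_zero, e6]
  · change e 7 = e 8 * c 7; rw [c7, mul_zero, e7]
  · change e 8 = e 8 * c 8; rw [c8, mul_one]
  · change e 9 = e 8 * c 9; rw [c9, mul_zero, e9]
  · change e 10 = e 8 * c 10; rw [c10, mul_zero, e10]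
  · change e 11 = e 8 * c 11; rw [c11, mul_zero, e11]

lemma ker_9 {w : k} (hw : w ^ 2 + w + 1 = 0) {e : Fin 12 → k} (h : Eqs w (Yv w 9) e) :
    e = e 9 • Yv w 9 := by
  have hwne : w ≠ 0 := by rintro rfl; norm_num at hw
  have c0 : Yv w 9 0 = 0 := rfl
  have c1 : Yv w 9 1 = 0 := rfl
  have c2 : Yv w 9 2 = 0 := rfl
  have c3 : Yv w 9 3 = 0 := rfl
  have c4 : Yv w 9 4 = 0 := rfl
  have c5 : Yv w 9 5 = 0 := rfl
  have c6 : Yv w 9 6 = 0 := rfl
  have c7 : Yv w 9 7 = 0 := rfl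
  have c8 : Yv w 9 8 = 0 := rfl
  have c9 : Yv w 9 9 = 1 := rfl
  have c10 : Yv w 9 10 = 0 := rfl
  have c11 : Yv w 9 11 = 0 := rfl
  generalize Yv w 9 = c at *
  have e0 : e 0 = 0 := by
    have f1 := h.p_0_9
    clear h; simp only [c0, c9] at f1
    clear c0 c1 c2 c3 c4 c5 c6 c7 c8 c9 c10 c11; grind
  have e1 : e 1 = 0 := by
    have f1 := h.p_1_5
    have f2 := h.p_1_7
    have f3 := h.p_1_9
    clear h; simp only [c1, c5, c7, c9] at f1 f2 f3
    clear c0 c1 c2 c3 c4 c5 c6 c7 c8 c9 c10 c11; grind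
  have e2 : e 2 = 0 := by
    have f1 := h.p_2_4
    have f2 := h.p_2_9
    clear h; simp only [c2, c4, c9] at f1 f2
    clear c0 c1 c2 c3 c4 c5 c6 c7 c8 c9 c10 c11; grind
  have e3 : e 3 = 0 := by
    have f1 := h.p_3_9
    clear h; simp only [c3, c9] at f1
    clear c0 c1 c2 c3 c4 c5 c6 c7 c8 c9 c10 c11; grind
  have e4 : e 4 = 0 := by
    have f1 := h.p_2_4
    have f2 := h.p_2_9
    clear h; simp only [c2, c4, c9] at f1 f2
    clear c0 c1 c2 c3 c4 c5 c6 c7 c8 c9 c10 c11; grind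
  have e5 : e 5 = 0 := by
    have f1 := h.p_1_5
    have f2 := h.p_1_7
    have f3 := h.p_1_9
    clear h; simp only [c1, c5, c7, c9] at f1 f2 f3
    clear c0 c1 c2 c3 c4 c5 c6 c7 c8 c9 c10 c11; grind
  have e6 : e 6 = 0 := by
    have f1 := h.p_6_9
    clear h; simp only [c6, c9] at f1
    clear c0 c1 c2 c3 c4 c5 c6 c7 c8 c9 c10 c11; grind
  have e7 : e 7 = 0 := by
    have f1 := h.p_1_5
    have f2 := h.p_1_7
    have f3 := h.p_1_9
    clear h; simp only [c1, c5, c7, c9] at f1 f2 f3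
    clear c0 c1 c2 c3 c4 c5 c6 c7 c8 c9 c10 c11; grind
  have e8 : e 8 = 0 := by
    have f1 := h.p_8_9
    clear h; simp only [c8, c9] at f1
    clear c0 c1 c2 c3 c4 c5 c6 c7 c8 c9 c10 c11; grind
  have e10 : e 10 = 0 := by
    have f1 := h.p_9_10
    have f2 := h.p_9_11
    clear h; simp only [c9, c10, c11] at f1 f2
    clear c0 c1 c2 c3 c4 c5 c6 c7 c8 c9 c10 c11; grind
  have e11 : e 11 = 0 := by
    have f1 := h.p_9_10
    have f2 := h.p_9_11
    clear h; simp only [c9, c10, c11] at f1 f2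
    clear c0 c1 c2 c3 c4 c5 c6 c7 c8 c9 c10 c11; grind
  funext q
  fin_cases q
  · change e 0 = e 9 * c 0; rw [c0, mul_zero, e0]
  · change e 1 = e 9 * c 1; rw [c1, mul_zero, e1]
  · change e 2 = e 9 * c 2; rw [c2, mul_zero, e2]
  · change e 3 = e 9 * c 3; rw [c3, mul_zero, e3]
  · change e 4 = e 9 * c 4; rw [c4, mul_zero, e4]
  · change e 5 = e 9 * c 5; rw [c5, mul_zero, e5]
  · change e 6 = e 9 * c 6; rw [c6, mul_zero, e6]
  · change e 7 = e 9 * c 7; rw [c7, mul_zero, e7]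
  · change e 8 = e 9 * c 8; rw [c8, mul_zero, e8]
  · change e 9 = e 9 * c 9; rw [c9, mul_one]
  · change e 10 = e 9 * c 10; rw [c10, mul_zero, e10]
  · change e 11 = e 9 * c 11; rw [c11, mul_zero, e11]

lemma ker_10 {w : k} (hw : w ^ 2 + w + 1 = 0) {e : Fin 12 → k} (h : Eqs w (Yv w 10) e) :
    e = e 10 • Yv w 10 := by
  have hwne : w ≠ 0 := by rintro rfl; norm_num at hw
  have c0 : Yv w 10 0 = 0 := rfl
  have c1 : Yv w 10 1 = 0 := rfl
  have c2 : Yv w 10 2 = 0 := rfl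
  have c3 : Yv w 10 3 = 0 := rfl
  have c4 : Yv w 10 4 = 0 := rfl
  have c5 : Yv w 10 5 = 0 := rfl
  have c6 : Yv w 10 6 = 0 := rfl
  have c7 : Yv w 10 7 = 0 := rfl
  have c8 : Yv w 10 8 = 0 := rfl
  have c9 : Yv w 10 9 = 0 := rfl
  have c10 : Yv w 10 10 = 1 := rfl
  have c11 : Yv w 10 11 = 0 := rfl
  generalize Yv w 10 = c at *
  have e0 : e 0 = 0 := by
    have f1 := h.p_0_5
    have f2 := h.p_0_10
    clear h; simp only [c0, c5, c10] at f1 f2
    clear c0 c1 c2 c3 c4 c5 c6 c7 c8 c9 c10 c11; grind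
  have e1 : e 1 = 0 := by
    have f1 := h.p_1_10
    clear h; simp only [c1, c10] at f1
    clear c0 c1 c2 c3 c4 c5 c6 c7 c8 c9 c10 c11; grind
  have e2 : e 2 = 0 := by
    have f1 := h.p_2_3
    have f2 := h.p_2_7
    have f3 := h.p_2_10
    clear h; simp only [c2, c3, c7, c10] at f1 f2 f3
    clear c0 c1 c2 c3 c4 c5 c6 c7 c8 c9 c10 c11; grind
  have e3 : e 3 = 0 := by
    have f1 := h.p_2_3
    have f2 := h.p_2_7
    have f3 := h.p_2_10
    clear h; simp only [c2, c3, c7, c10] at f1 f2 f3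
    clear c0 c1 c2 c3 c4 c5 c6 c7 c8 c9 c10 c11; grind
  have e4 : e 4 = 0 := by
    have f1 := h.p_4_10
    clear h; simp only [c4, c10] at f1
    clear c0 c1 c2 c3 c4 c5 c6 c7 c8 c9 c10 c11; grind
  have e5 : e 5 = 0 := by
    have f1 := h.p_0_5
    have f2 := h.p_0_10
    clear h; simp only [c0, c5, c10] at f1 f2
    clear c0 c1 c2 c3 c4 c5 c6 c7 c8 c9 c10 c11; grind
  have e6 : e 6 = 0 := by
    have f1 := h.p_6_10
    clear h; simp only [c6, c10] at f1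
    clear c0 c1 c2 c3 c4 c5 c6 c7 c8 c9 c10 c11; grind
  have e7 : e 7 = 0 := by
    have f1 := h.p_2_3
    have f2 := h.p_2_7
    have f3 := h.p_2_10
    clear h; simp only [c2, c3, c7, c10] at f1 f2 f3
    clear c0 c1 c2 c3 c4 c5 c6 c7 c8 c9 c10 c11; grind
  have e8 : e 8 = 0 := by
    have f1 := h.p_8_10
    clear h; simp only [c8, c10] at f1
    clear c0 c1 c2 c3 c4 c5 c6 c7 c8 c9 c10 c11; grind
  have e9 : e 9 = 0 := by
    have f1 := h.p_9_10
    have f2 := h.p_9_11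
    clear h; simp only [c9, c10, c11] at f1 f2
    clear c0 c1 c2 c3 c4 c5 c6 c7 c8 c9 c10 c11; grind
  have e11 : e 11 = 0 := by
    have f1 := h.p_9_10
    have f2 := h.p_9_11
    clear h; simp only [c9, c10, c11] at f1 f2
    clear c0 c1 c2 c3 c4 c5 c6 c7 c8 c9 c10 c11; grind
  funext q
  fin_cases q
  · change e 0 = e 10 * c 0; rw [c0, mul_zero, e0]
  · change e 1 = e 10 * c 1; rw [c1, mul_zero, e1]
  · change e 2 = e 10 * c 2; rw [c2, mul_zero, e2]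
  · change e 3 = e 10 * c 3; rw [c3, mul_zero, e3]
  · change e 4 = e 10 * c 4; rw [c4, mul_zero, e4]
  · change e 5 = e 10 * c 5; rw [c5, mul_zero, e5]
  · change e 6 = e 10 * c 6; rw [c6, mul_zero, e6]
  · change e 7 = e 10 * c 7; rw [c7, mul_zero, e7]
  · change e 8 = e 10 * c 8; rw [c8, mul_zero, e8]
  · change e 9 = e 10 * c 9; rw [c9, mul_zero, e9]
  · change e 10 = e 10 * c 10; rw [c10, mul_one]
  · change e 11 = e 10 * c 11; rw [c11, mul_zero, e11]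

lemma ker_11 {w : k} (hw : w ^ 2 + w + 1 = 0) {e : Fin 12 → k} (h : Eqs w (Yv w 11) e) :
    e = e 11 • Yv w 11 := by
  have hwne : w ≠ 0 := by rintro rfl; norm_num at hw
  have c0 : Yv w 11 0 = 0 := rfl
  have c1 : Yv w 11 1 = 0 := rfl
  have c2 : Yv w 11 2 = 0 := rfl
  have c3 : Yv w 11 3 = 0 := rfl
  have c4 : Yv w 11 4 = 0 := rfl
  have c5 : Yv w 11 5 = 0 := rfl
  have c6 : Yv w 11 6 = 0 := rfl
  have c7 : Yv w 11 7 = 0 := rfl
  have c8 : Yv w 11 8 = 0 := rfl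
  have c9 : Yv w 11 9 = 0 := rfl
  have c10 : Yv w 11 10 = 0 := rfl
  have c11 : Yv w 11 11 = 1 := rfl
  generalize Yv w 11 = c at *
  have e0 : e 0 = 0 := by
    have f1 := h.p_0_4
    have f2 := h.p_0_7
    have f3 := h.p_0_11
    clear h; simp only [c0, c4, c7, c11] at f1 f2 f3
    clear c0 c1 c2 c3 c4 c5 c6 c7 c8 c9 c10 c11; grind
  have e1 : e 1 = 0 := by
    have f1 := h.p_1_3
    have f2 := h.p_1_11
    clear h; simp only [c1, c3, c11] at f1 f2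
    clear c0 c1 c2 c3 c4 c5 c6 c7 c8 c9 c10 c11; grind
  have e2 : e 2 = 0 := by
    have f1 := h.p_2_11
    clear h; simp only [c2, c11] at f1
    clear c0 c1 c2 c3 c4 c5 c6 c7 c8 c9 c10 c11; grind
  have e3 : e 3 = 0 := by
    have f1 := h.p_1_3
    have f2 := h.p_1_11
    clear h; simp only [c1, c3, c11] at f1 f2
    clear c0 c1 c2 c3 c4 c5 c6 c7 c8 c9 c10 c11; grind
  have e4 : e 4 = 0 := by
    have f1 := h.p_0_4
    have f2 := h.p_0_7
    have f3 := h.p_0_11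
    clear h; simp only [c0, c4, c7, c11] at f1 f2 f3
    clear c0 c1 c2 c3 c4 c5 c6 c7 c8 c9 c10 c11; grind
  have e5 : e 5 = 0 := by
    have f1 := h.p_5_11
    clear h; simp only [c5, c11] at f1
    clear c0 c1 c2 c3 c4 c5 c6 c7 c8 c9 c10 c11; grind
  have e6 : e 6 = 0 := by
    have f1 := h.p_6_11
    clear h; simp only [c6, c11] at f1
    clear c0 c1 c2 c3 c4 c5 c6 c7 c8 c9 c10 c11; grind
  have e7 : e 7 = 0 := by
    have f1 := h.p_0_4
    have f2 := h.p_0_7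
    have f3 := h.p_0_11
    clear h; simp only [c0, c4, c7, c11] at f1 f2 f3
    clear c0 c1 c2 c3 c4 c5 c6 c7 c8 c9 c10 c11; grind
  have e8 : e 8 = 0 := by
    have f1 := h.p_8_11
    clear h; simp only [c8, c11] at f1
    clear c0 c1 c2 c3 c4 c5 c6 c7 c8 c9 c10 c11; grind
  have e9 : e 9 = 0 := by
    have f1 := h.p_9_10
    have f2 := h.p_9_11
    clear h; simp only [c9, c10, c11] at f1 f2
    clear c0 c1 c2 c3 c4 c5 c6 c7 c8 c9 c10 c11; grind
  have e10 : e 10 = 0 := by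
    have f1 := h.p_9_10
    have f2 := h.p_9_11
    clear h; simp only [c9, c10, c11] at f1 f2
    clear c0 c1 c2 c3 c4 c5 c6 c7 c8 c9 c10 c11; grind
  funext q
  fin_cases q
  · change e 0 = e 11 * c 0; rw [c0, mul_zero, e0]
  · change e 1 = e 11 * c 1; rw [c1, mul_zero, e1]
  · change e 2 = e 11 * c 2; rw [c2, mul_zero, e2]
  · change e 3 = e 11 * c 3; rw [c3, mul_zero, e3]
  · change e 4 = e 11 * c 4; rw [c4, mul_zero, e4]
  · change e 5 = e 11 * c 5; rw [c5, mul_zero, e5]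
  · change e 6 = e 11 * c 6; rw [c6, mul_zero, e6]
  · change e 7 = e 11 * c 7; rw [c7, mul_zero, e7]
  · change e 8 = e 11 * c 8; rw [c8, mul_zero, e8]
  · change e 9 = e 11 * c 9; rw [c9, mul_zero, e9]
  · change e 10 = e 11 * c 10; rw [c10, mul_zero, e10]
  · change e 11 = e 11 * c 11; rw [c11, mul_one]

lemma ker_12 {w : k} (hw : w ^ 2 + w + 1 = 0) {e : Fin 12 → k} (h : Eqs w (Yv w 12) e) :
    e = e 0 • Yv w 12 := by
  have hwne : w ≠ 0 := by rintro rfl; norm_num at hw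
  have c0 : Yv w 12 0 = 1 := rfl
  have c1 : Yv w 12 1 = 1 := rfl
  have c2 : Yv w 12 2 = 1 := rfl
  have c3 : Yv w 12 3 = 0 := rfl
  have c4 : Yv w 12 4 = 0 := rfl
  have c5 : Yv w 12 5 = 0 := rfl
  have c6 : Yv w 12 6 = 0 := rfl
  have c7 : Yv w 12 7 = 0 := rfl
  have c8 : Yv w 12 8 = 0 := rfl
  have c9 : Yv w 12 9 = 0 := rfl
  have c10 : Yv w 12 10 = 0 := rfl
  have c11 : Yv w 12 11 = 0 := rfl
  generalize Yv w 12 = c at *
  have e1 : e 1 = e 0 * 1 := by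
    have f1 := h.p_0_1
    have f2 := h.p_0_2
    clear h; simp only [c0, c1, c2] at f1 f2
    clear c0 c1 c2 c3 c4 c5 c6 c7 c8 c9 c10 c11; grind
  have e2 : e 2 = e 0 * 1 := by
    have f1 := h.p_0_1
    have f2 := h.p_0_2
    clear h; simp only [c0, c1, c2] at f1 f2
    clear c0 c1 c2 c3 c4 c5 c6 c7 c8 c9 c10 c11; grind
  have e3 : e 3 = 0 := by
    have f1 := h.p_0_3
    have f2 := h.p_0_6
    clear h; simp only [c0, c3, c6] at f1 f2
    clear c0 c1 c2 c3 c4 c5 c6 c7 c8 c9 c10 c11; grind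
  have e4 : e 4 = 0 := by
    have f1 := h.p_0_4
    have f2 := h.p_0_7
    have f3 := h.p_0_11
    clear h; simp only [c0, c4, c7, c11] at f1 f2 f3
    clear c0 c1 c2 c3 c4 c5 c6 c7 c8 c9 c10 c11; grind
  have e5 : e 5 = 0 := by
    have f1 := h.p_0_5
    have f2 := h.p_0_10
    clear h; simp only [c0, c5, c10] at f1 f2
    clear c0 c1 c2 c3 c4 c5 c6 c7 c8 c9 c10 c11; grind
  have e6 : e 6 = 0 := by
    have f1 := h.p_0_3
    have f2 := h.p_0_6
    clear h; simp only [c0, c3, c6] at f1 f2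
    clear c0 c1 c2 c3 c4 c5 c6 c7 c8 c9 c10 c11; grind
  have e7 : e 7 = 0 := by
    have f1 := h.p_0_4
    have f2 := h.p_0_7
    have f3 := h.p_0_11
    clear h; simp only [c0, c4, c7, c11] at f1 f2 f3
    clear c0 c1 c2 c3 c4 c5 c6 c7 c8 c9 c10 c11; grind
  have e8 : e 8 = 0 := by
    have f1 := h.p_0_8
    clear h; simp only [c0, c8] at f1
    clear c0 c1 c2 c3 c4 c5 c6 c7 c8 c9 c10 c11; grind
  have e9 : e 9 = 0 := by
    have f1 := h.p_0_9
    clear h; simp only [c0, c9] at f1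
    clear c0 c1 c2 c3 c4 c5 c6 c7 c8 c9 c10 c11; grind
  have e10 : e 10 = 0 := by
    have f1 := h.p_0_5
    have f2 := h.p_0_10
    clear h; simp only [c0, c5, c10] at f1 f2
    clear c0 c1 c2 c3 c4 c5 c6 c7 c8 c9 c10 c11; grind
  have e11 : e 11 = 0 := by
    have f1 := h.p_0_4
    have f2 := h.p_0_7
    have f3 := h.p_0_11
    clear h; simp only [c0, c4, c7, c11] at f1 f2 f3
    clear c0 c1 c2 c3 c4 c5 c6 c7 c8 c9 c10 c11; grind
  funext q
  fin_cases q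
  · change e 0 = e 0 * c 0; rw [c0, mul_one]
  · change e 1 = e 0 * c 1; rw [c1, e1]
  · change e 2 = e 0 * c 2; rw [c2, e2]
  · change e 3 = e 0 * c 3; rw [c3, mul_zero, e3]
  · change e 4 = e 0 * c 4; rw [c4, mul_zero, e4]
  · change e 5 = e 0 * c 5; rw [c5, mul_zero, e5]
  · change e 6 = e 0 * c 6; rw [c6, mul_zero, e6]
  · change e 7 = e 0 * c 7; rw [c7, mul_zero, e7]
  · change e 8 = e 0 * c 8; rw [c8, mul_zero, e8]
  · change e 9 = e 0 * c 9; rw [c9, mul_zero, e9]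
  · change e 10 = e 0 * c 10; rw [c10, mul_zero, e10]
  · change e 11 = e 0 * c 11; rw [c11, mul_zero, e11]

lemma ker_13 {w : k} (hw : w ^ 2 + w + 1 = 0) {e : Fin 12 → k} (h : Eqs w (Yv w 13) e) :
    e = e 0 • Yv w 13 := by
  have hwne : w ≠ 0 := by rintro rfl; norm_num at hw
  have c0 : Yv w 13 0 = 1 := rfl
  have c1 : Yv w 13 1 = 0 := rfl
  have c2 : Yv w 13 2 = 0 := rfl
  have c3 : Yv w 13 3 = 1 := rfl
  have c4 : Yv w 13 4 = 0 := rfl
  have c5 : Yv w 13 5 = 0 := rfl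
  have c6 : Yv w 13 6 = 1 := rfl
  have c7 : Yv w 13 7 = 0 := rfl
  have c8 : Yv w 13 8 = 0 := rfl
  have c9 : Yv w 13 9 = 0 := rfl
  have c10 : Yv w 13 10 = 0 := rfl
  have c11 : Yv w 13 11 = 0 := rfl
  generalize Yv w 13 = c at *
  have e1 : e 1 = 0 := by
    have f1 := h.p_0_1
    have f2 := h.p_0_2
    clear h; simp only [c0, c1, c2] at f1 f2
    clear c0 c1 c2 c3 c4 c5 c6 c7 c8 c9 c10 c11; grind
  have e2 : e 2 = 0 := by
    have f1 := h.p_0_1
    have f2 := h.p_0_2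
    clear h; simp only [c0, c1, c2] at f1 f2
    clear c0 c1 c2 c3 c4 c5 c6 c7 c8 c9 c10 c11; grind
  have e3 : e 3 = e 0 * 1 := by
    have f1 := h.p_0_3
    have f2 := h.p_0_6
    clear h; simp only [c0, c3, c6] at f1 f2
    clear c0 c1 c2 c3 c4 c5 c6 c7 c8 c9 c10 c11; grind
  have e4 : e 4 = 0 := by
    have f1 := h.p_0_4
    have f2 := h.p_0_7
    have f3 := h.p_0_11
    clear h; simp only [c0, c4, c7, c11] at f1 f2 f3
    clear c0 c1 c2 c3 c4 c5 c6 c7 c8 c9 c10 c11; grind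
  have e5 : e 5 = 0 := by
    have f1 := h.p_0_5
    have f2 := h.p_0_10
    clear h; simp only [c0, c5, c10] at f1 f2
    clear c0 c1 c2 c3 c4 c5 c6 c7 c8 c9 c10 c11; grind
  have e6 : e 6 = e 0 * 1 := by
    have f1 := h.p_0_3
    have f2 := h.p_0_6
    clear h; simp only [c0, c3, c6] at f1 f2
    clear c0 c1 c2 c3 c4 c5 c6 c7 c8 c9 c10 c11; grind
  have e7 : e 7 = 0 := by
    have f1 := h.p_0_4
    have f2 := h.p_0_7
    have f3 := h.p_0_11
    clear h; simp only [c0, c4, c7, c11] at f1 f2 f3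
    clear c0 c1 c2 c3 c4 c5 c6 c7 c8 c9 c10 c11; grind
  have e8 : e 8 = 0 := by
    have f1 := h.p_0_8
    clear h; simp only [c0, c8] at f1
    clear c0 c1 c2 c3 c4 c5 c6 c7 c8 c9 c10 c11; grind
  have e9 : e 9 = 0 := by
    have f1 := h.p_0_9
    clear h; simp only [c0, c9] at f1
    clear c0 c1 c2 c3 c4 c5 c6 c7 c8 c9 c10 c11; grind
  have e10 : e 10 = 0 := by
    have f1 := h.p_0_5
    have f2 := h.p_0_10
    clear h; simp only [c0, c5, c10] at f1 f2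
    clear c0 c1 c2 c3 c4 c5 c6 c7 c8 c9 c10 c11; grind
  have e11 : e 11 = 0 := by
    have f1 := h.p_0_4
    have f2 := h.p_0_7
    have f3 := h.p_0_11
    clear h; simp only [c0, c4, c7, c11] at f1 f2 f3
    clear c0 c1 c2 c3 c4 c5 c6 c7 c8 c9 c10 c11; grind
  funext q
  fin_cases q
  · change e 0 = e 0 * c 0; rw [c0, mul_one]
  · change e 1 = e 0 * c 1; rw [c1, mul_zero, e1]
  · change e 2 = e 0 * c 2; rw [c2, mul_zero, e2]
  · change e 3 = e 0 * c 3; rw [c3, e3]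
  · change e 4 = e 0 * c 4; rw [c4, mul_zero, e4]
  · change e 5 = e 0 * c 5; rw [c5, mul_zero, e5]
  · change e 6 = e 0 * c 6; rw [c6, e6]
  · change e 7 = e 0 * c 7; rw [c7, mul_zero, e7]
  · change e 8 = e 0 * c 8; rw [c8, mul_zero, e8]
  · change e 9 = e 0 * c 9; rw [c9, mul_zero, e9]
  · change e 10 = e 0 * c 10; rw [c10, mul_zero, e10]
  · change e 11 = e 0 * c 11; rw [c11, mul_zero, e11]

lemma ker_14 {w : k} (hw : w ^ 2 + w + 1 = 0) {e : Fin 12 → k} (h : Eqs w (Yv w 14) e) :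
    e = e 0 • Yv w 14 := by
  have hwne : w ≠ 0 := by rintro rfl; norm_num at hw
  have c0 : Yv w 14 0 = 1 := rfl
  have c1 : Yv w 14 1 = 0 := rfl
  have c2 : Yv w 14 2 = 0 := rfl
  have c3 : Yv w 14 3 = 0 := rfl
  have c4 : Yv w 14 4 = 0 := rfl
  have c5 : Yv w 14 5 = -w ^ 2 := rfl
  have c6 : Yv w 14 6 = 0 := rfl
  have c7 : Yv w 14 7 = 0 := rfl
  have c8 : Yv w 14 8 = 0 := rfl
  have c9 : Yv w 14 9 = 0 := rfl
  have c10 : Yv w 14 10 = -1 := rfl
  have c11 : Yv w 14 11 = 0 := rfl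
  generalize Yv w 14 = c at *
  have e1 : e 1 = 0 := by
    have f1 := h.p_0_1
    have f2 := h.p_0_2
    clear h; simp only [c0, c1, c2] at f1 f2
    clear c0 c1 c2 c3 c4 c5 c6 c7 c8 c9 c10 c11; grind
  have e2 : e 2 = 0 := by
    have f1 := h.p_0_1
    have f2 := h.p_0_2
    clear h; simp only [c0, c1, c2] at f1 f2
    clear c0 c1 c2 c3 c4 c5 c6 c7 c8 c9 c10 c11; grind
  have e3 : e 3 = 0 := by
    have f1 := h.p_0_3
    have f2 := h.p_0_6
    clear h; simp only [c0, c3, c6] at f1 f2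
    clear c0 c1 c2 c3 c4 c5 c6 c7 c8 c9 c10 c11; grind
  have e4 : e 4 = 0 := by
    have f1 := h.p_0_4
    have f2 := h.p_0_7
    have f3 := h.p_0_11
    clear h; simp only [c0, c4, c7, c11] at f1 f2 f3
    clear c0 c1 c2 c3 c4 c5 c6 c7 c8 c9 c10 c11; grind
  have e5 : e 5 = e 0 * (-w ^ 2) := by
    have f1 := h.p_0_5
    have f2 := h.p_0_10
    clear h; simp only [c0, c5, c10] at f1 f2
    clear c0 c1 c2 c3 c4 c5 c6 c7 c8 c9 c10 c11; grind
  have e6 : e 6 = 0 := by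
    have f1 := h.p_0_3
    have f2 := h.p_0_6
    clear h; simp only [c0, c3, c6] at f1 f2
    clear c0 c1 c2 c3 c4 c5 c6 c7 c8 c9 c10 c11; grind
  have e7 : e 7 = 0 := by
    have f1 := h.p_0_4
    have f2 := h.p_0_7
    have f3 := h.p_0_11
    clear h; simp only [c0, c4, c7, c11] at f1 f2 f3
    clear c0 c1 c2 c3 c4 c5 c6 c7 c8 c9 c10 c11; grind
  have e8 : e 8 = 0 := by
    have f1 := h.p_0_8
    clear h; simp only [c0, c8] at f1
    clear c0 c1 c2 c3 c4 c5 c6 c7 c8 c9 c10 c11; grind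
  have e9 : e 9 = 0 := by
    have f1 := h.p_0_9
    clear h; simp only [c0, c9] at f1
    clear c0 c1 c2 c3 c4 c5 c6 c7 c8 c9 c10 c11; grind
  have e10 : e 10 = e 0 * (-1) := by
    have f1 := h.p_0_5
    have f2 := h.p_0_10
    clear h; simp only [c0, c5, c10] at f1 f2
    clear c0 c1 c2 c3 c4 c5 c6 c7 c8 c9 c10 c11; grind
  have e11 : e 11 = 0 := by
    have f1 := h.p_0_4
    have f2 := h.p_0_7
    have f3 := h.p_0_11
    clear h; simp only [c0, c4, c7, c11] at f1 f2 f3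
    clear c0 c1 c2 c3 c4 c5 c6 c7 c8 c9 c10 c11; grind
  funext q
  fin_cases q
  · change e 0 = e 0 * c 0; rw [c0, mul_one]
  · change e 1 = e 0 * c 1; rw [c1, mul_zero, e1]
  · change e 2 = e 0 * c 2; rw [c2, mul_zero, e2]
  · change e 3 = e 0 * c 3; rw [c3, mul_zero, e3]
  · change e 4 = e 0 * c 4; rw [c4, mul_zero, e4]
  · change e 5 = e 0 * c 5; rw [c5, e5]
  · change e 6 = e 0 * c 6; rw [c6, mul_zero, e6]
  · change e 7 = e 0 * c 7; rw [c7, mul_zero, e7]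
  · change e 8 = e 0 * c 8; rw [c8, mul_zero, e8]
  · change e 9 = e 0 * c 9; rw [c9, mul_zero, e9]
  · change e 10 = e 0 * c 10; rw [c10, e10]
  · change e 11 = e 0 * c 11; rw [c11, mul_zero, e11]

lemma ker_15 {w : k} (hw : w ^ 2 + w + 1 = 0) {e : Fin 12 → k} (h : Eqs w (Yv w 15) e) :
    e = e 1 • Yv w 15 := by
  have hwne : w ≠ 0 := by rintro rfl; norm_num at hw
  have c0 : Yv w 15 0 = 0 := rfl
  have c1 : Yv w 15 1 = 1 := rfl
  have c2 : Yv w 15 2 = 0 := rfl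
  have c3 : Yv w 15 3 = -w ^ 2 := rfl
  have c4 : Yv w 15 4 = 0 := rfl
  have c5 : Yv w 15 5 = 0 := rfl
  have c6 : Yv w 15 6 = 0 := rfl
  have c7 : Yv w 15 7 = 0 := rfl
  have c8 : Yv w 15 8 = 0 := rfl
  have c9 : Yv w 15 9 = 0 := rfl
  have c10 : Yv w 15 10 = 0 := rfl
  have c11 : Yv w 15 11 = -w ^ 2 := rfl
  generalize Yv w 15 = c at *
  have e0 : e 0 = 0 := by
    have f1 := h.p_0_1
    have f2 := h.p_0_2
    clear h; simp only [c0, c1, c2] at f1 f2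
    clear c0 c1 c2 c3 c4 c5 c6 c7 c8 c9 c10 c11; grind
  have e2 : e 2 = 0 := by
    have f1 := h.p_0_1
    have f2 := h.p_0_2
    clear h; simp only [c0, c1, c2] at f1 f2
    clear c0 c1 c2 c3 c4 c5 c6 c7 c8 c9 c10 c11; grind
  have e3 : e 3 = e 1 * (-w ^ 2) := by
    have f1 := h.p_1_3
    have f2 := h.p_1_11
    clear h; simp only [c1, c3, c11] at f1 f2
    clear c0 c1 c2 c3 c4 c5 c6 c7 c8 c9 c10 c11; grind
  have e4 : e 4 = 0 := by
    have f1 := h.p_1_4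
    have f2 := h.p_1_6
    clear h; simp only [c1, c4, c6] at f1 f2
    clear c0 c1 c2 c3 c4 c5 c6 c7 c8 c9 c10 c11; grind
  have e5 : e 5 = 0 := by
    have f1 := h.p_1_5
    have f2 := h.p_1_7
    have f3 := h.p_1_9
    clear h; simp only [c1, c5, c7, c9] at f1 f2 f3
    clear c0 c1 c2 c3 c4 c5 c6 c7 c8 c9 c10 c11; grind
  have e6 : e 6 = 0 := by
    have f1 := h.p_1_4
    have f2 := h.p_1_6
    clear h; simp only [c1, c4, c6] at f1 f2
    clear c0 c1 c2 c3 c4 c5 c6 c7 c8 c9 c10 c11; grind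
  have e7 : e 7 = 0 := by
    have f1 := h.p_1_5
    have f2 := h.p_1_7
    have f3 := h.p_1_9
    clear h; simp only [c1, c5, c7, c9] at f1 f2 f3
    clear c0 c1 c2 c3 c4 c5 c6 c7 c8 c9 c10 c11; grind
  have e8 : e 8 = 0 := by
    have f1 := h.p_1_8
    clear h; simp only [c1, c8] at f1
    clear c0 c1 c2 c3 c4 c5 c6 c7 c8 c9 c10 c11; grind
  have e9 : e 9 = 0 := by
    have f1 := h.p_1_5
    have f2 := h.p_1_7
    have f3 := h.p_1_9
    clear h; simp only [c1, c5, c7, c9] at f1 f2 f3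
    clear c0 c1 c2 c3 c4 c5 c6 c7 c8 c9 c10 c11; grind
  have e10 : e 10 = 0 := by
    have f1 := h.p_1_10
    clear h; simp only [c1, c10] at f1
    clear c0 c1 c2 c3 c4 c5 c6 c7 c8 c9 c10 c11; grind
  have e11 : e 11 = e 1 * (-w ^ 2) := by
    have f1 := h.p_1_3
    have f2 := h.p_1_11
    clear h; simp only [c1, c3, c11] at f1 f2
    clear c0 c1 c2 c3 c4 c5 c6 c7 c8 c9 c10 c11; grind
  funext q
  fin_cases q
  · change e 0 = e 1 * c 0; rw [c0, mul_zero, e0]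
  · change e 1 = e 1 * c 1; rw [c1, mul_one]
  · change e 2 = e 1 * c 2; rw [c2, mul_zero, e2]
  · change e 3 = e 1 * c 3; rw [c3, e3]
  · change e 4 = e 1 * c 4; rw [c4, mul_zero, e4]
  · change e 5 = e 1 * c 5; rw [c5, mul_zero, e5]
  · change e 6 = e 1 * c 6; rw [c6, mul_zero, e6]
  · change e 7 = e 1 * c 7; rw [c7, mul_zero, e7]
  · change e 8 = e 1 * c 8; rw [c8, mul_zero, e8]
  · change e 9 = e 1 * c 9; rw [c9, mul_zero, e9]
  · change e 10 = e 1 * c 10; rw [c10, mul_zero, e10]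
  · change e 11 = e 1 * c 11; rw [c11, e11]

lemma ker_16 {w : k} (hw : w ^ 2 + w + 1 = 0) {e : Fin 12 → k} (h : Eqs w (Yv w 16) e) :
    e = e 1 • Yv w 16 := by
  have hwne : w ≠ 0 := by rintro rfl; norm_num at hw
  have c0 : Yv w 16 0 = 0 := rfl
  have c1 : Yv w 16 1 = 1 := rfl
  have c2 : Yv w 16 2 = 0 := rfl
  have c3 : Yv w 16 3 = 0 := rfl
  have c4 : Yv w 16 4 = 1 := rfl
  have c5 : Yv w 16 5 = 0 := rfl
  have c6 : Yv w 16 6 = w ^ 2 := rfl
  have c7 : Yv w 16 7 = 0 := rfl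
  have c8 : Yv w 16 8 = 0 := rfl
  have c9 : Yv w 16 9 = 0 := rfl
  have c10 : Yv w 16 10 = 0 := rfl
  have c11 : Yv w 16 11 = 0 := rfl
  generalize Yv w 16 = c at *
  have e0 : e 0 = 0 := by
    have f1 := h.p_0_1
    have f2 := h.p_0_2
    clear h; simp only [c0, c1, c2] at f1 f2
    clear c0 c1 c2 c3 c4 c5 c6 c7 c8 c9 c10 c11; grind
  have e2 : e 2 = 0 := by
    have f1 := h.p_0_1
    have f2 := h.p_0_2
    clear h; simp only [c0, c1, c2] at f1 f2
    clear c0 c1 c2 c3 c4 c5 c6 c7 c8 c9 c10 c11; grind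
  have e3 : e 3 = 0 := by
    have f1 := h.p_1_3
    have f2 := h.p_1_11
    clear h; simp only [c1, c3, c11] at f1 f2
    clear c0 c1 c2 c3 c4 c5 c6 c7 c8 c9 c10 c11; grind
  have e4 : e 4 = e 1 * 1 := by
    have f1 := h.p_1_4
    have f2 := h.p_1_6
    clear h; simp only [c1, c4, c6] at f1 f2
    clear c0 c1 c2 c3 c4 c5 c6 c7 c8 c9 c10 c11; grind
  have e5 : e 5 = 0 := by
    have f1 := h.p_1_5
    have f2 := h.p_1_7
    have f3 := h.p_1_9
    clear h; simp only [c1, c5, c7, c9] at f1 f2 f3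
    clear c0 c1 c2 c3 c4 c5 c6 c7 c8 c9 c10 c11; grind
  have e6 : e 6 = e 1 * w ^ 2 := by
    have f1 := h.p_1_4
    have f2 := h.p_1_6
    clear h; simp only [c1, c4, c6] at f1 f2
    clear c0 c1 c2 c3 c4 c5 c6 c7 c8 c9 c10 c11; grind
  have e7 : e 7 = 0 := by
    have f1 := h.p_1_5
    have f2 := h.p_1_7
    have f3 := h.p_1_9
    clear h; simp only [c1, c5, c7, c9] at f1 f2 f3
    clear c0 c1 c2 c3 c4 c5 c6 c7 c8 c9 c10 c11; grind
  have e8 : e 8 = 0 := by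
    have f1 := h.p_1_8
    clear h; simp only [c1, c8] at f1
    clear c0 c1 c2 c3 c4 c5 c6 c7 c8 c9 c10 c11; grind
  have e9 : e 9 = 0 := by
    have f1 := h.p_1_5
    have f2 := h.p_1_7
    have f3 := h.p_1_9
    clear h; simp only [c1, c5, c7, c9] at f1 f2 f3
    clear c0 c1 c2 c3 c4 c5 c6 c7 c8 c9 c10 c11; grind
  have e10 : e 10 = 0 := by
    have f1 := h.p_1_10
    clear h; simp only [c1, c10] at f1
    clear c0 c1 c2 c3 c4 c5 c6 c7 c8 c9 c10 c11; grind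
  have e11 : e 11 = 0 := by
    have f1 := h.p_1_3
    have f2 := h.p_1_11
    clear h; simp only [c1, c3, c11] at f1 f2
    clear c0 c1 c2 c3 c4 c5 c6 c7 c8 c9 c10 c11; grind
  funext q
  fin_cases q
  · change e 0 = e 1 * c 0; rw [c0, mul_zero, e0]
  · change e 1 = e 1 * c 1; rw [c1, mul_one]
  · change e 2 = e 1 * c 2; rw [c2, mul_zero, e2]
  · change e 3 = e 1 * c 3; rw [c3, mul_zero, e3]
  · change e 4 = e 1 * c 4; rw [c4, e4]
  · change e 5 = e 1 * c 5; rw [c5, mul_zero, e5]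
  · change e 6 = e 1 * c 6; rw [c6, e6]
  · change e 7 = e 1 * c 7; rw [c7, mul_zero, e7]
  · change e 8 = e 1 * c 8; rw [c8, mul_zero, e8]
  · change e 9 = e 1 * c 9; rw [c9, mul_zero, e9]
  · change e 10 = e 1 * c 10; rw [c10, mul_zero, e10]
  · change e 11 = e 1 * c 11; rw [c11, mul_zero, e11]

lemma ker_17 {w : k} (hw : w ^ 2 + w + 1 = 0) {e : Fin 12 → k} (h : Eqs w (Yv w 17) e) :
    e = e 2 • Yv w 17 := by
  have hwne : w ≠ 0 := by rintro rfl; norm_num at hw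
  have c0 : Yv w 17 0 = 0 := rfl
  have c1 : Yv w 17 1 = 0 := rfl
  have c2 : Yv w 17 2 = 1 := rfl
  have c3 : Yv w 17 3 = 0 := rfl
  have c4 : Yv w 17 4 = -w ^ 2 := rfl
  have c5 : Yv w 17 5 = 0 := rfl
  have c6 : Yv w 17 6 = 0 := rfl
  have c7 : Yv w 17 7 = 0 := rfl
  have c8 : Yv w 17 8 = 0 := rfl
  have c9 : Yv w 17 9 = -w := rfl
  have c10 : Yv w 17 10 = 0 := rfl
  have c11 : Yv w 17 11 = 0 := rfl
  generalize Yv w 17 = c at *
  have e0 : e 0 = 0 := by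
    have f1 := h.p_0_1
    have f2 := h.p_0_2
    clear h; simp only [c0, c1, c2] at f1 f2
    clear c0 c1 c2 c3 c4 c5 c6 c7 c8 c9 c10 c11; grind
  have e1 : e 1 = 0 := by
    have f1 := h.p_0_1
    have f2 := h.p_0_2
    clear h; simp only [c0, c1, c2] at f1 f2
    clear c0 c1 c2 c3 c4 c5 c6 c7 c8 c9 c10 c11; grind
  have e3 : e 3 = 0 := by
    have f1 := h.p_2_3
    have f2 := h.p_2_7
    have f3 := h.p_2_10
    clear h; simp only [c2, c3, c7, c10] at f1 f2 f3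
    clear c0 c1 c2 c3 c4 c5 c6 c7 c8 c9 c10 c11; grind
  have e4 : e 4 = e 2 * (-w ^ 2) := by
    have f1 := h.p_2_4
    have f2 := h.p_2_9
    clear h; simp only [c2, c4, c9] at f1 f2
    clear c0 c1 c2 c3 c4 c5 c6 c7 c8 c9 c10 c11; grind
  have e5 : e 5 = 0 := by
    have f1 := h.p_2_5
    have f2 := h.p_2_6
    clear h; simp only [c2, c5, c6] at f1 f2
    clear c0 c1 c2 c3 c4 c5 c6 c7 c8 c9 c10 c11; grind
  have e6 : e 6 = 0 := by
    have f1 := h.p_2_5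
    have f2 := h.p_2_6
    clear h; simp only [c2, c5, c6] at f1 f2
    clear c0 c1 c2 c3 c4 c5 c6 c7 c8 c9 c10 c11; grind
  have e7 : e 7 = 0 := by
    have f1 := h.p_2_3
    have f2 := h.p_2_7
    have f3 := h.p_2_10
    clear h; simp only [c2, c3, c7, c10] at f1 f2 f3
    clear c0 c1 c2 c3 c4 c5 c6 c7 c8 c9 c10 c11; grind
  have e8 : e 8 = 0 := by
    have f1 := h.p_2_8
    clear h; simp only [c2, c8] at f1
    clear c0 c1 c2 c3 c4 c5 c6 c7 c8 c9 c10 c11; grind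
  have e9 : e 9 = e 2 * (-w) := by
    have f1 := h.p_2_4
    have f2 := h.p_2_9
    clear h; simp only [c2, c4, c9] at f1 f2
    clear c0 c1 c2 c3 c4 c5 c6 c7 c8 c9 c10 c11; grind
  have e10 : e 10 = 0 := by
    have f1 := h.p_2_3
    have f2 := h.p_2_7
    have f3 := h.p_2_10
    clear h; simp only [c2, c3, c7, c10] at f1 f2 f3
    clear c0 c1 c2 c3 c4 c5 c6 c7 c8 c9 c10 c11; grind
  have e11 : e 11 = 0 := by
    have f1 := h.p_2_11
    clear h; simp only [c2, c11] at f1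
    clear c0 c1 c2 c3 c4 c5 c6 c7 c8 c9 c10 c11; grind
  funext q
  fin_cases q
  · change e 0 = e 2 * c 0; rw [c0, mul_zero, e0]
  · change e 1 = e 2 * c 1; rw [c1, mul_zero, e1]
  · change e 2 = e 2 * c 2; rw [c2, mul_one]
  · change e 3 = e 2 * c 3; rw [c3, mul_zero, e3]
  · change e 4 = e 2 * c 4; rw [c4, e4]
  · change e 5 = e 2 * c 5; rw [c5, mul_zero, e5]
  · change e 6 = e 2 * c 6; rw [c6, mul_zero, e6]
  · change e 7 = e 2 * c 7; rw [c7, mul_zero, e7]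
  · change e 8 = e 2 * c 8; rw [c8, mul_zero, e8]
  · change e 9 = e 2 * c 9; rw [c9, e9]
  · change e 10 = e 2 * c 10; rw [c10, mul_zero, e10]
  · change e 11 = e 2 * c 11; rw [c11, mul_zero, e11]

lemma ker_18 {w : k} (hw : w ^ 2 + w + 1 = 0) {e : Fin 12 → k} (h : Eqs w (Yv w 18) e) :
    e = e 2 • Yv w 18 := by
  have hwne : w ≠ 0 := by rintro rfl; norm_num at hw
  have c0 : Yv w 18 0 = 0 := rfl
  have c1 : Yv w 18 1 = 0 := rfl
  have c2 : Yv w 18 2 = 1 := rfl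
  have c3 : Yv w 18 3 = 0 := rfl
  have c4 : Yv w 18 4 = 0 := rfl
  have c5 : Yv w 18 5 = 1 := rfl
  have c6 : Yv w 18 6 = w := rfl
  have c7 : Yv w 18 7 = 0 := rfl
  have c8 : Yv w 18 8 = 0 := rfl
  have c9 : Yv w 18 9 = 0 := rfl
  have c10 : Yv w 18 10 = 0 := rfl
  have c11 : Yv w 18 11 = 0 := rfl
  generalize Yv w 18 = c at *
  have e0 : e 0 = 0 := by
    have f1 := h.p_0_1
    have f2 := h.p_0_2
    clear h; simp only [c0, c1, c2] at f1 f2
    clear c0 c1 c2 c3 c4 c5 c6 c7 c8 c9 c10 c11; grind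
  have e1 : e 1 = 0 := by
    have f1 := h.p_0_1
    have f2 := h.p_0_2
    clear h; simp only [c0, c1, c2] at f1 f2
    clear c0 c1 c2 c3 c4 c5 c6 c7 c8 c9 c10 c11; grind
  have e3 : e 3 = 0 := by
    have f1 := h.p_2_3
    have f2 := h.p_2_7
    have f3 := h.p_2_10
    clear h; simp only [c2, c3, c7, c10] at f1 f2 f3
    clear c0 c1 c2 c3 c4 c5 c6 c7 c8 c9 c10 c11; grind
  have e4 : e 4 = 0 := by
    have f1 := h.p_2_4
    have f2 := h.p_2_9
    clear h; simp only [c2, c4, c9] at f1 f2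
    clear c0 c1 c2 c3 c4 c5 c6 c7 c8 c9 c10 c11; grind
  have e5 : e 5 = e 2 * 1 := by
    have f1 := h.p_2_5
    have f2 := h.p_2_6
    clear h; simp only [c2, c5, c6] at f1 f2
    clear c0 c1 c2 c3 c4 c5 c6 c7 c8 c9 c10 c11; grind
  have e6 : e 6 = e 2 * w := by
    have f1 := h.p_2_5
    have f2 := h.p_2_6
    clear h; simp only [c2, c5, c6] at f1 f2
    clear c0 c1 c2 c3 c4 c5 c6 c7 c8 c9 c10 c11; grind
  have e7 : e 7 = 0 := by
    have f1 := h.p_2_3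
    have f2 := h.p_2_7
    have f3 := h.p_2_10
    clear h; simp only [c2, c3, c7, c10] at f1 f2 f3
    clear c0 c1 c2 c3 c4 c5 c6 c7 c8 c9 c10 c11; grind
  have e8 : e 8 = 0 := by
    have f1 := h.p_2_8
    clear h; simp only [c2, c8] at f1
    clear c0 c1 c2 c3 c4 c5 c6 c7 c8 c9 c10 c11; grind
  have e9 : e 9 = 0 := by
    have f1 := h.p_2_4
    have f2 := h.p_2_9
    clear h; simp only [c2, c4, c9] at f1 f2
    clear c0 c1 c2 c3 c4 c5 c6 c7 c8 c9 c10 c11; grind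
  have e10 : e 10 = 0 := by
    have f1 := h.p_2_3
    have f2 := h.p_2_7
    have f3 := h.p_2_10
    clear h; simp only [c2, c3, c7, c10] at f1 f2 f3
    clear c0 c1 c2 c3 c4 c5 c6 c7 c8 c9 c10 c11; grind
  have e11 : e 11 = 0 := by
    have f1 := h.p_2_11
    clear h; simp only [c2, c11] at f1
    clear c0 c1 c2 c3 c4 c5 c6 c7 c8 c9 c10 c11; grind
  funext q
  fin_cases q
  · change e 0 = e 2 * c 0; rw [c0, mul_zero, e0]
  · change e 1 = e 2 * c 1; rw [c1, mul_zero, e1]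
  · change e 2 = e 2 * c 2; rw [c2, mul_one]
  · change e 3 = e 2 * c 3; rw [c3, mul_zero, e3]
  · change e 4 = e 2 * c 4; rw [c4, mul_zero, e4]
  · change e 5 = e 2 * c 5; rw [c5, e5]
  · change e 6 = e 2 * c 6; rw [c6, e6]
  · change e 7 = e 2 * c 7; rw [c7, mul_zero, e7]
  · change e 8 = e 2 * c 8; rw [c8, mul_zero, e8]
  · change e 9 = e 2 * c 9; rw [c9, mul_zero, e9]
  · change e 10 = e 2 * c 10; rw [c10, mul_zero, e10]
  · change e 11 = e 2 * c 11; rw [c11, mul_zero, e11]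

lemma ker_19 {w : k} (hw : w ^ 2 + w + 1 = 0) {e : Fin 12 → k} (h : Eqs w (Yv w 19) e) :
    e = e 6 • Yv w 19 := by
  have hwne : w ≠ 0 := by rintro rfl; norm_num at hw
  have c0 : Yv w 19 0 = 0 := rfl
  have c1 : Yv w 19 1 = 0 := rfl
  have c2 : Yv w 19 2 = 0 := rfl
  have c3 : Yv w 19 3 = 0 := rfl
  have c4 : Yv w 19 4 = 0 := rfl
  have c5 : Yv w 19 5 = 0 := rfl
  have c6 : Yv w 19 6 = 1 := rfl
  have c7 : Yv w 19 7 = -w := rfl
  have c8 : Yv w 19 8 = -w := rfl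
  have c9 : Yv w 19 9 = 0 := rfl
  have c10 : Yv w 19 10 = 0 := rfl
  have c11 : Yv w 19 11 = 0 := rfl
  generalize Yv w 19 = c at *
  have e0 : e 0 = 0 := by
    have f1 := h.p_0_3
    have f2 := h.p_0_6
    clear h; simp only [c0, c3, c6] at f1 f2
    clear c0 c1 c2 c3 c4 c5 c6 c7 c8 c9 c10 c11; grind
  have e1 : e 1 = 0 := by
    have f1 := h.p_1_4
    have f2 := h.p_1_6
    clear h; simp only [c1, c4, c6] at f1 f2
    clear c0 c1 c2 c3 c4 c5 c6 c7 c8 c9 c10 c11; grind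
  have e2 : e 2 = 0 := by
    have f1 := h.p_2_5
    have f2 := h.p_2_6
    clear h; simp only [c2, c5, c6] at f1 f2
    clear c0 c1 c2 c3 c4 c5 c6 c7 c8 c9 c10 c11; grind
  have e3 : e 3 = 0 := by
    have f1 := h.p_0_3
    have f2 := h.p_0_6
    clear h; simp only [c0, c3, c6] at f1 f2
    clear c0 c1 c2 c3 c4 c5 c6 c7 c8 c9 c10 c11; grind
  have e4 : e 4 = 0 := by
    have f1 := h.p_1_4
    have f2 := h.p_1_6
    clear h; simp only [c1, c4, c6] at f1 f2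
    clear c0 c1 c2 c3 c4 c5 c6 c7 c8 c9 c10 c11; grind
  have e5 : e 5 = 0 := by
    have f1 := h.p_2_5
    have f2 := h.p_2_6
    clear h; simp only [c2, c5, c6] at f1 f2
    clear c0 c1 c2 c3 c4 c5 c6 c7 c8 c9 c10 c11; grind
  have e7 : e 7 = e 6 * (-w) := by
    have f1 := h.p_6_7
    have f2 := h.p_6_8
    clear h; simp only [c6, c7, c8] at f1 f2
    clear c0 c1 c2 c3 c4 c5 c6 c7 c8 c9 c10 c11; grind
  have e8 : e 8 = e 6 * (-w) := by
    have f1 := h.p_6_7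
    have f2 := h.p_6_8
    clear h; simp only [c6, c7, c8] at f1 f2
    clear c0 c1 c2 c3 c4 c5 c6 c7 c8 c9 c10 c11; grind
  have e9 : e 9 = 0 := by
    have f1 := h.p_6_9
    clear h; simp only [c6, c9] at f1
    clear c0 c1 c2 c3 c4 c5 c6 c7 c8 c9 c10 c11; grind
  have e10 : e 10 = 0 := by
    have f1 := h.p_6_10
    clear h; simp only [c6, c10] at f1
    clear c0 c1 c2 c3 c4 c5 c6 c7 c8 c9 c10 c11; grind
  have e11 : e 11 = 0 := by
    have f1 := h.p_6_11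
    clear h; simp only [c6, c11] at f1
    clear c0 c1 c2 c3 c4 c5 c6 c7 c8 c9 c10 c11; grind
  funext q
  fin_cases q
  · change e 0 = e 6 * c 0; rw [c0, mul_zero, e0]
  · change e 1 = e 6 * c 1; rw [c1, mul_zero, e1]
  · change e 2 = e 6 * c 2; rw [c2, mul_zero, e2]
  · change e 3 = e 6 * c 3; rw [c3, mul_zero, e3]
  · change e 4 = e 6 * c 4; rw [c4, mul_zero, e4]
  · change e 5 = e 6 * c 5; rw [c5, mul_zero, e5]
  · change e 6 = e 6 * c 6; rw [c6, mul_one]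
  · change e 7 = e 6 * c 7; rw [c7, e7]
  · change e 8 = e 6 * c 8; rw [c8, e8]
  · change e 9 = e 6 * c 9; rw [c9, mul_zero, e9]
  · change e 10 = e 6 * c 10; rw [c10, mul_zero, e10]
  · change e 11 = e 6 * c 11; rw [c11, mul_zero, e11]

lemma ker_20 {w : k} (hw : w ^ 2 + w + 1 = 0) {e : Fin 12 → k} (h : Eqs w (Yv w 20) e) :
    e = e 9 • Yv w 20 := by
  have hwne : w ≠ 0 := by rintro rfl; norm_num at hw
  have c0 : Yv w 20 0 = 0 := rfl
  have c1 : Yv w 20 1 = 0 := rfl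
  have c2 : Yv w 20 2 = 0 := rfl
  have c3 : Yv w 20 3 = 0 := rfl
  have c4 : Yv w 20 4 = 0 := rfl
  have c5 : Yv w 20 5 = 0 := rfl
  have c6 : Yv w 20 6 = 0 := rfl
  have c7 : Yv w 20 7 = 0 := rfl
  have c8 : Yv w 20 8 = 0 := rfl
  have c9 : Yv w 20 9 = 1 := rfl
  have c10 : Yv w 20 10 = w ^ 2 := rfl
  have c11 : Yv w 20 11 = w := rfl
  generalize Yv w 20 = c at *
  have e0 : e 0 = 0 := by
    have f1 := h.p_0_9
    clear h; simp only [c0, c9] at f1
    clear c0 c1 c2 c3 c4 c5 c6 c7 c8 c9 c10 c11; grind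
  have e1 : e 1 = 0 := by
    have f1 := h.p_1_5
    have f2 := h.p_1_7
    have f3 := h.p_1_9
    clear h; simp only [c1, c5, c7, c9] at f1 f2 f3
    clear c0 c1 c2 c3 c4 c5 c6 c7 c8 c9 c10 c11; grind
  have e2 : e 2 = 0 := by
    have f1 := h.p_2_4
    have f2 := h.p_2_9
    clear h; simp only [c2, c4, c9] at f1 f2
    clear c0 c1 c2 c3 c4 c5 c6 c7 c8 c9 c10 c11; grind
  have e3 : e 3 = 0 := by
    have f1 := h.p_3_9
    clear h; simp only [c3, c9] at f1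
    clear c0 c1 c2 c3 c4 c5 c6 c7 c8 c9 c10 c11; grind
  have e4 : e 4 = 0 := by
    have f1 := h.p_2_4
    have f2 := h.p_2_9
    clear h; simp only [c2, c4, c9] at f1 f2
    clear c0 c1 c2 c3 c4 c5 c6 c7 c8 c9 c10 c11; grind
  have e5 : e 5 = 0 := by
    have f1 := h.p_1_5
    have f2 := h.p_1_7
    have f3 := h.p_1_9
    clear h; simp only [c1, c5, c7, c9] at f1 f2 f3
    clear c0 c1 c2 c3 c4 c5 c6 c7 c8 c9 c10 c11; grind
  have e6 : e 6 = 0 := by
    have f1 := h.p_6_9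
    clear h; simp only [c6, c9] at f1
    clear c0 c1 c2 c3 c4 c5 c6 c7 c8 c9 c10 c11; grind
  have e7 : e 7 = 0 := by
    have f1 := h.p_1_5
    have f2 := h.p_1_7
    have f3 := h.p_1_9
    clear h; simp only [c1, c5, c7, c9] at f1 f2 f3
    clear c0 c1 c2 c3 c4 c5 c6 c7 c8 c9 c10 c11; grind
  have e8 : e 8 = 0 := by
    have f1 := h.p_8_9
    clear h; simp only [c8, c9] at f1
    clear c0 c1 c2 c3 c4 c5 c6 c7 c8 c9 c10 c11; grind
  have e10 : e 10 = e 9 * w ^ 2 := by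
    have f1 := h.p_9_10
    have f2 := h.p_9_11
    clear h; simp only [c9, c10, c11] at f1 f2
    clear c0 c1 c2 c3 c4 c5 c6 c7 c8 c9 c10 c11; grind
  have e11 : e 11 = e 9 * w := by
    have f1 := h.p_9_10
    have f2 := h.p_9_11
    clear h; simp only [c9, c10, c11] at f1 f2
    clear c0 c1 c2 c3 c4 c5 c6 c7 c8 c9 c10 c11; grind
  funext q
  fin_cases q
  · change e 0 = e 9 * c 0; rw [c0, mul_zero, e0]
  · change e 1 = e 9 * c 1; rw [c1, mul_zero, e1]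
  · change e 2 = e 9 * c 2; rw [c2, mul_zero, e2]
  · change e 3 = e 9 * c 3; rw [c3, mul_zero, e3]
  · change e 4 = e 9 * c 4; rw [c4, mul_zero, e4]
  · change e 5 = e 9 * c 5; rw [c5, mul_zero, e5]
  · change e 6 = e 9 * c 6; rw [c6, mul_zero, e6]
  · change e 7 = e 9 * c 7; rw [c7, mul_zero, e7]
  · change e 8 = e 9 * c 8; rw [c8, mul_zero, e8]
  · change e 9 = e 9 * c 9; rw [c9, mul_one]
  · change e 10 = e 9 * c 10; rw [c10, e10]
  · change e 11 = e 9 * c 11; rw [c11, e11]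

lemma ker_all {w : k} (hw : w ^ 2 + w + 1 = 0) (τ : Fin 21) {e : Fin 12 → k}
    (h : Eqs w (Yv w τ) e) : ∃ t : k, e = t • Yv w τ := by
  fin_cases τ
  · exact ⟨_, ker_0 hw h⟩
  · exact ⟨_, ker_1 hw h⟩
  · exact ⟨_, ker_2 hw h⟩
  · exact ⟨_, ker_3 hw h⟩
  · exact ⟨_, ker_4 hw h⟩
  · exact ⟨_, ker_5 hw h⟩
  · exact ⟨_, ker_6 hw h⟩
  · exact ⟨_, ker_7 hw h⟩
  · exact ⟨_, ker_8 hw h⟩
  · exact ⟨_, ker_9 hw h⟩
  · exact ⟨_, ker_10 hw h⟩
  · exact ⟨_, ker_11 hw h⟩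
  · exact ⟨_, ker_12 hw h⟩
  · exact ⟨_, ker_13 hw h⟩
  · exact ⟨_, ker_14 hw h⟩
  · exact ⟨_, ker_15 hw h⟩
  · exact ⟨_, ker_16 hw h⟩
  · exact ⟨_, ker_17 hw h⟩
  · exact ⟨_, ker_18 hw h⟩
  · exact ⟨_, ker_19 hw h⟩
  · exact ⟨_, ker_20 hw h⟩

end Pool.H7.HilbEx
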