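import Pool.Agent.H7.HilbEx5

set_option autoImplicit false
set_option linter.unusedSimpArgs false
set_option linter.unusedVariables false
set_option linter.unusedSectionVars false

namespace Pool.H7.HilbEx

variable {k : Type*} [Field k]

lemma ext12 {c d : Fin 12 → k} (h0 : c 0 = d 0) (h1 : c 1 = d 1) (h2 : c 2 = d 2) (h3 : c 3 = d 3) (h4 : c 4 = d 4) (h5 : c 5 = d 5) (h6 : c 6 = d 6) (h7 : c 7 = d 7) (h8 : c 8 = d 8) (h9 : c 9 = d 9) (h10 : c 10 = d 10) (h11 : c 11 = d 11) : c = d := by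
  funext q
  fin_cases q
  · exact h0
  · exact h1
  · exact h2
  · exact h3
  · exact h4
  · exact h5
  · exact h6
  · exact h7
  · exact h8
  · exact h9
  · exact h10
  · exact h11

lemma zero_of {b : Bool} {a : k} (h : b = true ↔ a ≠ 0) (hb : b = false) : a = 0 := by
  by_contra hne
  rw [h.mpr hne] at hb
  exact Bool.noConfusion hb

lemma ne_of {b : Bool} {a : k} (h : b = true ↔ a ≠ 0) (hb : b = true) : a ≠ 0 := h.mp hb

/-- two vectors in the plane `W_M` of the line (0, 4, 7, 11) have product zero -/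
lemma plane_0 {w : k} {c e : Fin 12 → k} (c1 : c 1 = 0) (c2 : c 2 = 0) (c3 : c 3 = 0) (c5 : c 5 = 0) (c6 : c 6 = 0) (c8 : c 8 = 0) (c9 : c 9 = 0) (c10 : c 10 = 0)
    (e1 : e 1 = 0) (e2 : e 2 = 0) (e3 : e 3 = 0) (e5 : e 5 = 0) (e6 : e 6 = 0) (e8 : e 8 = 0) (e9 : e 9 = 0) (e10 : e 10 = 0)
    (l1 : c 0 = w ^ 2 * c 7 + (-1) * c 11) (l2 : c 0 = w * c 4 + w * c 11)
    (l3 : c 0 = (-w ^ 2) * c 4 + (-w) * c 7)
    (r1 : e 0 = w ^ 2 * e 7 + (-1) * e 11) (r2 : e 0 = w * e 4 + w * e 11)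
    (r3 : e 0 = (-w ^ 2) * e 4 + (-w) * e 7) : Eqs w c e where
  p_0_1 := by simp only [c1, e1, c2, e2, c3, e3, c5, e5, c6, e6, c8, e8, c9, e9, c10, e10, mul_zero, zero_mul, add_zero, sub_zero]
  p_0_2 := by simp only [c1, e1, c2, e2, c3, e3, c5, e5, c6, e6, c8, e8, c9, e9, c10, e10, mul_zero, zero_mul, add_zero, sub_zero]
  p_0_3 := by simp only [c1, e1, c2, e2, c3, e3, c5, e5, c6, e6, c8, e8, c9, e9, c10, e10, mul_zero, zero_mul, add_zero, sub_zero]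
  p_0_4 := by linear_combination c 4 * r1 + e 4 * l1
  p_0_5 := by simp only [c1, e1, c2, e2, c3, e3, c5, e5, c6, e6, c8, e8, c9, e9, c10, e10, mul_zero, zero_mul, add_zero, sub_zero]
  p_0_6 := by simp only [c1, e1, c2, e2, c3, e3, c5, e5, c6, e6, c8, e8, c9, e9, c10, e10, mul_zero, zero_mul, add_zero, sub_zero]
  p_0_7 := by linear_combination c 7 * r2 + e 7 * l2
  p_0_8 := by simp only [c1, e1, c2, e2, c3, e3, c5, e5, c6, e6, c8, e8, c9, e9, c10, e10, mul_zero, zero_mul, add_zero, sub_zero]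
  p_0_9 := by simp only [c1, e1, c2, e2, c3, e3, c5, e5, c6, e6, c8, e8, c9, e9, c10, e10, mul_zero, zero_mul, add_zero, sub_zero]
  p_0_10 := by simp only [c1, e1, c2, e2, c3, e3, c5, e5, c6, e6, c8, e8, c9, e9, c10, e10, mul_zero, zero_mul, add_zero, sub_zero]
  p_0_11 := by linear_combination c 11 * r3 + e 11 * l3
  p_1_3 := by simp only [c1, e1, c2, e2, c3, e3, c5, e5, c6, e6, c8, e8, c9, e9, c10, e10, mul_zero, zero_mul, add_zero, sub_zero]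
  p_1_4 := by simp only [c1, e1, c2, e2, c3, e3, c5, e5, c6, e6, c8, e8, c9, e9, c10, e10, mul_zero, zero_mul, add_zero, sub_zero]
  p_1_5 := by simp only [c1, e1, c2, e2, c3, e3, c5, e5, c6, e6, c8, e8, c9, e9, c10, e10, mul_zero, zero_mul, add_zero, sub_zero]
  p_1_6 := by simp only [c1, e1, c2, e2, c3, e3, c5, e5, c6, e6, c8, e8, c9, e9, c10, e10, mul_zero, zero_mul, add_zero, sub_zero]
  p_1_7 := by simp only [c1, e1, c2, e2, c3, e3, c5, e5, c6, e6, c8, e8, c9, e9, c10, e10, mul_zero, zero_mul, add_zero, sub_zero]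
  p_1_8 := by simp only [c1, e1, c2, e2, c3, e3, c5, e5, c6, e6, c8, e8, c9, e9, c10, e10, mul_zero, zero_mul, add_zero, sub_zero]
  p_1_9 := by simp only [c1, e1, c2, e2, c3, e3, c5, e5, c6, e6, c8, e8, c9, e9, c10, e10, mul_zero, zero_mul, add_zero, sub_zero]
  p_1_10 := by simp only [c1, e1, c2, e2, c3, e3, c5, e5, c6, e6, c8, e8, c9, e9, c10, e10, mul_zero, zero_mul, add_zero, sub_zero]
  p_1_11 := by simp only [c1, e1, c2, e2, c3, e3, c5, e5, c6, e6, c8, e8, c9, e9, c10, e10, mul_zero, zero_mul, add_zero, sub_zero]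
  p_2_3 := by simp only [c1, e1, c2, e2, c3, e3, c5, e5, c6, e6, c8, e8, c9, e9, c10, e10, mul_zero, zero_mul, add_zero, sub_zero]
  p_2_4 := by simp only [c1, e1, c2, e2, c3, e3, c5, e5, c6, e6, c8, e8, c9, e9, c10, e10, mul_zero, zero_mul, add_zero, sub_zero]
  p_2_5 := by simp only [c1, e1, c2, e2, c3, e3, c5, e5, c6, e6, c8, e8, c9, e9, c10, e10, mul_zero, zero_mul, add_zero, sub_zero]
  p_2_6 := by simp only [c1, e1, c2, e2, c3, e3, c5, e5, c6, e6, c8, e8, c9, e9, c10, e10, mul_zero, zero_mul, add_zero, sub_zero]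
  p_2_7 := by simp only [c1, e1, c2, e2, c3, e3, c5, e5, c6, e6, c8, e8, c9, e9, c10, e10, mul_zero, zero_mul, add_zero, sub_zero]
  p_2_8 := by simp only [c1, e1, c2, e2, c3, e3, c5, e5, c6, e6, c8, e8, c9, e9, c10, e10, mul_zero, zero_mul, add_zero, sub_zero]
  p_2_9 := by simp only [c1, e1, c2, e2, c3, e3, c5, e5, c6, e6, c8, e8, c9, e9, c10, e10, mul_zero, zero_mul, add_zero, sub_zero]
  p_2_10 := by simp only [c1, e1, c2, e2, c3, e3, c5, e5, c6, e6, c8, e8, c9, e9, c10, e10, mul_zero, zero_mul, add_zero, sub_zero]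
  p_2_11 := by simp only [c1, e1, c2, e2, c3, e3, c5, e5, c6, e6, c8, e8, c9, e9, c10, e10, mul_zero, zero_mul, add_zero, sub_zero]
  p_3_4 := by simp only [c1, e1, c2, e2, c3, e3, c5, e5, c6, e6, c8, e8, c9, e9, c10, e10, mul_zero, zero_mul, add_zero, sub_zero]
  p_3_5 := by simp only [c1, e1, c2, e2, c3, e3, c5, e5, c6, e6, c8, e8, c9, e9, c10, e10, mul_zero, zero_mul, add_zero, sub_zero]
  p_3_8 := by simp only [c1, e1, c2, e2, c3, e3, c5, e5, c6, e6, c8, e8, c9, e9, c10, e10, mul_zero, zero_mul, add_zero, sub_zero]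
  p_3_9 := by simp only [c1, e1, c2, e2, c3, e3, c5, e5, c6, e6, c8, e8, c9, e9, c10, e10, mul_zero, zero_mul, add_zero, sub_zero]
  p_4_10 := by simp only [c1, e1, c2, e2, c3, e3, c5, e5, c6, e6, c8, e8, c9, e9, c10, e10, mul_zero, zero_mul, add_zero, sub_zero]
  p_5_11 := by simp only [c1, e1, c2, e2, c3, e3, c5, e5, c6, e6, c8, e8, c9, e9, c10, e10, mul_zero, zero_mul, add_zero, sub_zero]
  p_6_7 := by simp only [c1, e1, c2, e2, c3, e3, c5, e5, c6, e6, c8, e8, c9, e9, c10, e10, mul_zero, zero_mul, add_zero, sub_zero]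
  p_6_8 := by simp only [c1, e1, c2, e2, c3, e3, c5, e5, c6, e6, c8, e8, c9, e9, c10, e10, mul_zero, zero_mul, add_zero, sub_zero]
  p_6_9 := by simp only [c1, e1, c2, e2, c3, e3, c5, e5, c6, e6, c8, e8, c9, e9, c10, e10, mul_zero, zero_mul, add_zero, sub_zero]
  p_6_10 := by simp only [c1, e1, c2, e2, c3, e3, c5, e5, c6, e6, c8, e8, c9, e9, c10, e10, mul_zero, zero_mul, add_zero, sub_zero]
  p_6_11 := by simp only [c1, e1, c2, e2, c3, e3, c5, e5, c6, e6, c8, e8, c9, e9, c10, e10, mul_zero, zero_mul, add_zero, sub_zero]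
  p_8_9 := by simp only [c1, e1, c2, e2, c3, e3, c5, e5, c6, e6, c8, e8, c9, e9, c10, e10, mul_zero, zero_mul, add_zero, sub_zero]
  p_8_10 := by simp only [c1, e1, c2, e2, c3, e3, c5, e5, c6, e6, c8, e8, c9, e9, c10, e10, mul_zero, zero_mul, add_zero, sub_zero]
  p_8_11 := by simp only [c1, e1, c2, e2, c3, e3, c5, e5, c6, e6, c8, e8, c9, e9, c10, e10, mul_zero, zero_mul, add_zero, sub_zero]
  p_9_10 := by simp only [c1, e1, c2, e2, c3, e3, c5, e5, c6, e6, c8, e8, c9, e9, c10, e10, mul_zero, zero_mul, add_zero, sub_zero]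
  p_9_11 := by simp only [c1, e1, c2, e2, c3, e3, c5, e5, c6, e6, c8, e8, c9, e9, c10, e10, mul_zero, zero_mul, add_zero, sub_zero]

lemma no_plane_0 {w : k} (hw : w ^ 2 + w + 1 = 0) (h2 : (2 : k) ≠ 0) {c : Fin 12 → k} (h : Eqs w c c)
    (hker : ∀ e, Eqs w c e → ∃ t : k, e = t • c) (z1 : c 1 = 0) (z2 : c 2 = 0) (z3 : c 3 = 0) (z5 : c 5 = 0) (z6 : c 6 = 0) (z8 : c 8 = 0) (z9 : c 9 = 0) (z10 : c 10 = 0)
    (hmaj : (c 0 ≠ 0 ∧ c 4 ≠ 0 ∧ c 7 ≠ 0) ∨ (c 0 ≠ 0 ∧ c 4 ≠ 0 ∧ c 11 ≠ 0) ∨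
      (c 0 ≠ 0 ∧ c 7 ≠ 0 ∧ c 11 ≠ 0) ∨ (c 4 ≠ 0 ∧ c 7 ≠ 0 ∧ c 11 ≠ 0)) : False := by
  have hwne : w ≠ 0 := by rintro rfl; norm_num at hw
  have e1 := h.p_0_4
  have e2 := h.p_0_7
  have e3 := h.p_0_11
  have l123 : c 0 = w ^ 2 * c 7 + (-1) * c 11 ∧ c 0 = w * c 4 + w * c 11 ∧
      c 0 = (-w ^ 2) * c 4 + (-w) * c 7 := by
    clear hker h
    rcases hmaj with ⟨h3, h4, h5⟩ | ⟨h3, h4, h5⟩ | ⟨h3, h4, h5⟩ | ⟨h3, h4, h5⟩
    · have l1 : c 0 = w ^ 2 * c 7 + (-1) * c 11 := by grind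
      have l2 : c 0 = w * c 4 + w * c 11 := by grind
      exact ⟨l1, l2, by grind⟩
    · have l1 : c 0 = w ^ 2 * c 7 + (-1) * c 11 := by grind
      have l3 : c 0 = (-w ^ 2) * c 4 + (-w) * c 7 := by grind
      exact ⟨l1, by grind, l3⟩
    · have l2 : c 0 = w * c 4 + w * c 11 := by grind
      have l3 : c 0 = (-w ^ 2) * c 4 + (-w) * c 7 := by grind
      exact ⟨by grind, l2, l3⟩
    · have l1 : c 0 = w ^ 2 * c 7 + (-1) * c 11 := by grind
      have l2 : c 0 = w * c 4 + w * c 11 := by grind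
      have l3 : c 0 = (-w ^ 2) * c 4 + (-w) * c 7 := by grind
      exact ⟨l1, l2, l3⟩
  obtain ⟨l1, l2, l3⟩ := l123
  obtain ⟨t1, ht1⟩ := hker ![0, 0, 0, 0, -1, 0, 0, w, 0, 0, 0, 1] (plane_0 z1 z2 z3 z5 z6 z8 z9 z10 rfl rfl rfl rfl rfl rfl rfl rfl l1 l2 l3
    (show (0 : k) = w ^ 2 * (w) + (-1) * 1 by clear e1 e2 e3 hker hmaj l1 l2 l3 h; grind)
    (show (0 : k) = w * (-1) + w * 1 by clear e1 e2 e3 hker hmaj l1 l2 l3 h; grind)
    (show (0 : k) = (-w ^ 2) * (-1) + (-w) * (w) by clear e1 e2 e3 hker hmaj l1 l2 l3 h; grind))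
  obtain ⟨t2, ht2⟩ := hker ![w, 0, 0, 0, 0, 0, 0, (w ^ 2 - (-w)), 0, 0, 0, 1] (plane_0 z1 z2 z3 z5 z6 z8 z9 z10 rfl rfl rfl rfl rfl rfl rfl rfl l1 l2 l3
    (show (w : k) = w ^ 2 * ((w ^ 2 - (-w))) + (-1) * 1 by clear e1 e2 e3 hker hmaj l1 l2 l3 h; grind)
    (show (w : k) = w * 0 + w * 1 by clear e1 e2 e3 hker hmaj l1 l2 l3 h; grind)
    (show (w : k) = (-w ^ 2) * 0 + (-w) * ((w ^ 2 - (-w))) by clear e1 e2 e3 hker hmaj l1 l2 l3 h; grind))
  have u1 : (1 : k) = t1 * c 11 := congrFun ht1 11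
  have u2 : (0 : k) = t1 * c 0 := congrFun ht1 0
  have u3 : (1 : k) = t2 * c 11 := congrFun ht2 11
  have u4 : (0 : k) = t2 * c 4 := congrFun ht2 4
  have v1 : c 0 = 0 := by
    rcases mul_eq_zero.mp u2.symm with h0 | h0
    · rw [h0, zero_mul] at u1; exact absurd u1 one_ne_zero
    · exact h0
  have v2 : c 4 = 0 := by
    rcases mul_eq_zero.mp u4.symm with h0 | h0
    · rw [h0, zero_mul] at u3; exact absurd u3 one_ne_zero
    · exact h0
  rcases hmaj with ⟨h3, h4, h5⟩ | ⟨h3, h4, h5⟩ | ⟨h3, h4, h5⟩ | ⟨h3, h4, h5⟩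
  · exact h3 v1
  · exact h3 v1
  · exact h3 v1
  · exact h3 v2

/-- two vectors in the plane `W_M` of the line (1, 5, 7, 9) have product zero -/
lemma plane_1 {w : k} {c e : Fin 12 → k} (c0 : c 0 = 0) (c2 : c 2 = 0) (c3 : c 3 = 0) (c4 : c 4 = 0) (c6 : c 6 = 0) (c8 : c 8 = 0) (c10 : c 10 = 0) (c11 : c 11 = 0)
    (e0 : e 0 = 0) (e2 : e 2 = 0) (e3 : e 3 = 0) (e4 : e 4 = 0) (e6 : e 6 = 0) (e8 : e 8 = 0) (e10 : e 10 = 0) (e11 : e 11 = 0)
    (l1 : c 1 = 1 * c 7 + (-w) * c 9) (l2 : c 1 = w * c 5 + w ^ 2 * c 9)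
    (l3 : c 1 = (-w ^ 2) * c 5 + (-w ^ 2) * c 7)
    (r1 : e 1 = 1 * e 7 + (-w) * e 9) (r2 : e 1 = w * e 5 + w ^ 2 * e 9)
    (r3 : e 1 = (-w ^ 2) * e 5 + (-w ^ 2) * e 7) : Eqs w c e where
  p_0_1 := by simp only [c0, e0, c2, e2, c3, e3, c4, e4, c6, e6, c8, e8, c10, e10, c11, e11, mul_zero, zero_mul, add_zero, sub_zero]
  p_0_2 := by simp only [c0, e0, c2, e2, c3, e3, c4, e4, c6, e6, c8, e8, c10, e10, c11, e11, mul_zero, zero_mul, add_zero, sub_zero]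
  p_0_3 := by simp only [c0, e0, c2, e2, c3, e3, c4, e4, c6, e6, c8, e8, c10, e10, c11, e11, mul_zero, zero_mul, add_zero, sub_zero]
  p_0_4 := by simp only [c0, e0, c2, e2, c3, e3, c4, e4, c6, e6, c8, e8, c10, e10, c11, e11, mul_zero, zero_mul, add_zero, sub_zero]
  p_0_5 := by simp only [c0, e0, c2, e2, c3, e3, c4, e4, c6, e6, c8, e8, c10, e10, c11, e11, mul_zero, zero_mul, add_zero, sub_zero]
  p_0_6 := by simp only [c0, e0, c2, e2, c3, e3, c4, e4, c6, e6, c8, e8, c10, e10, c11, e11, mul_zero, zero_mul, add_zero, sub_zero]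
  p_0_7 := by simp only [c0, e0, c2, e2, c3, e3, c4, e4, c6, e6, c8, e8, c10, e10, c11, e11, mul_zero, zero_mul, add_zero, sub_zero]
  p_0_8 := by simp only [c0, e0, c2, e2, c3, e3, c4, e4, c6, e6, c8, e8, c10, e10, c11, e11, mul_zero, zero_mul, add_zero, sub_zero]
  p_0_9 := by simp only [c0, e0, c2, e2, c3, e3, c4, e4, c6, e6, c8, e8, c10, e10, c11, e11, mul_zero, zero_mul, add_zero, sub_zero]
  p_0_10 := by simp only [c0, e0, c2, e2, c3, e3, c4, e4, c6, e6, c8, e8, c10, e10, c11, e11, mul_zero, zero_mul, add_zero, sub_zero]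
  p_0_11 := by simp only [c0, e0, c2, e2, c3, e3, c4, e4, c6, e6, c8, e8, c10, e10, c11, e11, mul_zero, zero_mul, add_zero, sub_zero]
  p_1_3 := by simp only [c0, e0, c2, e2, c3, e3, c4, e4, c6, e6, c8, e8, c10, e10, c11, e11, mul_zero, zero_mul, add_zero, sub_zero]
  p_1_4 := by simp only [c0, e0, c2, e2, c3, e3, c4, e4, c6, e6, c8, e8, c10, e10, c11, e11, mul_zero, zero_mul, add_zero, sub_zero]
  p_1_5 := by linear_combination c 5 * r1 + e 5 * l1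
  p_1_6 := by simp only [c0, e0, c2, e2, c3, e3, c4, e4, c6, e6, c8, e8, c10, e10, c11, e11, mul_zero, zero_mul, add_zero, sub_zero]
  p_1_7 := by linear_combination c 7 * r2 + e 7 * l2
  p_1_8 := by simp only [c0, e0, c2, e2, c3, e3, c4, e4, c6, e6, c8, e8, c10, e10, c11, e11, mul_zero, zero_mul, add_zero, sub_zero]
  p_1_9 := by linear_combination c 9 * r3 + e 9 * l3
  p_1_10 := by simp only [c0, e0, c2, e2, c3, e3, c4, e4, c6, e6, c8, e8, c10, e10, c11, e11, mul_zero, zero_mul, add_zero, sub_zero]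
  p_1_11 := by simp only [c0, e0, c2, e2, c3, e3, c4, e4, c6, e6, c8, e8, c10, e10, c11, e11, mul_zero, zero_mul, add_zero, sub_zero]
  p_2_3 := by simp only [c0, e0, c2, e2, c3, e3, c4, e4, c6, e6, c8, e8, c10, e10, c11, e11, mul_zero, zero_mul, add_zero, sub_zero]
  p_2_4 := by simp only [c0, e0, c2, e2, c3, e3, c4, e4, c6, e6, c8, e8, c10, e10, c11, e11, mul_zero, zero_mul, add_zero, sub_zero]
  p_2_5 := by simp only [c0, e0, c2, e2, c3, e3, c4, e4, c6, e6, c8, e8, c10, e10, c11, e11, mul_zero, zero_mul, add_zero, sub_zero]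
  p_2_6 := by simp only [c0, e0, c2, e2, c3, e3, c4, e4, c6, e6, c8, e8, c10, e10, c11, e11, mul_zero, zero_mul, add_zero, sub_zero]
  p_2_7 := by simp only [c0, e0, c2, e2, c3, e3, c4, e4, c6, e6, c8, e8, c10, e10, c11, e11, mul_zero, zero_mul, add_zero, sub_zero]
  p_2_8 := by simp only [c0, e0, c2, e2, c3, e3, c4, e4, c6, e6, c8, e8, c10, e10, c11, e11, mul_zero, zero_mul, add_zero, sub_zero]
  p_2_9 := by simp only [c0, e0, c2, e2, c3, e3, c4, e4, c6, e6, c8, e8, c10, e10, c11, e11, mul_zero, zero_mul, add_zero, sub_zero]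
  p_2_10 := by simp only [c0, e0, c2, e2, c3, e3, c4, e4, c6, e6, c8, e8, c10, e10, c11, e11, mul_zero, zero_mul, add_zero, sub_zero]
  p_2_11 := by simp only [c0, e0, c2, e2, c3, e3, c4, e4, c6, e6, c8, e8, c10, e10, c11, e11, mul_zero, zero_mul, add_zero, sub_zero]
  p_3_4 := by simp only [c0, e0, c2, e2, c3, e3, c4, e4, c6, e6, c8, e8, c10, e10, c11, e11, mul_zero, zero_mul, add_zero, sub_zero]
  p_3_5 := by simp only [c0, e0, c2, e2, c3, e3, c4, e4, c6, e6, c8, e8, c10, e10, c11, e11, mul_zero, zero_mul, add_zero, sub_zero]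
  p_3_8 := by simp only [c0, e0, c2, e2, c3, e3, c4, e4, c6, e6, c8, e8, c10, e10, c11, e11, mul_zero, zero_mul, add_zero, sub_zero]
  p_3_9 := by simp only [c0, e0, c2, e2, c3, e3, c4, e4, c6, e6, c8, e8, c10, e10, c11, e11, mul_zero, zero_mul, add_zero, sub_zero]
  p_4_10 := by simp only [c0, e0, c2, e2, c3, e3, c4, e4, c6, e6, c8, e8, c10, e10, c11, e11, mul_zero, zero_mul, add_zero, sub_zero]
  p_5_11 := by simp only [c0, e0, c2, e2, c3, e3, c4, e4, c6, e6, c8, e8, c10, e10, c11, e11, mul_zero, zero_mul, add_zero, sub_zero]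
  p_6_7 := by simp only [c0, e0, c2, e2, c3, e3, c4, e4, c6, e6, c8, e8, c10, e10, c11, e11, mul_zero, zero_mul, add_zero, sub_zero]
  p_6_8 := by simp only [c0, e0, c2, e2, c3, e3, c4, e4, c6, e6, c8, e8, c10, e10, c11, e11, mul_zero, zero_mul, add_zero, sub_zero]
  p_6_9 := by simp only [c0, e0, c2, e2, c3, e3, c4, e4, c6, e6, c8, e8, c10, e10, c11, e11, mul_zero, zero_mul, add_zero, sub_zero]
  p_6_10 := by simp only [c0, e0, c2, e2, c3, e3, c4, e4, c6, e6, c8, e8, c10, e10, c11, e11, mul_zero, zero_mul, add_zero, sub_zero]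
  p_6_11 := by simp only [c0, e0, c2, e2, c3, e3, c4, e4, c6, e6, c8, e8, c10, e10, c11, e11, mul_zero, zero_mul, add_zero, sub_zero]
  p_8_9 := by simp only [c0, e0, c2, e2, c3, e3, c4, e4, c6, e6, c8, e8, c10, e10, c11, e11, mul_zero, zero_mul, add_zero, sub_zero]
  p_8_10 := by simp only [c0, e0, c2, e2, c3, e3, c4, e4, c6, e6, c8, e8, c10, e10, c11, e11, mul_zero, zero_mul, add_zero, sub_zero]
  p_8_11 := by simp only [c0, e0, c2, e2, c3, e3, c4, e4, c6, e6, c8, e8, c10, e10, c11, e11, mul_zero, zero_mul, add_zero, sub_zero]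
  p_9_10 := by simp only [c0, e0, c2, e2, c3, e3, c4, e4, c6, e6, c8, e8, c10, e10, c11, e11, mul_zero, zero_mul, add_zero, sub_zero]
  p_9_11 := by simp only [c0, e0, c2, e2, c3, e3, c4, e4, c6, e6, c8, e8, c10, e10, c11, e11, mul_zero, zero_mul, add_zero, sub_zero]

lemma no_plane_1 {w : k} (hw : w ^ 2 + w + 1 = 0) (h2 : (2 : k) ≠ 0) {c : Fin 12 → k} (h : Eqs w c c)
    (hker : ∀ e, Eqs w c e → ∃ t : k, e = t • c) (z0 : c 0 = 0) (z2 : c 2 = 0) (z3 : c 3 = 0) (z4 : c 4 = 0) (z6 : c 6 = 0) (z8 : c 8 = 0) (z10 : c 10 = 0) (z11 : c 11 = 0)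
    (hmaj : (c 1 ≠ 0 ∧ c 5 ≠ 0 ∧ c 7 ≠ 0) ∨ (c 1 ≠ 0 ∧ c 5 ≠ 0 ∧ c 9 ≠ 0) ∨
      (c 1 ≠ 0 ∧ c 7 ≠ 0 ∧ c 9 ≠ 0) ∨ (c 5 ≠ 0 ∧ c 7 ≠ 0 ∧ c 9 ≠ 0)) : False := by
  have hwne : w ≠ 0 := by rintro rfl; norm_num at hw
  have e1 := h.p_1_5
  have e2 := h.p_1_7
  have e3 := h.p_1_9
  have l123 : c 1 = 1 * c 7 + (-w) * c 9 ∧ c 1 = w * c 5 + w ^ 2 * c 9 ∧
      c 1 = (-w ^ 2) * c 5 + (-w ^ 2) * c 7 := by
    clear hker h
    rcases hmaj with ⟨h3, h4, h5⟩ | ⟨h3, h4, h5⟩ | ⟨h3, h4, h5⟩ | ⟨h3, h4, h5⟩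
    · have l1 : c 1 = 1 * c 7 + (-w) * c 9 := by grind
      have l2 : c 1 = w * c 5 + w ^ 2 * c 9 := by grind
      exact ⟨l1, l2, by grind⟩
    · have l1 : c 1 = 1 * c 7 + (-w) * c 9 := by grind
      have l3 : c 1 = (-w ^ 2) * c 5 + (-w ^ 2) * c 7 := by grind
      exact ⟨l1, by grind, l3⟩
    · have l2 : c 1 = w * c 5 + w ^ 2 * c 9 := by grind
      have l3 : c 1 = (-w ^ 2) * c 5 + (-w ^ 2) * c 7 := by grind
      exact ⟨by grind, l2, l3⟩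
    · have l1 : c 1 = 1 * c 7 + (-w) * c 9 := by grind
      have l2 : c 1 = w * c 5 + w ^ 2 * c 9 := by grind
      have l3 : c 1 = (-w ^ 2) * c 5 + (-w ^ 2) * c 7 := by grind
      exact ⟨l1, l2, l3⟩
  obtain ⟨l1, l2, l3⟩ := l123
  obtain ⟨t1, ht1⟩ := hker ![0, 0, 0, 0, 0, -w, 0, w, 0, 1, 0, 0] (plane_1 z0 z2 z3 z4 z6 z8 z10 z11 rfl rfl rfl rfl rfl rfl rfl rfl l1 l2 l3
    (show (0 : k) = 1 * (w) + (-w) * 1 by clear e1 e2 e3 hker hmaj l1 l2 l3 h; grind)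
    (show (0 : k) = w * (-w) + w ^ 2 * 1 by clear e1 e2 e3 hker hmaj l1 l2 l3 h; grind)
    (show (0 : k) = (-w ^ 2) * (-w) + (-w ^ 2) * (w) by clear e1 e2 e3 hker hmaj l1 l2 l3 h; grind))
  obtain ⟨t2, ht2⟩ := hker ![0, w ^ 2, 0, 0, 0, 0, 0, (w ^ 2 - (-w)), 0, 1, 0, 0] (plane_1 z0 z2 z3 z4 z6 z8 z10 z11 rfl rfl rfl rfl rfl rfl rfl rfl l1 l2 l3
    (show (w ^ 2 : k) = 1 * ((w ^ 2 - (-w))) + (-w) * 1 by clear e1 e2 e3 hker hmaj l1 l2 l3 h; grind)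
    (show (w ^ 2 : k) = w * 0 + w ^ 2 * 1 by clear e1 e2 e3 hker hmaj l1 l2 l3 h; grind)
    (show (w ^ 2 : k) = (-w ^ 2) * 0 + (-w ^ 2) * ((w ^ 2 - (-w))) by clear e1 e2 e3 hker hmaj l1 l2 l3 h; grind))
  have u1 : (1 : k) = t1 * c 9 := congrFun ht1 9
  have u2 : (0 : k) = t1 * c 1 := congrFun ht1 1
  have u3 : (1 : k) = t2 * c 9 := congrFun ht2 9
  have u4 : (0 : k) = t2 * c 5 := congrFun ht2 5
  have v1 : c 1 = 0 := by
    rcases mul_eq_zero.mp u2.symm with h0 | h0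
    · rw [h0, zero_mul] at u1; exact absurd u1 one_ne_zero
    · exact h0
  have v2 : c 5 = 0 := by
    rcases mul_eq_zero.mp u4.symm with h0 | h0
    · rw [h0, zero_mul] at u3; exact absurd u3 one_ne_zero
    · exact h0
  rcases hmaj with ⟨h3, h4, h5⟩ | ⟨h3, h4, h5⟩ | ⟨h3, h4, h5⟩ | ⟨h3, h4, h5⟩
  · exact h3 v1
  · exact h3 v1
  · exact h3 v1
  · exact h3 v2

/-- two vectors in the plane `W_M` of the line (2, 3, 7, 10) have product zero -/
lemma plane_2 {w : k} {c e : Fin 12 → k} (c0 : c 0 = 0) (c1 : c 1 = 0) (c4 : c 4 = 0) (c5 : c 5 = 0) (c6 : c 6 = 0) (c8 : c 8 = 0) (c9 : c 9 = 0) (c11 : c 11 = 0)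
    (e0 : e 0 = 0) (e1 : e 1 = 0) (e4 : e 4 = 0) (e5 : e 5 = 0) (e6 : e 6 = 0) (e8 : e 8 = 0) (e9 : e 9 = 0) (e11 : e 11 = 0)
    (l1 : c 2 = w * c 7 + (-w ^ 2) * c 10) (l2 : c 2 = w * c 3 + 1 * c 10)
    (l3 : c 2 = (-w ^ 2) * c 3 + (-1) * c 7)
    (r1 : e 2 = w * e 7 + (-w ^ 2) * e 10) (r2 : e 2 = w * e 3 + 1 * e 10)
    (r3 : e 2 = (-w ^ 2) * e 3 + (-1) * e 7) : Eqs w c e where
  p_0_1 := by simp only [c0, e0, c1, e1, c4, e4, c5, e5, c6, e6, c8, e8, c9, e9, c11, e11, mul_zero, zero_mul, add_zero, sub_zero]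
  p_0_2 := by simp only [c0, e0, c1, e1, c4, e4, c5, e5, c6, e6, c8, e8, c9, e9, c11, e11, mul_zero, zero_mul, add_zero, sub_zero]
  p_0_3 := by simp only [c0, e0, c1, e1, c4, e4, c5, e5, c6, e6, c8, e8, c9, e9, c11, e11, mul_zero, zero_mul, add_zero, sub_zero]
  p_0_4 := by simp only [c0, e0, c1, e1, c4, e4, c5, e5, c6, e6, c8, e8, c9, e9, c11, e11, mul_zero, zero_mul, add_zero, sub_zero]
  p_0_5 := by simp only [c0, e0, c1, e1, c4, e4, c5, e5, c6, e6, c8, e8, c9, e9, c11, e11, mul_zero, zero_mul, add_zero, sub_zero]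
  p_0_6 := by simp only [c0, e0, c1, e1, c4, e4, c5, e5, c6, e6, c8, e8, c9, e9, c11, e11, mul_zero, zero_mul, add_zero, sub_zero]
  p_0_7 := by simp only [c0, e0, c1, e1, c4, e4, c5, e5, c6, e6, c8, e8, c9, e9, c11, e11, mul_zero, zero_mul, add_zero, sub_zero]
  p_0_8 := by simp only [c0, e0, c1, e1, c4, e4, c5, e5, c6, e6, c8, e8, c9, e9, c11, e11, mul_zero, zero_mul, add_zero, sub_zero]
  p_0_9 := by simp only [c0, e0, c1, e1, c4, e4, c5, e5, c6, e6, c8, e8, c9, e9, c11, e11, mul_zero, zero_mul, add_zero, sub_zero]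
  p_0_10 := by simp only [c0, e0, c1, e1, c4, e4, c5, e5, c6, e6, c8, e8, c9, e9, c11, e11, mul_zero, zero_mul, add_zero, sub_zero]
  p_0_11 := by simp only [c0, e0, c1, e1, c4, e4, c5, e5, c6, e6, c8, e8, c9, e9, c11, e11, mul_zero, zero_mul, add_zero, sub_zero]
  p_1_3 := by simp only [c0, e0, c1, e1, c4, e4, c5, e5, c6, e6, c8, e8, c9, e9, c11, e11, mul_zero, zero_mul, add_zero, sub_zero]
  p_1_4 := by simp only [c0, e0, c1, e1, c4, e4, c5, e5, c6, e6, c8, e8, c9, e9, c11, e11, mul_zero, zero_mul, add_zero, sub_zero]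
  p_1_5 := by simp only [c0, e0, c1, e1, c4, e4, c5, e5, c6, e6, c8, e8, c9, e9, c11, e11, mul_zero, zero_mul, add_zero, sub_zero]
  p_1_6 := by simp only [c0, e0, c1, e1, c4, e4, c5, e5, c6, e6, c8, e8, c9, e9, c11, e11, mul_zero, zero_mul, add_zero, sub_zero]
  p_1_7 := by simp only [c0, e0, c1, e1, c4, e4, c5, e5, c6, e6, c8, e8, c9, e9, c11, e11, mul_zero, zero_mul, add_zero, sub_zero]
  p_1_8 := by simp only [c0, e0, c1, e1, c4, e4, c5, e5, c6, e6, c8, e8, c9, e9, c11, e11, mul_zero, zero_mul, add_zero, sub_zero]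
  p_1_9 := by simp only [c0, e0, c1, e1, c4, e4, c5, e5, c6, e6, c8, e8, c9, e9, c11, e11, mul_zero, zero_mul, add_zero, sub_zero]
  p_1_10 := by simp only [c0, e0, c1, e1, c4, e4, c5, e5, c6, e6, c8, e8, c9, e9, c11, e11, mul_zero, zero_mul, add_zero, sub_zero]
  p_1_11 := by simp only [c0, e0, c1, e1, c4, e4, c5, e5, c6, e6, c8, e8, c9, e9, c11, e11, mul_zero, zero_mul, add_zero, sub_zero]
  p_2_3 := by linear_combination c 3 * r1 + e 3 * l1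
  p_2_4 := by simp only [c0, e0, c1, e1, c4, e4, c5, e5, c6, e6, c8, e8, c9, e9, c11, e11, mul_zero, zero_mul, add_zero, sub_zero]
  p_2_5 := by simp only [c0, e0, c1, e1, c4, e4, c5, e5, c6, e6, c8, e8, c9, e9, c11, e11, mul_zero, zero_mul, add_zero, sub_zero]
  p_2_6 := by simp only [c0, e0, c1, e1, c4, e4, c5, e5, c6, e6, c8, e8, c9, e9, c11, e11, mul_zero, zero_mul, add_zero, sub_zero]
  p_2_7 := by linear_combination c 7 * r2 + e 7 * l2
  p_2_8 := by simp only [c0, e0, c1, e1, c4, e4, c5, e5, c6, e6, c8, e8, c9, e9, c11, e11, mul_zero, zero_mul, add_zero, sub_zero]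
  p_2_9 := by simp only [c0, e0, c1, e1, c4, e4, c5, e5, c6, e6, c8, e8, c9, e9, c11, e11, mul_zero, zero_mul, add_zero, sub_zero]
  p_2_10 := by linear_combination c 10 * r3 + e 10 * l3
  p_2_11 := by simp only [c0, e0, c1, e1, c4, e4, c5, e5, c6, e6, c8, e8, c9, e9, c11, e11, mul_zero, zero_mul, add_zero, sub_zero]
  p_3_4 := by simp only [c0, e0, c1, e1, c4, e4, c5, e5, c6, e6, c8, e8, c9, e9, c11, e11, mul_zero, zero_mul, add_zero, sub_zero]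
  p_3_5 := by simp only [c0, e0, c1, e1, c4, e4, c5, e5, c6, e6, c8, e8, c9, e9, c11, e11, mul_zero, zero_mul, add_zero, sub_zero]
  p_3_8 := by simp only [c0, e0, c1, e1, c4, e4, c5, e5, c6, e6, c8, e8, c9, e9, c11, e11, mul_zero, zero_mul, add_zero, sub_zero]
  p_3_9 := by simp only [c0, e0, c1, e1, c4, e4, c5, e5, c6, e6, c8, e8, c9, e9, c11, e11, mul_zero, zero_mul, add_zero, sub_zero]
  p_4_10 := by simp only [c0, e0, c1, e1, c4, e4, c5, e5, c6, e6, c8, e8, c9, e9, c11, e11, mul_zero, zero_mul, add_zero, sub_zero]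
  p_5_11 := by simp only [c0, e0, c1, e1, c4, e4, c5, e5, c6, e6, c8, e8, c9, e9, c11, e11, mul_zero, zero_mul, add_zero, sub_zero]
  p_6_7 := by simp only [c0, e0, c1, e1, c4, e4, c5, e5, c6, e6, c8, e8, c9, e9, c11, e11, mul_zero, zero_mul, add_zero, sub_zero]
  p_6_8 := by simp only [c0, e0, c1, e1, c4, e4, c5, e5, c6, e6, c8, e8, c9, e9, c11, e11, mul_zero, zero_mul, add_zero, sub_zero]
  p_6_9 := by simp only [c0, e0, c1, e1, c4, e4, c5, e5, c6, e6, c8, e8, c9, e9, c11, e11, mul_zero, zero_mul, add_zero, sub_zero]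
  p_6_10 := by simp only [c0, e0, c1, e1, c4, e4, c5, e5, c6, e6, c8, e8, c9, e9, c11, e11, mul_zero, zero_mul, add_zero, sub_zero]
  p_6_11 := by simp only [c0, e0, c1, e1, c4, e4, c5, e5, c6, e6, c8, e8, c9, e9, c11, e11, mul_zero, zero_mul, add_zero, sub_zero]
  p_8_9 := by simp only [c0, e0, c1, e1, c4, e4, c5, e5, c6, e6, c8, e8, c9, e9, c11, e11, mul_zero, zero_mul, add_zero, sub_zero]
  p_8_10 := by simp only [c0, e0, c1, e1, c4, e4, c5, e5, c6, e6, c8, e8, c9, e9, c11, e11, mul_zero, zero_mul, add_zero, sub_zero]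
  p_8_11 := by simp only [c0, e0, c1, e1, c4, e4, c5, e5, c6, e6, c8, e8, c9, e9, c11, e11, mul_zero, zero_mul, add_zero, sub_zero]
  p_9_10 := by simp only [c0, e0, c1, e1, c4, e4, c5, e5, c6, e6, c8, e8, c9, e9, c11, e11, mul_zero, zero_mul, add_zero, sub_zero]
  p_9_11 := by simp only [c0, e0, c1, e1, c4, e4, c5, e5, c6, e6, c8, e8, c9, e9, c11, e11, mul_zero, zero_mul, add_zero, sub_zero]

lemma no_plane_2 {w : k} (hw : w ^ 2 + w + 1 = 0) (h2 : (2 : k) ≠ 0) {c : Fin 12 → k} (h : Eqs w c c)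
    (hker : ∀ e, Eqs w c e → ∃ t : k, e = t • c) (z0 : c 0 = 0) (z1 : c 1 = 0) (z4 : c 4 = 0) (z5 : c 5 = 0) (z6 : c 6 = 0) (z8 : c 8 = 0) (z9 : c 9 = 0) (z11 : c 11 = 0)
    (hmaj : (c 2 ≠ 0 ∧ c 3 ≠ 0 ∧ c 7 ≠ 0) ∨ (c 2 ≠ 0 ∧ c 3 ≠ 0 ∧ c 10 ≠ 0) ∨
      (c 2 ≠ 0 ∧ c 7 ≠ 0 ∧ c 10 ≠ 0) ∨ (c 3 ≠ 0 ∧ c 7 ≠ 0 ∧ c 10 ≠ 0)) : False := by
  have hwne : w ≠ 0 := by rintro rfl; norm_num at hw
  have e1 := h.p_2_3
  have e2 := h.p_2_7
  have e3 := h.p_2_10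
  have l123 : c 2 = w * c 7 + (-w ^ 2) * c 10 ∧ c 2 = w * c 3 + 1 * c 10 ∧
      c 2 = (-w ^ 2) * c 3 + (-1) * c 7 := by
    clear hker h
    rcases hmaj with ⟨h3, h4, h5⟩ | ⟨h3, h4, h5⟩ | ⟨h3, h4, h5⟩ | ⟨h3, h4, h5⟩
    · have l1 : c 2 = w * c 7 + (-w ^ 2) * c 10 := by grind
      have l2 : c 2 = w * c 3 + 1 * c 10 := by grind
      exact ⟨l1, l2, by grind⟩
    · have l1 : c 2 = w * c 7 + (-w ^ 2) * c 10 := by grind
      have l3 : c 2 = (-w ^ 2) * c 3 + (-1) * c 7 := by grind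
      exact ⟨l1, by grind, l3⟩
    · have l2 : c 2 = w * c 3 + 1 * c 10 := by grind
      have l3 : c 2 = (-w ^ 2) * c 3 + (-1) * c 7 := by grind
      exact ⟨by grind, l2, l3⟩
    · have l1 : c 2 = w * c 7 + (-w ^ 2) * c 10 := by grind
      have l2 : c 2 = w * c 3 + 1 * c 10 := by grind
      have l3 : c 2 = (-w ^ 2) * c 3 + (-1) * c 7 := by grind
      exact ⟨l1, l2, l3⟩
  obtain ⟨l1, l2, l3⟩ := l123
  obtain ⟨t1, ht1⟩ := hker ![0, 0, 0, -w ^ 2, 0, 0, 0, w, 0, 0, 1, 0] (plane_2 z0 z1 z4 z5 z6 z8 z9 z11 rfl rfl rfl rfl rfl rfl rfl rfl l1 l2 l3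
    (show (0 : k) = w * (w) + (-w ^ 2) * 1 by clear e1 e2 e3 hker hmaj l1 l2 l3 h; grind)
    (show (0 : k) = w * (-w ^ 2) + 1 * 1 by clear e1 e2 e3 hker hmaj l1 l2 l3 h; grind)
    (show (0 : k) = (-w ^ 2) * (-w ^ 2) + (-1) * (w) by clear e1 e2 e3 hker hmaj l1 l2 l3 h; grind))
  obtain ⟨t2, ht2⟩ := hker ![0, 0, 1, 0, 0, 0, 0, (w ^ 2 - (-w)), 0, 0, 1, 0] (plane_2 z0 z1 z4 z5 z6 z8 z9 z11 rfl rfl rfl rfl rfl rfl rfl rfl l1 l2 l3
    (show (1 : k) = w * ((w ^ 2 - (-w))) + (-w ^ 2) * 1 by clear e1 e2 e3 hker hmaj l1 l2 l3 h; grind)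
    (show (1 : k) = w * 0 + 1 * 1 by clear e1 e2 e3 hker hmaj l1 l2 l3 h; grind)
    (show (1 : k) = (-w ^ 2) * 0 + (-1) * ((w ^ 2 - (-w))) by clear e1 e2 e3 hker hmaj l1 l2 l3 h; grind))
  have u1 : (1 : k) = t1 * c 10 := congrFun ht1 10
  have u2 : (0 : k) = t1 * c 2 := congrFun ht1 2
  have u3 : (1 : k) = t2 * c 10 := congrFun ht2 10
  have u4 : (0 : k) = t2 * c 3 := congrFun ht2 3
  have v1 : c 2 = 0 := by
    rcases mul_eq_zero.mp u2.symm with h0 | h0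
    · rw [h0, zero_mul] at u1; exact absurd u1 one_ne_zero
    · exact h0
  have v2 : c 3 = 0 := by
    rcases mul_eq_zero.mp u4.symm with h0 | h0
    · rw [h0, zero_mul] at u3; exact absurd u3 one_ne_zero
    · exact h0
  rcases hmaj with ⟨h3, h4, h5⟩ | ⟨h3, h4, h5⟩ | ⟨h3, h4, h5⟩ | ⟨h3, h4, h5⟩
  · exact h3 v1
  · exact h3 v1
  · exact h3 v1
  · exact h3 v2

/-- two vectors in the plane `W_M` of the line (3, 4, 5, 8) have product zero -/
lemma plane_3 {w : k} {c e : Fin 12 → k} (c0 : c 0 = 0) (c1 : c 1 = 0) (c2 : c 2 = 0) (c6 : c 6 = 0) (c7 : c 7 = 0) (c9 : c 9 = 0) (c10 : c 10 = 0) (c11 : c 11 = 0)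
    (e0 : e 0 = 0) (e1 : e 1 = 0) (e2 : e 2 = 0) (e6 : e 6 = 0) (e7 : e 7 = 0) (e9 : e 9 = 0) (e10 : e 10 = 0) (e11 : e 11 = 0)
    (l1 : c 3 = 1 * c 5 + w ^ 2 * c 8) (l2 : c 3 = 1 * c 4 + (-1) * c 8)
    (l3 : c 3 = (-w) * c 4 + (-w ^ 2) * c 5)
    (r1 : e 3 = 1 * e 5 + w ^ 2 * e 8) (r2 : e 3 = 1 * e 4 + (-1) * e 8)
    (r3 : e 3 = (-w) * e 4 + (-w ^ 2) * e 5) : Eqs w c e where
  p_0_1 := by simp only [c0, e0, c1, e1, c2, e2, c6, e6, c7, e7, c9, e9, c10, e10, c11, e11, mul_zero, zero_mul, add_zero, sub_zero]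
  p_0_2 := by simp only [c0, e0, c1, e1, c2, e2, c6, e6, c7, e7, c9, e9, c10, e10, c11, e11, mul_zero, zero_mul, add_zero, sub_zero]
  p_0_3 := by simp only [c0, e0, c1, e1, c2, e2, c6, e6, c7, e7, c9, e9, c10, e10, c11, e11, mul_zero, zero_mul, add_zero, sub_zero]
  p_0_4 := by simp only [c0, e0, c1, e1, c2, e2, c6, e6, c7, e7, c9, e9, c10, e10, c11, e11, mul_zero, zero_mul, add_zero, sub_zero]
  p_0_5 := by simp only [c0, e0, c1, e1, c2, e2, c6, e6, c7, e7, c9, e9, c10, e10, c11, e11, mul_zero, zero_mul, add_zero, sub_zero]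
  p_0_6 := by simp only [c0, e0, c1, e1, c2, e2, c6, e6, c7, e7, c9, e9, c10, e10, c11, e11, mul_zero, zero_mul, add_zero, sub_zero]
  p_0_7 := by simp only [c0, e0, c1, e1, c2, e2, c6, e6, c7, e7, c9, e9, c10, e10, c11, e11, mul_zero, zero_mul, add_zero, sub_zero]
  p_0_8 := by simp only [c0, e0, c1, e1, c2, e2, c6, e6, c7, e7, c9, e9, c10, e10, c11, e11, mul_zero, zero_mul, add_zero, sub_zero]
  p_0_9 := by simp only [c0, e0, c1, e1, c2, e2, c6, e6, c7, e7, c9, e9, c10, e10, c11, e11, mul_zero, zero_mul, add_zero, sub_zero]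
  p_0_10 := by simp only [c0, e0, c1, e1, c2, e2, c6, e6, c7, e7, c9, e9, c10, e10, c11, e11, mul_zero, zero_mul, add_zero, sub_zero]
  p_0_11 := by simp only [c0, e0, c1, e1, c2, e2, c6, e6, c7, e7, c9, e9, c10, e10, c11, e11, mul_zero, zero_mul, add_zero, sub_zero]
  p_1_3 := by simp only [c0, e0, c1, e1, c2, e2, c6, e6, c7, e7, c9, e9, c10, e10, c11, e11, mul_zero, zero_mul, add_zero, sub_zero]
  p_1_4 := by simp only [c0, e0, c1, e1, c2, e2, c6, e6, c7, e7, c9, e9, c10, e10, c11, e11, mul_zero, zero_mul, add_zero, sub_zero]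
  p_1_5 := by simp only [c0, e0, c1, e1, c2, e2, c6, e6, c7, e7, c9, e9, c10, e10, c11, e11, mul_zero, zero_mul, add_zero, sub_zero]
  p_1_6 := by simp only [c0, e0, c1, e1, c2, e2, c6, e6, c7, e7, c9, e9, c10, e10, c11, e11, mul_zero, zero_mul, add_zero, sub_zero]
  p_1_7 := by simp only [c0, e0, c1, e1, c2, e2, c6, e6, c7, e7, c9, e9, c10, e10, c11, e11, mul_zero, zero_mul, add_zero, sub_zero]
  p_1_8 := by simp only [c0, e0, c1, e1, c2, e2, c6, e6, c7, e7, c9, e9, c10, e10, c11, e11, mul_zero, zero_mul, add_zero, sub_zero]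
  p_1_9 := by simp only [c0, e0, c1, e1, c2, e2, c6, e6, c7, e7, c9, e9, c10, e10, c11, e11, mul_zero, zero_mul, add_zero, sub_zero]
  p_1_10 := by simp only [c0, e0, c1, e1, c2, e2, c6, e6, c7, e7, c9, e9, c10, e10, c11, e11, mul_zero, zero_mul, add_zero, sub_zero]
  p_1_11 := by simp only [c0, e0, c1, e1, c2, e2, c6, e6, c7, e7, c9, e9, c10, e10, c11, e11, mul_zero, zero_mul, add_zero, sub_zero]
  p_2_3 := by simp only [c0, e0, c1, e1, c2, e2, c6, e6, c7, e7, c9, e9, c10, e10, c11, e11, mul_zero, zero_mul, add_zero, sub_zero]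
  p_2_4 := by simp only [c0, e0, c1, e1, c2, e2, c6, e6, c7, e7, c9, e9, c10, e10, c11, e11, mul_zero, zero_mul, add_zero, sub_zero]
  p_2_5 := by simp only [c0, e0, c1, e1, c2, e2, c6, e6, c7, e7, c9, e9, c10, e10, c11, e11, mul_zero, zero_mul, add_zero, sub_zero]
  p_2_6 := by simp only [c0, e0, c1, e1, c2, e2, c6, e6, c7, e7, c9, e9, c10, e10, c11, e11, mul_zero, zero_mul, add_zero, sub_zero]
  p_2_7 := by simp only [c0, e0, c1, e1, c2, e2, c6, e6, c7, e7, c9, e9, c10, e10, c11, e11, mul_zero, zero_mul, add_zero, sub_zero]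
  p_2_8 := by simp only [c0, e0, c1, e1, c2, e2, c6, e6, c7, e7, c9, e9, c10, e10, c11, e11, mul_zero, zero_mul, add_zero, sub_zero]
  p_2_9 := by simp only [c0, e0, c1, e1, c2, e2, c6, e6, c7, e7, c9, e9, c10, e10, c11, e11, mul_zero, zero_mul, add_zero, sub_zero]
  p_2_10 := by simp only [c0, e0, c1, e1, c2, e2, c6, e6, c7, e7, c9, e9, c10, e10, c11, e11, mul_zero, zero_mul, add_zero, sub_zero]
  p_2_11 := by simp only [c0, e0, c1, e1, c2, e2, c6, e6, c7, e7, c9, e9, c10, e10, c11, e11, mul_zero, zero_mul, add_zero, sub_zero]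
  p_3_4 := by linear_combination c 4 * r1 + e 4 * l1
  p_3_5 := by linear_combination c 5 * r2 + e 5 * l2
  p_3_8 := by linear_combination c 8 * r3 + e 8 * l3
  p_3_9 := by simp only [c0, e0, c1, e1, c2, e2, c6, e6, c7, e7, c9, e9, c10, e10, c11, e11, mul_zero, zero_mul, add_zero, sub_zero]
  p_4_10 := by simp only [c0, e0, c1, e1, c2, e2, c6, e6, c7, e7, c9, e9, c10, e10, c11, e11, mul_zero, zero_mul, add_zero, sub_zero]
  p_5_11 := by simp only [c0, e0, c1, e1, c2, e2, c6, e6, c7, e7, c9, e9, c10, e10, c11, e11, mul_zero, zero_mul, add_zero, sub_zero]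
  p_6_7 := by simp only [c0, e0, c1, e1, c2, e2, c6, e6, c7, e7, c9, e9, c10, e10, c11, e11, mul_zero, zero_mul, add_zero, sub_zero]
  p_6_8 := by simp only [c0, e0, c1, e1, c2, e2, c6, e6, c7, e7, c9, e9, c10, e10, c11, e11, mul_zero, zero_mul, add_zero, sub_zero]
  p_6_9 := by simp only [c0, e0, c1, e1, c2, e2, c6, e6, c7, e7, c9, e9, c10, e10, c11, e11, mul_zero, zero_mul, add_zero, sub_zero]
  p_6_10 := by simp only [c0, e0, c1, e1, c2, e2, c6, e6, c7, e7, c9, e9, c10, e10, c11, e11, mul_zero, zero_mul, add_zero, sub_zero]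
  p_6_11 := by simp only [c0, e0, c1, e1, c2, e2, c6, e6, c7, e7, c9, e9, c10, e10, c11, e11, mul_zero, zero_mul, add_zero, sub_zero]
  p_8_9 := by simp only [c0, e0, c1, e1, c2, e2, c6, e6, c7, e7, c9, e9, c10, e10, c11, e11, mul_zero, zero_mul, add_zero, sub_zero]
  p_8_10 := by simp only [c0, e0, c1, e1, c2, e2, c6, e6, c7, e7, c9, e9, c10, e10, c11, e11, mul_zero, zero_mul, add_zero, sub_zero]
  p_8_11 := by simp only [c0, e0, c1, e1, c2, e2, c6, e6, c7, e7, c9, e9, c10, e10, c11, e11, mul_zero, zero_mul, add_zero, sub_zero]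
  p_9_10 := by simp only [c0, e0, c1, e1, c2, e2, c6, e6, c7, e7, c9, e9, c10, e10, c11, e11, mul_zero, zero_mul, add_zero, sub_zero]
  p_9_11 := by simp only [c0, e0, c1, e1, c2, e2, c6, e6, c7, e7, c9, e9, c10, e10, c11, e11, mul_zero, zero_mul, add_zero, sub_zero]

lemma no_plane_3 {w : k} (hw : w ^ 2 + w + 1 = 0) (h2 : (2 : k) ≠ 0) {c : Fin 12 → k} (h : Eqs w c c)
    (hker : ∀ e, Eqs w c e → ∃ t : k, e = t • c) (z0 : c 0 = 0) (z1 : c 1 = 0) (z2 : c 2 = 0) (z6 : c 6 = 0) (z7 : c 7 = 0) (z9 : c 9 = 0) (z10 : c 10 = 0) (z11 : c 11 = 0)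
    (hmaj : (c 3 ≠ 0 ∧ c 4 ≠ 0 ∧ c 5 ≠ 0) ∨ (c 3 ≠ 0 ∧ c 4 ≠ 0 ∧ c 8 ≠ 0) ∨
      (c 3 ≠ 0 ∧ c 5 ≠ 0 ∧ c 8 ≠ 0) ∨ (c 4 ≠ 0 ∧ c 5 ≠ 0 ∧ c 8 ≠ 0)) : False := by
  have hwne : w ≠ 0 := by rintro rfl; norm_num at hw
  have e1 := h.p_3_4
  have e2 := h.p_3_5
  have e3 := h.p_3_8
  have l123 : c 3 = 1 * c 5 + w ^ 2 * c 8 ∧ c 3 = 1 * c 4 + (-1) * c 8 ∧
      c 3 = (-w) * c 4 + (-w ^ 2) * c 5 := by
    clear hker h
    rcases hmaj with ⟨h3, h4, h5⟩ | ⟨h3, h4, h5⟩ | ⟨h3, h4, h5⟩ | ⟨h3, h4, h5⟩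
    · have l1 : c 3 = 1 * c 5 + w ^ 2 * c 8 := by grind
      have l2 : c 3 = 1 * c 4 + (-1) * c 8 := by grind
      exact ⟨l1, l2, by grind⟩
    · have l1 : c 3 = 1 * c 5 + w ^ 2 * c 8 := by grind
      have l3 : c 3 = (-w) * c 4 + (-w ^ 2) * c 5 := by grind
      exact ⟨l1, by grind, l3⟩
    · have l2 : c 3 = 1 * c 4 + (-1) * c 8 := by grind
      have l3 : c 3 = (-w) * c 4 + (-w ^ 2) * c 5 := by grind
      exact ⟨by grind, l2, l3⟩
    · have l1 : c 3 = 1 * c 5 + w ^ 2 * c 8 := by grind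
      have l2 : c 3 = 1 * c 4 + (-1) * c 8 := by grind
      have l3 : c 3 = (-w) * c 4 + (-w ^ 2) * c 5 := by grind
      exact ⟨l1, l2, l3⟩
  obtain ⟨l1, l2, l3⟩ := l123
  obtain ⟨t1, ht1⟩ := hker ![0, 0, 0, 0, 1, -w ^ 2, 0, 0, 1, 0, 0, 0] (plane_3 z0 z1 z2 z6 z7 z9 z10 z11 rfl rfl rfl rfl rfl rfl rfl rfl l1 l2 l3
    (show (0 : k) = 1 * (-w ^ 2) + w ^ 2 * 1 by clear e1 e2 e3 hker hmaj l1 l2 l3 h; grind)
    (show (0 : k) = 1 * (1) + (-1) * 1 by clear e1 e2 e3 hker hmaj l1 l2 l3 h; grind)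
    (show (0 : k) = (-w) * (1) + (-w ^ 2) * (-w ^ 2) by clear e1 e2 e3 hker hmaj l1 l2 l3 h; grind))
  obtain ⟨t2, ht2⟩ := hker ![0, 0, 0, -1, 0, ((-1) - w ^ 2), 0, 0, 1, 0, 0, 0] (plane_3 z0 z1 z2 z6 z7 z9 z10 z11 rfl rfl rfl rfl rfl rfl rfl rfl l1 l2 l3
    (show (-1 : k) = 1 * (((-1) - w ^ 2)) + w ^ 2 * 1 by clear e1 e2 e3 hker hmaj l1 l2 l3 h; grind)
    (show (-1 : k) = 1 * 0 + (-1) * 1 by clear e1 e2 e3 hker hmaj l1 l2 l3 h; grind)
    (show (-1 : k) = (-w) * 0 + (-w ^ 2) * (((-1) - w ^ 2)) by clear e1 e2 e3 hker hmaj l1 l2 l3 h; grind))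
  have u1 : (1 : k) = t1 * c 8 := congrFun ht1 8
  have u2 : (0 : k) = t1 * c 3 := congrFun ht1 3
  have u3 : (1 : k) = t2 * c 8 := congrFun ht2 8
  have u4 : (0 : k) = t2 * c 4 := congrFun ht2 4
  have v1 : c 3 = 0 := by
    rcases mul_eq_zero.mp u2.symm with h0 | h0
    · rw [h0, zero_mul] at u1; exact absurd u1 one_ne_zero
    · exact h0
  have v2 : c 4 = 0 := by
    rcases mul_eq_zero.mp u4.symm with h0 | h0
    · rw [h0, zero_mul] at u3; exact absurd u3 one_ne_zero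
    · exact h0
  rcases hmaj with ⟨h3, h4, h5⟩ | ⟨h3, h4, h5⟩ | ⟨h3, h4, h5⟩ | ⟨h3, h4, h5⟩
  · exact h3 v1
  · exact h3 v1
  · exact h3 v1
  · exact h3 v2

lemma classify {w : k} (hw : w ^ 2 + w + 1 = 0) (h2 : (2 : k) ≠ 0) {c : Fin 12 → k} (h : Eqs w c c)
    (hker : ∀ e, Eqs w c e → ∃ t : k, e = t • c) (hc : c ≠ 0) :
    ∃ (τ : Fin 21) (μ : k), μ ≠ 0 ∧ c = μ • Yv w τ := by
  have hwne : w ≠ 0 := by rintro rfl; norm_num at hw
  obtain ⟨b0, hb0⟩ : ∃ b : Bool, b = true ↔ c 0 ≠ 0 := by classical exact ⟨decide (c 0 ≠ 0), by simp⟩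
  obtain ⟨b1, hb1⟩ : ∃ b : Bool, b = true ↔ c 1 ≠ 0 := by classical exact ⟨decide (c 1 ≠ 0), by simp⟩
  obtain ⟨b2, hb2⟩ : ∃ b : Bool, b = true ↔ c 2 ≠ 0 := by classical exact ⟨decide (c 2 ≠ 0), by simp⟩
  obtain ⟨b3, hb3⟩ : ∃ b : Bool, b = true ↔ c 3 ≠ 0 := by classical exact ⟨decide (c 3 ≠ 0), by simp⟩
  obtain ⟨b4, hb4⟩ : ∃ b : Bool, b = true ↔ c 4 ≠ 0 := by classical exact ⟨decide (c 4 ≠ 0), by simp⟩
  obtain ⟨b5, hb5⟩ : ∃ b : Bool, b = true ↔ c 5 ≠ 0 := by classical exact ⟨decide (c 5 ≠ 0), by simp⟩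
  obtain ⟨b6, hb6⟩ : ∃ b : Bool, b = true ↔ c 6 ≠ 0 := by classical exact ⟨decide (c 6 ≠ 0), by simp⟩
  obtain ⟨b7, hb7⟩ : ∃ b : Bool, b = true ↔ c 7 ≠ 0 := by classical exact ⟨decide (c 7 ≠ 0), by simp⟩
  obtain ⟨b8, hb8⟩ : ∃ b : Bool, b = true ↔ c 8 ≠ 0 := by classical exact ⟨decide (c 8 ≠ 0), by simp⟩
  obtain ⟨b9, hb9⟩ : ∃ b : Bool, b = true ↔ c 9 ≠ 0 := by classical exact ⟨decide (c 9 ≠ 0), by simp⟩
  obtain ⟨b10, hb10⟩ : ∃ b : Bool, b = true ↔ c 10 ≠ 0 := by classical exact ⟨decide (c 10 ≠ 0), by simp⟩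
  obtain ⟨b11, hb11⟩ : ∃ b : Bool, b = true ↔ c 11 ≠ 0 := by classical exact ⟨decide (c 11 ≠ 0), by simp⟩
  have hs := support_cases hw h2 h b0 b1 b2 b3 b4 b5 b6 b7 b8 b9 b10 b11 hb0 hb1 hb2 hb3 hb4 hb5 hb6 hb7 hb8 hb9 hb10 hb11
  simp only [concl, Bool.or_eq_true, Bool.and_eq_true, Bool.not_eq_true', Bool.or_eq_false_iff, or_assoc, and_assoc] at hs
  rcases hs with ⟨f1, f2, f3, f4, f5, f6, f7, f8, f9, f10, f11⟩ |
    ⟨f0, f2, f3, f4, f5, f6, f7, f8, f9, f10, f11⟩ |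
    ⟨f0, f1, f3, f4, f5, f6, f7, f8, f9, f10, f11⟩ |
    ⟨f0, f1, f2, f4, f5, f6, f7, f8, f9, f10, f11⟩ |
    ⟨f0, f1, f2, f3, f5, f6, f7, f8, f9, f10, f11⟩ |
    ⟨f0, f1, f2, f3, f4, f6, f7, f8, f9, f10, f11⟩ |
    ⟨f0, f1, f2, f3, f4, f5, f7, f8, f9, f10, f11⟩ |
    ⟨f0, f1, f2, f3, f4, f5, f6, f8, f9, f10, f11⟩ |
    ⟨f0, f1, f2, f3, f4, f5, f6, f7, f9, f10, f11⟩ |
    ⟨f0, f1, f2, f3, f4, f5, f6, f7, f8, f10, f11⟩ |
    ⟨f0, f1, f2, f3, f4, f5, f6, f7, f8, f9, f11⟩ |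
    ⟨f0, f1, f2, f3, f4, f5, f6, f7, f8, f9, f10⟩ |
    ⟨f3, f4, f5, f6, f7, f8, f9, f10, f11, g0, g1, g2⟩ |
    ⟨f1, f2, f4, f5, f7, f8, f9, f10, f11, g0, g3, g6⟩ |
    ⟨f1, f2, f3, f4, f6, f7, f8, f9, f11, g0, g5, g10⟩ |
    ⟨f0, f2, f4, f5, f6, f7, f8, f9, f10, g1, g3, g11⟩ |
    ⟨f0, f2, f3, f5, f7, f8, f9, f10, f11, g1, g4, g6⟩ |
    ⟨f0, f1, f3, f5, f6, f7, f8, f10, f11, g2, g4, g9⟩ |
    ⟨f0, f1, f3, f4, f7, f8, f9, f10, f11, g2, g5, g6⟩ |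
    ⟨f0, f1, f2, f3, f4, f5, f9, f10, f11, g6, g7, g8⟩ |
    ⟨f0, f1, f2, f3, f4, f5, f6, f7, f8, g9, g10, g11⟩ |
    ⟨f1, f2, f3, f5, f6, f8, f9, f10, hm⟩ |
    ⟨f0, f2, f3, f4, f6, f8, f10, f11, hm⟩ |
    ⟨f0, f1, f4, f5, f6, f8, f9, f11, hm⟩ |
    ⟨f0, f1, f2, f6, f7, f9, f10, f11, hm⟩
  · refine ⟨0, c 0, ?_, ?_⟩
    · intro h0; apply hc; exact ext12 h0 (zero_of hb1 f1) (zero_of hb2 f2) (zero_of hb3 f3) (zero_of hb4 f4) (zero_of hb5 f5) (zero_of hb6 f6) (zero_of hb7 f7) (zero_of hb8 f8) (zero_of hb9 f9) (zero_of hb10 f10) (zero_of hb11 f11)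
    · exact ext12 (by change c 0 = c 0 * 1; rw [mul_one]) (by change c 1 = c 0 * 0; rw [mul_zero, zero_of hb1 f1]) (by change c 2 = c 0 * 0; rw [mul_zero, zero_of hb2 f2]) (by change c 3 = c 0 * 0; rw [mul_zero, zero_of hb3 f3]) (by change c 4 = c 0 * 0; rw [mul_zero, zero_of hb4 f4]) (by change c 5 = c 0 * 0; rw [mul_zero, zero_of hb5 f5]) (by change c 6 = c 0 * 0; rw [mul_zero, zero_of hb6 f6]) (by change c 7 = c 0 * 0; rw [mul_zero, zero_of hb7 f7]) (by change c 8 = c 0 * 0; rw [mul_zero, zero_of hb8 f8]) (by change c 9 = c 0 * 0; rw [mul_zero, zero_of hb9 f9]) (by change c 10 = c 0 * 0; rw [mul_zero, zero_of hb10 f10]) (by change c 11 = c 0 * 0; rw [mul_zero, zero_of hb11 f11])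
  · refine ⟨1, c 1, ?_, ?_⟩
    · intro h0; apply hc; exact ext12 (zero_of hb0 f0) h0 (zero_of hb2 f2) (zero_of hb3 f3) (zero_of hb4 f4) (zero_of hb5 f5) (zero_of hb6 f6) (zero_of hb7 f7) (zero_of hb8 f8) (zero_of hb9 f9) (zero_of hb10 f10) (zero_of hb11 f11)
    · exact ext12 (by change c 0 = c 1 * 0; rw [mul_zero, zero_of hb0 f0]) (by change c 1 = c 1 * 1; rw [mul_one]) (by change c 2 = c 1 * 0; rw [mul_zero, zero_of hb2 f2]) (by change c 3 = c 1 * 0; rw [mul_zero, zero_of hb3 f3]) (by change c 4 = c 1 * 0; rw [mul_zero, zero_of hb4 f4]) (by change c 5 = c 1 * 0; rw [mul_zero, zero_of hb5 f5]) (by change c 6 = c 1 * 0; rw [mul_zero, zero_of hb6 f6]) (by change c 7 = c 1 * 0; rw [mul_zero, zero_of hb7 f7]) (by change c 8 = c 1 * 0; rw [mul_zero, zero_of hb8 f8]) (by change c 9 = c 1 * 0; rw [mul_zero, zero_of hb9 f9]) (by change c 10 = c 1 * 0; rw [mul_zero, zero_of hb10 f10]) (by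 change c 11 = c 1 * 0; rw [mul_zero, zero_of hb11 f11])
  · refine ⟨2, c 2, ?_, ?_⟩
    · intro h0; apply hc; exact ext12 (zero_of hb0 f0) (zero_of hb1 f1) h0 (zero_of hb3 f3) (zero_of hb4 f4) (zero_of hb5 f5) (zero_of hb6 f6) (zero_of hb7 f7) (zero_of hb8 f8) (zero_of hb9 f9) (zero_of hb10 f10) (zero_of hb11 f11)
    · exact ext12 (by change c 0 = c 2 * 0; rw [mul_zero, zero_of hb0 f0]) (by change c 1 = c 2 * 0; rw [mul_zero, zero_of hb1 f1]) (by change c 2 = c 2 * 1; rw [mul_one]) (by change c 3 = c 2 * 0; rw [mul_zero, zero_of hb3 f3]) (by change c 4 = c 2 * 0; rw [mul_zero, zero_of hb4 f4]) (by change c 5 = c 2 * 0; rw [mul_zero, zero_of hb5 f5]) (by change c 6 = c 2 * 0; rw [mul_zero, zero_of hb6 f6]) (by change c 7 = c 2 * 0; rw [mul_zero, zero_of hb7 f7]) (by change c 8 = c 2 * 0; rw [mul_zero, zero_of hb8 f8]) (by change c 9 = c 2 * 0; rw [mul_zero, zero_of hb9 f9]) (by change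 c 10 = c 2 * 0; rw [mul_zero, zero_of hb10 f10]) (by change c 11 = c 2 * 0; rw [mul_zero, zero_of hb11 f11])
  · refine ⟨3, c 3, ?_, ?_⟩
    · intro h0; apply hc; exact ext12 (zero_of hb0 f0) (zero_of hb1 f1) (zero_of hb2 f2) h0 (zero_of hb4 f4) (zero_of hb5 f5) (zero_of hb6 f6) (zero_of hb7 f7) (zero_of hb8 f8) (zero_of hb9 f9) (zero_of hb10 f10) (zero_of hb11 f11)
    · exact ext12 (by change c 0 = c 3 * 0; rw [mul_zero, zero_of hb0 f0]) (by change c 1 = c 3 * 0; rw [mul_zero, zero_of hb1 f1]) (by change c 2 = c 3 * 0; rw [mul_zero, zero_of hb2 f2]) (by change c 3 = c 3 * 1; rw [mul_one]) (by change c 4 = c 3 * 0; rw [mul_zero, zero_of hb4 f4]) (by change c 5 = c 3 * 0; rw [mul_zero, zero_of hb5 f5]) (by change c 6 = c 3 * 0; rw [mul_zero, zero_of hb6 f6]) (by change c 7 = c 3 * 0; rw [mul_zero, zero_of hb7 f7]) (by change c 8 = c 3 * 0; rw [mul_zero, zero_of hb8 f8]) (by change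 c 9 = c 3 * 0; rw [mul_zero, zero_of hb9 f9]) (by change c 10 = c 3 * 0; rw [mul_zero, zero_of hb10 f10]) (by change c 11 = c 3 * 0; rw [mul_zero, zero_of hb11 f11])
  · refine ⟨4, c 4, ?_, ?_⟩
    · intro h0; apply hc; exact ext12 (zero_of hb0 f0) (zero_of hb1 f1) (zero_of hb2 f2) (zero_of hb3 f3) h0 (zero_of hb5 f5) (zero_of hb6 f6) (zero_of hb7 f7) (zero_of hb8 f8) (zero_of hb9 f9) (zero_of hb10 f10) (zero_of hb11 f11)
    · exact ext12 (by change c 0 = c 4 * 0; rw [mul_zero, zero_of hb0 f0]) (by change c 1 = c 4 * 0; rw [mul_zero, zero_of hb1 f1]) (by change c 2 = c 4 * 0; rw [mul_zero, zero_of hb2 f2]) (by change c 3 = c 4 * 0; rw [mul_zero, zero_of hb3 f3]) (by change c 4 = c 4 * 1; rw [mul_one]) (by change c 5 = c 4 * 0; rw [mul_zero, zero_of hb5 f5]) (by change c 6 = c 4 * 0; rw [mul_zero, zero_of hb6 f6]) (by change c 7 = c 4 * 0; rw [mul_zero, zero_of hb7 f7]) (by change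 c 8 = c 4 * 0; rw [mul_zero, zero_of hb8 f8]) (by change c 9 = c 4 * 0; rw [mul_zero, zero_of hb9 f9]) (by change c 10 = c 4 * 0; rw [mul_zero, zero_of hb10 f10]) (by change c 11 = c 4 * 0; rw [mul_zero, zero_of hb11 f11])
  · refine ⟨5, c 5, ?_, ?_⟩
    · intro h0; apply hc; exact ext12 (zero_of hb0 f0) (zero_of hb1 f1) (zero_of hb2 f2) (zero_of hb3 f3) (zero_of hb4 f4) h0 (zero_of hb6 f6) (zero_of hb7 f7) (zero_of hb8 f8) (zero_of hb9 f9) (zero_of hb10 f10) (zero_of hb11 f11)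
    · exact ext12 (by change c 0 = c 5 * 0; rw [mul_zero, zero_of hb0 f0]) (by change c 1 = c 5 * 0; rw [mul_zero, zero_of hb1 f1]) (by change c 2 = c 5 * 0; rw [mul_zero, zero_of hb2 f2]) (by change c 3 = c 5 * 0; rw [mul_zero, zero_of hb3 f3]) (by change c 4 = c 5 * 0; rw [mul_zero, zero_of hb4 f4]) (by change c 5 = c 5 * 1; rw [mul_one]) (by change c 6 = c 5 * 0; rw [mul_zero, zero_of hb6 f6]) (by change c 7 = c 5 * 0; rw [mul_zero, zero_of hb7 f7]) (by change c 8 = c 5 * 0; rw [mul_zero, zero_of hb8 f8]) (by change c 9 = c 5 * 0; rw [mul_zero, zero_of hb9 f9]) (by change c 10 = c 5 * 0; rw [mul_zero, zero_of hb10 f10]) (by change c 11 = c 5 * 0; rw [mul_zero, zero_of hb11 f11])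
  · refine ⟨6, c 6, ?_, ?_⟩
    · intro h0; apply hc; exact ext12 (zero_of hb0 f0) (zero_of hb1 f1) (zero_of hb2 f2) (zero_of hb3 f3) (zero_of hb4 f4) (zero_of hb5 f5) h0 (zero_of hb7 f7) (zero_of hb8 f8) (zero_of hb9 f9) (zero_of hb10 f10) (zero_of hb11 f11)
    · exact ext12 (by change c 0 = c 6 * 0; rw [mul_zero, zero_of hb0 f0]) (by change c 1 = c 6 * 0; rw [mul_zero, zero_of hb1 f1]) (by change c 2 = c 6 * 0; rw [mul_zero, zero_of hb2 f2]) (by change c 3 = c 6 * 0; rw [mul_zero, zero_of hb3 f3]) (by change c 4 = c 6 * 0; rw [mul_zero, zero_of hb4 f4]) (by change c 5 = c 6 * 0; rw [mul_zero, zero_of hb5 f5]) (by change c 6 = c 6 * 1; rw [mul_one]) (by change c 7 = c 6 * 0; rw [mul_zero, zero_of hb7 f7]) (by change c 8 = c 6 * 0; rw [mul_zero, zero_of hb8 f8]) (by change c 9 = c 6 * 0; rw [mul_zero, zero_of hb9 f9]) (by change c 10 = c 6 * 0; rw [mul_zero, zero_of hb10 f10]) (by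 change c 11 = c 6 * 0; rw [mul_zero, zero_of hb11 f11])
  · refine ⟨7, c 7, ?_, ?_⟩
    · intro h0; apply hc; exact ext12 (zero_of hb0 f0) (zero_of hb1 f1) (zero_of hb2 f2) (zero_of hb3 f3) (zero_of hb4 f4) (zero_of hb5 f5) (zero_of hb6 f6) h0 (zero_of hb8 f8) (zero_of hb9 f9) (zero_of hb10 f10) (zero_of hb11 f11)
    · exact ext12 (by change c 0 = c 7 * 0; rw [mul_zero, zero_of hb0 f0]) (by change c 1 = c 7 * 0; rw [mul_zero, zero_of hb1 f1]) (by change c 2 = c 7 * 0; rw [mul_zero, zero_of hb2 f2]) (by change c 3 = c 7 * 0; rw [mul_zero, zero_of hb3 f3]) (by change c 4 = c 7 * 0; rw [mul_zero, zero_of hb4 f4]) (by change c 5 = c 7 * 0; rw [mul_zero, zero_of hb5 f5]) (by change c 6 = c 7 * 0; rw [mul_zero, zero_of hb6 f6]) (by change c 7 = c 7 * 1; rw [mul_one]) (by change c 8 = c 7 * 0; rw [mul_zero, zero_of hb8 f8]) (by change c 9 = c 7 * 0; rw [mul_zero, zero_of hb9 f9]) (by change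 c 10 = c 7 * 0; rw [mul_zero, zero_of hb10 f10]) (by change c 11 = c 7 * 0; rw [mul_zero, zero_of hb11 f11])
  · refine ⟨8, c 8, ?_, ?_⟩
    · intro h0; apply hc; exact ext12 (zero_of hb0 f0) (zero_of hb1 f1) (zero_of hb2 f2) (zero_of hb3 f3) (zero_of hb4 f4) (zero_of hb5 f5) (zero_of hb6 f6) (zero_of hb7 f7) h0 (zero_of hb9 f9) (zero_of hb10 f10) (zero_of hb11 f11)
    · exact ext12 (by change c 0 = c 8 * 0; rw [mul_zero, zero_of hb0 f0]) (by change c 1 = c 8 * 0; rw [mul_zero, zero_of hb1 f1]) (by change c 2 = c 8 * 0; rw [mul_zero, zero_of hb2 f2]) (by change c 3 = c 8 * 0; rw [mul_zero, zero_of hb3 f3]) (by change c 4 = c 8 * 0; rw [mul_zero, zero_of hb4 f4]) (by change c 5 = c 8 * 0; rw [mul_zero, zero_of hb5 f5]) (by change c 6 = c 8 * 0; rw [mul_zero, zero_of hb6 f6]) (by change c 7 = c 8 * 0; rw [mul_zero, zero_of hb7 f7]) (by change c 8 = c 8 * 1; rw [mul_one]) (by change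 c 9 = c 8 * 0; rw [mul_zero, zero_of hb9 f9]) (by change c 10 = c 8 * 0; rw [mul_zero, zero_of hb10 f10]) (by change c 11 = c 8 * 0; rw [mul_zero, zero_of hb11 f11])
  · refine ⟨9, c 9, ?_, ?_⟩
    · intro h0; apply hc; exact ext12 (zero_of hb0 f0) (zero_of hb1 f1) (zero_of hb2 f2) (zero_of hb3 f3) (zero_of hb4 f4) (zero_of hb5 f5) (zero_of hb6 f6) (zero_of hb7 f7) (zero_of hb8 f8) h0 (zero_of hb10 f10) (zero_of hb11 f11)
    · exact ext12 (by change c 0 = c 9 * 0; rw [mul_zero, zero_of hb0 f0]) (by change c 1 = c 9 * 0; rw [mul_zero, zero_of hb1 f1]) (by change c 2 = c 9 * 0; rw [mul_zero, zero_of hb2 f2]) (by change c 3 = c 9 * 0; rw [mul_zero, zero_of hb3 f3]) (by change c 4 = c 9 * 0; rw [mul_zero, zero_of hb4 f4]) (by change c 5 = c 9 * 0; rw [mul_zero, zero_of hb5 f5]) (by change c 6 = c 9 * 0; rw [mul_zero, zero_of hb6 f6]) (by change c 7 = c 9 * 0; rw [mul_zero, zero_of hb7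 f7]) (by change c 8 = c 9 * 0; rw [mul_zero, zero_of hb8 f8]) (by change c 9 = c 9 * 1; rw [mul_one]) (by change c 10 = c 9 * 0; rw [mul_zero, zero_of hb10 f10]) (by change c 11 = c 9 * 0; rw [mul_zero, zero_of hb11 f11])
  · refine ⟨10, c 10, ?_, ?_⟩
    · intro h0; apply hc; exact ext12 (zero_of hb0 f0) (zero_of hb1 f1) (zero_of hb2 f2) (zero_of hb3 f3) (zero_of hb4 f4) (zero_of hb5 f5) (zero_of hb6 f6) (zero_of hb7 f7) (zero_of hb8 f8) (zero_of hb9 f9) h0 (zero_of hb11 f11)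
    · exact ext12 (by change c 0 = c 10 * 0; rw [mul_zero, zero_of hb0 f0]) (by change c 1 = c 10 * 0; rw [mul_zero, zero_of hb1 f1]) (by change c 2 = c 10 * 0; rw [mul_zero, zero_of hb2 f2]) (by change c 3 = c 10 * 0; rw [mul_zero, zero_of hb3 f3]) (by change c 4 = c 10 * 0; rw [mul_zero, zero_of hb4 f4]) (by change c 5 = c 10 * 0; rw [mul_zero, zero_of hb5 f5]) (by change c 6 = c 10 * 0; rw [mul_zero, zero_of hb6 f6]) (by change c 7 = c 10 * 0; rw [mul_zero, zero_of hb7 f7]) (by change c 8 = c 10 * 0; rw [mul_zero, zero_of hb8 f8]) (by change c 9 = c 10 * 0; rw [mul_zero, zero_of hb9 f9]) (by change c 10 = c 10 * 1; rw [mul_one]) (by change c 11 = c 10 * 0; rw [mul_zero, zero_of hb11 f11])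
  · refine ⟨11, c 11, ?_, ?_⟩
    · intro h0; apply hc; exact ext12 (zero_of hb0 f0) (zero_of hb1 f1) (zero_of hb2 f2) (zero_of hb3 f3) (zero_of hb4 f4) (zero_of hb5 f5) (zero_of hb6 f6) (zero_of hb7 f7) (zero_of hb8 f8) (zero_of hb9 f9) (zero_of hb10 f10) h0
    · exact ext12 (by change c 0 = c 11 * 0; rw [mul_zero, zero_of hb0 f0]) (by change c 1 = c 11 * 0; rw [mul_zero, zero_of hb1 f1]) (by change c 2 = c 11 * 0; rw [mul_zero, zero_of hb2 f2]) (by change c 3 = c 11 * 0; rw [mul_zero, zero_of hb3 f3]) (by change c 4 = c 11 * 0; rw [mul_zero, zero_of hb4 f4]) (by change c 5 = c 11 * 0; rw [mul_zero, zero_of hb5 f5]) (by change c 6 = c 11 * 0; rw [mul_zero, zero_of hb6 f6]) (by change c 7 = c 11 * 0; rw [mul_zero, zero_of hb7 f7]) (by change c 8 = c 11 * 0; rw [mul_zero, zero_of hb8 f8]) (by change c 9 = c 11 * 0; rw [mul_zero, zero_of hb9 f9]) (by change c 10 = c 11 * 0; rw [mul_zero,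 zero_of hb10 f10]) (by change c 11 = c 11 * 1; rw [mul_one])
  · have n1 := ne_of hb0 g0
    have n2 := ne_of hb1 g1
    have n3 := ne_of hb2 g2
    have e1 := h.p_0_1
    have e2 := h.p_0_2
    have v1 : c 1 = c 0 * 1 := by clear hker h; grind
    have v2 : c 2 = c 0 * 1 := by clear hker h; grind
    exact ⟨12, c 0, n1, ext12 (by change c 0 = c 0 * 1; rw [mul_one]) v1 v2 (by change c 3 = c 0 * 0; rw [mul_zero, zero_of hb3 f3]) (by change c 4 = c 0 * 0; rw [mul_zero, zero_of hb4 f4]) (by change c 5 = c 0 * 0; rw [mul_zero, zero_of hb5 f5]) (by change c 6 = c 0 * 0; rw [mul_zero, zero_of hb6 f6]) (by change c 7 = c 0 * 0; rw [mul_zero, zero_of hb7 f7]) (by change c 8 = c 0 * 0; rw [mul_zero, zero_of hb8 f8]) (by change c 9 = c 0 * 0; rw [mul_zero, zero_of hb9 f9]) (by change c 10 = c 0 * 0; rw [mul_zero, zero_of hb10 f10]) (by change c 11 = c 0 * 0; rw [mul_zero, zero_of hb11 f11])⟩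
  · have n1 := ne_of hb0 g0
    have n2 := ne_of hb3 g3
    have n3 := ne_of hb6 g6
    have e1 := h.p_0_3
    have e2 := h.p_0_6
    have v1 : c 3 = c 0 * 1 := by clear hker h; grind
    have v2 : c 6 = c 0 * 1 := by clear hker h; grind
    exact ⟨13, c 0, n1, ext12 (by change c 0 = c 0 * 1; rw [mul_one]) (by change c 1 = c 0 * 0; rw [mul_zero, zero_of hb1 f1]) (by change c 2 = c 0 * 0; rw [mul_zero, zero_of hb2 f2]) v1 (by change c 4 = c 0 * 0; rw [mul_zero, zero_of hb4 f4]) (by change c 5 = c 0 * 0; rw [mul_zero, zero_of hb5 f5]) v2 (by change c 7 = c 0 * 0; rw [mul_zero, zero_of hb7 f7]) (by change c 8 = c 0 * 0; rw [mul_zero, zero_of hb8 f8]) (by change c 9 = c 0 * 0; rw [mul_zero, zero_of hb9 f9]) (by change c 10 = c 0 * 0; rw [mul_zero, zero_of hb10 f10]) (by change c 11 = c 0 * 0; rw [mul_zero, zero_of hb11 f11])⟩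
  · have n1 := ne_of hb0 g0
    have n2 := ne_of hb5 g5
    have n3 := ne_of hb10 g10
    have e1 := h.p_0_5
    have e2 := h.p_0_10
    have v1 : c 5 = c 0 * (-w ^ 2) := by clear hker h; grind
    have v2 : c 10 = c 0 * (-1) := by clear hker h; grind
    exact ⟨14, c 0, n1, ext12 (by change c 0 = c 0 * 1; rw [mul_one]) (by change c 1 = c 0 * 0; rw [mul_zero, zero_of hb1 f1]) (by change c 2 = c 0 * 0; rw [mul_zero, zero_of hb2 f2]) (by change c 3 = c 0 * 0; rw [mul_zero, zero_of hb3 f3]) (by change c 4 = c 0 * 0; rw [mul_zero, zero_of hb4 f4]) v1 (by change c 6 = c 0 * 0; rw [mul_zero, zero_of hb6 f6]) (by change c 7 = c 0 * 0; rw [mul_zero, zero_of hb7 f7]) (by change c 8 = c 0 * 0; rw [mul_zero, zero_of hb8 f8]) (by change c 9 = c 0 * 0; rw [mul_zero, zero_of hb9 f9]) v2 (by change c 11 = c 0 * 0; rw [mul_zero, zero_of hb11 f11])⟩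
  · have n1 := ne_of hb1 g1
    have n2 := ne_of hb3 g3
    have n3 := ne_of hb11 g11
    have e1 := h.p_1_3
    have e2 := h.p_1_11
    have v1 : c 3 = c 1 * (-w ^ 2) := by clear hker h; grind
    have v2 : c 11 = c 1 * (-w ^ 2) := by clear hker h; grind
    exact ⟨15, c 1, n1, ext12 (by change c 0 = c 1 * 0; rw [mul_zero, zero_of hb0 f0]) (by change c 1 = c 1 * 1; rw [mul_one]) (by change c 2 = c 1 * 0; rw [mul_zero, zero_of hb2 f2]) v1 (by change c 4 = c 1 * 0; rw [mul_zero, zero_of hb4 f4]) (by change c 5 = c 1 * 0; rw [mul_zero, zero_of hb5 f5]) (by change c 6 = c 1 * 0; rw [mul_zero, zero_of hb6 f6]) (by change c 7 = c 1 * 0; rw [mul_zero, zero_of hb7 f7]) (by change c 8 = c 1 * 0; rw [mul_zero, zero_of hb8 f8]) (by change c 9 = c 1 * 0; rw [mul_zero, zero_of hb9 f9]) (by change c 10 = c 1 * 0; rw [mul_zero, zero_of hb10 f10]) v2⟩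
  · have n1 := ne_of hb1 g1
    have n2 := ne_of hb4 g4
    have n3 := ne_of hb6 g6
    have e1 := h.p_1_4
    have e2 := h.p_1_6
    have v1 : c 4 = c 1 * 1 := by clear hker h; grind
    have v2 : c 6 = c 1 * w ^ 2 := by clear hker h; grind
    exact ⟨16, c 1, n1, ext12 (by change c 0 = c 1 * 0; rw [mul_zero, zero_of hb0 f0]) (by change c 1 = c 1 * 1; rw [mul_one]) (by change c 2 = c 1 * 0; rw [mul_zero, zero_of hb2 f2]) (by change c 3 = c 1 * 0; rw [mul_zero, zero_of hb3 f3]) v1 (by change c 5 = c 1 * 0; rw [mul_zero, zero_of hb5 f5]) v2 (by change c 7 = c 1 * 0; rw [mul_zero, zero_of hb7 f7]) (by change c 8 = c 1 * 0; rw [mul_zero, zero_of hb8 f8]) (by change c 9 = c 1 * 0; rw [mul_zero, zero_of hb9 f9]) (by change c 10 = c 1 * 0; rw [mul_zero, zero_of hb10 f10]) (by change c 11 = c 1 * 0; rw [mul_zero, zero_of hb11 f11])⟩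
  · have n1 := ne_of hb2 g2
    have n2 := ne_of hb4 g4
    have n3 := ne_of hb9 g9
    have e1 := h.p_2_4
    have e2 := h.p_2_9
    have v1 : c 4 = c 2 * (-w ^ 2) := by clear hker h; grind
    have v2 : c 9 = c 2 * (-w) := by clear hker h; grind
    exact ⟨17, c 2, n1, ext12 (by change c 0 = c 2 * 0; rw [mul_zero, zero_of hb0 f0]) (by change c 1 = c 2 * 0; rw [mul_zero, zero_of hb1 f1]) (by change c 2 = c 2 * 1; rw [mul_one]) (by change c 3 = c 2 * 0; rw [mul_zero, zero_of hb3 f3]) v1 (by change c 5 = c 2 * 0; rw [mul_zero, zero_of hb5 f5]) (by change c 6 = c 2 * 0; rw [mul_zero, zero_of hb6 f6]) (by change c 7 = c 2 * 0; rw [mul_zero, zero_of hb7 f7]) (by change c 8 = c 2 * 0; rw [mul_zero, zero_of hb8 f8]) v2 (by change c 10 = c 2 * 0; rw [mul_zero, zero_of hb10 f10]) (by change c 11 = c 2 * 0; rw [mul_zero, zero_of hb11 f11])⟩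
  · have n1 := ne_of hb2 g2
    have n2 := ne_of hb5 g5
    have n3 := ne_of hb6 g6
    have e1 := h.p_2_5
    have e2 := h.p_2_6
    have v1 : c 5 = c 2 * 1 := by clear hker h; grind
    have v2 : c 6 = c 2 * w := by clear hker h; grind
    exact ⟨18, c 2, n1, ext12 (by change c 0 = c 2 * 0; rw [mul_zero, zero_of hb0 f0]) (by change c 1 = c 2 * 0; rw [mul_zero, zero_of hb1 f1]) (by change c 2 = c 2 * 1; rw [mul_one]) (by change c 3 = c 2 * 0; rw [mul_zero, zero_of hb3 f3]) (by change c 4 = c 2 * 0; rw [mul_zero, zero_of hb4 f4]) v1 v2 (by change c 7 = c 2 * 0; rw [mul_zero, zero_of hb7 f7]) (by change c 8 = c 2 * 0; rw [mul_zero, zero_of hb8 f8]) (by change c 9 = c 2 * 0; rw [mul_zero, zero_of hb9 f9]) (by change c 10 = c 2 * 0; rw [mul_zero, zero_of hb10 f10]) (by change c 11 = c 2 * 0; rw [mul_zero, zero_of hb11 f11])⟩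
  · have n1 := ne_of hb6 g6
    have n2 := ne_of hb7 g7
    have n3 := ne_of hb8 g8
    have e1 := h.p_6_7
    have e2 := h.p_6_8
    have v1 : c 7 = c 6 * (-w) := by clear hker h; grind
    have v2 : c 8 = c 6 * (-w) := by clear hker h; grind
    exact ⟨19, c 6, n1, ext12 (by change c 0 = c 6 * 0; rw [mul_zero, zero_of hb0 f0]) (by change c 1 = c 6 * 0; rw [mul_zero, zero_of hb1 f1]) (by change c 2 = c 6 * 0; rw [mul_zero, zero_of hb2 f2]) (by change c 3 = c 6 * 0; rw [mul_zero, zero_of hb3 f3]) (by change c 4 = c 6 * 0; rw [mul_zero, zero_of hb4 f4]) (by change c 5 = c 6 * 0; rw [mul_zero, zero_of hb5 f5]) (by change c 6 = c 6 * 1; rw [mul_one]) v1 v2 (by change c 9 = c 6 * 0; rw [mul_zero, zero_of hb9 f9]) (by change c 10 = c 6 * 0; rw [mul_zero, zero_of hb10 f10]) (by change c 11 = c 6 * 0; rw [mul_zero, zero_of hb11 f11])⟩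
  · have n1 := ne_of hb9 g9
    have n2 := ne_of hb10 g10
    have n3 := ne_of hb11 g11
    have e1 := h.p_9_10
    have e2 := h.p_9_11
    have v1 : c 10 = c 9 * w ^ 2 := by clear hker h; grind
    have v2 : c 11 = c 9 * w := by clear hker h; grind
    exact ⟨20, c 9, n1, ext12 (by change c 0 = c 9 * 0; rw [mul_zero, zero_of hb0 f0]) (by change c 1 = c 9 * 0; rw [mul_zero, zero_of hb1 f1]) (by change c 2 = c 9 * 0; rw [mul_zero, zero_of hb2 f2]) (by change c 3 = c 9 * 0; rw [mul_zero, zero_of hb3 f3]) (by change c 4 = c 9 * 0; rw [mul_zero, zero_of hb4 f4]) (by change c 5 = c 9 * 0; rw [mul_zero, zero_of hb5 f5]) (by change c 6 = c 9 * 0; rw [mul_zero, zero_of hb6 f6]) (by change c 7 = c 9 * 0; rw [mul_zero, zero_of hb7 f7]) (by change c 8 = c 9 * 0; rw [mul_zero, zero_of hb8 f8]) (by change c 9 = c 9 * 1; rw [mul_one]) v1 v2⟩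
  · exfalso
    refine no_plane_0 hw h2 h hker (zero_of hb1 f1) (zero_of hb2 f2) (zero_of hb3 f3) (zero_of hb5 f5) (zero_of hb6 f6) (zero_of hb8 f8) (zero_of hb9 f9) (zero_of hb10 f10) ?_
    rw [← hb0, ← hb4, ← hb7, ← hb11]
    exact hm
  · exfalso
    refine no_plane_1 hw h2 h hker (zero_of hb0 f0) (zero_of hb2 f2) (zero_of hb3 f3) (zero_of hb4 f4) (zero_of hb6 f6) (zero_of hb8 f8) (zero_of hb10 f10) (zero_of hb11 f11) ?_
    rw [← hb1, ← hb5, ← hb7, ← hb9]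
    exact hm
  · exfalso
    refine no_plane_2 hw h2 h hker (zero_of hb0 f0) (zero_of hb1 f1) (zero_of hb4 f4) (zero_of hb5 f5) (zero_of hb6 f6) (zero_of hb8 f8) (zero_of hb9 f9) (zero_of hb11 f11) ?_
    rw [← hb2, ← hb3, ← hb7, ← hb10]
    exact hm
  · exfalso
    refine no_plane_3 hw h2 h hker (zero_of hb0 f0) (zero_of hb1 f1) (zero_of hb2 f2) (zero_of hb6 f6) (zero_of hb7 f7) (zero_of hb9 f9) (zero_of hb10 f10) (zero_of hb11 f11) ?_
    rw [← hb3, ← hb4, ← hb5, ← hb8]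
    exact hm

end Pool.H7.HilbEx
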