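import Pool.Agent.H7.HilbEx6

set_option autoImplicit false
set_option linter.unusedVariables false
set_option linter.unusedSectionVars false

namespace Pool.H7.HilbEx

/-- supports of the vectors `Yv w t` as bit masks -/
def msk : Fin 21 → ℕ := ![1, 2, 4, 8, 16, 32, 64, 128, 256, 512, 1024, 2048, 7, 73, 1057, 2058, 82, 532, 100, 448, 3584]

def supp (t : Fin 21) (i : Fin 12) : Bool := Nat.testBit (msk t) i

def ex1 (a b c d : ℕ) : ℕ :=
  (a ||| b ||| c ||| d) ^^^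
    ((a &&& b) ||| (a &&& c) ||| (a &&& d) ||| (b &&& c) ||| (b &&& d) ||| (c &&& d))

def one4 (a b c d : Bool) : Bool :=
  (a && !b && !c && !d) || (!a && b && !c && !d) || (!a && !b && c && !d) || (!a && !b && !c && d)

/-- `inQ t q` : `t` is one of the four elements of the `q`-th quadruple -/
def inQ (t : Fin 21) (q : Fin 9) : Bool :=
  Nat.testBit (![4103, 8265, 17441, 34826, 65618, 131604, 262244, 524736, 1052160] q : ℕ) t

def chk (t1 t2 t3 t4 : Fin 21) : Bool :=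
  !(ex1 (msk t1) (msk t2) (msk t3) (msk t4) == 0) ||
  t1 == t4 || t2 == t4 || t3 == t4 ||
  (List.finRange 9).any (fun q => inQ t1 q && inQ t2 q && inQ t3 q && inQ t4 q)

lemma chk_all : ∀ t1 t2 : Fin 21, t1 < t2 → ∀ t3 : Fin 21, t2 < t3 → ∀ t4 : Fin 21,
    chk t1 t2 t3 t4 = true := by
  decide +kernel

lemma msk_lt : ∀ t : Fin 21, msk t < 2 ^ 12 := by decide

lemma ex1_eq_zero {t1 t2 t3 t4 : Fin 21}
    (h : ∀ i : Fin 12, one4 (supp t1 i) (supp t2 i) (supp t3 i) (supp t4 i) = false) :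
    ex1 (msk t1) (msk t2) (msk t3) (msk t4) = 0 := by
  apply Nat.eq_of_testBit_eq
  intro i
  simp only [ex1, Nat.testBit_xor, Nat.testBit_or, Nat.testBit_and, Nat.zero_testBit]
  by_cases hi : i < 12
  · have := h ⟨i, hi⟩
    simp only [supp] at this
    revert this
    cases Nat.testBit (msk t1) i <;> cases Nat.testBit (msk t2) i <;>
      cases Nat.testBit (msk t3) i <;> cases Nat.testBit (msk t4) i <;> simp [one4]
  · have hb : ∀ t : Fin 21, Nat.testBit (msk t) i = false := by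
      intro t
      apply Nat.testBit_eq_false_of_lt
      exact lt_of_lt_of_le (msk_lt t) (Nat.pow_le_pow_right (by norm_num) (not_lt.mp hi))
    simp [hb]

lemma quad_sorted {t1 t2 t3 t4 : Fin 21} (h12 : t1 < t2) (h23 : t2 < t3) (h14 : t1 ≠ t4)
    (h24 : t2 ≠ t4) (h34 : t3 ≠ t4)
    (h : ∀ i : Fin 12, one4 (supp t1 i) (supp t2 i) (supp t3 i) (supp t4 i) = false) :
    ∃ q : Fin 9, inQ t1 q = true ∧ inQ t2 q = true ∧ inQ t3 q = true ∧ inQ t4 q = true := by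
  have h1 := chk_all t1 t2 h12 t3 h23 t4
  have h2 := ex1_eq_zero h
  simp only [chk, h2, Bool.or_eq_true, beq_iff_eq, List.any_eq_true, Bool.and_eq_true] at h1
  rcases h1 with (((h1 | h1) | h1) | h1) | ⟨q, _, hq⟩
  · simp at h1
  · exact absurd h1 h14
  · exact absurd h1 h24
  · exact absurd h1 h34
  · exact ⟨q, hq.1.1.1, hq.1.1.2, hq.1.2, hq.2⟩

lemma quad {t1 t2 t3 t4 : Fin 21} (h12 : t1 ≠ t2) (h13 : t1 ≠ t3) (h23 : t2 ≠ t3) (h14 : t1 ≠ t4)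
    (h24 : t2 ≠ t4) (h34 : t3 ≠ t4)
    (h : ∀ i : Fin 12, one4 (supp t1 i) (supp t2 i) (supp t3 i) (supp t4 i) = false) :
    ∃ q : Fin 9, inQ t1 q = true ∧ inQ t2 q = true ∧ inQ t3 q = true ∧ inQ t4 q = true := by
  have p1 : ∀ a b c d, one4 a b c d = false → one4 b a c d = false := by decide
  have p2 : ∀ a b c d, one4 a b c d = false → one4 a c b d = false := by decide
  rcases lt_or_gt_of_ne h12 with a | a <;> rcases lt_or_gt_of_ne h13 with b | b <;>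
    rcases lt_or_gt_of_ne h23 with c | c
  · exact quad_sorted a c h14 h24 h34 h
  · obtain ⟨q, q1, q2, q3, q4⟩ := quad_sorted b c h14 h34 h24 (fun i => p2 _ _ _ _ (h i))
    exact ⟨q, q1, q3, q2, q4⟩
  · exact absurd (lt_trans (lt_trans a c) b) (lt_irrefl _)
  · obtain ⟨q, q1, q2, q3, q4⟩ := quad_sorted b a h34 h14 h24
      (fun i => p1 _ _ _ _ (p2 _ _ _ _ (h i)))
    exact ⟨q, q2, q3, q1, q4⟩
  · obtain ⟨q, q1, q2, q3, q4⟩ := quad_sorted a b h24 h14 h34 (fun i => p1 _ _ _ _ (h i))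
    exact ⟨q, q2, q1, q3, q4⟩
  · exact absurd (lt_trans (lt_trans b c) a) (lt_irrefl _)
  · obtain ⟨q, q1, q2, q3, q4⟩ := quad_sorted c b h24 h34 h14
      (fun i => p2 _ _ _ _ (p1 _ _ _ _ (h i)))
    exact ⟨q, q3, q1, q2, q4⟩
  · obtain ⟨q, q1, q2, q3, q4⟩ := quad_sorted c a h34 h24 h14
      (fun i => p2 _ _ _ _ (p1 _ _ _ _ (p2 _ _ _ _ (h i))))
    exact ⟨q, q3, q2, q1, q4⟩

/-- the quadruples as finsets -/
def Qs (q : Fin 9) : Finset (Fin 21) := Finset.univ.filter (fun t => inQ t q = true)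

lemma card_Qs : ∀ q : Fin 9, (Qs q).card = 4 := by decide +kernel

lemma Qs_inj : ∀ q q' : Fin 9, Qs q = Qs q' → q = q' := by decide +kernel

/-- three distinct points on a line with exactly three points -/
def isLn (a b c : Fin 21) : Bool :=
  [7, 73, 1057, 2058, 82, 532, 100, 448, 3584].contains (2 ^ a.val + 2 ^ b.val + 2 ^ c.val)

set_option synthInstance.maxSize 100000 in
set_option synthInstance.maxHeartbeats 4000000 in
lemma isLn_of : ∀ (q : Fin 9) (a : Fin 21), inQ a q = true → a.val < 12 → ∀ b : Fin 21,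
    inQ b q = true → b.val < 12 → b ≠ a → ∀ c : Fin 21, inQ c q = true → c.val < 12 → c ≠ a → c ≠ b →
    isLn a b c = true := by
  decide +kernel

lemma two_quads : ∀ (t : Fin 21) (q q' : Fin 9), q ≠ q' → inQ t q = true → inQ t q' = true →
    t.val < 12 := by decide +kernel

set_option synthInstance.maxSize 100000 in
set_option synthInstance.maxHeartbeats 4000000 in
lemma comb : ∀ p0 p1 p2 : Fin 21, isLn p0 p1 p2 = true → ∀ p3 p6 : Fin 21, isLn p0 p3 p6 = true →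
    ∀ p4, isLn p1 p4 p6 = true → ∀ p5, isLn p2 p5 p6 = true → ∀ p10, isLn p0 p5 p10 = true →
    ∀ p11, isLn p1 p3 p11 = true → ∀ p9, isLn p2 p4 p9 = true → isLn p9 p10 p11 = true →
    (p0 = 0 ∧ p1 = 1 ∧ p2 = 2 ∧ p3 = 3 ∧ p4 = 4 ∧ p5 = 5 ∧ p6 = 6) ∨
    (p0 = 1 ∧ p1 = 2 ∧ p2 = 0 ∧ p3 = 4 ∧ p4 = 5 ∧ p5 = 3 ∧ p6 = 6) ∨
    (p0 = 2 ∧ p1 = 0 ∧ p2 = 1 ∧ p3 = 5 ∧ p4 = 3 ∧ p5 = 4 ∧ p6 = 6) := by
  decide +kernel

set_option synthInstance.maxSize 100000 in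
set_option synthInstance.maxHeartbeats 4000000 in
/-- the index of the fourth element -/
lemma fourth : ∀ (q : Fin 9) (a : Fin 21), inQ a q = true → a.val < 12 → ∀ b : Fin 21,
    inQ b q = true → b.val < 12 → b ≠ a → ∀ c : Fin 21, inQ c q = true → c.val < 12 → c ≠ a → c ≠ b →
    ∀ e : Fin 21, inQ e q = true → e ≠ a → e ≠ b → e ≠ c → e.val = 12 + q.val := by
  decide +kernel

/-- codes of the entries of `Yv` -/
def code : Fin 21 → Fin 12 → ℕ :=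
  ![![1, 0, 0, 0, 0, 0, 0, 0, 0, 0, 0, 0],
    ![0, 1, 0, 0, 0, 0, 0, 0, 0, 0, 0, 0],
    ![0, 0, 1, 0, 0, 0, 0, 0, 0, 0, 0, 0],
    ![0, 0, 0, 1, 0, 0, 0, 0, 0, 0, 0, 0],
    ![0, 0, 0, 0, 1, 0, 0, 0, 0, 0, 0, 0],
    ![0, 0, 0, 0, 0, 1, 0, 0, 0, 0, 0, 0],
    ![0, 0, 0, 0, 0, 0, 1, 0, 0, 0, 0, 0],
    ![0, 0, 0, 0, 0, 0, 0, 1, 0, 0, 0, 0],
    ![0, 0, 0, 0, 0, 0, 0, 0, 1, 0, 0, 0],
    ![0, 0, 0, 0, 0, 0, 0, 0, 0, 1, 0, 0],
    ![0, 0, 0, 0, 0, 0, 0, 0, 0, 0, 1, 0],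
    ![0, 0, 0, 0, 0, 0, 0, 0, 0, 0, 0, 1],
    ![1, 1, 1, 0, 0, 0, 0, 0, 0, 0, 0, 0],
    ![1, 0, 0, 1, 0, 0, 1, 0, 0, 0, 0, 0],
    ![1, 0, 0, 0, 0, 6, 0, 0, 0, 0, 2, 0],
    ![0, 1, 0, 6, 0, 0, 0, 0, 0, 0, 0, 6],
    ![0, 1, 0, 0, 1, 0, 5, 0, 0, 0, 0, 0],
    ![0, 0, 1, 0, 6, 0, 0, 0, 0, 4, 0, 0],
    ![0, 0, 1, 0, 0, 1, 3, 0, 0, 0, 0, 0],
    ![0, 0, 0, 0, 0, 0, 1, 4, 4, 0, 0, 0],
    ![0, 0, 0, 0, 0, 0, 0, 0, 0, 1, 5, 3]]

def evc {k : Type*} [Field k] (w : k) : ℕ → k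
  | 0 => 0
  | 1 => 1
  | 2 => -1
  | 3 => w
  | 4 => -w
  | 5 => w ^ 2
  | _ => -w ^ 2

lemma Yv_code {k : Type*} [Field k] (w : k) (t : Fin 21) (i : Fin 12) :
    Yv w t i = evc w (code t i) := by
  fin_cases t <;> fin_cases i <;> rfl

lemma evc_ne_zero {k : Type*} [Field k] {w : k} (hw : w ≠ 0) : ∀ n : ℕ, n ≠ 0 → evc w n ≠ 0
  | 0, h => absurd rfl h
  | 1, _ => one_ne_zero
  | 2, _ => neg_ne_zero.mpr one_ne_zero
  | 3, _ => hw
  | 4, _ => neg_ne_zero.mpr hw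
  | 5, _ => pow_ne_zero 2 hw
  | (n + 6), _ => neg_ne_zero.mpr (pow_ne_zero 2 hw)

lemma supp_code : ∀ (t : Fin 21) (i : Fin 12), supp t i = decide (code t i ≠ 0) := by
  decide +kernel

lemma Yv_eq_zero {k : Type*} [Field k] (w : k) {t : Fin 21} {i : Fin 12} (h : supp t i = false) :
    Yv w t i = 0 := by
  rw [supp_code] at h
  have : code t i = 0 := by simpa using h
  rw [Yv_code, this]
  rfl

lemma Yv_ne_zero {k : Type*} [Field k] {w : k} (hw : w ≠ 0) {t : Fin 21} {i : Fin 12}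
    (h : supp t i = true) : Yv w t i ≠ 0 := by
  rw [supp_code] at h
  rw [Yv_code]
  exact evc_ne_zero hw _ (by simpa using h)

lemma supp_inj : ∀ t t' : Fin 21, (∀ i, supp t i = supp t' i) → t = t' := by decide +kernel

end Pool.H7.HilbEx
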