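import Pool.Agent.H7.HilbEx7

set_option autoImplicit false
set_option linter.unusedVariables false
set_option linter.unusedSectionVars false

namespace Pool.H7.HilbEx

variable {k : Type*} [Field k] {A A' : Type*} [CommRing A] [Algebra k A] [CommRing A'] [Algebra k A']

lemma lf_0 (w : k) (x : Fin 12 → A) : lf x (Yv w 0) = x 0 := by
  rw [lf, sum12]
  change algebraMap k A (1) * x 0 + algebraMap k A (0) * x 1 + algebraMap k A (0) * x 2 + algebraMap k A (0) * x 3 + algebraMap k A (0) * x 4 + algebraMap k A (0) * x 5 + algebraMap k A (0) * x 6 + algebraMap k A (0) * x 7 + algebraMap k A (0) * x 8 + algebraMap k A (0) * x 9 + algebraMap k A (0) * x 10 + algebraMap k A (0) * x 11 = _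
  simp only [map_one, map_zero, map_neg, map_pow, one_mul, zero_mul, add_zero, zero_add]

lemma lf_1 (w : k) (x : Fin 12 → A) : lf x (Yv w 1) = x 1 := by
  rw [lf, sum12]
  change algebraMap k A (0) * x 0 + algebraMap k A (1) * x 1 + algebraMap k A (0) * x 2 + algebraMap k A (0) * x 3 + algebraMap k A (0) * x 4 + algebraMap k A (0) * x 5 + algebraMap k A (0) * x 6 + algebraMap k A (0) * x 7 + algebraMap k A (0) * x 8 + algebraMap k A (0) * x 9 + algebraMap k A (0) * x 10 + algebraMap k A (0) * x 11 = _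
  simp only [map_one, map_zero, map_neg, map_pow, one_mul, zero_mul, add_zero, zero_add]

lemma lf_2 (w : k) (x : Fin 12 → A) : lf x (Yv w 2) = x 2 := by
  rw [lf, sum12]
  change algebraMap k A (0) * x 0 + algebraMap k A (0) * x 1 + algebraMap k A (1) * x 2 + algebraMap k A (0) * x 3 + algebraMap k A (0) * x 4 + algebraMap k A (0) * x 5 + algebraMap k A (0) * x 6 + algebraMap k A (0) * x 7 + algebraMap k A (0) * x 8 + algebraMap k A (0) * x 9 + algebraMap k A (0) * x 10 + algebraMap k A (0) * x 11 = _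
  simp only [map_one, map_zero, map_neg, map_pow, one_mul, zero_mul, add_zero, zero_add]

lemma lf_3 (w : k) (x : Fin 12 → A) : lf x (Yv w 3) = x 3 := by
  rw [lf, sum12]
  change algebraMap k A (0) * x 0 + algebraMap k A (0) * x 1 + algebraMap k A (0) * x 2 + algebraMap k A (1) * x 3 + algebraMap k A (0) * x 4 + algebraMap k A (0) * x 5 + algebraMap k A (0) * x 6 + algebraMap k A (0) * x 7 + algebraMap k A (0) * x 8 + algebraMap k A (0) * x 9 + algebraMap k A (0) * x 10 + algebraMap k A (0) * x 11 = _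
  simp only [map_one, map_zero, map_neg, map_pow, one_mul, zero_mul, add_zero, zero_add]

lemma lf_4 (w : k) (x : Fin 12 → A) : lf x (Yv w 4) = x 4 := by
  rw [lf, sum12]
  change algebraMap k A (0) * x 0 + algebraMap k A (0) * x 1 + algebraMap k A (0) * x 2 + algebraMap k A (0) * x 3 + algebraMap k A (1) * x 4 + algebraMap k A (0) * x 5 + algebraMap k A (0) * x 6 + algebraMap k A (0) * x 7 + algebraMap k A (0) * x 8 + algebraMap k A (0) * x 9 + algebraMap k A (0) * x 10 + algebraMap k A (0) * x 11 = _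
  simp only [map_one, map_zero, map_neg, map_pow, one_mul, zero_mul, add_zero, zero_add]

lemma lf_5 (w : k) (x : Fin 12 → A) : lf x (Yv w 5) = x 5 := by
  rw [lf, sum12]
  change algebraMap k A (0) * x 0 + algebraMap k A (0) * x 1 + algebraMap k A (0) * x 2 + algebraMap k A (0) * x 3 + algebraMap k A (0) * x 4 + algebraMap k A (1) * x 5 + algebraMap k A (0) * x 6 + algebraMap k A (0) * x 7 + algebraMap k A (0) * x 8 + algebraMap k A (0) * x 9 + algebraMap k A (0) * x 10 + algebraMap k A (0) * x 11 = _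
  simp only [map_one, map_zero, map_neg, map_pow, one_mul, zero_mul, add_zero, zero_add]

lemma lf_6 (w : k) (x : Fin 12 → A) : lf x (Yv w 6) = x 6 := by
  rw [lf, sum12]
  change algebraMap k A (0) * x 0 + algebraMap k A (0) * x 1 + algebraMap k A (0) * x 2 + algebraMap k A (0) * x 3 + algebraMap k A (0) * x 4 + algebraMap k A (0) * x 5 + algebraMap k A (1) * x 6 + algebraMap k A (0) * x 7 + algebraMap k A (0) * x 8 + algebraMap k A (0) * x 9 + algebraMap k A (0) * x 10 + algebraMap k A (0) * x 11 = _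
  simp only [map_one, map_zero, map_neg, map_pow, one_mul, zero_mul, add_zero, zero_add]

lemma lf_7 (w : k) (x : Fin 12 → A) : lf x (Yv w 7) = x 7 := by
  rw [lf, sum12]
  change algebraMap k A (0) * x 0 + algebraMap k A (0) * x 1 + algebraMap k A (0) * x 2 + algebraMap k A (0) * x 3 + algebraMap k A (0) * x 4 + algebraMap k A (0) * x 5 + algebraMap k A (0) * x 6 + algebraMap k A (1) * x 7 + algebraMap k A (0) * x 8 + algebraMap k A (0) * x 9 + algebraMap k A (0) * x 10 + algebraMap k A (0) * x 11 = _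
  simp only [map_one, map_zero, map_neg, map_pow, one_mul, zero_mul, add_zero, zero_add]

lemma lf_8 (w : k) (x : Fin 12 → A) : lf x (Yv w 8) = x 8 := by
  rw [lf, sum12]
  change algebraMap k A (0) * x 0 + algebraMap k A (0) * x 1 + algebraMap k A (0) * x 2 + algebraMap k A (0) * x 3 + algebraMap k A (0) * x 4 + algebraMap k A (0) * x 5 + algebraMap k A (0) * x 6 + algebraMap k A (0) * x 7 + algebraMap k A (1) * x 8 + algebraMap k A (0) * x 9 + algebraMap k A (0) * x 10 + algebraMap k A (0) * x 11 = _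
  simp only [map_one, map_zero, map_neg, map_pow, one_mul, zero_mul, add_zero, zero_add]

lemma lf_9 (w : k) (x : Fin 12 → A) : lf x (Yv w 9) = x 9 := by
  rw [lf, sum12]
  change algebraMap k A (0) * x 0 + algebraMap k A (0) * x 1 + algebraMap k A (0) * x 2 + algebraMap k A (0) * x 3 + algebraMap k A (0) * x 4 + algebraMap k A (0) * x 5 + algebraMap k A (0) * x 6 + algebraMap k A (0) * x 7 + algebraMap k A (0) * x 8 + algebraMap k A (1) * x 9 + algebraMap k A (0) * x 10 + algebraMap k A (0) * x 11 = _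
  simp only [map_one, map_zero, map_neg, map_pow, one_mul, zero_mul, add_zero, zero_add]

lemma lf_10 (w : k) (x : Fin 12 → A) : lf x (Yv w 10) = x 10 := by
  rw [lf, sum12]
  change algebraMap k A (0) * x 0 + algebraMap k A (0) * x 1 + algebraMap k A (0) * x 2 + algebraMap k A (0) * x 3 + algebraMap k A (0) * x 4 + algebraMap k A (0) * x 5 + algebraMap k A (0) * x 6 + algebraMap k A (0) * x 7 + algebraMap k A (0) * x 8 + algebraMap k A (0) * x 9 + algebraMap k A (1) * x 10 + algebraMap k A (0) * x 11 = _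
  simp only [map_one, map_zero, map_neg, map_pow, one_mul, zero_mul, add_zero, zero_add]

lemma lf_11 (w : k) (x : Fin 12 → A) : lf x (Yv w 11) = x 11 := by
  rw [lf, sum12]
  change algebraMap k A (0) * x 0 + algebraMap k A (0) * x 1 + algebraMap k A (0) * x 2 + algebraMap k A (0) * x 3 + algebraMap k A (0) * x 4 + algebraMap k A (0) * x 5 + algebraMap k A (0) * x 6 + algebraMap k A (0) * x 7 + algebraMap k A (0) * x 8 + algebraMap k A (0) * x 9 + algebraMap k A (0) * x 10 + algebraMap k A (1) * x 11 = _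
  simp only [map_one, map_zero, map_neg, map_pow, one_mul, zero_mul, add_zero, zero_add]

lemma lf_12 (w : k) (x : Fin 12 → A) : lf x (Yv w 12) = x 0 + x 1 + x 2 := by
  rw [lf, sum12]
  change algebraMap k A (1) * x 0 + algebraMap k A (1) * x 1 + algebraMap k A (1) * x 2 + algebraMap k A (0) * x 3 + algebraMap k A (0) * x 4 + algebraMap k A (0) * x 5 + algebraMap k A (0) * x 6 + algebraMap k A (0) * x 7 + algebraMap k A (0) * x 8 + algebraMap k A (0) * x 9 + algebraMap k A (0) * x 10 + algebraMap k A (0) * x 11 = _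
  simp only [map_one, map_zero, map_neg, map_pow, one_mul, zero_mul, add_zero, zero_add]

lemma lf_13 (w : k) (x : Fin 12 → A) : lf x (Yv w 13) = x 0 + x 3 + x 6 := by
  rw [lf, sum12]
  change algebraMap k A (1) * x 0 + algebraMap k A (0) * x 1 + algebraMap k A (0) * x 2 + algebraMap k A (1) * x 3 + algebraMap k A (0) * x 4 + algebraMap k A (0) * x 5 + algebraMap k A (1) * x 6 + algebraMap k A (0) * x 7 + algebraMap k A (0) * x 8 + algebraMap k A (0) * x 9 + algebraMap k A (0) * x 10 + algebraMap k A (0) * x 11 = _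
  simp only [map_one, map_zero, map_neg, map_pow, one_mul, zero_mul, add_zero, zero_add]

lemma lf_14 (w : k) (x : Fin 12 → A) : lf x (Yv w 14) = x 0 + -(algebraMap k A w ^ 2 * x 5) + -(x 10) := by
  rw [lf, sum12]
  change algebraMap k A (1) * x 0 + algebraMap k A (0) * x 1 + algebraMap k A (0) * x 2 + algebraMap k A (0) * x 3 + algebraMap k A (0) * x 4 + algebraMap k A (-w ^ 2) * x 5 + algebraMap k A (0) * x 6 + algebraMap k A (0) * x 7 + algebraMap k A (0) * x 8 + algebraMap k A (0) * x 9 + algebraMap k A (-1) * x 10 + algebraMap k A (0) * x 11 = _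
  simp only [map_one, map_zero, map_neg, map_pow, one_mul, zero_mul, add_zero, zero_add]
  ring

lemma lf_15 (w : k) (x : Fin 12 → A) : lf x (Yv w 15) = x 1 + -(algebraMap k A w ^ 2 * x 3) + -(algebraMap k A w ^ 2 * x 11) := by
  rw [lf, sum12]
  change algebraMap k A (0) * x 0 + algebraMap k A (1) * x 1 + algebraMap k A (0) * x 2 + algebraMap k A (-w ^ 2) * x 3 + algebraMap k A (0) * x 4 + algebraMap k A (0) * x 5 + algebraMap k A (0) * x 6 + algebraMap k A (0) * x 7 + algebraMap k A (0) * x 8 + algebraMap k A (0) * x 9 + algebraMap k A (0) * x 10 + algebraMap k A (-w ^ 2) * x 11 = _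
  simp only [map_one, map_zero, map_neg, map_pow, one_mul, zero_mul, add_zero, zero_add]
  ring

lemma lf_16 (w : k) (x : Fin 12 → A) : lf x (Yv w 16) = x 1 + x 4 + algebraMap k A w ^ 2 * x 6 := by
  rw [lf, sum12]
  change algebraMap k A (0) * x 0 + algebraMap k A (1) * x 1 + algebraMap k A (0) * x 2 + algebraMap k A (0) * x 3 + algebraMap k A (1) * x 4 + algebraMap k A (0) * x 5 + algebraMap k A (w ^ 2) * x 6 + algebraMap k A (0) * x 7 + algebraMap k A (0) * x 8 + algebraMap k A (0) * x 9 + algebraMap k A (0) * x 10 + algebraMap k A (0) * x 11 = _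
  simp only [map_one, map_zero, map_neg, map_pow, one_mul, zero_mul, add_zero, zero_add]

lemma lf_17 (w : k) (x : Fin 12 → A) : lf x (Yv w 17) = x 2 + -(algebraMap k A w ^ 2 * x 4) + -(algebraMap k A w * x 9) := by
  rw [lf, sum12]
  change algebraMap k A (0) * x 0 + algebraMap k A (0) * x 1 + algebraMap k A (1) * x 2 + algebraMap k A (0) * x 3 + algebraMap k A (-w ^ 2) * x 4 + algebraMap k A (0) * x 5 + algebraMap k A (0) * x 6 + algebraMap k A (0) * x 7 + algebraMap k A (0) * x 8 + algebraMap k A (-w) * x 9 + algebraMap k A (0) * x 10 + algebraMap k A (0) * x 11 = _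
  simp only [map_one, map_zero, map_neg, map_pow, one_mul, zero_mul, add_zero, zero_add]
  ring

lemma lf_18 (w : k) (x : Fin 12 → A) : lf x (Yv w 18) = x 2 + x 5 + algebraMap k A w * x 6 := by
  rw [lf, sum12]
  change algebraMap k A (0) * x 0 + algebraMap k A (0) * x 1 + algebraMap k A (1) * x 2 + algebraMap k A (0) * x 3 + algebraMap k A (0) * x 4 + algebraMap k A (1) * x 5 + algebraMap k A (w) * x 6 + algebraMap k A (0) * x 7 + algebraMap k A (0) * x 8 + algebraMap k A (0) * x 9 + algebraMap k A (0) * x 10 + algebraMap k A (0) * x 11 = _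
  simp only [map_one, map_zero, map_neg, map_pow, one_mul, zero_mul, add_zero, zero_add]

lemma lf_19 (w : k) (x : Fin 12 → A) : lf x (Yv w 19) = x 6 + -(algebraMap k A w * x 7) + -(algebraMap k A w * x 8) := by
  rw [lf, sum12]
  change algebraMap k A (0) * x 0 + algebraMap k A (0) * x 1 + algebraMap k A (0) * x 2 + algebraMap k A (0) * x 3 + algebraMap k A (0) * x 4 + algebraMap k A (0) * x 5 + algebraMap k A (1) * x 6 + algebraMap k A (-w) * x 7 + algebraMap k A (-w) * x 8 + algebraMap k A (0) * x 9 + algebraMap k A (0) * x 10 + algebraMap k A (0) * x 11 = _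
  simp only [map_one, map_zero, map_neg, map_pow, one_mul, zero_mul, add_zero, zero_add]
  ring

lemma lf_20 (w : k) (x : Fin 12 → A) : lf x (Yv w 20) = x 9 + algebraMap k A w ^ 2 * x 10 + algebraMap k A w * x 11 := by
  rw [lf, sum12]
  change algebraMap k A (0) * x 0 + algebraMap k A (0) * x 1 + algebraMap k A (0) * x 2 + algebraMap k A (0) * x 3 + algebraMap k A (0) * x 4 + algebraMap k A (0) * x 5 + algebraMap k A (0) * x 6 + algebraMap k A (0) * x 7 + algebraMap k A (0) * x 8 + algebraMap k A (1) * x 9 + algebraMap k A (w ^ 2) * x 10 + algebraMap k A (w) * x 11 = _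
  simp only [map_one, map_zero, map_neg, map_pow, one_mul, zero_mul, add_zero, zero_add]

lemma sq_all {w : k} (hw : w ^ 2 + w + 1 = 0) {x : Fin 12 → A} (h : Rels (algebraMap k A w) x) (t : Fin 21) :
    lf x (Yv w t) * lf x (Yv w t) = 0 := by
  have hW : (algebraMap k A w) ^ 2 + algebraMap k A w + 1 = 0 := by
    rw [← map_pow, ← map_one (algebraMap k A), ← map_add, ← map_add, hw, map_zero]
  have hs := h.sq
  have r0_1_2 := h.r_0_1_2
  have r0_3_6 := h.r_0_3_6
  have r0_5_10 := h.r_0_5_10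
  have r1_3_11 := h.r_1_3_11
  have r1_4_6 := h.r_1_4_6
  have r2_4_9 := h.r_2_4_9
  have r2_5_6 := h.r_2_5_6
  have r6_7_8 := h.r_6_7_8
  have r9_10_11 := h.r_9_10_11
  clear h
  fin_cases t
  · change lf x (Yv w 0) * lf x (Yv w 0) = 0; rw [lf_0]; exact hs 0
  · change lf x (Yv w 1) * lf x (Yv w 1) = 0; rw [lf_1]; exact hs 1
  · change lf x (Yv w 2) * lf x (Yv w 2) = 0; rw [lf_2]; exact hs 2
  · change lf x (Yv w 3) * lf x (Yv w 3) = 0; rw [lf_3]; exact hs 3
  · change lf x (Yv w 4) * lf x (Yv w 4) = 0; rw [lf_4]; exact hs 4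
  · change lf x (Yv w 5) * lf x (Yv w 5) = 0; rw [lf_5]; exact hs 5
  · change lf x (Yv w 6) * lf x (Yv w 6) = 0; rw [lf_6]; exact hs 6
  · change lf x (Yv w 7) * lf x (Yv w 7) = 0; rw [lf_7]; exact hs 7
  · change lf x (Yv w 8) * lf x (Yv w 8) = 0; rw [lf_8]; exact hs 8
  · change lf x (Yv w 9) * lf x (Yv w 9) = 0; rw [lf_9]; exact hs 9
  · change lf x (Yv w 10) * lf x (Yv w 10) = 0; rw [lf_10]; exact hs 10
  · change lf x (Yv w 11) * lf x (Yv w 11) = 0; rw [lf_11]; exact hs 11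
  · change lf x (Yv w 12) * lf x (Yv w 12) = 0; rw [lf_12]
    have s1 := hs 0; have s2 := hs 1; have s3 := hs 2; have r := r0_1_2
    clear hs r0_1_2 r0_3_6 r0_5_10 r1_3_11 r1_4_6 r2_4_9 r2_5_6 r6_7_8 r9_10_11
    generalize algebraMap k A w = W at *
    grind
  · change lf x (Yv w 13) * lf x (Yv w 13) = 0; rw [lf_13]
    have s1 := hs 0; have s2 := hs 3; have s3 := hs 6; have r := r0_3_6
    clear hs r0_1_2 r0_3_6 r0_5_10 r1_3_11 r1_4_6 r2_4_9 r2_5_6 r6_7_8 r9_10_11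
    generalize algebraMap k A w = W at *
    grind
  · change lf x (Yv w 14) * lf x (Yv w 14) = 0; rw [lf_14]
    have s1 := hs 0; have s2 := hs 5; have s3 := hs 10; have r := r0_5_10
    clear hs r0_1_2 r0_3_6 r0_5_10 r1_3_11 r1_4_6 r2_4_9 r2_5_6 r6_7_8 r9_10_11
    generalize algebraMap k A w = W at *
    grind
  · change lf x (Yv w 15) * lf x (Yv w 15) = 0; rw [lf_15]
    have s1 := hs 1; have s2 := hs 3; have s3 := hs 11; have r := r1_3_11
    clear hs r0_1_2 r0_3_6 r0_5_10 r1_3_11 r1_4_6 r2_4_9 r2_5_6 r6_7_8 r9_10_11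
    generalize algebraMap k A w = W at *
    grind
  · change lf x (Yv w 16) * lf x (Yv w 16) = 0; rw [lf_16]
    have s1 := hs 1; have s2 := hs 4; have s3 := hs 6; have r := r1_4_6
    clear hs r0_1_2 r0_3_6 r0_5_10 r1_3_11 r1_4_6 r2_4_9 r2_5_6 r6_7_8 r9_10_11
    generalize algebraMap k A w = W at *
    grind
  · change lf x (Yv w 17) * lf x (Yv w 17) = 0; rw [lf_17]
    have s1 := hs 2; have s2 := hs 4; have s3 := hs 9; have r := r2_4_9
    clear hs r0_1_2 r0_3_6 r0_5_10 r1_3_11 r1_4_6 r2_4_9 r2_5_6 r6_7_8 r9_10_11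
    generalize algebraMap k A w = W at *
    grind
  · change lf x (Yv w 18) * lf x (Yv w 18) = 0; rw [lf_18]
    have s1 := hs 2; have s2 := hs 5; have s3 := hs 6; have r := r2_5_6
    clear hs r0_1_2 r0_3_6 r0_5_10 r1_3_11 r1_4_6 r2_4_9 r2_5_6 r6_7_8 r9_10_11
    generalize algebraMap k A w = W at *
    grind
  · change lf x (Yv w 19) * lf x (Yv w 19) = 0; rw [lf_19]
    have s1 := hs 6; have s2 := hs 7; have s3 := hs 8; have r := r6_7_8
    clear hs r0_1_2 r0_3_6 r0_5_10 r1_3_11 r1_4_6 r2_4_9 r2_5_6 r6_7_8 r9_10_11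
    generalize algebraMap k A w = W at *
    grind
  · change lf x (Yv w 20) * lf x (Yv w 20) = 0; rw [lf_20]
    have s1 := hs 9; have s2 := hs 10; have s3 := hs 11; have r := r9_10_11
    clear hs r0_1_2 r0_3_6 r0_5_10 r1_3_11 r1_4_6 r2_4_9 r2_5_6 r6_7_8 r9_10_11
    generalize algebraMap k A w = W at *
    grind

/-- the transported vector `c g` -/
lemma lf_vecMul {x : Fin 12 → A} {y : Fin 12 → A'} (φ : A →ₐ[k] A') (g : Matrix (Fin 12) (Fin 12) k)
    (hφ : ∀ i, φ (x i) = lf y (g i)) (c : Fin 12 → k) : φ (lf x c) = lf y (Matrix.vecMul c g) := by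
  simp only [lf, map_sum, map_mul, AlgHom.commutes, Matrix.vecMul, dotProduct]
  simp only [hφ, lf, Finset.mul_sum, Finset.sum_mul]
  rw [Finset.sum_comm]
  refine Finset.sum_congr rfl fun j _ => Finset.sum_congr rfl fun i _ => ?_
  ring

lemma Yv_ne (w : k) (t : Fin 21) : Yv w t ≠ 0 := by
  intro h
  fin_cases t
  · exact one_ne_zero (show (1 : k) = 0 from congrFun h 0)
  · exact one_ne_zero (show (1 : k) = 0 from congrFun h 1)
  · exact one_ne_zero (show (1 : k) = 0 from congrFun h 2)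
  · exact one_ne_zero (show (1 : k) = 0 from congrFun h 3)
  · exact one_ne_zero (show (1 : k) = 0 from congrFun h 4)
  · exact one_ne_zero (show (1 : k) = 0 from congrFun h 5)
  · exact one_ne_zero (show (1 : k) = 0 from congrFun h 6)
  · exact one_ne_zero (show (1 : k) = 0 from congrFun h 7)
  · exact one_ne_zero (show (1 : k) = 0 from congrFun h 8)
  · exact one_ne_zero (show (1 : k) = 0 from congrFun h 9)
  · exact one_ne_zero (show (1 : k) = 0 from congrFun h 10)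
  · exact one_ne_zero (show (1 : k) = 0 from congrFun h 11)
  · exact one_ne_zero (show (1 : k) = 0 from congrFun h 0)
  · exact one_ne_zero (show (1 : k) = 0 from congrFun h 0)
  · exact one_ne_zero (show (1 : k) = 0 from congrFun h 0)
  · exact one_ne_zero (show (1 : k) = 0 from congrFun h 1)
  · exact one_ne_zero (show (1 : k) = 0 from congrFun h 1)
  · exact one_ne_zero (show (1 : k) = 0 from congrFun h 2)
  · exact one_ne_zero (show (1 : k) = 0 from congrFun h 2)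
  · exact one_ne_zero (show (1 : k) = 0 from congrFun h 6)
  · exact one_ne_zero (show (1 : k) = 0 from congrFun h 9)

lemma yline_0 (w : k) : Yv w 12 = Yv w 0 + ((1) : k) • Yv w 1 + ((1) : k) • Yv w 2 := by
  apply ext12
  · change (1 : k) = 1 + (1) * 0 + (1) * 0; ring
  · change (1 : k) = 0 + (1) * 1 + (1) * 0; ring
  · change (1 : k) = 0 + (1) * 0 + (1) * 1; ring
  · change (0 : k) = 0 + (1) * 0 + (1) * 0; ring
  · change (0 : k) = 0 + (1) * 0 + (1) * 0; ring
  · change (0 : k) = 0 + (1) * 0 + (1) * 0; ring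
  · change (0 : k) = 0 + (1) * 0 + (1) * 0; ring
  · change (0 : k) = 0 + (1) * 0 + (1) * 0; ring
  · change (0 : k) = 0 + (1) * 0 + (1) * 0; ring
  · change (0 : k) = 0 + (1) * 0 + (1) * 0; ring
  · change (0 : k) = 0 + (1) * 0 + (1) * 0; ring
  · change (0 : k) = 0 + (1) * 0 + (1) * 0; ring

lemma yline_1 (w : k) : Yv w 13 = Yv w 0 + ((1) : k) • Yv w 3 + ((1) : k) • Yv w 6 := by
  apply ext12
  · change (1 : k) = 1 + (1) * 0 + (1) * 0; ring
  · change (0 : k) = 0 + (1) * 0 + (1) * 0; ring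
  · change (0 : k) = 0 + (1) * 0 + (1) * 0; ring
  · change (1 : k) = 0 + (1) * 1 + (1) * 0; ring
  · change (0 : k) = 0 + (1) * 0 + (1) * 0; ring
  · change (0 : k) = 0 + (1) * 0 + (1) * 0; ring
  · change (1 : k) = 0 + (1) * 0 + (1) * 1; ring
  · change (0 : k) = 0 + (1) * 0 + (1) * 0; ring
  · change (0 : k) = 0 + (1) * 0 + (1) * 0; ring
  · change (0 : k) = 0 + (1) * 0 + (1) * 0; ring
  · change (0 : k) = 0 + (1) * 0 + (1) * 0; ring
  · change (0 : k) = 0 + (1) * 0 + (1) * 0; ring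

lemma yline_2 (w : k) : Yv w 14 = Yv w 0 + ((-w ^ 2) : k) • Yv w 5 + ((-1) : k) • Yv w 10 := by
  apply ext12
  · change (1 : k) = 1 + (-w ^ 2) * 0 + (-1) * 0; ring
  · change (0 : k) = 0 + (-w ^ 2) * 0 + (-1) * 0; ring
  · change (0 : k) = 0 + (-w ^ 2) * 0 + (-1) * 0; ring
  · change (0 : k) = 0 + (-w ^ 2) * 0 + (-1) * 0; ring
  · change (0 : k) = 0 + (-w ^ 2) * 0 + (-1) * 0; ring
  · change (-w ^ 2 : k) = 0 + (-w ^ 2) * 1 + (-1) * 0; ring
  · change (0 : k) = 0 + (-w ^ 2) * 0 + (-1) * 0; ring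
  · change (0 : k) = 0 + (-w ^ 2) * 0 + (-1) * 0; ring
  · change (0 : k) = 0 + (-w ^ 2) * 0 + (-1) * 0; ring
  · change (0 : k) = 0 + (-w ^ 2) * 0 + (-1) * 0; ring
  · change (-1 : k) = 0 + (-w ^ 2) * 0 + (-1) * 1; ring
  · change (0 : k) = 0 + (-w ^ 2) * 0 + (-1) * 0; ring

lemma yline_3 (w : k) : Yv w 15 = Yv w 1 + ((-w ^ 2) : k) • Yv w 3 + ((-w ^ 2) : k) • Yv w 11 := by
  apply ext12
  · change (0 : k) = 0 + (-w ^ 2) * 0 + (-w ^ 2) * 0; ring
  · change (1 : k) = 1 + (-w ^ 2) * 0 + (-w ^ 2) * 0; ring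
  · change (0 : k) = 0 + (-w ^ 2) * 0 + (-w ^ 2) * 0; ring
  · change (-w ^ 2 : k) = 0 + (-w ^ 2) * 1 + (-w ^ 2) * 0; ring
  · change (0 : k) = 0 + (-w ^ 2) * 0 + (-w ^ 2) * 0; ring
  · change (0 : k) = 0 + (-w ^ 2) * 0 + (-w ^ 2) * 0; ring
  · change (0 : k) = 0 + (-w ^ 2) * 0 + (-w ^ 2) * 0; ring
  · change (0 : k) = 0 + (-w ^ 2) * 0 + (-w ^ 2) * 0; ring
  · change (0 : k) = 0 + (-w ^ 2) * 0 + (-w ^ 2) * 0; ring
  · change (0 : k) = 0 + (-w ^ 2) * 0 + (-w ^ 2) * 0; ring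
  · change (0 : k) = 0 + (-w ^ 2) * 0 + (-w ^ 2) * 0; ring
  · change (-w ^ 2 : k) = 0 + (-w ^ 2) * 0 + (-w ^ 2) * 1; ring

lemma yline_4 (w : k) : Yv w 16 = Yv w 1 + ((1) : k) • Yv w 4 + ((w ^ 2) : k) • Yv w 6 := by
  apply ext12
  · change (0 : k) = 0 + (1) * 0 + (w ^ 2) * 0; ring
  · change (1 : k) = 1 + (1) * 0 + (w ^ 2) * 0; ring
  · change (0 : k) = 0 + (1) * 0 + (w ^ 2) * 0; ring
  · change (0 : k) = 0 + (1) * 0 + (w ^ 2) * 0; ring
  · change (1 : k) = 0 + (1) * 1 + (w ^ 2) * 0; ring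
  · change (0 : k) = 0 + (1) * 0 + (w ^ 2) * 0; ring
  · change (w ^ 2 : k) = 0 + (1) * 0 + (w ^ 2) * 1; ring
  · change (0 : k) = 0 + (1) * 0 + (w ^ 2) * 0; ring
  · change (0 : k) = 0 + (1) * 0 + (w ^ 2) * 0; ring
  · change (0 : k) = 0 + (1) * 0 + (w ^ 2) * 0; ring
  · change (0 : k) = 0 + (1) * 0 + (w ^ 2) * 0; ring
  · change (0 : k) = 0 + (1) * 0 + (w ^ 2) * 0; ring

lemma yline_5 (w : k) : Yv w 17 = Yv w 2 + ((-w ^ 2) : k) • Yv w 4 + ((-w) : k) • Yv w 9 := by
  apply ext12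
  · change (0 : k) = 0 + (-w ^ 2) * 0 + (-w) * 0; ring
  · change (0 : k) = 0 + (-w ^ 2) * 0 + (-w) * 0; ring
  · change (1 : k) = 1 + (-w ^ 2) * 0 + (-w) * 0; ring
  · change (0 : k) = 0 + (-w ^ 2) * 0 + (-w) * 0; ring
  · change (-w ^ 2 : k) = 0 + (-w ^ 2) * 1 + (-w) * 0; ring
  · change (0 : k) = 0 + (-w ^ 2) * 0 + (-w) * 0; ring
  · change (0 : k) = 0 + (-w ^ 2) * 0 + (-w) * 0; ring
  · change (0 : k) = 0 + (-w ^ 2) * 0 + (-w) * 0; ring
  · change (0 : k) = 0 + (-w ^ 2) * 0 + (-w) * 0; ring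
  · change (-w : k) = 0 + (-w ^ 2) * 0 + (-w) * 1; ring
  · change (0 : k) = 0 + (-w ^ 2) * 0 + (-w) * 0; ring
  · change (0 : k) = 0 + (-w ^ 2) * 0 + (-w) * 0; ring

lemma yline_6 (w : k) : Yv w 18 = Yv w 2 + ((1) : k) • Yv w 5 + ((w) : k) • Yv w 6 := by
  apply ext12
  · change (0 : k) = 0 + (1) * 0 + (w) * 0; ring
  · change (0 : k) = 0 + (1) * 0 + (w) * 0; ring
  · change (1 : k) = 1 + (1) * 0 + (w) * 0; ring
  · change (0 : k) = 0 + (1) * 0 + (w) * 0; ring
  · change (0 : k) = 0 + (1) * 0 + (w) * 0; ring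
  · change (1 : k) = 0 + (1) * 1 + (w) * 0; ring
  · change (w : k) = 0 + (1) * 0 + (w) * 1; ring
  · change (0 : k) = 0 + (1) * 0 + (w) * 0; ring
  · change (0 : k) = 0 + (1) * 0 + (w) * 0; ring
  · change (0 : k) = 0 + (1) * 0 + (w) * 0; ring
  · change (0 : k) = 0 + (1) * 0 + (w) * 0; ring
  · change (0 : k) = 0 + (1) * 0 + (w) * 0; ring

lemma yline_7 (w : k) : Yv w 19 = Yv w 6 + ((-w) : k) • Yv w 7 + ((-w) : k) • Yv w 8 := by
  apply ext12
  · change (0 : k) = 0 + (-w) * 0 + (-w) * 0; ring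
  · change (0 : k) = 0 + (-w) * 0 + (-w) * 0; ring
  · change (0 : k) = 0 + (-w) * 0 + (-w) * 0; ring
  · change (0 : k) = 0 + (-w) * 0 + (-w) * 0; ring
  · change (0 : k) = 0 + (-w) * 0 + (-w) * 0; ring
  · change (0 : k) = 0 + (-w) * 0 + (-w) * 0; ring
  · change (1 : k) = 1 + (-w) * 0 + (-w) * 0; ring
  · change (-w : k) = 0 + (-w) * 1 + (-w) * 0; ring
  · change (-w : k) = 0 + (-w) * 0 + (-w) * 1; ring
  · change (0 : k) = 0 + (-w) * 0 + (-w) * 0; ring
  · change (0 : k) = 0 + (-w) * 0 + (-w) * 0; ring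
  · change (0 : k) = 0 + (-w) * 0 + (-w) * 0; ring

lemma yline_8 (w : k) : Yv w 20 = Yv w 9 + ((w ^ 2) : k) • Yv w 10 + ((w) : k) • Yv w 11 := by
  apply ext12
  · change (0 : k) = 0 + (w ^ 2) * 0 + (w) * 0; ring
  · change (0 : k) = 0 + (w ^ 2) * 0 + (w) * 0; ring
  · change (0 : k) = 0 + (w ^ 2) * 0 + (w) * 0; ring
  · change (0 : k) = 0 + (w ^ 2) * 0 + (w) * 0; ring
  · change (0 : k) = 0 + (w ^ 2) * 0 + (w) * 0; ring
  · change (0 : k) = 0 + (w ^ 2) * 0 + (w) * 0; ring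
  · change (0 : k) = 0 + (w ^ 2) * 0 + (w) * 0; ring
  · change (0 : k) = 0 + (w ^ 2) * 0 + (w) * 0; ring
  · change (0 : k) = 0 + (w ^ 2) * 0 + (w) * 0; ring
  · change (1 : k) = 1 + (w ^ 2) * 0 + (w) * 0; ring
  · change (w ^ 2 : k) = 0 + (w ^ 2) * 1 + (w) * 0; ring
  · change (w : k) = 0 + (w ^ 2) * 0 + (w) * 1; ring

/-- The bookkeeping of a linear equivalence. -/
structure Data (w w' : k) where
  T : Fin 21 → Fin 21
  μ : Fin 21 → k
  μ_ne : ∀ t, μ t ≠ 0
  g : Matrix (Fin 12) (Fin 12) k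
  eq : ∀ t, Matrix.vecMul (Yv w t) g = μ t • Yv w' (T t)
  T_inj : Function.Injective T

lemma exists_data (h2 : (2 : k) ≠ 0) {w w' : k} (hw : w ^ 2 + w + 1 = 0) (hw' : w' ^ 2 + w' + 1 = 0)
    {x : Fin 12 → A} {y : Fin 12 → A'} (hx : Rels (algebraMap k A w) x)
    (hy : Rels (algebraMap k A' w') y) (hix : Ind k x) (hiy : Ind k y) (φ : A →ₐ[k] A')
    (hφ : Function.Injective φ) (g g' : Matrix (Fin 12) (Fin 12) k) (hg : g' * g = 1)
    (hφx : ∀ i, φ (x i) = lf y (g i)) : Nonempty (Data w w') := by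
  have hg2 : g * g' = 1 := mul_eq_one_comm.mp hg
  have hwne : w ≠ 0 := by rintro rfl; norm_num at hw
  have hinj : ∀ c : Fin 12 → k, Matrix.vecMul c g = 0 → c = 0 := by
    intro c hc
    have : Matrix.vecMul (Matrix.vecMul c g) g' = c := by
      rw [Matrix.vecMul_vecMul, hg2, Matrix.vecMul_one]
    rw [← this, hc, Matrix.zero_vecMul]
  have key : ∀ t : Fin 21, ∃ (τ : Fin 21) (μ : k), μ ≠ 0 ∧ Matrix.vecMul (Yv w t) g = μ • Yv w' τ := by
    intro t
    apply classify hw' h2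
    · apply eqs_of_mul_eq_zero hy hiy
      rw [← lf_vecMul φ g hφx, ← map_mul, sq_all hw hx, map_zero]
    · intro e' he'
      have h1 := mul_eq_zero_of_eqs hy _ _ he'
      have h3 : e' = Matrix.vecMul (Matrix.vecMul e' g') g := by
        rw [Matrix.vecMul_vecMul, hg, Matrix.vecMul_one]
      rw [h3, ← lf_vecMul φ g hφx, ← lf_vecMul φ g hφx, ← map_mul] at h1
      have h4 : lf x (Yv w t) * lf x (Matrix.vecMul e' g') = 0 := by
        apply hφ
        rw [h1, map_zero]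
      obtain ⟨s, hs⟩ := ker_all hw t (eqs_of_mul_eq_zero hx hix _ _ h4)
      refine ⟨s, ?_⟩
      rw [h3, hs, Matrix.smul_vecMul]
    · intro h0
      exact Yv_ne w t (hinj _ h0)
  choose T μ hμ hT using key
  refine ⟨⟨T, μ, hμ, g, hT, ?_⟩⟩
  intro t t' htt
  -- proportional vectors
  have h5 : Matrix.vecMul (Yv w t) g = Matrix.vecMul ((μ t * (μ t')⁻¹) • Yv w t') g := by
    rw [Matrix.smul_vecMul, hT t, hT t', htt, smul_smul, mul_assoc, inv_mul_cancel₀ (hμ t'), mul_one]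
  have h6 : Yv w t = (μ t * (μ t')⁻¹) • Yv w t' := by
    rw [← sub_eq_zero]
    apply hinj
    rw [Matrix.sub_vecMul, h5, sub_self]
  have h7 : μ t * (μ t')⁻¹ ≠ 0 := mul_ne_zero (hμ t) (inv_ne_zero (hμ t'))
  apply supp_inj
  intro i
  have h8 := congrFun h6 i
  rw [Pi.smul_apply, smul_eq_mul] at h8
  by_cases h9 : supp t' i = true
  · by_contra hne
    have h10 : supp t i = false := by
      rw [h9] at hne
      exact Bool.eq_false_iff.mpr hne
    rw [Yv_eq_zero w h10] at h8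
    exact (mul_ne_zero h7 (Yv_ne_zero hwne h9)) h8.symm
  · have h9' : supp t' i = false := Bool.eq_false_iff.mpr h9
    rw [Yv_eq_zero w h9', mul_zero] at h8
    rw [h9']
    by_contra hne
    exact Yv_ne_zero hwne (Bool.eq_true_of_not_eq_false hne) h8

/-- a vanishing combination of four vectors with non-zero coefficients -/
lemma cover_of {w : k} (hw : w ≠ 0) {a b c d : k} (ha : a ≠ 0) (hb : b ≠ 0) (hc : c ≠ 0) (hd : d ≠ 0)
    {t1 t2 t3 t4 : Fin 21} (h : ∀ i, d * Yv w t4 i = a * Yv w t1 i + b * Yv w t2 i + c * Yv w t3 i)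
    (i : Fin 12) : one4 (supp t1 i) (supp t2 i) (supp t3 i) (supp t4 i) = false := by
  have h0 := h i
  cases e1 : supp t1 i <;> cases e2 : supp t2 i <;> cases e3 : supp t3 i <;>
    cases e4 : supp t4 i <;> simp only [one4, Bool.not_true, Bool.not_false, Bool.and_true,
      Bool.and_false, Bool.or_false, Bool.or_true, Bool.true_and, Bool.false_and] <;> exfalso
  · rw [Yv_eq_zero w e1, Yv_eq_zero w e2, Yv_eq_zero w e3] at h0
    exact (mul_ne_zero hd (Yv_ne_zero hw e4)) (by simpa using h0)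
  · rw [Yv_eq_zero w e1, Yv_eq_zero w e2, Yv_eq_zero w e4] at h0
    exact (mul_ne_zero hc (Yv_ne_zero hw e3)) (by simpa using h0.symm)
  · rw [Yv_eq_zero w e1, Yv_eq_zero w e3, Yv_eq_zero w e4] at h0
    exact (mul_ne_zero hb (Yv_ne_zero hw e2)) (by simpa using h0.symm)
  · rw [Yv_eq_zero w e2, Yv_eq_zero w e3, Yv_eq_zero w e4] at h0
    exact (mul_ne_zero ha (Yv_ne_zero hw e1)) (by simpa using h0.symm)

lemma Data.line_0 {w w' : k} (D : Data w w') (i : Fin 12) :
    D.μ 12 * Yv w' (D.T 12) i = D.μ 0 * Yv w' (D.T 0) i + (1) * D.μ 1 * Yv w' (D.T 1) i +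
      (1) * D.μ 2 * Yv w' (D.T 2) i := by
  have h1 : Matrix.vecMul (Yv w 12) D.g = Matrix.vecMul (Yv w 0) D.g + ((1) : k) • Matrix.vecMul (Yv w 1) D.g +
      ((1) : k) • Matrix.vecMul (Yv w 2) D.g := by
    rw [yline_0, Matrix.add_vecMul, Matrix.add_vecMul, Matrix.smul_vecMul, Matrix.smul_vecMul]
  rw [D.eq, D.eq, D.eq, D.eq] at h1
  have h2 := congrFun h1 i
  simp only [Pi.add_apply, Pi.smul_apply, smul_eq_mul] at h2
  rw [h2]; ring

lemma Data.quad_0 {w w' : k} (hw : w ≠ 0) (hw' : w' ≠ 0) (D : Data w w') : ∃ q : Fin 9,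
    inQ (D.T 0) q = true ∧ inQ (D.T 1) q = true ∧ inQ (D.T 2) q = true ∧ inQ (D.T 12) q = true := by
  have hb : (1 : k) ≠ 0 := by exact one_ne_zero
  have hc : (1 : k) ≠ 0 := by exact one_ne_zero
  exact quad (fun h => absurd (D.T_inj h) (by decide)) (fun h => absurd (D.T_inj h) (by decide))
    (fun h => absurd (D.T_inj h) (by decide)) (fun h => absurd (D.T_inj h) (by decide))
    (fun h => absurd (D.T_inj h) (by decide)) (fun h => absurd (D.T_inj h) (by decide))
    (cover_of hw' (D.μ_ne 0) (mul_ne_zero hb (D.μ_ne 1)) (mul_ne_zero hc (D.μ_ne 2)) (D.μ_ne 12)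
      (fun i => D.line_0 i))

lemma Data.line_1 {w w' : k} (D : Data w w') (i : Fin 12) :
    D.μ 13 * Yv w' (D.T 13) i = D.μ 0 * Yv w' (D.T 0) i + (1) * D.μ 3 * Yv w' (D.T 3) i +
      (1) * D.μ 6 * Yv w' (D.T 6) i := by
  have h1 : Matrix.vecMul (Yv w 13) D.g = Matrix.vecMul (Yv w 0) D.g + ((1) : k) • Matrix.vecMul (Yv w 3) D.g +
      ((1) : k) • Matrix.vecMul (Yv w 6) D.g := by
    rw [yline_1, Matrix.add_vecMul, Matrix.add_vecMul, Matrix.smul_vecMul, Matrix.smul_vecMul]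
  rw [D.eq, D.eq, D.eq, D.eq] at h1
  have h2 := congrFun h1 i
  simp only [Pi.add_apply, Pi.smul_apply, smul_eq_mul] at h2
  rw [h2]; ring

lemma Data.quad_1 {w w' : k} (hw : w ≠ 0) (hw' : w' ≠ 0) (D : Data w w') : ∃ q : Fin 9,
    inQ (D.T 0) q = true ∧ inQ (D.T 3) q = true ∧ inQ (D.T 6) q = true ∧ inQ (D.T 13) q = true := by
  have hb : (1 : k) ≠ 0 := by exact one_ne_zero
  have hc : (1 : k) ≠ 0 := by exact one_ne_zero
  exact quad (fun h => absurd (D.T_inj h) (by decide)) (fun h => absurd (D.T_inj h) (by decide))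
    (fun h => absurd (D.T_inj h) (by decide)) (fun h => absurd (D.T_inj h) (by decide))
    (fun h => absurd (D.T_inj h) (by decide)) (fun h => absurd (D.T_inj h) (by decide))
    (cover_of hw' (D.μ_ne 0) (mul_ne_zero hb (D.μ_ne 3)) (mul_ne_zero hc (D.μ_ne 6)) (D.μ_ne 13)
      (fun i => D.line_1 i))

lemma Data.line_2 {w w' : k} (D : Data w w') (i : Fin 12) :
    D.μ 14 * Yv w' (D.T 14) i = D.μ 0 * Yv w' (D.T 0) i + (-w ^ 2) * D.μ 5 * Yv w' (D.T 5) i +
      (-1) * D.μ 10 * Yv w' (D.T 10) i := by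
  have h1 : Matrix.vecMul (Yv w 14) D.g = Matrix.vecMul (Yv w 0) D.g + ((-w ^ 2) : k) • Matrix.vecMul (Yv w 5) D.g +
      ((-1) : k) • Matrix.vecMul (Yv w 10) D.g := by
    rw [yline_2, Matrix.add_vecMul, Matrix.add_vecMul, Matrix.smul_vecMul, Matrix.smul_vecMul]
  rw [D.eq, D.eq, D.eq, D.eq] at h1
  have h2 := congrFun h1 i
  simp only [Pi.add_apply, Pi.smul_apply, smul_eq_mul] at h2
  rw [h2]; ring

lemma Data.quad_2 {w w' : k} (hw : w ≠ 0) (hw' : w' ≠ 0) (D : Data w w') : ∃ q : Fin 9,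
    inQ (D.T 0) q = true ∧ inQ (D.T 5) q = true ∧ inQ (D.T 10) q = true ∧ inQ (D.T 14) q = true := by
  have hb : (-w ^ 2 : k) ≠ 0 := by simp [hw]
  have hc : (-1 : k) ≠ 0 := by exact neg_ne_zero.mpr one_ne_zero
  exact quad (fun h => absurd (D.T_inj h) (by decide)) (fun h => absurd (D.T_inj h) (by decide))
    (fun h => absurd (D.T_inj h) (by decide)) (fun h => absurd (D.T_inj h) (by decide))
    (fun h => absurd (D.T_inj h) (by decide)) (fun h => absurd (D.T_inj h) (by decide))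
    (cover_of hw' (D.μ_ne 0) (mul_ne_zero hb (D.μ_ne 5)) (mul_ne_zero hc (D.μ_ne 10)) (D.μ_ne 14)
      (fun i => D.line_2 i))

lemma Data.line_3 {w w' : k} (D : Data w w') (i : Fin 12) :
    D.μ 15 * Yv w' (D.T 15) i = D.μ 1 * Yv w' (D.T 1) i + (-w ^ 2) * D.μ 3 * Yv w' (D.T 3) i +
      (-w ^ 2) * D.μ 11 * Yv w' (D.T 11) i := by
  have h1 : Matrix.vecMul (Yv w 15) D.g = Matrix.vecMul (Yv w 1) D.g + ((-w ^ 2) : k) • Matrix.vecMul (Yv w 3) D.g +
      ((-w ^ 2) : k) • Matrix.vecMul (Yv w 11) D.g := by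
    rw [yline_3, Matrix.add_vecMul, Matrix.add_vecMul, Matrix.smul_vecMul, Matrix.smul_vecMul]
  rw [D.eq, D.eq, D.eq, D.eq] at h1
  have h2 := congrFun h1 i
  simp only [Pi.add_apply, Pi.smul_apply, smul_eq_mul] at h2
  rw [h2]; ring

lemma Data.quad_3 {w w' : k} (hw : w ≠ 0) (hw' : w' ≠ 0) (D : Data w w') : ∃ q : Fin 9,
    inQ (D.T 1) q = true ∧ inQ (D.T 3) q = true ∧ inQ (D.T 11) q = true ∧ inQ (D.T 15) q = true := by
  have hb : (-w ^ 2 : k) ≠ 0 := by simp [hw]
  have hc : (-w ^ 2 : k) ≠ 0 := by simp [hw]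
  exact quad (fun h => absurd (D.T_inj h) (by decide)) (fun h => absurd (D.T_inj h) (by decide))
    (fun h => absurd (D.T_inj h) (by decide)) (fun h => absurd (D.T_inj h) (by decide))
    (fun h => absurd (D.T_inj h) (by decide)) (fun h => absurd (D.T_inj h) (by decide))
    (cover_of hw' (D.μ_ne 1) (mul_ne_zero hb (D.μ_ne 3)) (mul_ne_zero hc (D.μ_ne 11)) (D.μ_ne 15)
      (fun i => D.line_3 i))

lemma Data.line_4 {w w' : k} (D : Data w w') (i : Fin 12) :
    D.μ 16 * Yv w' (D.T 16) i = D.μ 1 * Yv w' (D.T 1) i + (1) * D.μ 4 * Yv w' (D.T 4) i +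
      (w ^ 2) * D.μ 6 * Yv w' (D.T 6) i := by
  have h1 : Matrix.vecMul (Yv w 16) D.g = Matrix.vecMul (Yv w 1) D.g + ((1) : k) • Matrix.vecMul (Yv w 4) D.g +
      ((w ^ 2) : k) • Matrix.vecMul (Yv w 6) D.g := by
    rw [yline_4, Matrix.add_vecMul, Matrix.add_vecMul, Matrix.smul_vecMul, Matrix.smul_vecMul]
  rw [D.eq, D.eq, D.eq, D.eq] at h1
  have h2 := congrFun h1 i
  simp only [Pi.add_apply, Pi.smul_apply, smul_eq_mul] at h2
  rw [h2]; ring

lemma Data.quad_4 {w w' : k} (hw : w ≠ 0) (hw' : w' ≠ 0) (D : Data w w') : ∃ q : Fin 9,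
    inQ (D.T 1) q = true ∧ inQ (D.T 4) q = true ∧ inQ (D.T 6) q = true ∧ inQ (D.T 16) q = true := by
  have hb : (1 : k) ≠ 0 := by exact one_ne_zero
  have hc : (w ^ 2 : k) ≠ 0 := by simp [hw]
  exact quad (fun h => absurd (D.T_inj h) (by decide)) (fun h => absurd (D.T_inj h) (by decide))
    (fun h => absurd (D.T_inj h) (by decide)) (fun h => absurd (D.T_inj h) (by decide))
    (fun h => absurd (D.T_inj h) (by decide)) (fun h => absurd (D.T_inj h) (by decide))
    (cover_of hw' (D.μ_ne 1) (mul_ne_zero hb (D.μ_ne 4)) (mul_ne_zero hc (D.μ_ne 6)) (D.μ_ne 16)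
      (fun i => D.line_4 i))

lemma Data.line_5 {w w' : k} (D : Data w w') (i : Fin 12) :
    D.μ 17 * Yv w' (D.T 17) i = D.μ 2 * Yv w' (D.T 2) i + (-w ^ 2) * D.μ 4 * Yv w' (D.T 4) i +
      (-w) * D.μ 9 * Yv w' (D.T 9) i := by
  have h1 : Matrix.vecMul (Yv w 17) D.g = Matrix.vecMul (Yv w 2) D.g + ((-w ^ 2) : k) • Matrix.vecMul (Yv w 4) D.g +
      ((-w) : k) • Matrix.vecMul (Yv w 9) D.g := by
    rw [yline_5, Matrix.add_vecMul, Matrix.add_vecMul, Matrix.smul_vecMul, Matrix.smul_vecMul]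
  rw [D.eq, D.eq, D.eq, D.eq] at h1
  have h2 := congrFun h1 i
  simp only [Pi.add_apply, Pi.smul_apply, smul_eq_mul] at h2
  rw [h2]; ring

lemma Data.quad_5 {w w' : k} (hw : w ≠ 0) (hw' : w' ≠ 0) (D : Data w w') : ∃ q : Fin 9,
    inQ (D.T 2) q = true ∧ inQ (D.T 4) q = true ∧ inQ (D.T 9) q = true ∧ inQ (D.T 17) q = true := by
  have hb : (-w ^ 2 : k) ≠ 0 := by simp [hw]
  have hc : (-w : k) ≠ 0 := by simp [hw]
  exact quad (fun h => absurd (D.T_inj h) (by decide)) (fun h => absurd (D.T_inj h) (by decide))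
    (fun h => absurd (D.T_inj h) (by decide)) (fun h => absurd (D.T_inj h) (by decide))
    (fun h => absurd (D.T_inj h) (by decide)) (fun h => absurd (D.T_inj h) (by decide))
    (cover_of hw' (D.μ_ne 2) (mul_ne_zero hb (D.μ_ne 4)) (mul_ne_zero hc (D.μ_ne 9)) (D.μ_ne 17)
      (fun i => D.line_5 i))

lemma Data.line_6 {w w' : k} (D : Data w w') (i : Fin 12) :
    D.μ 18 * Yv w' (D.T 18) i = D.μ 2 * Yv w' (D.T 2) i + (1) * D.μ 5 * Yv w' (D.T 5) i +
      (w) * D.μ 6 * Yv w' (D.T 6) i := by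
  have h1 : Matrix.vecMul (Yv w 18) D.g = Matrix.vecMul (Yv w 2) D.g + ((1) : k) • Matrix.vecMul (Yv w 5) D.g +
      ((w) : k) • Matrix.vecMul (Yv w 6) D.g := by
    rw [yline_6, Matrix.add_vecMul, Matrix.add_vecMul, Matrix.smul_vecMul, Matrix.smul_vecMul]
  rw [D.eq, D.eq, D.eq, D.eq] at h1
  have h2 := congrFun h1 i
  simp only [Pi.add_apply, Pi.smul_apply, smul_eq_mul] at h2
  rw [h2]; ring

lemma Data.quad_6 {w w' : k} (hw : w ≠ 0) (hw' : w' ≠ 0) (D : Data w w') : ∃ q : Fin 9,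
    inQ (D.T 2) q = true ∧ inQ (D.T 5) q = true ∧ inQ (D.T 6) q = true ∧ inQ (D.T 18) q = true := by
  have hb : (1 : k) ≠ 0 := by exact one_ne_zero
  have hc : (w : k) ≠ 0 := by simp [hw]
  exact quad (fun h => absurd (D.T_inj h) (by decide)) (fun h => absurd (D.T_inj h) (by decide))
    (fun h => absurd (D.T_inj h) (by decide)) (fun h => absurd (D.T_inj h) (by decide))
    (fun h => absurd (D.T_inj h) (by decide)) (fun h => absurd (D.T_inj h) (by decide))
    (cover_of hw' (D.μ_ne 2) (mul_ne_zero hb (D.μ_ne 5)) (mul_ne_zero hc (D.μ_ne 6)) (D.μ_ne 18)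
      (fun i => D.line_6 i))

lemma Data.line_7 {w w' : k} (D : Data w w') (i : Fin 12) :
    D.μ 19 * Yv w' (D.T 19) i = D.μ 6 * Yv w' (D.T 6) i + (-w) * D.μ 7 * Yv w' (D.T 7) i +
      (-w) * D.μ 8 * Yv w' (D.T 8) i := by
  have h1 : Matrix.vecMul (Yv w 19) D.g = Matrix.vecMul (Yv w 6) D.g + ((-w) : k) • Matrix.vecMul (Yv w 7) D.g +
      ((-w) : k) • Matrix.vecMul (Yv w 8) D.g := by
    rw [yline_7, Matrix.add_vecMul, Matrix.add_vecMul, Matrix.smul_vecMul, Matrix.smul_vecMul]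
  rw [D.eq, D.eq, D.eq, D.eq] at h1
  have h2 := congrFun h1 i
  simp only [Pi.add_apply, Pi.smul_apply, smul_eq_mul] at h2
  rw [h2]; ring

lemma Data.quad_7 {w w' : k} (hw : w ≠ 0) (hw' : w' ≠ 0) (D : Data w w') : ∃ q : Fin 9,
    inQ (D.T 6) q = true ∧ inQ (D.T 7) q = true ∧ inQ (D.T 8) q = true ∧ inQ (D.T 19) q = true := by
  have hb : (-w : k) ≠ 0 := by simp [hw]
  have hc : (-w : k) ≠ 0 := by simp [hw]
  exact quad (fun h => absurd (D.T_inj h) (by decide)) (fun h => absurd (D.T_inj h) (by decide))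
    (fun h => absurd (D.T_inj h) (by decide)) (fun h => absurd (D.T_inj h) (by decide))
    (fun h => absurd (D.T_inj h) (by decide)) (fun h => absurd (D.T_inj h) (by decide))
    (cover_of hw' (D.μ_ne 6) (mul_ne_zero hb (D.μ_ne 7)) (mul_ne_zero hc (D.μ_ne 8)) (D.μ_ne 19)
      (fun i => D.line_7 i))

lemma Data.line_8 {w w' : k} (D : Data w w') (i : Fin 12) :
    D.μ 20 * Yv w' (D.T 20) i = D.μ 9 * Yv w' (D.T 9) i + (w ^ 2) * D.μ 10 * Yv w' (D.T 10) i +
      (w) * D.μ 11 * Yv w' (D.T 11) i := by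
  have h1 : Matrix.vecMul (Yv w 20) D.g = Matrix.vecMul (Yv w 9) D.g + ((w ^ 2) : k) • Matrix.vecMul (Yv w 10) D.g +
      ((w) : k) • Matrix.vecMul (Yv w 11) D.g := by
    rw [yline_8, Matrix.add_vecMul, Matrix.add_vecMul, Matrix.smul_vecMul, Matrix.smul_vecMul]
  rw [D.eq, D.eq, D.eq, D.eq] at h1
  have h2 := congrFun h1 i
  simp only [Pi.add_apply, Pi.smul_apply, smul_eq_mul] at h2
  rw [h2]; ring

lemma Data.quad_8 {w w' : k} (hw : w ≠ 0) (hw' : w' ≠ 0) (D : Data w w') : ∃ q : Fin 9,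
    inQ (D.T 9) q = true ∧ inQ (D.T 10) q = true ∧ inQ (D.T 11) q = true ∧ inQ (D.T 20) q = true := by
  have hb : (w ^ 2 : k) ≠ 0 := by simp [hw]
  have hc : (w : k) ≠ 0 := by simp [hw]
  exact quad (fun h => absurd (D.T_inj h) (by decide)) (fun h => absurd (D.T_inj h) (by decide))
    (fun h => absurd (D.T_inj h) (by decide)) (fun h => absurd (D.T_inj h) (by decide))
    (fun h => absurd (D.T_inj h) (by decide)) (fun h => absurd (D.T_inj h) (by decide))
    (cover_of hw' (D.μ_ne 9) (mul_ne_zero hb (D.μ_ne 10)) (mul_ne_zero hc (D.μ_ne 11)) (D.μ_ne 20)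
      (fun i => D.line_8 i))


end Pool.H7.HilbEx
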