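import Pool.Agent.H7.HilbEx8

set_option autoImplicit false
set_option linter.unusedVariables false

namespace Pool.H7.HilbEx

variable {k : Type*} [Field k]

lemma mem_Q_0 : ∀ t : Fin 21, inQ t 0 = true → t = 0 ∨ t = 1 ∨ t = 2 ∨ t = 12 := by decide +kernel
lemma mem_Q_1 : ∀ t : Fin 21, inQ t 1 = true → t = 0 ∨ t = 3 ∨ t = 6 ∨ t = 13 := by decide +kernel
lemma mem_Q_2 : ∀ t : Fin 21, inQ t 2 = true → t = 0 ∨ t = 5 ∨ t = 10 ∨ t = 14 := by decide +kernel
lemma mem_Q_3 : ∀ t : Fin 21, inQ t 3 = true → t = 1 ∨ t = 3 ∨ t = 11 ∨ t = 15 := by decide +kernel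
lemma mem_Q_4 : ∀ t : Fin 21, inQ t 4 = true → t = 1 ∨ t = 4 ∨ t = 6 ∨ t = 16 := by decide +kernel
lemma mem_Q_5 : ∀ t : Fin 21, inQ t 5 = true → t = 2 ∨ t = 4 ∨ t = 9 ∨ t = 17 := by decide +kernel
lemma mem_Q_6 : ∀ t : Fin 21, inQ t 6 = true → t = 2 ∨ t = 5 ∨ t = 6 ∨ t = 18 := by decide +kernel
lemma mem_Q_7 : ∀ t : Fin 21, inQ t 7 = true → t = 6 ∨ t = 7 ∨ t = 8 ∨ t = 19 := by decide +kernel
lemma mem_Q_8 : ∀ t : Fin 21, inQ t 8 = true → t = 9 ∨ t = 10 ∨ t = 11 ∨ t = 20 := by decide +kernel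

lemma Data.quads {w w' : k} (hw : w ≠ 0) (hw' : w' ≠ 0) (D : Data w w') (L : Fin 9) :
    ∃ q : Fin 9, ∀ t : Fin 21, inQ t L = true → inQ (D.T t) q = true := by
  fin_cases L
  · obtain ⟨q, h1, h2, h3, h4⟩ := D.quad_0 hw hw'
    refine ⟨q, fun t ht => ?_⟩
    rcases mem_Q_0 t ht with rfl | rfl | rfl | rfl
    · exact h1
    · exact h2
    · exact h3
    · exact h4
  · obtain ⟨q, h1, h2, h3, h4⟩ := D.quad_1 hw hw'
    refine ⟨q, fun t ht => ?_⟩
    rcases mem_Q_1 t ht with rfl | rfl | rfl | rfl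
    · exact h1
    · exact h2
    · exact h3
    · exact h4
  · obtain ⟨q, h1, h2, h3, h4⟩ := D.quad_2 hw hw'
    refine ⟨q, fun t ht => ?_⟩
    rcases mem_Q_2 t ht with rfl | rfl | rfl | rfl
    · exact h1
    · exact h2
    · exact h3
    · exact h4
  · obtain ⟨q, h1, h2, h3, h4⟩ := D.quad_3 hw hw'
    refine ⟨q, fun t ht => ?_⟩
    rcases mem_Q_3 t ht with rfl | rfl | rfl | rfl
    · exact h1
    · exact h2
    · exact h3
    · exact h4
  · obtain ⟨q, h1, h2, h3, h4⟩ := D.quad_4 hw hw'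
    refine ⟨q, fun t ht => ?_⟩
    rcases mem_Q_4 t ht with rfl | rfl | rfl | rfl
    · exact h1
    · exact h2
    · exact h3
    · exact h4
  · obtain ⟨q, h1, h2, h3, h4⟩ := D.quad_5 hw hw'
    refine ⟨q, fun t ht => ?_⟩
    rcases mem_Q_5 t ht with rfl | rfl | rfl | rfl
    · exact h1
    · exact h2
    · exact h3
    · exact h4
  · obtain ⟨q, h1, h2, h3, h4⟩ := D.quad_6 hw hw'
    refine ⟨q, fun t ht => ?_⟩
    rcases mem_Q_6 t ht with rfl | rfl | rfl | rfl
    · exact h1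
    · exact h2
    · exact h3
    · exact h4
  · obtain ⟨q, h1, h2, h3, h4⟩ := D.quad_7 hw hw'
    refine ⟨q, fun t ht => ?_⟩
    rcases mem_Q_7 t ht with rfl | rfl | rfl | rfl
    · exact h1
    · exact h2
    · exact h3
    · exact h4
  · obtain ⟨q, h1, h2, h3, h4⟩ := D.quad_8 hw hw'
    refine ⟨q, fun t ht => ?_⟩
    rcases mem_Q_8 t ht with rfl | rfl | rfl | rfl
    · exact h1
    · exact h2
    · exact h3
    · exact h4

theorem no_data (h2 : (2 : k) ≠ 0) {w w' : k} (hw : w ^ 2 + w + 1 = 0)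
    (hw' : w' ^ 2 + w' + 1 = 0) (hne : w ≠ w') (D : Data w w') : False := by
  have hwne : w ≠ 0 := by rintro rfl; norm_num at hw
  have hwne' : w' ≠ 0 := by rintro rfl; norm_num at hw'
  choose q hq using D.quads hwne hwne'
  -- images of the quadruples
  have himg : ∀ L, (Qs L).image D.T = Qs (q L) := by
    intro L
    apply Finset.eq_of_subset_of_card_le
    · intro t ht
      rw [Finset.mem_image] at ht
      obtain ⟨s, hs, rfl⟩ := ht
      rw [Qs, Finset.mem_filter] at hs ⊢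
      exact ⟨Finset.mem_univ _, hq L s hs.2⟩
    · rw [Finset.card_image_of_injective _ D.T_inj, card_Qs, card_Qs]
  have hqinj : ∀ L L', q L = q L' → L = L' := by
    intro L L' h
    apply Qs_inj
    apply Finset.image_injective D.T_inj
    rw [himg, himg, h]
  have hpt : ∀ (t : Fin 21) (L L' : Fin 9), L ≠ L' → inQ t L = true → inQ t L' = true →
      (D.T t).val < 12 := by
    intro t L L' hLL h1 h3
    exact two_quads _ (q L) (q L') (fun h => hLL (hqinj _ _ h)) (hq L t h1) (hq L' t h3)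
  have t0 := hpt 0 0 1 (by decide) (by decide +kernel) (by decide +kernel)
  have t1 := hpt 1 0 3 (by decide) (by decide +kernel) (by decide +kernel)
  have t2 := hpt 2 0 5 (by decide) (by decide +kernel) (by decide +kernel)
  have t3 := hpt 3 1 3 (by decide) (by decide +kernel) (by decide +kernel)
  have t4 := hpt 4 4 5 (by decide) (by decide +kernel) (by decide +kernel)
  have t5 := hpt 5 2 6 (by decide) (by decide +kernel) (by decide +kernel)
  have t6 := hpt 6 1 4 (by decide) (by decide +kernel) (by decide +kernel)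
  have t9 := hpt 9 5 8 (by decide) (by decide +kernel) (by decide +kernel)
  have t10 := hpt 10 2 8 (by decide) (by decide +kernel) (by decide +kernel)
  have t11 := hpt 11 3 8 (by decide) (by decide +kernel) (by decide +kernel)
  have hD : ∀ a b : Fin 21, a ≠ b → D.T a ≠ D.T b := fun a b h h' => h (D.T_inj h')
  have l0 : isLn (D.T 0) (D.T 1) (D.T 2) = true := isLn_of (q 0) _ (hq 0 _ (by decide +kernel)) t0 _
    (hq 0 _ (by decide +kernel)) t1 (hD _ _ (by decide)) _ (hq 0 _ (by decide +kernel)) t2 (hD _ _ (by decide)) (hD _ _ (by decide))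
  have l1 : isLn (D.T 0) (D.T 3) (D.T 6) = true := isLn_of (q 1) _ (hq 1 _ (by decide +kernel)) t0 _
    (hq 1 _ (by decide +kernel)) t3 (hD _ _ (by decide)) _ (hq 1 _ (by decide +kernel)) t6 (hD _ _ (by decide)) (hD _ _ (by decide))
  have l4 : isLn (D.T 1) (D.T 4) (D.T 6) = true := isLn_of (q 4) _ (hq 4 _ (by decide +kernel)) t1 _
    (hq 4 _ (by decide +kernel)) t4 (hD _ _ (by decide)) _ (hq 4 _ (by decide +kernel)) t6 (hD _ _ (by decide)) (hD _ _ (by decide))
  have l6 : isLn (D.T 2) (D.T 5) (D.T 6) = true := isLn_of (q 6) _ (hq 6 _ (by decide +kernel)) t2 _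
    (hq 6 _ (by decide +kernel)) t5 (hD _ _ (by decide)) _ (hq 6 _ (by decide +kernel)) t6 (hD _ _ (by decide)) (hD _ _ (by decide))
  have l2 : isLn (D.T 0) (D.T 5) (D.T 10) = true := isLn_of (q 2) _ (hq 2 _ (by decide +kernel)) t0 _
    (hq 2 _ (by decide +kernel)) t5 (hD _ _ (by decide)) _ (hq 2 _ (by decide +kernel)) t10 (hD _ _ (by decide)) (hD _ _ (by decide))
  have l3 : isLn (D.T 1) (D.T 3) (D.T 11) = true := isLn_of (q 3) _ (hq 3 _ (by decide +kernel)) t1 _
    (hq 3 _ (by decide +kernel)) t3 (hD _ _ (by decide)) _ (hq 3 _ (by decide +kernel)) t11 (hD _ _ (by decide)) (hD _ _ (by decide))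
  have l5 : isLn (D.T 2) (D.T 4) (D.T 9) = true := isLn_of (q 5) _ (hq 5 _ (by decide +kernel)) t2 _
    (hq 5 _ (by decide +kernel)) t4 (hD _ _ (by decide)) _ (hq 5 _ (by decide +kernel)) t9 (hD _ _ (by decide)) (hD _ _ (by decide))
  have l8 : isLn (D.T 9) (D.T 10) (D.T 11) = true := isLn_of (q 8) _ (hq 8 _ (by decide +kernel)) t9 _
    (hq 8 _ (by decide +kernel)) t10 (hD _ _ (by decide)) _ (hq 8 _ (by decide +kernel)) t11 (hD _ _ (by decide)) (hD _ _ (by decide))
  have f0 : (D.T 12).val = 12 + (q 0).val := fourth (q 0) _ (hq 0 _ (by decide +kernel)) t0 _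
    (hq 0 _ (by decide +kernel)) t1 (hD _ _ (by decide)) _ (hq 0 _ (by decide +kernel)) t2 (hD _ _ (by decide)) (hD _ _ (by decide))
    _ (hq 0 _ (by decide +kernel)) (hD _ _ (by decide)) (hD _ _ (by decide)) (hD _ _ (by decide))
  have g0a := hq 0 0 (by decide +kernel)
  have g0b := hq 0 1 (by decide +kernel)
  have f1 : (D.T 13).val = 12 + (q 1).val := fourth (q 1) _ (hq 1 _ (by decide +kernel)) t0 _
    (hq 1 _ (by decide +kernel)) t3 (hD _ _ (by decide)) _ (hq 1 _ (by decide +kernel)) t6 (hD _ _ (by decide)) (hD _ _ (by decide))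
    _ (hq 1 _ (by decide +kernel)) (hD _ _ (by decide)) (hD _ _ (by decide)) (hD _ _ (by decide))
  have g1a := hq 1 0 (by decide +kernel)
  have g1b := hq 1 3 (by decide +kernel)
  have f4 : (D.T 16).val = 12 + (q 4).val := fourth (q 4) _ (hq 4 _ (by decide +kernel)) t1 _
    (hq 4 _ (by decide +kernel)) t4 (hD _ _ (by decide)) _ (hq 4 _ (by decide +kernel)) t6 (hD _ _ (by decide)) (hD _ _ (by decide))
    _ (hq 4 _ (by decide +kernel)) (hD _ _ (by decide)) (hD _ _ (by decide)) (hD _ _ (by decide))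
  have g4a := hq 4 1 (by decide +kernel)
  have g4b := hq 4 4 (by decide +kernel)
  have hc := comb _ _ _ l0 _ _ l1 _ l4 _ l6 _ l2 _ l3 _ l5 l8
  have hμ0 := D.μ_ne 0
  have i0 := D.line_0
  have i1 := D.line_1
  have i4 := D.line_4
  clear l0 l1 l2 l3 l4 l5 l6 l8 hpt hqinj himg t0 t1 t2 t3 t4 t5 t6 t9 t10 t11 hD
  rcases hc with ⟨h0, h1, h2', h3, h4, h5, h6⟩ | ⟨h0, h1, h2', h3, h4, h5, h6⟩ | ⟨h0, h1, h2', h3, h4, h5, h6⟩
  · have q0 : q 0 = 0 := by
      rw [h0] at g0a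
      rw [h1] at g0b
      revert g0a g0b; generalize q 0 = z; revert z; decide +kernel
    have T12 : D.T 12 = 12 := by
      apply Fin.ext; rw [f0, q0]; rfl
    rw [h0, h1, h2', T12] at i0
    have q1 : q 1 = 1 := by
      rw [h0] at g1a
      rw [h3] at g1b
      revert g1a g1b; generalize q 1 = z; revert z; decide +kernel
    have T13 : D.T 13 = 13 := by
      apply Fin.ext; rw [f1, q1]; rfl
    rw [h0, h3, h6, T13] at i1
    have q4 : q 4 = 4 := by
      rw [h1] at g4a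
      rw [h4] at g4b
      revert g4a g4b; generalize q 4 = z; revert z; decide +kernel
    have T16 : D.T 16 = 16 := by
      apply Fin.ext; rw [f4, q4]; rfl
    rw [h1, h4, h6, T16] at i4
    have e0_0 : D.μ 12 * (1) = (1) * D.μ 0 := by
      have := i0 0
      change D.μ 12 * (1) = D.μ 0 * 1 + (1) * D.μ 1 * 0 + (1) * D.μ 2 * 0 at this
      rw [this]; ring
    have e0_1 : D.μ 12 * (1) = (1) * D.μ 1 := by
      have := i0 1
      change D.μ 12 * (1) = D.μ 0 * 0 + (1) * D.μ 1 * 1 + (1) * D.μ 2 * 0 at this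
      rw [this]; ring
    have e1_0 : D.μ 13 * (1) = (1) * D.μ 0 := by
      have := i1 0
      change D.μ 13 * (1) = D.μ 0 * 1 + (1) * D.μ 3 * 0 + (1) * D.μ 6 * 0 at this
      rw [this]; ring
    have e1_6 : D.μ 13 * (1) = (1) * D.μ 6 := by
      have := i1 6
      change D.μ 13 * (1) = D.μ 0 * 0 + (1) * D.μ 3 * 0 + (1) * D.μ 6 * 1 at this
      rw [this]; ring
    have e4_1 : D.μ 16 * (1) = (1) * D.μ 1 := by
      have := i4 1
      change D.μ 16 * (1) = D.μ 1 * 1 + (1) * D.μ 4 * 0 + (w ^ 2) * D.μ 6 * 0 at this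
      rw [this]; ring
    have e4_6 : D.μ 16 * (w' ^ 2) = (w ^ 2) * D.μ 6 := by
      have := i4 6
      change D.μ 16 * (w' ^ 2) = D.μ 1 * 0 + (1) * D.μ 4 * 0 + (w ^ 2) * D.μ 6 * 1 at this
      rw [this]; ring
    clear i0 i1 i4 f0 f1 f4 g0a g0b g1a g1b g4a g4b hq T12 T13 T16 q0 q1 q4 h0 h1 h2' h3 h4 h5 h6
    apply hne
    grind
  · have q0 : q 0 = 0 := by
      rw [h0] at g0a
      rw [h1] at g0b
      revert g0a g0b; generalize q 0 = z; revert z; decide +kernel
    have T12 : D.T 12 = 12 := by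
      apply Fin.ext; rw [f0, q0]; rfl
    rw [h0, h1, h2', T12] at i0
    have q1 : q 1 = 4 := by
      rw [h0] at g1a
      rw [h3] at g1b
      revert g1a g1b; generalize q 1 = z; revert z; decide +kernel
    have T13 : D.T 13 = 16 := by
      apply Fin.ext; rw [f1, q1]; rfl
    rw [h0, h3, h6, T13] at i1
    have q4 : q 4 = 6 := by
      rw [h1] at g4a
      rw [h4] at g4b
      revert g4a g4b; generalize q 4 = z; revert z; decide +kernel
    have T16 : D.T 16 = 18 := by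
      apply Fin.ext; rw [f4, q4]; rfl
    rw [h1, h4, h6, T16] at i4
    have e0_0 : D.μ 12 * (1) = (1) * D.μ 0 := by
      have := i0 1
      change D.μ 12 * (1) = D.μ 0 * 1 + (1) * D.μ 1 * 0 + (1) * D.μ 2 * 0 at this
      rw [this]; ring
    have e0_1 : D.μ 12 * (1) = (1) * D.μ 1 := by
      have := i0 2
      change D.μ 12 * (1) = D.μ 0 * 0 + (1) * D.μ 1 * 1 + (1) * D.μ 2 * 0 at this
      rw [this]; ring
    have e1_0 : D.μ 13 * (1) = (1) * D.μ 0 := by
      have := i1 1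
      change D.μ 13 * (1) = D.μ 0 * 1 + (1) * D.μ 3 * 0 + (1) * D.μ 6 * 0 at this
      rw [this]; ring
    have e1_6 : D.μ 13 * (w' ^ 2) = (1) * D.μ 6 := by
      have := i1 6
      change D.μ 13 * (w' ^ 2) = D.μ 0 * 0 + (1) * D.μ 3 * 0 + (1) * D.μ 6 * 1 at this
      rw [this]; ring
    have e4_1 : D.μ 16 * (1) = (1) * D.μ 1 := by
      have := i4 2
      change D.μ 16 * (1) = D.μ 1 * 1 + (1) * D.μ 4 * 0 + (w ^ 2) * D.μ 6 * 0 at this
      rw [this]; ring
    have e4_6 : D.μ 16 * (w') = (w ^ 2) * D.μ 6 := by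
      have := i4 6
      change D.μ 16 * (w') = D.μ 1 * 0 + (1) * D.μ 4 * 0 + (w ^ 2) * D.μ 6 * 1 at this
      rw [this]; ring
    clear i0 i1 i4 f0 f1 f4 g0a g0b g1a g1b g4a g4b hq T12 T13 T16 q0 q1 q4 h0 h1 h2' h3 h4 h5 h6
    apply hne
    grind
  · have q0 : q 0 = 0 := by
      rw [h0] at g0a
      rw [h1] at g0b
      revert g0a g0b; generalize q 0 = z; revert z; decide +kernel
    have T12 : D.T 12 = 12 := by
      apply Fin.ext; rw [f0, q0]; rfl
    rw [h0, h1, h2', T12] at i0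
    have q1 : q 1 = 6 := by
      rw [h0] at g1a
      rw [h3] at g1b
      revert g1a g1b; generalize q 1 = z; revert z; decide +kernel
    have T13 : D.T 13 = 18 := by
      apply Fin.ext; rw [f1, q1]; rfl
    rw [h0, h3, h6, T13] at i1
    have q4 : q 4 = 1 := by
      rw [h1] at g4a
      rw [h4] at g4b
      revert g4a g4b; generalize q 4 = z; revert z; decide +kernel
    have T16 : D.T 16 = 13 := by
      apply Fin.ext; rw [f4, q4]; rfl
    rw [h1, h4, h6, T16] at i4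
    have e0_0 : D.μ 12 * (1) = (1) * D.μ 0 := by
      have := i0 2
      change D.μ 12 * (1) = D.μ 0 * 1 + (1) * D.μ 1 * 0 + (1) * D.μ 2 * 0 at this
      rw [this]; ring
    have e0_1 : D.μ 12 * (1) = (1) * D.μ 1 := by
      have := i0 0
      change D.μ 12 * (1) = D.μ 0 * 0 + (1) * D.μ 1 * 1 + (1) * D.μ 2 * 0 at this
      rw [this]; ring
    have e1_0 : D.μ 13 * (1) = (1) * D.μ 0 := by
      have := i1 2
      change D.μ 13 * (1) = D.μ 0 * 1 + (1) * D.μ 3 * 0 + (1) * D.μ 6 * 0 at this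
      rw [this]; ring
    have e1_6 : D.μ 13 * (w') = (1) * D.μ 6 := by
      have := i1 6
      change D.μ 13 * (w') = D.μ 0 * 0 + (1) * D.μ 3 * 0 + (1) * D.μ 6 * 1 at this
      rw [this]; ring
    have e4_1 : D.μ 16 * (1) = (1) * D.μ 1 := by
      have := i4 0
      change D.μ 16 * (1) = D.μ 1 * 1 + (1) * D.μ 4 * 0 + (w ^ 2) * D.μ 6 * 0 at this
      rw [this]; ring
    have e4_6 : D.μ 16 * (1) = (w ^ 2) * D.μ 6 := by
      have := i4 6
      change D.μ 16 * (1) = D.μ 1 * 0 + (1) * D.μ 4 * 0 + (w ^ 2) * D.μ 6 * 1 at this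
      rw [this]; ring
    clear i0 i1 i4 f0 f1 f4 g0a g0b g1a g1b g4a g4b hq T12 T13 T16 q0 q1 q4 h0 h1 h2' h3 h4 h5 h6
    apply hne
    grind

end Pool.H7.HilbEx
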