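import Pool.Agent.H7.HilbEx9
import Pool.Agent.H68.Gal.Defs

set_option autoImplicit false
set_option linter.unusedVariables false
set_option linter.unusedSimpArgs false

namespace Pool.H7.HilbEx

open MvPolynomial Pool.Agent.H68.Gal

variable {k : Type*} [Field k]

lemma single_add_single_inj {a b a' b' : Fin 12} (hab : a < b) (hab' : a' < b')
    (h : (Finsupp.single a 1 + Finsupp.single b 1 : Fin 12 →₀ ℕ) =
      Finsupp.single a' 1 + Finsupp.single b' 1) : a = a' ∧ b = b' := by
  have h1 := DFunLike.congr_fun h a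
  have h2 := DFunLike.congr_fun h b
  have h3 := DFunLike.congr_fun h a'
  simp only [Finsupp.add_apply, Finsupp.single_apply] at h1 h2 h3
  have hne : a ≠ b := hab.ne
  have hne' : a' ≠ b' := hab'.ne
  by_cases e1 : a = a'
  · refine ⟨e1, ?_⟩
    subst e1
    by_contra hb
    have hb' : ¬ b' = b := fun h => hb h.symm
    simp [hne, hb'] at h2
  · exfalso
    have e1' : ¬ a' = a := fun h => e1 h.symm
    have hba : ¬ b = a := fun h => hne h.symm
    by_cases e2 : a = b'
    · -- then a' must be b
      have e3 : a' = b := by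
        by_contra e3
        have e3' : ¬ b = a' := fun h => e3 h.symm
        have hb'a' : ¬ b' = a' := fun h => hne' h.symm
        simp [e1, e3', hb'a'] at h3
      rw [e3, ← e2] at hab'
      exact absurd hab (not_lt.mpr hab'.le)
    · have e2' : ¬ b' = a := fun h => e2 h.symm
      simp [e1', e2', hba] at h1

set_option maxRecDepth 10000 in
lemma basisList_lt : ∀ p ∈ basisList, p.1 < p.2 := by decide +kernel

set_option maxRecDepth 10000 in
lemma basisList_nodup : basisList.Nodup := by decide +kernel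

lemma ind_of_linearIndependent {ι : Type*} (J : Ideal (MvPolynomial (Fin 12) k))
    (b : ι → (Fin 12 →₀ ℕ))
    (hli : LinearIndependent k (fun j => Ideal.Quotient.mk J (monomial (b j) (1 : k))))
    (hb : ∀ p ∈ basisList, ∃ j, b j = Finsupp.single p.1 1 + Finsupp.single p.2 1) :
    Ind k (fun i => Ideal.Quotient.mk J (X i)) := by
  intro L hL hsum t ht
  have hmem : ∀ i : Fin L.length, L[i.val].2 ∈ basisList := by
    intro i
    rw [← hL]
    exact List.mem_map_of_mem (List.getElem_mem i.2)
  have hj : ∀ i : Fin L.length, ∃ j, b j =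
      Finsupp.single L[i.val].2.1 1 + Finsupp.single L[i.val].2.2 1 := fun i => hb _ (hmem i)
  choose j hj using hj
  have hinj : Function.Injective j := by
    intro i i' hii
    have h1 : (Finsupp.single L[i.val].2.1 1 + Finsupp.single L[i.val].2.2 1 : Fin 12 →₀ ℕ) =
        Finsupp.single L[i'.val].2.1 1 + Finsupp.single L[i'.val].2.2 1 := by
      rw [← hj, ← hj, hii]
    have h2 := single_add_single_inj (basisList_lt _ (hmem i)) (basisList_lt _ (hmem i')) h1
    have h3 : L[i.val].2 = L[i'.val].2 := Prod.ext h2.1 h2.2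
    have hnd : (L.map Prod.snd).Nodup := by rw [hL]; exact basisList_nodup
    have h4 := List.Nodup.getElem_inj_iff hnd (i := i.val) (j := i'.val)
      (hi := by rw [List.length_map]; exact i.2) (hj := by rw [List.length_map]; exact i'.2)
    rw [List.getElem_map, List.getElem_map] at h4
    exact Fin.ext (h4.mp h3)
  have hli2 := hli.comp j hinj
  rw [← Fin.sum_univ_fun_getElem L] at hsum
  rw [Fintype.linearIndependent_iff] at hli2
  obtain ⟨i, hi, rfl⟩ := List.getElem_of_mem ht
  apply hli2 (fun i => L[i.val].1) _ ⟨i, hi⟩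
  rw [← hsum]
  refine Finset.sum_congr rfl fun i _ => ?_
  simp only [Function.comp_apply]
  rw [hj]
  have h5 : (monomial (Finsupp.single L[i.val].2.1 1 + Finsupp.single L[i.val].2.2 1) (1 : k) :
      MvPolynomial (Fin 12) k) = X L[i.val].2.1 * X L[i.val].2.2 := by
    rw [X, X, monomial_mul, one_mul]
  rw [h5, map_mul]
  exact Algebra.smul_def (R := k) (A := MvPolynomial (Fin 12) k ⧸ J) _ _

lemma rels_I (w : k) : Rels (algebraMap k (MvPolynomial (Fin 12) k ⧸ I w) w)
    (fun i => Ideal.Quotient.mk (I w) (X i)) := by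
  have hg : ∀ s : Fin 33, Ideal.Quotient.mk (I w) (gen w s) = 0 := fun s =>
    Ideal.Quotient.eq_zero_iff_mem.mpr (Ideal.subset_span ⟨s, rfl⟩)
  have hC : algebraMap k (MvPolynomial (Fin 12) k ⧸ I w) w = Ideal.Quotient.mk (I w) (C w) := rfl
  rw [hC]
  constructor
  · intro i
    fin_cases i
    · have := hg 0; rw [← map_mul, ← pow_two]; exact this
    · have := hg 1; rw [← map_mul, ← pow_two]; exact this
    · have := hg 2; rw [← map_mul, ← pow_two]; exact this
    · have := hg 3; rw [← map_mul, ← pow_two]; exact this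
    · have := hg 4; rw [← map_mul, ← pow_two]; exact this
    · have := hg 5; rw [← map_mul, ← pow_two]; exact this
    · have := hg 6; rw [← map_mul, ← pow_two]; exact this
    · have := hg 7; rw [← map_mul, ← pow_two]; exact this
    · have := hg 8; rw [← map_mul, ← pow_two]; exact this
    · have := hg 9; rw [← map_mul, ← pow_two]; exact this
    · have := hg 10; rw [← map_mul, ← pow_two]; exact this
    · have := hg 11; rw [← map_mul, ← pow_two]; exact this
  · have h0 : Ideal.Quotient.mk (I w) (X 1 * X 2 + X 0 * X 2 + X 0 * X 1) = 0 := hg 12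
    rw [← h0]
    simp only [map_add, map_sub, map_mul, map_pow]
    try ring
  · have h0 : Ideal.Quotient.mk (I w) (X 3 * X 6 + X 0 * X 6 + X 0 * X 3) = 0 := hg 13
    rw [← h0]
    simp only [map_add, map_sub, map_mul, map_pow]
    try ring
  · have h0 : Ideal.Quotient.mk (I w) (X 5 * X 10 - C w * X 0 * X 10 - X 0 * X 5) = 0 := hg 17
    rw [← h0]
    simp only [map_add, map_sub, map_mul, map_pow]
    try ring
  · have h0 : Ideal.Quotient.mk (I w) (X 3 * X 11 - C w * X 1 * X 11 - C w * X 1 * X 3) = 0 := hg 18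
    rw [← h0]
    simp only [map_add, map_sub, map_mul, map_pow]
    try ring
  · have h0 : Ideal.Quotient.mk (I w) (X 4 * X 6 + X 1 * X 6 + C w * X 1 * X 4) = 0 := hg 19
    rw [← h0]
    simp only [map_add, map_sub, map_mul, map_pow]
    try ring
  · have h0 : Ideal.Quotient.mk (I w) (X 4 * X 9 - C w * X 2 * X 9 - C (w ^ 2) * X 2 * X 4) = 0 := hg 26
    rw [← h0]
    simp only [map_add, map_sub, map_mul, map_pow]
    try ring
  · have h0 : Ideal.Quotient.mk (I w) (X 5 * X 6 + X 2 * X 6 + C (w ^ 2) * X 2 * X 5) = 0 := hg 27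
    rw [← h0]
    simp only [map_add, map_sub, map_mul, map_pow]
    try ring
  · have h0 : Ideal.Quotient.mk (I w) (X 7 * X 8 - C (w ^ 2) * X 6 * X 8 - C (w ^ 2) * X 6 * X 7) = 0 := hg 31
    rw [← h0]
    simp only [map_add, map_sub, map_mul, map_pow]
    try ring
  · have h0 : Ideal.Quotient.mk (I w) (X 10 * X 11 + C w * X 9 * X 11 + C (w ^ 2) * X 9 * X 10) = 0 := hg 32
    rw [← h0]
    simp only [map_add, map_sub, map_mul, map_pow]
    try ring
  · have h0 : Ideal.Quotient.mk (I w) (X 4 * X 7 + C w * X 0 * X 7 + C (w ^ 2) * X 0 * X 4) = 0 := hg 14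
    rw [← h0]
    simp only [map_add, map_sub, map_mul, map_pow]
    try ring
  · have h0 : Ideal.Quotient.mk (I w) (X 4 * X 11 - C (w ^ 2) * X 0 * X 11 - X 0 * X 4) = 0 := hg 15
    rw [← h0]
    simp only [map_add, map_sub, map_mul, map_pow]
    try ring
  · have h0 : Ideal.Quotient.mk (I w) (X 7 * X 11 - C w * X 0 * X 11 + C w * X 0 * X 7) = 0 := hg 16
    rw [← h0]
    simp only [map_add, map_sub, map_mul, map_pow]
    try ring
  · have h0 : Ideal.Quotient.mk (I w) (X 5 * X 7 + C w * X 1 * X 7 + X 1 * X 5) = 0 := hg 20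
    rw [← h0]
    simp only [map_add, map_sub, map_mul, map_pow]
    try ring
  · have h0 : Ideal.Quotient.mk (I w) (X 5 * X 9 - C (w ^ 2) * X 1 * X 9 - C w * X 1 * X 5) = 0 := hg 21
    rw [← h0]
    simp only [map_add, map_sub, map_mul, map_pow]
    try ring
  · have h0 : Ideal.Quotient.mk (I w) (X 7 * X 9 - C (w ^ 2) * X 1 * X 9 + C (w ^ 2) * X 1 * X 7) = 0 := hg 22
    rw [← h0]
    simp only [map_add, map_sub, map_mul, map_pow]
    try ring
  · have h0 : Ideal.Quotient.mk (I w) (X 3 * X 7 + C w * X 2 * X 7 + C w * X 2 * X 3) = 0 := hg 23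
    rw [← h0]
    simp only [map_add, map_sub, map_mul, map_pow]
    try ring
  · have h0 : Ideal.Quotient.mk (I w) (X 3 * X 10 - C (w ^ 2) * X 2 * X 10 - C (w ^ 2) * X 2 * X 3) = 0 := hg 24
    rw [← h0]
    simp only [map_add, map_sub, map_mul, map_pow]
    try ring
  · have h0 : Ideal.Quotient.mk (I w) (X 7 * X 10 - X 2 * X 10 + X 2 * X 7) = 0 := hg 25
    rw [← h0]
    simp only [map_add, map_sub, map_mul, map_pow]
    try ring
  · have h0 : Ideal.Quotient.mk (I w) (X 4 * X 5 + X 3 * X 5 + X 3 * X 4) = 0 := hg 28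
    rw [← h0]
    simp only [map_add, map_sub, map_mul, map_pow]
    try ring
  · have h0 : Ideal.Quotient.mk (I w) (X 4 * X 8 - C w * X 3 * X 8 + C (w ^ 2) * X 3 * X 4) = 0 := hg 29
    rw [← h0]
    simp only [map_add, map_sub, map_mul, map_pow]
    try ring
  · have h0 : Ideal.Quotient.mk (I w) (X 5 * X 8 - C (w ^ 2) * X 3 * X 8 - X 3 * X 5) = 0 := hg 30
    rw [← h0]
    simp only [map_add, map_sub, map_mul, map_pow]
    try ring

theorem no_equiv (h2 : (2 : k) ≠ 0) {w w' : k} (hw : w ^ 2 + w + 1 = 0) (hw' : w' ^ 2 + w' + 1 = 0)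
    (hne : w ≠ w') {ι : Type*} (b : ι → (Fin 12 →₀ ℕ))
    (hli : LinearIndependent k (fun j => Ideal.Quotient.mk (I w) (monomial (b j) (1 : k))))
    (hli' : LinearIndependent k (fun j => Ideal.Quotient.mk (I w') (monomial (b j) (1 : k))))
    (hb : ∀ p ∈ basisList, ∃ j, b j = Finsupp.single p.1 1 + Finsupp.single p.2 1)
    (hfin : Module.Finite k (MvPolynomial (Fin 12) k ⧸ I w))
    (hfin' : Module.Finite k (MvPolynomial (Fin 12) k ⧸ I w'))
    (hrank : Module.finrank k (MvPolynomial (Fin 12) k ⧸ I w) =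
      Module.finrank k (MvPolynomial (Fin 12) k ⧸ I w'))
    (g : Matrix (Fin 12) (Fin 12) k) (hg : IsUnit g) :
    ¬ ∀ f ∈ I w, aeval (fun i => ∑ j, C (g i j) * X j : Fin 12 → MvPolynomial (Fin 12) k) f ∈ I w' := by
  intro h
  obtain ⟨g', hg'⟩ := hg.exists_left_inv
  let φ : (MvPolynomial (Fin 12) k ⧸ I w) →ₐ[k] (MvPolynomial (Fin 12) k ⧸ I w') :=
    Ideal.quotientMapₐ (I w')
      (aeval (fun i => ∑ j, C (g i j) * X j : Fin 12 → MvPolynomial (Fin 12) k)) (fun f hf => h f hf)
  have hφX : ∀ i, φ (Ideal.Quotient.mk (I w) (X i)) =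
      lf (fun i => Ideal.Quotient.mk (I w') (X i)) (g i) := by
    intro i
    have h1 : φ (Ideal.Quotient.mk (I w) (X i)) = Ideal.Quotient.mk (I w')
        (aeval (fun i => ∑ j, C (g i j) * X j : Fin 12 → MvPolynomial (Fin 12) k) (X i)) := rfl
    rw [h1, aeval_X, map_sum, lf]
    refine Finset.sum_congr rfl fun j _ => ?_
    rw [map_mul]
    rfl
  have hsurj : Function.Surjective φ := by
    have hX : ∀ j, Ideal.Quotient.mk (I w') (X j : MvPolynomial (Fin 12) k) ∈ φ.range := by
      intro j
      have h1 : Ideal.Quotient.mk (I w') (X j : MvPolynomial (Fin 12) k) =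
          φ (lf (fun i => Ideal.Quotient.mk (I w) (X i)) (g' j)) := by
        rw [lf_vecMul φ g hφX]
        have h3 : Matrix.vecMul (g' j) g = (1 : Matrix (Fin 12) (Fin 12) k) j := by
          rw [← hg']
          rfl
        rw [h3, lf, Finset.sum_eq_single j]
        · simp
        · intro l _ hl
          rw [Matrix.one_apply_ne (Ne.symm hl), map_zero, zero_mul]
        · simp
      rw [h1]
      exact ⟨_, rfl⟩
    intro a
    obtain ⟨f, rfl⟩ := Ideal.Quotient.mk_surjective a
    change Ideal.Quotient.mk (I w') f ∈ φ.range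
    induction f using MvPolynomial.induction_on with
    | C r => exact φ.range.algebraMap_mem r
    | add p q hp hq => rw [map_add]; exact φ.range.add_mem hp hq
    | mul_X p i hp => rw [map_mul]; exact φ.range.mul_mem hp (hX i)
  have hinj : Function.Injective φ :=
    (LinearMap.injective_iff_surjective_of_finrank_eq_finrank (f := φ.toLinearMap) hrank).mpr hsurj
  obtain ⟨D⟩ := exists_data h2 hw hw' (rels_I w) (rels_I w') (ind_of_linearIndependent (I w) b hli hb)
    (ind_of_linearIndependent (I w') b hli' hb) φ hinj g g' hg' hφX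
  exact no_data h2 hw hw' hne D

end Pool.H7.HilbEx
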