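import Pool.Agent.H7.HilbHomeo
import Pool.Agent.H7.HilbExI

set_option autoImplicit false

namespace Pool.H7.HilbRigid

open MvPolynomial Pool.Agent.H68.Gal

lemma map_gen {k : Type*} [Field k] (σ : k →+* k) (w : k) (i : Fin 33) :
    map σ (gen w i) = gen (σ w) i := by
  fin_cases i <;> simp [gen]

lemma conj_I {k : Type*} [Field k] {d : ℕ} (σ : k ≃+* k) (w : k) (J : HilbPt k 12 d)
    (hJ : J.ideal = I w) : (conj σ J).ideal = I (σ w) := by
  rw [conj_ideal_span σ J (Set.range (gen w)) hJ, I]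
  congr 1
  ext f
  constructor
  · rintro ⟨_, ⟨i, rfl⟩, rfl⟩
    exact ⟨i, (map_gen (σ : k →+* k) w i).symm⟩
  · rintro ⟨i, rfl⟩
    exact ⟨gen w i, ⟨i, rfl⟩, map_gen (σ : k →+* k) w i⟩

lemma sq_add_of_map {k : Type*} [Field k] (σ : k ≃+* k) {w : k} (hw : w ^ 2 + w + 1 = 0) :
    (σ w) ^ 2 + σ w + 1 = 0 := by
  have := congrArg σ hw
  simpa using this

/-- there is an element of the Galois group moving `w`. -/
lemma exists_move {w : AlgebraicClosure ℚ} (hw : w ^ 2 + w + 1 = 0) :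
    ∃ σ : AlgebraicClosure ℚ ≃ₐ[ℚ] AlgebraicClosure ℚ, σ w ≠ w := by
  by_contra hcon
  push Not at hcon
  have hA : (DivisionRing.toRatAlgebra : Algebra ℚ (AlgebraicClosure ℚ)) =
    AlgebraicClosure.instAlgebra ℚ := Subsingleton.elim _ _
  have hc : IsAlgClosure ℚ (AlgebraicClosure ℚ) := by
    rw [hA]; infer_instance
  have hG : IsGalois ℚ (AlgebraicClosure ℚ) := ⟨⟩
  have h1 : w ∈ (⊥ : IntermediateField ℚ (AlgebraicClosure ℚ)) :=
    (InfiniteGalois.mem_bot_iff_fixed w).mpr hcon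
  obtain ⟨q, hq⟩ := IntermediateField.mem_bot.mp h1
  have h2 : q ^ 2 + q + 1 = 0 := by
    have : (algebraMap ℚ (AlgebraicClosure ℚ)) (q ^ 2 + q + 1) = 0 := by
      rw [map_add, map_add, map_pow, map_one, hq, hw]
    exact (map_eq_zero _).mp this
  nlinarith [sq_nonneg (2 * q + 1)]

lemma exists_w : ∃ w : AlgebraicClosure ℚ, w ^ 2 + w + 1 = 0 := by
  have : (Polynomial.X ^ 2 + Polynomial.X + 1 : Polynomial (AlgebraicClosure ℚ)).degree ≠ 0 := by
    have : (Polynomial.X ^ 2 + Polynomial.X + 1 : Polynomial (AlgebraicClosure ℚ)).degree = 2 := by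
      compute_degree!
    rw [this]; decide
  obtain ⟨w, hw⟩ := IsAlgClosed.exists_root _ this
  refine ⟨w, ?_⟩
  simpa [Polynomial.IsRoot] using hw

section final

variable {k : Type*} [Field k] [CharZero k] [IsAlgClosed k]
  (b : Fin 107 → (Fin 12 →₀ ℕ))
  (hom : ∀ w : k, w ^ 2 + w + 1 = 0 → ∀ f ∈ I w, ∀ e, homogeneousComponent e f ∈ I w)
  (hli : ∀ w : k, w ^ 2 + w + 1 = 0 → LinearIndependent k
    (fun j => Ideal.Quotient.mk (I w) (monomial (b j) (1 : k))))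
  (hsp : ∀ w : k, w ^ 2 + w + 1 = 0 → Submodule.span k
    (Set.range fun j => Ideal.Quotient.mk (I w) (monomial (b j) (1 : k))) = ⊤)
  (hb : ∀ p ∈ Pool.H7.HilbEx.basisList, ∃ j, b j = Finsupp.single p.1 1 + Finsupp.single p.2 1)
  (hrig : ∀ w : k, w ^ 2 + w + 1 = 0 → Rigid (I w))

include hli hsp in
omit [IsAlgClosed k] [CharZero k] in
lemma exists_pt {w : k} (hw : w ^ 2 + w + 1 = 0) : ∃ J : HilbPt k 12 107, J.ideal = I w := by
  have B : Module.Basis (Fin 107) k (MvPolynomial (Fin 12) k ⧸ I w) :=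
    Module.Basis.mk (hli w hw) (hsp w hw).ge
  exact ⟨⟨I w, Module.Finite.of_basis B, by rw [Module.finrank_eq_card_basis B, Fintype.card_fin]⟩,
    rfl⟩

include b hom hli hsp hb hrig

theorem not_fixed_of {w : k} (hw : w ^ 2 + w + 1 = 0) (J : HilbPt k 12 107) (hJ : J.ideal = I w)
    (σ : k ≃+* k) (hσ : σ w ≠ w) :
    ∀ Z : Set (HilbPt k 12 107), Z ∈ irreducibleComponents (HilbPt k 12 107) → J ∈ Z →
      conj σ '' Z ≠ Z := by
  have hw' := sq_add_of_map σ hw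
  have hJ' := conj_I σ w J hJ
  have fin1 := J.finite
  have fin2 := (conj σ J).finite
  have rk1 := J.finrank_eq
  have rk2 := (conj σ J).finrank_eq
  refine not_fixed (by norm_num) b σ J ?_ ?_ ?_ ?_ ?_ ?_ ?_
  · rw [hJ]; exact hsp w hw
  · rw [hJ']; exact hsp _ hw'
  · rw [hJ]; exact hom w hw
  · rw [hJ']; exact hom _ hw'
  · rw [hJ]; exact hrig w hw
  · rw [hJ']; exact hrig _ hw'
  · intro g hg
    rw [hJ'] at fin2 rk2 ⊢
    rw [hJ] at fin1 rk1 ⊢
    exact Pool.H7.HilbEx.no_equiv two_ne_zero hw hw' (Ne.symm hσ) b (hli w hw) (hli _ hw') hb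
      fin1 fin2 (rk1.trans rk2.symm) g hg

end final

end Pool.H7.HilbRigid
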