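import Pool.Agent.H7.HilbInterface

set_option autoImplicit false

namespace Pool.H7.HilbRigid

open MvPolynomial

variable {n d : ℕ} {k : Type*} [Field k] {b : Fin d → (Fin n →₀ ℕ)}

lemma rank_map_mapEquiv (σ : k ≃+* k) (I : Ideal (MvPolynomial (Fin n) k)) :
    Module.rank k (MvPolynomial (Fin n) k ⧸ I) =
      Module.rank k (MvPolynomial (Fin n) k ⧸ I.map (mapEquiv (Fin n) σ)) :=
  rank_eq_of_equiv_equiv (R := k) (R' := k) (σ : k → k)
    (Ideal.quotientEquiv I (I.map (mapEquiv (Fin n) σ)) (mapEquiv (Fin n) σ) rfl).toAddEquiv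
    σ.bijective (by
      intro r m
      obtain ⟨f, rfl⟩ := Ideal.Quotient.mk_surjective m
      have h1 : r • Ideal.Quotient.mk I f = Ideal.Quotient.mk I (C r * f) := by
        rw [← smul_eq_C_mul]; rfl
      rw [h1]
      simp only [RingEquiv.toAddEquiv_eq_coe, RingEquiv.coe_toAddEquiv, Ideal.quotientEquiv_mk,
        map_mul, mapEquiv_apply, map_C]
      rw [← map_mul, ← smul_eq_C_mul]
      rfl)

/-- The action of a field automorphism `σ` on the closed points of the Hilbert scheme: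
apply `σ` to the coefficients of the polynomials of the ideal. -/
noncomputable def conj (σ : k ≃+* k) (J : HilbPt k n d) : HilbPt k n d where
  ideal := J.ideal.map (mapEquiv (Fin n) σ)
  finite := by
    have hJ := J.finite
    rw [← Module.rank_lt_aleph0_iff] at hJ ⊢
    rwa [← rank_map_mapEquiv]
  finrank_eq := by
    have hJ := J.finrank_eq
    rw [Module.finrank] at hJ ⊢
    rwa [← rank_map_mapEquiv]

lemma HilbPt.ext' {J J' : HilbPt k n d} (h : J.ideal = J'.ideal) : J = J' := by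
  cases J; cases J'; cases h; rfl

lemma conj_ideal_span (σ : k ≃+* k) (J : HilbPt k n d) (S : Set (MvPolynomial (Fin n) k))
    (hS : J.ideal = Ideal.span S) : (conj σ J).ideal = Ideal.span (map (σ : k →+* k) '' S) := by
  change J.ideal.map (mapEquiv (Fin n) σ) = _
  rw [hS]
  have : Ideal.map (mapEquiv (Fin n) σ) (Ideal.span S) =
    Ideal.map (mapEquiv (Fin n) σ : MvPolynomial (Fin n) k →+* MvPolynomial (Fin n) k) (Ideal.span S) := rfl
  rw [this, Ideal.map_span]
  rfl

/-- The conclusion: the components through `J` are not stable under `σ`. -/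
theorem not_fixed [IsAlgClosed k] (hd : 0 < d) (b : Fin d → (Fin n →₀ ℕ))
    (σ : k ≃+* k) (J : HilbPt k n d)
    (hb1 : Submodule.span k
      (Set.range fun j => Ideal.Quotient.mk J.ideal (monomial (b j) (1 : k))) = ⊤)
    (hb2 : Submodule.span k
      (Set.range fun j => Ideal.Quotient.mk (conj σ J).ideal (monomial (b j) (1 : k))) = ⊤)
    (hh1 : ∀ f ∈ J.ideal, ∀ e, homogeneousComponent e f ∈ J.ideal)
    (hh2 : ∀ f ∈ (conj σ J).ideal, ∀ e, homogeneousComponent e f ∈ (conj σ J).ideal)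
    (hr1 : Rigid J.ideal) (hr2 : Rigid (conj σ J).ideal)
    (hne : ∀ g : Matrix (Fin n) (Fin n) k, IsUnit g → ¬ ∀ f ∈ J.ideal,
      aeval (fun i => ∑ j, C (g i j) * X j : Fin n → MvPolynomial (Fin n) k) f ∈ (conj σ J).ideal) :
    ∀ Z : Set (HilbPt k n d), Z ∈ irreducibleComponents (HilbPt k n d) → J ∈ Z →
      conj σ '' Z ≠ Z := by
  intro Z hZ hJ heq
  have h1 : conj σ J ∈ Z := by
    rw [← heq]
    exact ⟨J, hJ, rfl⟩
  have hirr : IsPreirreducible Z := hZ.1.isPreirreducible
  obtain ⟨g, hg, hg'⟩ := main hd b hirr hJ h1 hb1 hb2 hh1 hh2 hr1 hr2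
  exact hne g hg hg'

end Pool.H7.HilbRigid
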