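import Pool.Agent.H7.HilbGalois

set_option autoImplicit false

namespace Pool.H7.HilbRigid

open MvPolynomial

variable {n d : ℕ} {k : Type*} [Field k] {b : Fin d → (Fin n →₀ ℕ)}

lemma HasCoords.conj {J : HilbPt k n d} {c : (Fin n →₀ ℕ) → Fin d → k} (hc : HasCoords b J c)
    (σ : k ≃+* k) : HasCoords b (conj σ J) (fun m j => σ (c m j)) := by
  intro m
  have h1 := Ideal.mem_map_of_mem (mapEquiv (Fin n) σ) (hc m)
  have h2 : mapEquiv (Fin n) σ (monomial m 1 - ∑ j, monomial (b j) (c m j)) =
      monomial m 1 - ∑ j, monomial (b j) (σ (c m j)) := by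
    simp [map_monomial]
  rw [h2] at h1
  exact h1

lemma conj_symm_conj (σ : k ≃+* k) (J : HilbPt k n d) :
    Pool.H7.HilbRigid.conj σ.symm (Pool.H7.HilbRigid.conj σ J) = J := by
  apply HilbPt.ext'
  change (J.ideal.map (mapEquiv (Fin n) σ)).map (mapEquiv (Fin n) σ.symm) = J.ideal
  rw [← mapEquiv_symm]
  exact Ideal.map_of_equiv (I := J.ideal) (mapEquiv (Fin n) σ)

lemma conj_conj_symm (σ : k ≃+* k) (J : HilbPt k n d) :
    Pool.H7.HilbRigid.conj σ (Pool.H7.HilbRigid.conj σ.symm J) = J :=
  conj_symm_conj σ.symm J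

lemma eval_map_conj (σ : k ≃+* k) {τ : Type*} (f : MvPolynomial τ k) (c : τ → k) :
    eval (fun p => σ (c p)) (map (σ : k →+* k) f) = σ (eval c f) := by
  have : (eval (fun p => σ (c p))).comp (map (σ : k →+* k)) =
      (σ : k →+* k).comp (eval c) := by
    apply MvPolynomial.ringHom_ext
    · intro a; simp
    · intro i; simp
  exact congrArg (fun φ => φ f) this

lemma continuous_conj (σ : k ≃+* k) :
    Continuous (Pool.H7.HilbRigid.conj σ : HilbPt k n d → HilbPt k n d) := by
  apply continuous_generateFrom_iff.mpr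
  rintro _ ⟨b, f, rfl⟩
  have : Pool.H7.HilbRigid.conj σ ⁻¹' basicOpen b f =
      basicOpen b (map (σ.symm : k →+* k) f) := by
    ext J
    constructor
    · rintro ⟨c, hc, hf⟩
      refine ⟨fun m j => σ.symm (c m j), ?_, ?_⟩
      · have := hc.conj σ.symm
        rwa [conj_symm_conj] at this
      · rw [eval_map_conj σ.symm f (fun p => c p.1 p.2)]
        exact (map_ne_zero_iff _ σ.symm.injective).mpr hf
    · rintro ⟨c, hc, hf⟩
      refine ⟨fun m j => σ (c m j), hc.conj σ, ?_⟩
      intro h0
      apply hf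
      have h1 := eval_map_conj σ.symm f (fun p => σ (c p.1 p.2))
      rw [h0, map_zero] at h1
      simpa using h1
  rw [this]
  exact isOpen_basicOpen _ _

/-- The action of a field automorphism on the Hilbert scheme is a homeomorphism. -/
noncomputable def conjHomeo (σ : k ≃+* k) : HilbPt k n d ≃ₜ HilbPt k n d where
  toFun := Pool.H7.HilbRigid.conj σ
  invFun := Pool.H7.HilbRigid.conj σ.symm
  left_inv := conj_symm_conj σ
  right_inv := conj_conj_symm σ
  continuous_toFun := continuous_conj σ
  continuous_invFun := continuous_conj σ.symm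

lemma image_mem_irreducibleComponents {X : Type*} [TopologicalSpace X] (h : X ≃ₜ X) {Z : Set X}
    (hZ : Z ∈ irreducibleComponents X) : h '' Z ∈ irreducibleComponents X := by
  refine ⟨hZ.1.image h h.continuous.continuousOn, ?_⟩
  intro T hT hZT
  have h1 : IsIrreducible (h.symm '' T) := hT.image h.symm h.symm.continuous.continuousOn
  have h2 : Z ⊆ h.symm '' T := by
    intro z hz
    exact ⟨h z, hZT ⟨z, hz, rfl⟩, h.symm_apply_apply z⟩
  have h3 := hZ.2 h1 h2
  intro t ht
  exact ⟨h.symm t, h3 ⟨t, ht, rfl⟩, h.apply_symm_apply t⟩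

/-- `σ` permutes the irreducible components. -/
theorem conj_image_mem (σ : k ≃+* k) {Z : Set (HilbPt k n d)}
    (hZ : Z ∈ irreducibleComponents (HilbPt k n d)) :
    Pool.H7.HilbRigid.conj σ '' Z ∈ irreducibleComponents (HilbPt k n d) :=
  image_mem_irreducibleComponents (conjHomeo σ) hZ

end Pool.H7.HilbRigid
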