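import Pool.Agent.H7.HilbTop

set_option autoImplicit false

namespace Pool.H7.HilbRigid

open MvPolynomial

variable {n d : ℕ} {k : Type*} [Field k] {b : Fin d → (Fin n →₀ ℕ)}

/-- the coordinates of the universal point on `Z ∩ U_b` -/
noncomputable def univ (b : Fin d → (Fin n →₀ ℕ)) (Z : Set (HilbPt k n d)) :
    (Fin n →₀ ℕ) → Fin d → (MvPolynomial ((Fin n →₀ ℕ) × Fin d) k ⧸ vanish b Z) :=
  fun m j => Ideal.Quotient.mk _ (X (m, j))

lemma univ_isPoint (Z : Set (HilbPt k n d)) : IsPoint b (univ b Z) where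
  base := by
    intro j
    funext l
    have h1 : (X (b j, l) : MvPolynomial ((Fin n →₀ ℕ) × Fin d) k) -
        C ((Pi.single j 1 : Fin d → k) l) ∈ vanish b Z := by
      intro J _ c hc
      rw [map_sub, eval_X, eval_C, hc.isPoint.base j, sub_self]
    have h2 := Ideal.Quotient.eq.mpr h1
    have h3 : univ b Z (b j) l = Ideal.Quotient.mk (vanish b Z) (X (b j, l)) := rfl
    rw [h3, h2]
    simp only [Pi.single_apply]
    split <;> simp
  step := by
    intro m i
    funext l
    have h1 : (X (m + Finsupp.single i 1, l) : MvPolynomial ((Fin n →₀ ℕ) × Fin d) k) -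
        ∑ j, X (m, j) * X (b j + Finsupp.single i 1, l) ∈ vanish b Z := by
      intro J _ c hc
      rw [map_sub, eval_X, map_sum]
      simp only [map_mul, eval_X]
      have := congrFun (hc.isPoint.step m i) l
      rw [this, Finset.sum_apply]
      simp
    have h2 := Ideal.Quotient.eq.mpr h1
    have h3 : univ b Z (m + Finsupp.single i 1) l =
      Ideal.Quotient.mk (vanish b Z) (X (m + Finsupp.single i 1, l)) := rfl
    rw [h3, h2, map_sum, Finset.sum_apply]
    refine Finset.sum_congr rfl fun j _ => ?_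
    rw [map_mul]
    rfl

lemma univ_isNoetherianRing (Z : Set (HilbPt k n d)) :
    IsNoetherianRing (MvPolynomial ((Fin n →₀ ℕ) × Fin d) k ⧸ vanish b Z) := by
  set Λ := MvPolynomial ((Fin n →₀ ℕ) × Fin d) k ⧸ vanish b Z
  let S : Set Λ := (Set.range fun j : Fin d => univ b Z 0 j) ∪
    (Set.range fun p : Fin d × Fin n × Fin d => univ b Z (b p.1 + Finsupp.single p.2.1 1) p.2.2)
  have hS : S.Finite := (Set.finite_range _).union (Set.finite_range _)
  have hmem : ∀ (N : ℕ) (m : Fin n →₀ ℕ), m.degree = N → ∀ j, univ b Z m j ∈ Algebra.adjoin k S := by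
    intro N
    induction N with
    | zero =>
      intro m hm j
      have : m = 0 := (Finsupp.degree_eq_zero_iff m).mp hm
      rw [this]
      exact Algebra.subset_adjoin (Or.inl ⟨j, rfl⟩)
    | succ N ih =>
      intro m hm j
      have hne : m ≠ 0 := by
        intro h0
        rw [h0] at hm
        simp at hm
      obtain ⟨i, hi⟩ := Finsupp.ne_iff.mp hne
      rw [Finsupp.coe_zero, Pi.zero_apply] at hi
      have hle : Finsupp.single i 1 ≤ m := by
        rw [Finsupp.single_le_iff]
        omega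
      have hm' : m = (m - Finsupp.single i 1) + Finsupp.single i 1 :=
        (tsub_add_cancel_of_le hle).symm
      have hdeg : (m - Finsupp.single i 1).degree = N := by
        have h1 : m.degree = (m - Finsupp.single i 1).degree + 1 := by
          conv_lhs => rw [hm']
          simp [Finsupp.degree_single]
        omega
      rw [hm', (univ_isPoint Z).step, Finset.sum_apply]
      refine Subalgebra.sum_mem _ fun l _ => ?_
      rw [Pi.smul_apply, smul_eq_mul]
      exact Subalgebra.mul_mem _ (ih _ hdeg l) (Algebra.subset_adjoin (Or.inr ⟨(l, i, j), rfl⟩))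
  have hfg : Algebra.FiniteType k Λ := by
    refine ⟨⟨hS.toFinset, ?_⟩⟩
    rw [Set.Finite.coe_toFinset, eq_top_iff]
    intro x _
    obtain ⟨f, rfl⟩ := Ideal.Quotient.mk_surjective x
    induction f using MvPolynomial.induction_on with
    | C r => exact (Algebra.adjoin k S).algebraMap_mem r
    | add p q hp hq =>
      rw [map_add]
      exact Subalgebra.add_mem _ (hp trivial) (hq trivial)
    | mul_X p i hp =>
      rw [map_mul]
      exact Subalgebra.mul_mem _ (hp trivial) (hmem _ i.1 rfl i.2)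
  exact Algebra.FiniteType.isNoetherianRing k Λ

/-- **Main theorem, coordinate form.** Two rigid homogeneous ideals (with a common monomial basis)
on the same irreducible subset of the Hilbert scheme are linearly equivalent. -/
theorem equiv_of_mem_irreducible [IsAlgClosed k] (hd : 0 < d) {Z : Set (HilbPt k n d)}
    (hZ : IsPreirreducible Z) {J1 J2 : HilbPt k n d} (hJ1 : J1 ∈ Z) (hJ2 : J2 ∈ Z)
    {c1 c2 : (Fin n →₀ ℕ) → Fin d → k} (hc1 : HasCoords b J1 c1) (hc2 : HasCoords b J2 c2)
    (hgr1 : Graded b c1) (hgr2 : Graded b c2) (hrig1 : RigidC b c1) (hrig2 : RigidC b c2) :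
    ∃ B B' : Matrix (Fin n) (Fin n) k, B * B' = 1 ∧ ∀ f ∈ J1.ideal, subst 0 B f ∈ J2.ideal := by
  have hprime := vanish_isPrime hZ hJ1 hc1
  have hnoeth := univ_isNoetherianRing (b := b) Z
  let ev : ∀ (J : HilbPt k n d) (_ : J ∈ Z) (c : (Fin n →₀ ℕ) → Fin d → k) (_ : HasCoords b J c),
      (MvPolynomial ((Fin n →₀ ℕ) × Fin d) k ⧸ vanish b Z) →ₐ[k] k :=
    fun J hJ c hc => Ideal.Quotient.liftₐ (vanish b Z) (aeval (fun p => c p.1 p.2))
      (fun f hf => by
        have := hf J hJ c hc
        rw [← aeval_eq_eval] at this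
        exact this)
  have hev : ∀ (J : HilbPt k n d) (hJ : J ∈ Z) (c : (Fin n →₀ ℕ) → Fin d → k)
      (hc : HasCoords b J c) m j, ev J hJ c hc (univ b Z m j) = c m j := by
    intro J hJ c hc m j
    simp only [ev, univ]
    exact aeval_X _ _
  obtain ⟨Ω, _, _, A, A', hA, hA'⟩ := generic_equiv hd (univ b Z) (univ_isPoint Z)
    (ev J1 hJ1 c1 hc1) (ev J2 hJ2 c2 hc2) hc1.isPoint hgr1 hrig1 (hev J1 hJ1 c1 hc1)
    hc2.isPoint hgr2 hrig2 (hev J2 hJ2 c2 hc2)
  obtain ⟨B, B', hB, hB'⟩ := descend A A' hA hA'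
  refine ⟨B, B', hB, fun f hf => ?_⟩
  rw [← hc2.nf_eq_zero_iff]
  exact hB' f ((hc1.nf_eq_zero_iff f).mpr hf)

end Pool.H7.HilbRigid
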