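import Pool.Agent.H7.HilbRigidCompare

set_option autoImplicit false

namespace Pool.H7.HilbRigid

open MvPolynomial

variable {n d : ℕ} {k : Type*} [Field k] {b : Fin d → (Fin n →₀ ℕ)}

lemma isArtinianRing_quot_pow {Λ : Type*} [CommRing Λ] [IsNoetherianRing Λ] (P : Ideal Λ)
    [hP : P.IsMaximal] (N : ℕ) : IsArtinianRing (Λ ⧸ P ^ N) := by
  rw [isArtinianRing_iff_krullDimLE_zero]
  apply Ring.KrullDimLE.mk₀
  intro 𝔮 h𝔮
  have h1 : (𝔮.comap (Ideal.Quotient.mk (P ^ N))).IsPrime := Ideal.comap_isPrime _ _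
  have h2 : P ^ N ≤ 𝔮.comap (Ideal.Quotient.mk (P ^ N)) := by
    intro x hx
    rw [Ideal.mem_comap, Ideal.Quotient.eq_zero_iff_mem.mpr hx]
    exact 𝔮.zero_mem
  have h3 : P ≤ 𝔮.comap (Ideal.Quotient.mk (P ^ N)) := h1.le_of_pow_le h2
  have h4 : P = 𝔮.comap (Ideal.Quotient.mk (P ^ N)) := hP.eq_of_le h1.ne_top h3
  have h5 : (𝔮.comap (Ideal.Quotient.mk (P ^ N))).IsMaximal := h4 ▸ hP
  exact Ideal.isMaximal_of_isIntegral_of_isMaximal_comap' (Ideal.Quotient.mk (P ^ N))
    (RingHom.isIntegral_of_surjective _ Ideal.Quotient.mk_surjective) 𝔮 h5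

/-- A domain receiving `∏ Λ / P^N`, in which `Λ` embeds. -/
lemma exists_domain.{u} (Λ : Type u) [CommRing Λ] [IsDomain Λ] [IsNoetherianRing Λ] (P : Ideal Λ)
    (hP : P ≠ ⊤) :
    ∃ (D : Type u) (_ : CommRing D) (_ : IsDomain D) (φ : ((N : ℕ) → Λ ⧸ P ^ N) →+* D),
      Function.Injective (φ.comp (RingHom.pi fun N => Ideal.Quotient.mk (P ^ N))) := by
  have hinj : Function.Injective (RingHom.pi fun N => Ideal.Quotient.mk (P ^ N) :
      Λ →+* ((N : ℕ) → Λ ⧸ P ^ N)) := by
    rw [injective_iff_map_eq_zero]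
    intro x hx
    have h1 : x ∈ (⨅ i : ℕ, P ^ i : Ideal Λ) := by
      rw [Ideal.mem_iInf]
      intro i
      have := congrFun hx i
      exact Ideal.Quotient.eq_zero_iff_mem.mp this
    rw [Ideal.iInf_pow_eq_bot_of_isDomain P hP, Ideal.mem_bot] at h1
    exact h1
  let S : Submonoid ((N : ℕ) → Λ ⧸ P ^ N) :=
    (nonZeroDivisors Λ).map (RingHom.pi fun N => Ideal.Quotient.mk (P ^ N))
  have hdisj : Disjoint ((⊥ : Ideal ((N : ℕ) → Λ ⧸ P ^ N)) : Set _)
      (S : Set ((N : ℕ) → Λ ⧸ P ^ N)) := by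
    rw [Set.disjoint_left]
    rintro x hx ⟨y, hy, hyx⟩
    have h0 : x = 0 := hx
    rw [h0] at hyx
    have : y = 0 := hinj (by rw [map_zero]; exact hyx)
    exact nonZeroDivisors.ne_zero hy this
  obtain ⟨𝔮, h𝔮, _, h𝔮'⟩ := Ideal.exists_le_prime_disjoint _ S hdisj
  refine ⟨_ ⧸ 𝔮, inferInstance, inferInstance, Ideal.Quotient.mk 𝔮, ?_⟩
  rw [injective_iff_map_eq_zero]
  intro x hx
  by_contra hne
  rw [RingHom.comp_apply, Ideal.Quotient.eq_zero_iff_mem] at hx
  rw [Set.disjoint_left] at h𝔮'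
  exact h𝔮' hx ⟨x, mem_nonZeroDivisors_of_ne_zero hne, rfl⟩

/-- Two domains containing `Λ` map to a common field over `Λ`. -/
lemma exists_field.{u} (Λ D1 D2 : Type u) [CommRing Λ] [CommRing D1] [CommRing D2]
    [IsDomain D1] [IsDomain D2] (φ1 : Λ →+* D1) (φ2 : Λ →+* D2)
    (h1 : Function.Injective φ1) (h2 : Function.Injective φ2) :
    ∃ (Ω : Type u) (_ : Field Ω) (ψ1 : D1 →+* Ω) (ψ2 : D2 →+* Ω), ψ1.comp φ1 = ψ2.comp φ2 := by
  let _ : Algebra Λ D1 := φ1.toAlgebra
  let _ : Algebra Λ D2 := φ2.toAlgebra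
  have : Nontrivial (TensorProduct Λ D1 D2) :=
    Algebra.TensorProduct.nontrivial_of_algebraMap_injective_of_isDomain Λ D1 D2 h1 h2
  obtain ⟨𝔫, h𝔫⟩ := Ideal.exists_maximal (TensorProduct Λ D1 D2)
  let _ : Field (TensorProduct Λ D1 D2 ⧸ 𝔫) := Ideal.Quotient.field 𝔫
  refine ⟨TensorProduct Λ D1 D2 ⧸ 𝔫, inferInstance,
    (Ideal.Quotient.mk 𝔫).comp (Algebra.TensorProduct.includeLeft (S := Λ)).toRingHom,
    (Ideal.Quotient.mk 𝔫).comp (Algebra.TensorProduct.includeRight).toRingHom, ?_⟩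
  ext x
  simp only [RingHom.comp_apply]
  congr 1
  have e1 : (Algebra.TensorProduct.includeLeft (R := Λ) (S := Λ) (A := D1) (B := D2)).toRingHom (φ1 x) =
      algebraMap Λ _ x := (Algebra.TensorProduct.includeLeft (R := Λ) (S := Λ) (A := D1) (B := D2)).commutes x
  have e2 : (Algebra.TensorProduct.includeRight (R := Λ) (A := D1) (B := D2)).toRingHom (φ2 x) =
      algebraMap Λ _ x := (Algebra.TensorProduct.includeRight (R := Λ) (A := D1) (B := D2)).commutes x
  rw [e1, e2]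

section map

variable {R S : Type*} [CommRing R] [CommRing S] [Algebra k R] [Algebra k S]

lemma map_subst (φ : R →+* S) (a : Fin n → R) (g : Matrix (Fin n) (Fin n) R)
    (p : MvPolynomial (Fin n) R) :
    map φ (subst a g p) = subst (fun i => φ (a i)) (g.map φ) (map φ p) := by
  induction p using MvPolynomial.induction_on with
  | C r => rw [subst_C, map_C, subst_C]
  | add p q hp hq => simp only [map_add, hp, hq]
  | mul_X p i hp =>
    rw [map_mul, map_mul, hp, subst_X, map_mul, map_mul, map_X, subst_X]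
    simp [map_sum]

lemma straight_map (φ : R →+* S) (hφ : φ.comp (algebraMap k R) = algebraMap k S)
    {cI : (Fin n →₀ ℕ) → Fin d → k} {c : (Fin n →₀ ℕ) → Fin d → R} {a : Fin n → R}
    {g g' : Matrix (Fin n) (Fin n) R} (hs : Straight b cI c a g g') :
    Straight b cI (fun m j => φ (c m j)) (fun i => φ (a i)) (g.map φ) (g'.map φ) := by
  refine ⟨?_, ?_⟩
  · rw [← Matrix.map_mul, hs.1]
    ext i j
    simp [Matrix.one_apply]
  · intro e f hfe hf
    obtain ⟨h, hh, hh'⟩ := hs.2 e f hfe hf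
    refine ⟨fun j => φ (h j), fun j hj => by simp only [hh j hj, map_zero], ?_⟩
    have h1 : map (algebraMap k S) f - lift b (fun j => φ (h j)) =
        map φ (map (algebraMap k R) f - lift b h) := by
      rw [map_sub, map_map, hφ, map_lift]
    rw [h1, ← map_subst]
    ext j
    rw [nf_map, hh']
    simp

end map

/-- straightening over the product ring -/
lemma straight_pi {Rs : ℕ → Type*} [∀ N, CommRing (Rs N)] [∀ N, Algebra k (Rs N)]
    {cI : (Fin n →₀ ℕ) → Fin d → k} {c : (Fin n →₀ ℕ) → Fin d → ((N : ℕ) → Rs N)}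
    (h : ∀ N, ∃ (a : Fin n → Rs N) (g g' : Matrix (Fin n) (Fin n) (Rs N)),
      Straight b cI (fun m j => c m j N) a g g') :
    ∃ (a : Fin n → ((N : ℕ) → Rs N)) (g g' : Matrix (Fin n) (Fin n) ((N : ℕ) → Rs N)),
      Straight b cI c a g g' := by
  choose a g g' hs using h
  refine ⟨fun i N => a N i, Matrix.of fun i j N => g N i j, Matrix.of fun i j N => g' N i j, ?_, ?_⟩
  · ext i j N
    have := congrFun (congrFun (hs N).1 i) j
    rw [Matrix.mul_apply] at this ⊢
    rw [Finset.sum_apply]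
    simp only [Matrix.of_apply, Pi.mul_apply]
    rw [this]
    simp only [Matrix.one_apply]
    split <;> rfl
  · intro e f hfe hf
    have h1 : ∀ N, ∃ h : Fin d → Rs N, (∀ j, (b j).degree ≤ e → h j = 0) ∧
        nf (fun m j => c m j N) (subst (a N) (g N) (map (algebraMap k (Rs N)) f - lift b h)) = 0 :=
      fun N => (hs N).2 e f hfe hf
    choose H hH hH' using h1
    refine ⟨fun j N => H N j, fun j hj => funext fun N => hH N j hj, ?_⟩
    ext j N
    have h2 := nf_map (Pi.evalRingHom Rs N) c (subst (fun i N => a N i) (Matrix.of fun i j N => g N i j)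
      (map (algebraMap k ((N : ℕ) → Rs N)) f - lift b fun j N => H N j)) j
    rw [map_subst, map_sub, map_map, map_lift] at h2
    have h3 : (Pi.evalRingHom Rs N).comp (algebraMap k ((N : ℕ) → Rs N)) = algebraMap k (Rs N) := rfl
    rw [h3] at h2
    have h4 := congrFun (hH' N) j
    exact h2.symm.trans h4

end Pool.H7.HilbRigid
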