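import Mathlib

set_option autoImplicit false

namespace Pool.H7.HilbRigid

open MvPolynomial

variable {n d : ℕ}

/-- The `R`-linear map `R[x_1,...,x_n] → R^d` with `x^m ↦ c m`. -/
noncomputable def nf {R : Type*} [CommRing R] (c : (Fin n →₀ ℕ) → Fin d → R) :
    MvPolynomial (Fin n) R →ₗ[R] (Fin d → R) :=
  (basisMonomials (Fin n) R).constr R c

/-- `c` is an `R`-point of the chart of the Hilbert scheme given by the monomials
`x^(b 0), ..., x^(b (d-1))`: `c m` is the vector of coordinates of `x^m`. -/
structure IsPoint (b : Fin d → (Fin n →₀ ℕ)) {R : Type*} [CommRing R]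
    (c : (Fin n →₀ ℕ) → Fin d → R) : Prop where
  base : ∀ j, c (b j) = Pi.single j 1
  step : ∀ m i, c (m + Finsupp.single i 1) = ∑ j, c m j • c (b j + Finsupp.single i 1)

section basics

variable {R : Type*} [CommRing R] {b : Fin d → (Fin n →₀ ℕ)} {c : (Fin n →₀ ℕ) → Fin d → R}

lemma nf_monomial (c : (Fin n →₀ ℕ) → Fin d → R) (m : Fin n →₀ ℕ) (r : R) :
    nf c (monomial m r) = r • c m := by
  have h : monomial m r = r • (basisMonomials (Fin n) R m) := by
    rw [coe_basisMonomials, smul_monomial, smul_eq_mul, mul_one]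
  rw [h, map_smul, nf, Module.Basis.constr_basis]

lemma nf_eq_sum (c : (Fin n →₀ ℕ) → Fin d → R) (f : MvPolynomial (Fin n) R) :
    nf c f = ∑ m ∈ f.support, coeff m f • c m := by
  conv_lhs => rw [f.as_sum, map_sum]
  exact Finset.sum_congr rfl fun m _ => nf_monomial c m _

lemma IsPoint.nf_base (h : IsPoint b c) (j : Fin d) :
    nf c (monomial (b j) 1) = Pi.single j 1 := by
  rw [nf_monomial, h.base, one_smul]

lemma IsPoint.nf_X_mul (h : IsPoint b c) (i : Fin n) (f : MvPolynomial (Fin n) R) :
    nf c (X i * f) = ∑ j, nf c f j • c (b j + Finsupp.single i 1) := by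
  induction f using MvPolynomial.induction_on' with
  | monomial m r =>
    have : X i * monomial m r = monomial (m + Finsupp.single i 1) r := by
      rw [X, monomial_mul, one_mul, add_comm]
    rw [this, nf_monomial, nf_monomial, h.step, Finset.smul_sum]
    refine Finset.sum_congr rfl fun j _ => ?_
    rw [smul_smul, Pi.smul_apply, smul_eq_mul]
  | add p q hp hq =>
    rw [mul_add, map_add, hp, hq, map_add, ← Finset.sum_add_distrib]
    refine Finset.sum_congr rfl fun j _ => ?_
    rw [← add_smul, Pi.add_apply]

lemma IsPoint.nf_mul_eq_zero (h : IsPoint b c) (g f : MvPolynomial (Fin n) R)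
    (hf : nf c f = 0) : nf c (g * f) = 0 := by
  induction g using MvPolynomial.induction_on with
  | C a => rw [← smul_eq_C_mul, map_smul, hf, smul_zero]
  | add p q hp hq => rw [add_mul, map_add, hp, hq, add_zero]
  | mul_X p i hp =>
    rw [mul_comm p, mul_assoc, h.nf_X_mul, hp]
    simp

/-- the ideal of the point -/
noncomputable def IsPoint.ideal (h : IsPoint b c) : Ideal (MvPolynomial (Fin n) R) where
  carrier := {f | nf c f = 0}
  add_mem' := by
    intro f g hf hg
    simp only [Set.mem_ofPred_eq] at *
    rw [map_add, hf, hg, add_zero]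
  zero_mem' := by simp
  smul_mem' := by
    intro g f hf
    exact h.nf_mul_eq_zero g f hf

lemma IsPoint.mem_ideal (h : IsPoint b c) (f : MvPolynomial (Fin n) R) :
    f ∈ h.ideal ↔ nf c f = 0 := Iff.rfl

/-- the section `R^d → R[x]` -/
noncomputable def lift (b : Fin d → (Fin n →₀ ℕ)) (v : Fin d → R) : MvPolynomial (Fin n) R :=
  ∑ j, monomial (b j) (v j)

lemma IsPoint.nf_lift (h : IsPoint b c) (v : Fin d → R) : nf c (lift b v) = v := by
  rw [lift, map_sum]
  have : ∀ j, nf c (monomial (b j) (v j)) = v j • (Pi.single j (1 : R) : Fin d → R) := by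
    intro j; rw [nf_monomial, h.base]
  simp_rw [this]
  ext l
  rw [Finset.sum_apply]
  simp [Pi.single_apply]

lemma IsPoint.nf_sub_lift (h : IsPoint b c) (f : MvPolynomial (Fin n) R) :
    nf c (f - lift b (nf c f)) = 0 := by
  rw [map_sub, h.nf_lift, sub_self]

lemma IsPoint.nf_mul_congr (h : IsPoint b c) (g f f' : MvPolynomial (Fin n) R)
    (hf : nf c f = nf c f') : nf c (g * f) = nf c (g * f') := by
  have : nf c (g * (f - f')) = 0 := h.nf_mul_eq_zero _ _ (by rw [map_sub, hf, sub_self])
  rw [mul_sub, map_sub, sub_eq_zero] at this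
  exact this

/-- base change -/
lemma nf_map {S : Type*} [CommRing S] (φ : R →+* S) (c : (Fin n →₀ ℕ) → Fin d → R)
    (f : MvPolynomial (Fin n) R) (j : Fin d) :
    nf (fun m j => φ (c m j)) (map φ f) j = φ (nf c f j) := by
  induction f using MvPolynomial.induction_on' with
  | monomial m r => 
    rw [map_monomial, nf_monomial, nf_monomial]; simp
  | add p q hp hq => 
    rw [map_add, map_add, Pi.add_apply, hp, hq, map_add, Pi.add_apply, map_add]

lemma IsPoint.map {S : Type*} [CommRing S] (φ : R →+* S) (h : IsPoint b c) :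
    IsPoint b (fun m j => φ (c m j)) where
  base := by
    intro j
    ext l
    simp only [h.base j, Pi.single_apply]
    split <;> simp
  step := by
    intro m i
    ext l
    rw [h.step m i, Finset.sum_apply, Finset.sum_apply, map_sum]
    refine Finset.sum_congr rfl fun j _ => ?_
    simp

lemma map_lift {S : Type*} [CommRing S] (φ : R →+* S) (v : Fin d → R) :
    MvPolynomial.map φ (lift b v) = lift b (fun j => φ (v j)) := by
  simp [lift, map_sum, map_monomial]

end basics

end Pool.H7.HilbRigid
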