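import Pool.Agent.H7.HilbRigidField

set_option autoImplicit false

namespace Pool.H7.HilbRigid

open MvPolynomial

variable {n d : ℕ} {k : Type*} [Field k] {b : Fin d → (Fin n →₀ ℕ)}
variable {Ω : Type*} [Field Ω] [Algebra k Ω]

lemma subst_C {R : Type*} [CommRing R] (a : Fin n → R) (g : Matrix (Fin n) (Fin n) R) (r : R) :
    subst a g (C r) = C r := by rw [subst, aeval_C]; rfl

/-- polynomials of large order lie in the straightened ideal -/
lemma straight_high {cI : (Fin n →₀ ℕ) → Fin d → k} (hI : IsPoint b cI) (hgr : Graded b cI)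
    {c : (Fin n →₀ ℕ) → Fin d → Ω} {a : Fin n → Ω} {g g' : Matrix (Fin n) (Fin n) Ω}
    (hs : Straight b cI c a g g') (N : ℕ) (hN : ∀ j, (b j).degree < N)
    (p : MvPolynomial (Fin n) Ω) (hp : p.IsHomogeneous N) :
    nf c (subst a g p) = 0 := by
  obtain ⟨h, hh, hh'⟩ := straight_order hI hgr hs N p (by
    intro m hm
    have := hp (mem_support_iff.mp hm)
    rw [← this]
    rw [Finsupp.degree_eq_weight_one]; exact le_rfl)
  have h0 : h = 0 := by
    ext j; exact hh j (hN j)
  rwa [h0, lift_zero, sub_zero] at hh'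

theorem straight_t_eq_zero (hd : 0 < d) {cI1 cI2 : (Fin n →₀ ℕ) → Fin d → k}
    (hI1 : IsPoint b cI1) (hgr1 : Graded b cI1) (hI2 : IsPoint b cI2) (hgr2 : Graded b cI2)
    {c : (Fin n →₀ ℕ) → Fin d → Ω} (hc : IsPoint b c)
    {a1 a2 : Fin n → Ω} {g1 g1' g2 g2' : Matrix (Fin n) (Fin n) Ω}
    (hs1 : Straight b cI1 c a1 g1 g1') (hs2 : Straight b cI2 c a2 g2 g2')
    (t : Fin n → Ω) (A : Matrix (Fin n) (Fin n) Ω)
    (hΨ : ∀ p, subst a2 g2 (subst t A p) = subst a1 g1 p) : t = 0 := by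
  classical
  let 𝓙 : Ideal (MvPolynomial (Fin n) Ω) := Ideal.comap (subst a2 g2) hc.ideal
  have hmem : ∀ p, p ∈ 𝓙 ↔ nf c (subst a2 g2 p) = 0 := fun p => Iff.rfl
  have hone : (1 : MvPolynomial (Fin n) Ω) ∉ 𝓙 := by
    intro h1
    have h2 : lift b (Pi.single ⟨0, hd⟩ (1 : Ω)) ∈ 𝓙 := by
      have := 𝓙.mul_mem_left (lift b (Pi.single ⟨0, hd⟩ (1 : Ω))) h1
      rwa [mul_one] at this
    have h3 := straight_indep hI2 hgr2 hc hs2 _ ((hmem _).mp h2)
    have h4 := congrFun h3 ⟨0, hd⟩
    simp at h4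
  obtain ⟨N, hN⟩ : ∃ N, ∀ j, (b j).degree < N :=
    ⟨(Finset.univ.sup fun j => (b j).degree) + 1, fun j =>
      Nat.lt_succ_of_le (Finset.le_sup (f := fun j => (b j).degree) (Finset.mem_univ j))⟩
  funext i
  by_contra hti
  set ℓ : MvPolynomial (Fin n) Ω := ∑ j, C (A i j) * X j with hℓ
  have hℓhom : (ℓ ^ N).IsHomogeneous N := by
    have h1 : ℓ.IsHomogeneous 1 := by
      apply IsHomogeneous.sum
      intro j _
      have := (isHomogeneous_C (Fin n) (A i j)).mul (isHomogeneous_X Ω j)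
      rwa [zero_add] at this
    have := h1.pow N
    rwa [one_mul] at this
  have hn1 : IsNilpotent (Ideal.Quotient.mk 𝓙 ℓ) := by
    refine ⟨N, ?_⟩
    rw [← map_pow, Ideal.Quotient.eq_zero_iff_mem, hmem]
    exact straight_high hI2 hgr2 hs2 N hN _ hℓhom
  have hn2 : IsNilpotent (Ideal.Quotient.mk 𝓙 (C (t i) + ℓ)) := by
    refine ⟨N, ?_⟩
    rw [← map_pow, Ideal.Quotient.eq_zero_iff_mem, hmem, hℓ, ← subst_X, ← map_pow, hΨ]
    exact straight_high hI1 hgr1 hs1 N hN _ (by
      have := (isHomogeneous_X Ω i).pow N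
      rwa [one_mul] at this)
  have hn3 : IsNilpotent (Ideal.Quotient.mk 𝓙 (C (t i))) := by
    have h1 : Ideal.Quotient.mk 𝓙 (C (t i)) =
        Ideal.Quotient.mk 𝓙 (C (t i) + ℓ) - Ideal.Quotient.mk 𝓙 ℓ := by
      rw [map_add]; ring
    rw [h1]
    exact (Commute.all _ _).isNilpotent_sub hn2 hn1
  obtain ⟨M, hM⟩ := hn3
  rw [← map_pow, Ideal.Quotient.eq_zero_iff_mem, ← C_pow] at hM
  apply hone
  have := 𝓙.mul_mem_left (C ((t i ^ M)⁻¹)) hM
  rwa [← C_mul, inv_mul_cancel₀ (pow_ne_zero _ hti), C_1] at this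

theorem compare (hd : 0 < d) {cI1 cI2 : (Fin n →₀ ℕ) → Fin d → k}
    (hI1 : IsPoint b cI1) (hgr1 : Graded b cI1) (hI2 : IsPoint b cI2) (hgr2 : Graded b cI2)
    {c : (Fin n →₀ ℕ) → Fin d → Ω} (hc : IsPoint b c)
    {a1 a2 : Fin n → Ω} {g1 g1' g2 g2' : Matrix (Fin n) (Fin n) Ω}
    (hs1 : Straight b cI1 c a1 g1 g1') (hs2 : Straight b cI2 c a2 g2 g2') :
    ∃ A A' : Matrix (Fin n) (Fin n) Ω, A * A' = 1 ∧ ∀ f : MvPolynomial (Fin n) k, nf cI1 f = 0 →
      nf (fun m j => algebraMap k Ω (cI2 m j)) (subst 0 A (map (algebraMap k Ω) f)) = 0 := by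
  have h22 : g2' * g2 = 1 := mul_eq_one_comm.mp hs2.1
  set A := g1 * g2' with hA
  have hAA : A * (g2 * g1') = 1 := by
    rw [hA, Matrix.mul_assoc, ← Matrix.mul_assoc g2', h22, Matrix.one_mul, hs1.1]
  have hAg : A * g2 = g1 := by rw [hA, Matrix.mul_assoc, h22, Matrix.mul_one]
  have hΨ : ∀ p, subst a2 g2 (subst (a1 - A.mulVec a2) A p) = subst a1 g1 p := by
    intro p
    rw [subst_comp, sub_add_cancel, hAg]
  have ht := straight_t_eq_zero hd hI1 hgr1 hI2 hgr2 hc hs1 hs2 _ A hΨ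
  rw [ht] at hΨ
  refine ⟨A, g2 * g1', hAA, ?_⟩
  have hI2Ω : IsPoint b (fun m j => algebraMap k Ω (cI2 m j)) := hI2.map _
  have hgr2Ω : Graded b (fun m j => algebraMap k Ω (cI2 m j)) := by
    intro m j hne
    apply hgr2 m j
    intro h0
    apply hne
    simp [h0]
  -- homogeneous case
  have key : ∀ e (f : MvPolynomial (Fin n) k), f.IsHomogeneous e → nf cI1 f = 0 →
      nf (fun m j => algebraMap k Ω (cI2 m j)) (subst 0 A (map (algebraMap k Ω) f)) = 0 := by
    intro e f hfe hf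
    obtain ⟨h, hh, hh'⟩ := hs1.2 e f hfe hf
    rw [← hΨ] at hh'
    set F := subst 0 A (map (algebraMap k Ω) f) with hF
    have hFhom : F.IsHomogeneous e := subst_isHomogeneous A (hfe.map _)
    obtain ⟨h2, hh2, hh2'⟩ := straight_homogeneous hI2 hgr2 hs2 e F hFhom
    -- the order > e part
    have hord : ∃ h3 : Fin d → Ω, (∀ j, (b j).degree < e + 1 → h3 j = 0) ∧
        nf c (subst a2 g2 (subst 0 A (lift b h) - lift b h3)) = 0 := by
      have hj : ∀ j, ∃ h3 : Fin d → Ω, (∀ l, (b l).degree < e + 1 → h3 l = 0) ∧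
          nf c (subst a2 g2 (subst 0 A (monomial (b j) (h j)) - lift b h3)) = 0 := by
        intro j
        by_cases hje : (b j).degree ≤ e
        · refine ⟨0, fun _ _ => rfl, ?_⟩
          rw [hh j hje, monomial_zero, map_zero, lift_zero, sub_zero, map_zero, map_zero]
        · have h4 : (subst 0 A (monomial (b j) (h j))).IsHomogeneous (b j).degree :=
            subst_isHomogeneous A (isHomogeneous_monomial _ rfl)
          obtain ⟨h3, hh3, hh3'⟩ := straight_order hI2 hgr2 hs2 (b j).degree _ (by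
            intro m hm
            have := h4 (mem_support_iff.mp hm)
            rw [← this]
            rw [Finsupp.degree_eq_weight_one]; exact le_rfl)
          exact ⟨h3, fun l hl => hh3 l (by omega), hh3'⟩
      choose H hH hH' using hj
      refine ⟨∑ j, H j, ?_, ?_⟩
      · intro l hl
        rw [Finset.sum_apply]
        exact Finset.sum_eq_zero fun j _ => hH j l hl
      · rw [lift_sum, lift, map_sum, ← Finset.sum_sub_distrib, map_sum, map_sum]
        exact Finset.sum_eq_zero fun j _ => hH' j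
    obtain ⟨h3, hh3, hh3'⟩ := hord
    have hcomb : nf c (subst a2 g2 (lift b (nf (fun m j => algebraMap k Ω (cI2 m j)) F + h2 - h3))) = 0 := by
      have h5 : lift b (nf (fun m j => algebraMap k Ω (cI2 m j)) F + h2 - h3) =
          subst 0 A (map (algebraMap k Ω) f - lift b h)
          - (F - lift b (nf (fun m j => algebraMap k Ω (cI2 m j)) F) - lift b h2)
          + (subst 0 A (lift b h) - lift b h3) := by
        rw [lift_sub, lift_add, map_sub]
        ring
      rw [h5, map_add, map_sub, map_add, map_sub, hh', hh2', hh3']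
      simp
    have h6 := straight_indep hI2 hgr2 hc hs2 _ hcomb
    ext j
    by_cases hj : (b j).degree = e
    · have h7 := congrFun h6 j
      rw [Pi.sub_apply, Pi.add_apply, hh2 j hj.le, hh3 j (by omega)] at h7
      simpa using h7
    · have h8 := nf_homogeneousComponent hgr2Ω e F j
      rw [if_neg hj, homogeneousComponent_eq_self hFhom] at h8
      exact h8
  -- general case
  intro f hf
  have hs : ∑ e ∈ Finset.range (f.totalDegree + 1), homogeneousComponent e f = f :=
    sum_homogeneousComponent f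
  have hz : ∀ e, nf cI1 (homogeneousComponent e f) = 0 := by
    intro e
    ext j
    rw [nf_homogeneousComponent hgr1, hf]
    simp
  conv_lhs => rw [← hs]
  rw [map_sum, map_sum, map_sum]
  exact Finset.sum_eq_zero fun e _ => key e _ (homogeneousComponent_isHomogeneous e f) (hz e)

end Pool.H7.HilbRigid
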