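import Pool.Agent.H7.HilbRigidStep

set_option autoImplicit false

namespace Pool.H7.HilbRigid

open MvPolynomial

variable {n d : ℕ} {k : Type*} [Field k] {b : Fin d → (Fin n →₀ ℕ)}
variable {R : Type*} [CommRing R] [Algebra k R]

lemma IsPoint.mk' {c' : (Fin n →₀ ℕ) → Fin d → R} (hbase : ∀ j, c' (b j) = Pi.single j 1)
    (hid : ∀ p i, nf c' p = 0 → nf c' (X i * p) = 0) : IsPoint b c' where
  base := hbase
  step := by
    intro m i
    have hlift : ∀ v : Fin d → R, nf c' (lift b v) = v := by
      intro v
      rw [lift, map_sum]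
      simp_rw [nf_monomial, hbase]
      ext l
      rw [Finset.sum_apply]
      simp [Pi.single_apply]
    have h0 : nf c' (monomial m 1 - lift b (c' m)) = 0 := by
      rw [map_sub, hlift, nf_monomial, one_smul, sub_self]
    have h1 := hid _ i h0
    rw [mul_sub, map_sub, sub_eq_zero] at h1
    have h2 : X i * monomial m (1 : R) = monomial (m + Finsupp.single i 1) 1 := by
      rw [X, monomial_mul, one_mul, add_comm]
    rw [h2, nf_monomial, one_smul] at h1
    rw [h1, lift, Finset.mul_sum, map_sum]
    refine Finset.sum_congr rfl fun j _ => ?_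
    have h3 : X i * monomial (b j) (c' m j) = monomial (b j + Finsupp.single i 1) (c' m j) := by
      rw [X, monomial_mul, one_mul, add_comm]
    rw [h3, nf_monomial]

/-- the vector `a = -u α` -/
noncomputable def stepA (R : Type*) [CommRing R] [Algebra k R] (u : R) (α : Fin n → k) : Fin n → R :=
  fun i => -(u * algebraMap k R (α i))

/-- the matrix `g = 1 - u γ` -/
noncomputable def stepG (R : Type*) [CommRing R] [Algebra k R] (u : R) (γ : Fin n → Fin n → k) :
    Matrix (Fin n) (Fin n) R :=
  1 - u • Matrix.of (fun i j => algebraMap k R (γ i j))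

lemma taylor (u : R) (α : Fin n → k) (γ : Fin n → Fin n → k) (p : MvPolynomial (Fin n) k) :
    ∃ q : MvPolynomial (Fin n) R,
      subst (stepA R u α) (stepG R u γ) (map (algebraMap k R) p) =
        map (algebraMap k R) p - C u * map (algebraMap k R) (vf α γ p) + C (u ^ 2) * q := by
  have hX : ∀ i, subst (stepA R u α) (stepG R u γ) (X i) =
      X i - C u * map (algebraMap k R) (C (α i) + ∑ j, C (γ i j) * X j) := by
    intro i
    rw [subst_X]
    simp only [stepA, stepG, Matrix.sub_apply, Matrix.smul_apply, Matrix.of_apply, smul_eq_mul,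
      map_add, map_sum, map_mul, map_C, map_X, map_neg, map_sub, sub_mul, Finset.sum_sub_distrib,
      Matrix.one_apply]
    have : ∑ x, (C (if i = x then (1 : R) else 0)) * (X x : MvPolynomial (Fin n) R) = X i := by
      rw [Finset.sum_eq_single i]
      · simp
      · intro j _ hj
        rw [if_neg (Ne.symm hj)]; simp
      · simp
    rw [this, mul_add, Finset.mul_sum]
    simp only [mul_assoc]
    ring
  induction p using MvPolynomial.induction_on with
  | C r =>
    refine ⟨0, ?_⟩
    rw [vf_C, map_C]
    have : subst (stepA R u α) (stepG R u γ) (C (algebraMap k R r)) = C (algebraMap k R r) := by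
      rw [subst, aeval_C]; rfl
    rw [this]
    simp
  | add p q hp hq =>
    obtain ⟨p', hp⟩ := hp
    obtain ⟨q', hq⟩ := hq
    refine ⟨p' + q', ?_⟩
    rw [map_add, map_add, hp, hq, vf_add, map_add]
    ring
  | mul_X p i hp =>
    obtain ⟨p', hp⟩ := hp
    refine ⟨p' * X i + map (algebraMap k R) (vf α γ p) *
      map (algebraMap k R) (C (α i) + ∑ j, C (γ i j) * X j)
      - C u * p' * map (algebraMap k R) (C (α i) + ∑ j, C (γ i j) * X j), ?_⟩
    rw [vf_mul_X, map_mul, map_mul, map_X, hX, hp]
    generalize (C (α i) + ∑ j, C (γ i j) * X j : MvPolynomial (Fin n) k) = δ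
    simp only [map_add, map_mul, map_X, map_pow]
    ring

lemma nf_C_mul (c : (Fin n →₀ ℕ) → Fin d → R) (r : R) (p : MvPolynomial (Fin n) R) :
    nf c (C r * p) = r • nf c p := by
  rw [← smul_eq_C_mul, map_smul]

/-- `nf c (map p) - nf cI p ∈ 𝔪` -/
lemma nf_sub_mem (𝔪 : Ideal R) {cI : (Fin n →₀ ℕ) → Fin d → k} {c : (Fin n →₀ ℕ) → Fin d → R}
    (hcm : ∀ m j, c m j - algebraMap k R (cI m j) ∈ 𝔪) (p : MvPolynomial (Fin n) k) (j : Fin d) :
    nf c (map (algebraMap k R) p) j - algebraMap k R (nf cI p j) ∈ 𝔪 := by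
  induction p using MvPolynomial.induction_on' with
  | monomial m r =>
    rw [map_monomial, nf_monomial, nf_monomial]
    simp only [Pi.smul_apply, smul_eq_mul, map_mul, ← mul_sub]
    exact 𝔪.mul_mem_left _ (hcm m j)
  | add p q hp hq =>
    simp only [map_add, Pi.add_apply]
    have := 𝔪.add_mem hp hq
    convert this using 1
    ring

end Pool.H7.HilbRigid
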