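import Pool.Agent.H7.HilbRigidCore

set_option autoImplicit false

namespace Pool.H7.HilbRigid

open MvPolynomial

variable {n d : ℕ} {k : Type*} [Field k] {b : Fin d → (Fin n →₀ ℕ)}
variable {R : Type*} [CommRing R] [Algebra k R]

lemma map_lift' (v : Fin d → k) :
    map (algebraMap k R) (lift b v) = lift b (fun j => algebraMap k R (v j)) :=
  map_lift _ _

/-- `x^m - nf(x^m)` is homogeneous. -/
lemma isHomogeneous_monomial_sub_lift {cI : (Fin n →₀ ℕ) → Fin d → k} (hgr : Graded b cI)
    (m : Fin n →₀ ℕ) : (monomial m 1 - lift b (cI m) : MvPolynomial (Fin n) k).IsHomogeneous m.degree := by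
  apply IsHomogeneous.sub
  · exact isHomogeneous_monomial _ rfl
  · apply IsHomogeneous.sum
    intro j _
    by_cases h : cI m j = 0
    · rw [h, monomial_zero]; exact isHomogeneous_zero _ _ _
    · exact isHomogeneous_monomial _ (hgr m j h)

/-- the truncated first order part -/
noncomputable def psi (b : Fin d → (Fin n →₀ ℕ)) (cI : (Fin n →₀ ℕ) → Fin d → k)
    (c : (Fin n →₀ ℕ) → Fin d → R) (θ : R →ₗ[k] k) :
    MvPolynomial (Fin n) k →ₗ[k] (Fin d → k) :=
  (basisMonomials (Fin n) k).constr k
    (fun m j => if (b j).degree ≤ m.degree then θ (c m j - algebraMap k R (cI m j)) else 0)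

lemma psi_monomial (cI : (Fin n →₀ ℕ) → Fin d → k)
    (c : (Fin n →₀ ℕ) → Fin d → R) (θ : R →ₗ[k] k) (m : Fin n →₀ ℕ) (r : k) (j : Fin d) :
    psi b cI c θ (monomial m r) j =
      r * if (b j).degree ≤ m.degree then θ (c m j - algebraMap k R (cI m j)) else 0 := by
  have h : monomial m r = r • (basisMonomials (Fin n) k m) := by
    rw [coe_basisMonomials, smul_monomial, smul_eq_mul, mul_one]
  rw [h, map_smul, psi, Module.Basis.constr_basis]
  rfl

lemma psi_homogeneous (cI : (Fin n →₀ ℕ) → Fin d → k)
    (c : (Fin n →₀ ℕ) → Fin d → R) (θ : R →ₗ[k] k) (e : ℕ) (f : MvPolynomial (Fin n) k)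
    (hf : f.IsHomogeneous e) (j : Fin d) :
    psi b cI c θ f j =
      if (b j).degree ≤ e then
        θ (nf c (map (algebraMap k R) f) j - algebraMap k R (nf cI f j)) else 0 := by
  have hs : f = ∑ m ∈ f.support, monomial m (coeff m f) := f.as_sum
  have h1 : psi b cI c θ f j =
      ∑ m ∈ f.support, psi b cI c θ (monomial m (coeff m f)) j := by
    conv_lhs => rw [hs, map_sum, Finset.sum_apply]
  have h2 : nf c (map (algebraMap k R) f) j - algebraMap k R (nf cI f j) =
      ∑ m ∈ f.support, (coeff m f) • (c m j - algebraMap k R (cI m j)) := by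
    conv_lhs => rw [hs, map_sum, map_sum, map_sum, Finset.sum_apply, Finset.sum_apply, map_sum,
      ← Finset.sum_sub_distrib]
    refine Finset.sum_congr rfl fun m _ => ?_
    rw [map_monomial, nf_monomial, nf_monomial]
    simp only [Pi.smul_apply, smul_eq_mul, map_mul, Algebra.smul_def]
    ring
  rw [h1, h2, map_sum]
  by_cases hj : (b j).degree ≤ e
  · rw [if_pos hj]
    refine Finset.sum_congr rfl fun m hm => ?_
    have hme : m.degree = e := by
      have := hf (mem_support_iff.mp hm)
      rw [← this]
      rw [Finsupp.degree_eq_weight_one]; rfl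
    rw [psi_monomial, hme, if_pos hj, map_smul, smul_eq_mul]
  · rw [if_neg hj]
    refine Finset.sum_eq_zero fun m hm => ?_
    have hme : m.degree = e := by
      have := hf (mem_support_iff.mp hm)
      rw [← this]
      rw [Finsupp.degree_eq_weight_one]; rfl
    rw [psi_monomial, hme, if_neg hj, mul_zero]

lemma psi_X_mul (𝔪 𝔞 : Ideal R) 
    {cI : (Fin n →₀ ℕ) → Fin d → k} (hI : IsPoint b cI) (hgr : Graded b cI)
    {c : (Fin n →₀ ℕ) → Fin d → R} (hc : IsPoint b c)
    (hcm : ∀ m j, c m j - algebraMap k R (cI m j) ∈ 𝔪)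
    (hca : ∀ e (f : MvPolynomial (Fin n) k), f.IsHomogeneous e → nf cI f = 0 →
      ∀ j, (b j).degree ≤ e → nf c (map (algebraMap k R) f) j ∈ 𝔞)
    (θ : R →ₗ[k] k) (hθ : ∀ x ∈ 𝔪 * 𝔞, θ x = 0)
    (f : MvPolynomial (Fin n) k) (hf : nf cI f = 0) (i : Fin n) :
    psi b cI c θ (X i * f) = ∑ j, psi b cI c θ f j • cI (b j + Finsupp.single i 1) := by
  -- the difference of monomials
  have hD : ∀ m l, (b l).degree ≤ m.degree → c m l - algebraMap k R (cI m l) ∈ 𝔞 := by
    intro m l hl
    have h := hca m.degree (monomial m 1 - lift b (cI m)) (isHomogeneous_monomial_sub_lift hgr m)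
      (by rw [map_sub, hI.nf_lift, nf_monomial, one_smul, sub_self]) l hl
    rw [map_sub, map_lift', map_sub, hc.nf_lift, map_monomial, nf_monomial, map_one, one_smul] at h
    exact h
  -- the homogeneous case
  have key : ∀ e (f : MvPolynomial (Fin n) k), f.IsHomogeneous e → nf cI f = 0 →
      psi b cI c θ (X i * f) = ∑ j, psi b cI c θ f j • cI (b j + Finsupp.single i 1) := by
    intro e f hfe hf
    have hXf : (X i * f).IsHomogeneous (e + 1) := by
      have := (isHomogeneous_X k i).mul hfe
      rwa [add_comm] at this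
    have hXf0 : nf cI (X i * f) = 0 := hI.nf_mul_eq_zero _ _ hf
    ext l
    rw [psi_homogeneous cI c θ (e + 1) _ hXf, hXf0, Finset.sum_apply]
    simp only [Pi.zero_apply, map_zero, sub_zero, Pi.smul_apply, smul_eq_mul]
    by_cases hl : (b l).degree ≤ e + 1
    · rw [if_pos hl, map_mul, map_X, hc.nf_X_mul, Finset.sum_apply, map_sum]
      refine Finset.sum_congr rfl fun j _ => ?_
      rw [psi_homogeneous cI c θ e f hfe, hf]
      simp only [Pi.zero_apply, map_zero, sub_zero, Pi.smul_apply, smul_eq_mul]
      by_cases hj : (b j).degree ≤ e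
      · rw [if_pos hj]
        have hx := hca e f hfe hf j hj
        have hy := hcm (b j + Finsupp.single i 1) l
        have h1 : nf c (map (algebraMap k R) f) j * c (b j + Finsupp.single i 1) l =
            cI (b j + Finsupp.single i 1) l • nf c (map (algebraMap k R) f) j +
            (c (b j + Finsupp.single i 1) l - algebraMap k R (cI (b j + Finsupp.single i 1) l)) *
              nf c (map (algebraMap k R) f) j := by
          rw [Algebra.smul_def]; ring
        rw [h1, map_add, map_smul, hθ _ (Ideal.mul_mem_mul hy hx), add_zero, smul_eq_mul, mul_comm]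
      · rw [if_neg hj, zero_mul]
        have hx : nf c (map (algebraMap k R) f) j ∈ 𝔪 := by
          have := nf_sub_mem 𝔪 hcm f j
          rwa [hf, Pi.zero_apply, map_zero, sub_zero] at this
        have hdeg : (b j + Finsupp.single i 1).degree = (b j).degree + 1 := by
          simp [Finsupp.degree_single]
        have hy : c (b j + Finsupp.single i 1) l ∈ 𝔞 := by
          have h0 : cI (b j + Finsupp.single i 1) l = 0 := by
            by_contra hne
            have := hgr _ _ hne
            omega
          have := hD (b j + Finsupp.single i 1) l (by omega)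
          rwa [h0, map_zero, sub_zero] at this
        exact hθ _ (Ideal.mul_mem_mul hx hy)
    · rw [if_neg hl]
      symm
      refine Finset.sum_eq_zero fun j _ => ?_
      rw [psi_homogeneous cI c θ e f hfe]
      by_cases hj : (b j).degree ≤ e
      · have h0 : cI (b j + Finsupp.single i 1) l = 0 := by
          by_contra hne
          have := hgr _ _ hne
          have hdeg : (b j + Finsupp.single i 1).degree = (b j).degree + 1 := by
            simp [Finsupp.degree_single]
          omega
        rw [h0, mul_zero]
      · rw [if_neg hj, zero_mul]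
  -- general case
  have hs : ∑ e ∈ Finset.range (f.totalDegree + 1), homogeneousComponent e f = f :=
    sum_homogeneousComponent f
  have hz : ∀ e, nf cI (homogeneousComponent e f) = 0 := by
    intro e
    ext j
    rw [nf_homogeneousComponent hgr, hf]
    simp
  conv_lhs => rw [← hs]
  rw [Finset.mul_sum, map_sum]
  have h3 : ∀ e ∈ Finset.range (f.totalDegree + 1), psi b cI c θ (X i * homogeneousComponent e f) =
      ∑ j, psi b cI c θ (homogeneousComponent e f) j • cI (b j + Finsupp.single i 1) := by
    intro e _
    exact key e _ (homogeneousComponent_isHomogeneous e f) (hz e)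
  rw [Finset.sum_congr rfl h3, Finset.sum_comm]
  refine Finset.sum_congr rfl fun j _ => ?_
  rw [← Finset.sum_smul]
  congr 1
  rw [← Finset.sum_apply, ← map_sum, hs]

end Pool.H7.HilbRigid
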