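import Pool.Agent.H7.HilbRigidCore2

set_option autoImplicit false

namespace Pool.H7.HilbRigid

open MvPolynomial

variable {n d : ℕ} {k : Type*} [Field k] {b : Fin d → (Fin n →₀ ℕ)}
variable {R : Type*} [CommRing R] [Algebra k R]

theorem step_core (𝔪 𝔞 : Ideal R) (hle : 𝔞 ≤ 𝔪) (N : ℕ) (h𝔪 : 𝔪 ^ N = ⊥)
    {cI : (Fin n →₀ ℕ) → Fin d → k} (hI : IsPoint b cI) (hgr : Graded b cI) (hrig : RigidC b cI)
    {c : (Fin n →₀ ℕ) → Fin d → R} (hc : IsPoint b c)
    (hcm : ∀ m j, c m j - algebraMap k R (cI m j) ∈ 𝔪)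
    (hca : ∀ e (f : MvPolynomial (Fin n) k), f.IsHomogeneous e → nf cI f = 0 →
      ∀ j, (b j).degree ≤ e → nf c (map (algebraMap k R) f) j ∈ 𝔞)
    (u : R) (hu : u ∈ 𝔞) (θ : R →ₗ[k] k) (hθu : θ u = 1) (hθ : ∀ x ∈ 𝔪 * 𝔞, θ x = 0) :
    ∃ (α : Fin n → k) (γ : Fin n → Fin n → k) (c' : (Fin n →₀ ℕ) → Fin d → R),
      IsPoint b c' ∧ (∀ m j, c' m j - algebraMap k R (cI m j) ∈ 𝔪) ∧
      (∀ p, nf c' p = 0 → nf c (subst (stepA R u α) (stepG R u γ) p) = 0) ∧
      (∀ e (f : MvPolynomial (Fin n) k), f.IsHomogeneous e → nf cI f = 0 →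
        ∀ j, (b j).degree ≤ e → nf c' (map (algebraMap k R) f) j ∈ 𝔞 ∧
          θ (nf c' (map (algebraMap k R) f) j) = 0) := by
  classical
  -- the first order vector field
  obtain ⟨α, γ, hαγ⟩ := hrig (psi b cI c θ)
    (fun f hf i => psi_X_mul 𝔪 𝔞 hI hgr hc hcm hca θ hθ f hf i)
    (by
      intro e f hfe _ j hj
      rw [psi_homogeneous cI c θ e f hfe, if_neg (by omega)])
  set Φ := subst (stepA R u α) (stepG R u γ) with hΦ
  have hum : u ∈ 𝔪 := hle hu
  have hunil : u ^ N = 0 := by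
    have : u ^ N ∈ 𝔪 ^ N := Ideal.pow_mem_pow hum N
    rwa [h𝔪, Ideal.mem_bot] at this
  -- Taylor expansion of nf c (Φ p)
  have htay : ∀ p : MvPolynomial (Fin n) k, ∃ v : Fin d → R, ∀ j,
      nf c (Φ (map (algebraMap k R) p)) j = nf c (map (algebraMap k R) p) j
        - u * nf c (map (algebraMap k R) (vf α γ p)) j + u ^ 2 * v j := by
    intro p
    obtain ⟨q, hq⟩ := taylor u α γ p
    refine ⟨nf c q, fun j => ?_⟩
    rw [hΦ, hq, map_add, map_sub, nf_C_mul, nf_C_mul]
    simp only [Pi.add_apply, Pi.sub_apply, Pi.smul_apply, smul_eq_mul]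
  -- the matrix T
  set T : Matrix (Fin d) (Fin d) R := Matrix.of fun l j => nf c (Φ (monomial (b j) 1)) l with hT
  obtain ⟨T1, hT1⟩ : ∃ T1 : Matrix (Fin d) (Fin d) R, T = 1 + u • T1 := by
    have hv : ∀ j : Fin d, ∃ v : Fin d → R, ∀ l,
        nf c (Φ (monomial (b j) 1)) l = (if l = j then 1 else 0) + u * v l := by
      intro j
      obtain ⟨v, hv⟩ := htay (monomial (b j) 1)
      refine ⟨fun l => - nf c (map (algebraMap k R) (vf α γ (monomial (b j) 1))) l + u * v l,
        fun l => ?_⟩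
      have := hv l
      rw [map_monomial, map_one, hc.nf_base] at this
      rw [this, Pi.single_apply]
      ring
    choose v hv using hv
    refine ⟨Matrix.of fun l j => v j l, ?_⟩
    ext l j
    simp only [hT, Matrix.of_apply, Matrix.add_apply, Matrix.one_apply, Matrix.smul_apply,
      smul_eq_mul]
    exact hv j l
  have hTu : IsUnit T := by
    rw [hT1]
    apply IsNilpotent.isUnit_one_add
    refine ⟨N, ?_⟩
    rw [smul_pow, hunil, zero_smul]
  obtain ⟨T', hT'⟩ := hTu.exists_right_inv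
  have hT'' : T' * T = 1 := mul_eq_one_comm.mp hT'
  -- T' v = v - u (T1 T') v
  have hT'v : ∀ (v : Fin d → R) (j : Fin d),
      T'.mulVec v j = v j - u * (T1 * T').mulVec v j := by
    intro v j
    have h1 : (1 + u • T1) * T' = 1 := by rw [← hT1]; exact hT'
    have h2 : T' = 1 - u • (T1 * T') := by
      rw [add_mul, one_mul, smul_mul_assoc] at h1
      rw [← h1]; abel
    have h3 : T'.mulVec v = (1 - u • (T1 * T')).mulVec v := by rw [← h2]
    rw [h3, Matrix.sub_mulVec, Matrix.one_mulVec, Matrix.smul_mulVec]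
    simp
  set c' : (Fin n →₀ ℕ) → Fin d → R := fun m => T'.mulVec (nf c (Φ (monomial m 1))) with hc'
  have hnf : ∀ p : MvPolynomial (Fin n) R, nf c' p = T'.mulVec (nf c (Φ p)) := by
    intro p
    induction p using MvPolynomial.induction_on' with
    | monomial m r =>
      have h1 : (monomial m r : MvPolynomial (Fin n) R) = C r * monomial m 1 := by
        rw [C_mul_monomial, mul_one]
      have h2 : Φ (C r) = C r := by rw [hΦ, subst, aeval_C]; rfl
      rw [nf_monomial, h1, map_mul, h2, nf_C_mul, Matrix.mulVec_smul]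
    | add p q hp hq => rw [map_add, hp, hq, map_add, map_add, Matrix.mulVec_add]
  have hker : ∀ p : MvPolynomial (Fin n) R, nf c' p = 0 ↔ nf c (Φ p) = 0 := by
    intro p
    rw [hnf]
    constructor
    · intro h
      have h1 : T.mulVec (T'.mulVec (nf c (Φ p))) = 0 := by rw [h, Matrix.mulVec_zero]
      rwa [Matrix.mulVec_mulVec, hT', Matrix.one_mulVec] at h1
    · intro h; rw [h, Matrix.mulVec_zero]
  have hpt : IsPoint b c' := by
    apply IsPoint.mk'
    · intro j
      have h1 : nf c (Φ (monomial (b j) 1)) = T.mulVec (Pi.single j 1) := by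
        rw [Matrix.mulVec_single_one]
        rfl
      have h2 : c' (b j) = T'.mulVec (nf c (Φ (monomial (b j) 1))) := rfl
      rw [h2, h1, Matrix.mulVec_mulVec, hT'', Matrix.one_mulVec]
    · intro p i hp
      rw [hker] at hp ⊢
      rw [map_mul]
      exact hc.nf_mul_eq_zero _ _ hp
  refine ⟨α, γ, c', hpt, ?_, fun p hp => (hker p).mp hp, ?_⟩
  · -- c' ≡ cI mod 𝔪
    intro m j
    have h1 : c' m j = nf c (Φ (monomial m 1)) j - u * (T1 * T').mulVec (nf c (Φ (monomial m 1))) j :=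
      hT'v _ _
    obtain ⟨v, hv⟩ := htay (monomial m 1)
    have h2 := hv j
    rw [map_monomial, map_one] at h2
    have h3 : nf c (monomial m 1) j = c m j := by rw [nf_monomial, one_smul]
    have h4 : c' m j - algebraMap k R (cI m j) = (c m j - algebraMap k R (cI m j)) +
        u * (- nf c (map (algebraMap k R) (vf α γ (monomial m 1))) j + u * v j
          - (T1 * T').mulVec (nf c (Φ (monomial m 1))) j) := by
      rw [h1, h2, h3]; ring
    rw [h4]
    exact 𝔪.add_mem (hcm m j) (𝔪.mul_mem_right _ hum)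
  · intro e f hfe hf j hj
    -- nf c (map f) ∈ 𝔪
    have hx : ∀ l, nf c (map (algebraMap k R) f) l ∈ 𝔪 := by
      intro l
      have := nf_sub_mem 𝔪 hcm f l
      rwa [hf, Pi.zero_apply, map_zero, sub_zero] at this
    obtain ⟨v, hv⟩ := htay f
    have hy : ∀ l, nf c (Φ (map (algebraMap k R) f)) l ∈ 𝔪 := by
      intro l
      rw [hv l]
      refine 𝔪.add_mem (𝔪.sub_mem (hx l) (𝔪.mul_mem_right _ hum)) ?_
      rw [pow_two, mul_assoc]
      exact 𝔪.mul_mem_right _ hum
    have hw : (T1 * T').mulVec (nf c (Φ (map (algebraMap k R) f))) j ∈ 𝔪 := by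
      rw [Matrix.mulVec, dotProduct]
      exact 𝔪.sum_mem fun l _ => 𝔪.mul_mem_left _ (hy l)
    have hvf := nf_sub_mem 𝔪 hcm (vf α γ f) j
    set w := (T1 * T').mulVec (nf c (Φ (map (algebraMap k R) f))) j with hwdef
    set y := nf c (map (algebraMap k R) (vf α γ f)) j - algebraMap k R (nf cI (vf α γ f) j) with hydef
    have h1 : nf c' (map (algebraMap k R) f) j = nf c (map (algebraMap k R) f) j
        - (nf cI (vf α γ f) j) • u + (-(y * u) + u * (u * v j) - w * u) := by
      rw [hnf, hT'v, hv j, ← hwdef, hydef, Algebra.smul_def]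
      ring
    have hz : (-(y * u) + u * (u * v j) - w * u) ∈ 𝔪 * 𝔞 := by
      refine Ideal.sub_mem _ (Ideal.add_mem _ (Ideal.neg_mem_iff _ |>.mpr (Ideal.mul_mem_mul hvf hu))
        (Ideal.mul_mem_mul hum (𝔞.mul_mem_right _ hu))) (Ideal.mul_mem_mul hw hu)
    have hfa := hca e f hfe hf j hj
    constructor
    · rw [h1]
      refine 𝔞.add_mem (𝔞.sub_mem hfa ?_) (Ideal.mul_le_right hz)
      rw [Algebra.smul_def]
      exact 𝔞.mul_mem_left _ hu
    · rw [h1, map_add, map_sub, hθ _ hz, map_smul, hθu, add_zero, smul_eq_mul, mul_one]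
      have h2 := congrFun (hαγ f hf) j
      rw [psi_homogeneous cI c θ e f hfe, if_pos hj, hf, Pi.zero_apply, map_zero, sub_zero] at h2
      rw [h2, sub_self]

end Pool.H7.HilbRigid
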