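import Pool.Agent.H7.HilbRigidGeneric

set_option autoImplicit false

namespace Pool.H7.HilbRigid

open MvPolynomial

variable {n d : ℕ} {k : Type*} [Field k] {b : Fin d → (Fin n →₀ ℕ)}

theorem descend [IsAlgClosed k] {cI1 cI2 : (Fin n →₀ ℕ) → Fin d → k} {Ω : Type*} [Field Ω]
    [Algebra k Ω] (A A' : Matrix (Fin n) (Fin n) Ω) (hA : A * A' = 1)
    (h : ∀ f : MvPolynomial (Fin n) k, nf cI1 f = 0 →
      nf (fun m j => algebraMap k Ω (cI2 m j)) (subst 0 A (map (algebraMap k Ω) f)) = 0) :
    ∃ B B' : Matrix (Fin n) (Fin n) k, B * B' = 1 ∧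
      ∀ f : MvPolynomial (Fin n) k, nf cI1 f = 0 → nf cI2 (subst 0 B f) = 0 := by
  let σ := (Fin n × Fin n) ⊕ (Fin n × Fin n)
  let y : σ → Ω := Sum.elim (fun p => A p.1 p.2) (fun p => A' p.1 p.2)
  let E : Ideal (MvPolynomial σ k) := RingHom.ker (aeval y : MvPolynomial σ k →ₐ[k] Ω)
  have hE : E ≠ ⊤ := by
    rw [Ideal.ne_top_iff_one]
    intro h1
    have : (aeval y : MvPolynomial σ k →ₐ[k] Ω) 1 = 0 := h1
    rw [map_one] at this
    exact one_ne_zero this
  obtain ⟨M, hM, hEM⟩ := Ideal.exists_le_maximal E hE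
  obtain ⟨x, hx⟩ := isMaximal_iff_eq_vanishingIdeal_singleton.mp hM
  have hspec : ∀ q : MvPolynomial σ k, aeval y q = 0 → aeval x q = 0 := by
    intro q hq
    have h1 : q ∈ M := hEM hq
    rw [hx, mem_vanishingIdeal_singleton_iff] at h1
    exact h1
  let G : Matrix (Fin n) (Fin n) (MvPolynomial σ k) := Matrix.of fun i j => X (Sum.inl (i, j))
  let G' : Matrix (Fin n) (Fin n) (MvPolynomial σ k) := Matrix.of fun i j => X (Sum.inr (i, j))
  have hGA : G.map (aeval y : MvPolynomial σ k →ₐ[k] Ω).toRingHom = A := by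
    ext i j; simp [G, y]
  have hGA' : G'.map (aeval y : MvPolynomial σ k →ₐ[k] Ω).toRingHom = A' := by
    ext i j; simp [G', y]
  refine ⟨G.map (aeval x : MvPolynomial σ k →ₐ[k] k).toRingHom,
    G'.map (aeval x : MvPolynomial σ k →ₐ[k] k).toRingHom, ?_, ?_⟩
  · ext i j
    rw [← Matrix.map_mul, Matrix.map_apply]
    have h1 : aeval y ((G * G') i j - C ((1 : Matrix (Fin n) (Fin n) k) i j)) = 0 := by
      rw [map_sub, aeval_C, sub_eq_zero]
      have h2 : (G * G').map (aeval y : MvPolynomial σ k →ₐ[k] Ω).toRingHom = 1 := by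
        rw [Matrix.map_mul, hGA, hGA', hA]
      have h3 := congrFun (congrFun h2 i) j
      rw [Matrix.map_apply] at h3
      have h4 : algebraMap k Ω ((1 : Matrix (Fin n) (Fin n) k) i j) = (1 : Matrix (Fin n) (Fin n) Ω) i j := by
        simp only [Matrix.one_apply]
        split <;> simp
      rw [h4]
      exact h3
    have h5 := hspec _ h1
    rw [map_sub, aeval_C, sub_eq_zero] at h5
    exact h5
  · intro f hf
    ext j
    have h1 : aeval y (nf (fun m j => (C (cI2 m j) : MvPolynomial σ k)) (subst 0 G (map C f)) j) = 0 := by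
      have h2 := nf_map (aeval y : MvPolynomial σ k →ₐ[k] Ω).toRingHom
        (fun m j => (C (cI2 m j) : MvPolynomial σ k)) (subst 0 G (map C f)) j
      have h3 : (fun m j => (aeval y : MvPolynomial σ k →ₐ[k] Ω).toRingHom (C (cI2 m j))) =
          fun m j => algebraMap k Ω (cI2 m j) := by
        funext m j; exact aeval_C _ _
      have h4 : ((aeval y : MvPolynomial σ k →ₐ[k] Ω).toRingHom).comp C = algebraMap k Ω := by
        ext r; exact aeval_C _ _
      rw [h3, map_subst, map_map, h4, hGA] at h2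
      have h5 : (fun i : Fin n => (aeval y : MvPolynomial σ k →ₐ[k] Ω).toRingHom
          ((0 : Fin n → MvPolynomial σ k) i)) = 0 := by
        funext i; simp
      rw [h5, h f hf] at h2
      exact h2.symm
    have h6 := hspec _ h1
    have h2 := nf_map (aeval x : MvPolynomial σ k →ₐ[k] k).toRingHom
        (fun m j => (C (cI2 m j) : MvPolynomial σ k)) (subst 0 G (map C f)) j
    have h3 : (fun m j => (aeval x : MvPolynomial σ k →ₐ[k] k).toRingHom (C (cI2 m j))) =
        fun m j => cI2 m j := by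
      funext m j; exact aeval_C _ _
    have h4 : ((aeval x : MvPolynomial σ k →ₐ[k] k).toRingHom).comp C = RingHom.id k := by
      ext r; exact aeval_C _ _
    rw [h3, map_subst, map_map, h4, map_id] at h2
    have h5 : (fun i : Fin n => (aeval x : MvPolynomial σ k →ₐ[k] k).toRingHom
        ((0 : Fin n → MvPolynomial σ k) i)) = 0 := by
      funext i; simp
    rw [h5] at h2
    exact h2.trans h6

end Pool.H7.HilbRigid
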