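import Pool.Agent.H7.HilbRigidStraight

set_option autoImplicit false

namespace Pool.H7.HilbRigid

open MvPolynomial

variable {n d : ℕ} {k : Type*} [Field k] {b : Fin d → (Fin n →₀ ℕ)}

section general

variable {R : Type*} [CommRing R] [Algebra k R]

lemma lift_add (v w : Fin d → R) : lift b (v + w) = lift b v + lift b w := by
  simp [lift, Finset.sum_add_distrib]

lemma lift_smul (r : R) (v : Fin d → R) : lift b (r • v) = C r * lift b v := by
  simp [lift, Finset.mul_sum, C_mul_monomial]

lemma lift_zero : lift b (0 : Fin d → R) = 0 := by simp [lift]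

lemma lift_sub (v w : Fin d → R) : lift b (v - w) = lift b v - lift b w := by
  simp [lift, Finset.sum_sub_distrib]

lemma lift_sum {ι : Type*} (s : Finset ι) (v : ι → Fin d → R) :
    lift b (∑ i ∈ s, v i) = ∑ i ∈ s, lift b (v i) := by
  classical
  induction s using Finset.induction_on with
  | empty => simp [lift_zero]
  | insert a s ha ih => rw [Finset.sum_insert ha, Finset.sum_insert ha, lift_add, ih]

/-- a substitution with `a = 0` preserves homogeneity -/
lemma subst_isHomogeneous (g : Matrix (Fin n) (Fin n) R) {p : MvPolynomial (Fin n) R} {e : ℕ}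
    (hp : p.IsHomogeneous e) : (subst 0 g p).IsHomogeneous e := by
  have h1 : ∀ i, (C ((0 : Fin n → R) i) + ∑ j, C (g i j) * X j : MvPolynomial (Fin n) R).IsHomogeneous 1 := by
    intro i
    rw [Pi.zero_apply, C_0, zero_add]
    apply IsHomogeneous.sum
    intro j _
    have := (isHomogeneous_C (Fin n) (g i j)).mul (isHomogeneous_X R j)
    rwa [zero_add] at this
  have := hp.aeval (fun i => (C ((0 : Fin n → R) i) + ∑ j, C (g i j) * X j : MvPolynomial (Fin n) R)) h1
  rw [one_mul] at this
  exact this

end general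

variable {Ω : Type*} [Field Ω] [Algebra k Ω]

/-- reduction of a monomial -/
lemma straight_monomial {cI : (Fin n →₀ ℕ) → Fin d → k} (hI : IsPoint b cI) (hgr : Graded b cI)
    {c : (Fin n →₀ ℕ) → Fin d → Ω} {a : Fin n → Ω} {g g' : Matrix (Fin n) (Fin n) Ω}
    (hs : Straight b cI c a g g') (m : Fin n →₀ ℕ) :
    ∃ h : Fin d → Ω, (∀ j, (b j).degree ≤ m.degree → h j = 0) ∧
      nf c (subst a g (monomial m 1 - lift b (fun j => algebraMap k Ω (cI m j)) - lift b h)) = 0 := by
  obtain ⟨h, hh, hh'⟩ := hs.2 m.degree _ (isHomogeneous_monomial_sub_lift hgr m)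
    (by rw [map_sub, hI.nf_lift, nf_monomial, one_smul, sub_self])
  refine ⟨h, hh, ?_⟩
  rwa [map_sub (map (algebraMap k Ω)), map_monomial, map_one, map_lift'] at hh'

/-- reduction of a homogeneous polynomial over `Ω` -/
lemma straight_homogeneous {cI : (Fin n →₀ ℕ) → Fin d → k} (hI : IsPoint b cI) (hgr : Graded b cI)
    {c : (Fin n →₀ ℕ) → Fin d → Ω} {a : Fin n → Ω} {g g' : Matrix (Fin n) (Fin n) Ω}
    (hs : Straight b cI c a g g') (e : ℕ) (p : MvPolynomial (Fin n) Ω) (hp : p.IsHomogeneous e) :
    ∃ h : Fin d → Ω, (∀ j, (b j).degree ≤ e → h j = 0) ∧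
      nf c (subst a g (p - lift b (nf (fun m j => algebraMap k Ω (cI m j)) p) - lift b h)) = 0 := by
  choose H hH hH' using fun m => straight_monomial hI hgr hs m
  refine ⟨∑ m ∈ p.support, (coeff m p) • H m, ?_, ?_⟩
  · intro j hj
    rw [Finset.sum_apply]
    refine Finset.sum_eq_zero fun m hm => ?_
    have hme : m.degree = e := by
      have := hp (mem_support_iff.mp hm)
      rw [← this]
      rw [Finsupp.degree_eq_weight_one]; rfl
    rw [Pi.smul_apply, hH m j (by rw [hme]; exact hj), smul_zero]
  · have h1 : p - lift b (nf (fun m j => algebraMap k Ω (cI m j)) p) -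
        lift b (∑ m ∈ p.support, (coeff m p) • H m) =
        ∑ m ∈ p.support, C (coeff m p) *
          (monomial m 1 - lift b (fun j => algebraMap k Ω (cI m j)) - lift b (H m)) := by
      simp only [mul_sub, Finset.sum_sub_distrib, C_mul_monomial, mul_one]
      rw [← p.as_sum, lift_sum, nf_eq_sum, lift_sum]
      simp only [lift_smul]
    rw [h1, map_sum, map_sum]
    refine Finset.sum_eq_zero fun m _ => ?_
    have h2 : subst a g (C (coeff m p)) = C (coeff m p) := by rw [subst, aeval_C]; rfl
    rw [map_mul, h2, nf_C_mul, hH' m, smul_zero]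

/-- every monomial is congruent to a combination of the `b j` of degree `≥ deg m` -/
lemma straight_monomial_le {cI : (Fin n →₀ ℕ) → Fin d → k} (hI : IsPoint b cI) (hgr : Graded b cI)
    {c : (Fin n →₀ ℕ) → Fin d → Ω} {a : Fin n → Ω} {g g' : Matrix (Fin n) (Fin n) Ω}
    (hs : Straight b cI c a g g') (m : Fin n →₀ ℕ) :
    ∃ h : Fin d → Ω, (∀ j, (b j).degree < m.degree → h j = 0) ∧
      nf c (subst a g (monomial m 1 - lift b h)) = 0 := by
  obtain ⟨h, hh, hh'⟩ := straight_monomial hI hgr hs m
  refine ⟨(fun j => algebraMap k Ω (cI m j)) + h, ?_, ?_⟩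
  · intro j hj
    have h0 : cI m j = 0 := by
      by_contra hne
      have := hgr m j hne
      omega
    rw [Pi.add_apply, h0, map_zero, hh j hj.le, add_zero]
  · rwa [lift_add, ← sub_sub]

/-- every polynomial of order `≥ e` is congruent to a combination of the `b j` of degree `≥ e` -/
lemma straight_order {cI : (Fin n →₀ ℕ) → Fin d → k} (hI : IsPoint b cI) (hgr : Graded b cI)
    {c : (Fin n →₀ ℕ) → Fin d → Ω} {a : Fin n → Ω} {g g' : Matrix (Fin n) (Fin n) Ω}
    (hs : Straight b cI c a g g') (e : ℕ) (p : MvPolynomial (Fin n) Ω)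
    (hp : ∀ m ∈ p.support, e ≤ m.degree) :
    ∃ h : Fin d → Ω, (∀ j, (b j).degree < e → h j = 0) ∧
      nf c (subst a g (p - lift b h)) = 0 := by
  choose H hH hH' using fun m => straight_monomial_le hI hgr hs m
  refine ⟨∑ m ∈ p.support, (coeff m p) • H m, ?_, ?_⟩
  · intro j hj
    rw [Finset.sum_apply]
    refine Finset.sum_eq_zero fun m hm => ?_
    rw [Pi.smul_apply, hH m j (lt_of_lt_of_le hj (hp m hm)), smul_zero]
  · have h1 : p - lift b (∑ m ∈ p.support, (coeff m p) • H m) =
        ∑ m ∈ p.support, C (coeff m p) * (monomial m 1 - lift b (H m)) := by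
      simp only [mul_sub, Finset.sum_sub_distrib, C_mul_monomial, mul_one]
      rw [← p.as_sum, lift_sum]
      simp only [lift_smul]
    rw [h1, map_sum, map_sum]
    refine Finset.sum_eq_zero fun m _ => ?_
    have h2 : subst a g (C (coeff m p)) = C (coeff m p) := by rw [subst, aeval_C]; rfl
    rw [map_mul, h2, nf_C_mul, hH' m, smul_zero]

/-- the `b j` are linearly independent modulo the straightened ideal -/
lemma straight_indep {cI : (Fin n →₀ ℕ) → Fin d → k} (hI : IsPoint b cI) (hgr : Graded b cI)
    {c : (Fin n →₀ ℕ) → Fin d → Ω} (hc : IsPoint b c)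
    {a : Fin n → Ω} {g g' : Matrix (Fin n) (Fin n) Ω}
    (hs : Straight b cI c a g g') (v : Fin d → Ω) (hv : nf c (subst a g (lift b v)) = 0) : v = 0 := by
  let L : (Fin d → Ω) →ₗ[Ω] (Fin d → Ω) :=
    { toFun := fun v => nf c (subst a g (lift b v))
      map_add' := fun v w => by rw [lift_add, map_add, map_add]
      map_smul' := fun r v => by
        have h2 : subst a g (C r) = C r := by rw [subst, aeval_C]; rfl
        rw [lift_smul, map_mul, h2, nf_C_mul, RingHom.id_apply] }
  have hL : ∀ v, L v = nf c (subst a g (lift b v)) := fun _ => rfl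
  have hsurj : Function.Surjective L := by
    intro w
    -- lift b w = subst a g p
    obtain ⟨p, hp⟩ : ∃ p, subst a g p = lift b w := by
      refine ⟨subst (-(g'.mulVec a)) g' (lift b w), ?_⟩
      rw [subst_comp, mul_eq_one_comm.mp hs.1, neg_add_cancel, subst_one]
    obtain ⟨h, _, hh⟩ := straight_order hI hgr hs 0 p (fun _ _ => Nat.zero_le _)
    refine ⟨h, ?_⟩
    rw [map_sub, map_sub, sub_eq_zero, hp, hc.nf_lift] at hh
    rw [hL, ← hh]
  have hinj : Function.Injective L := LinearMap.injective_iff_surjective.mpr hsurj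
  apply hinj
  rw [hL, hv, map_zero]

end Pool.H7.HilbRigid
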