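import Pool.Agent.H7.HilbRigidAmalg

set_option autoImplicit false

namespace Pool.H7.HilbRigid

open MvPolynomial

variable {n d : ℕ} {k : Type*} [Field k] {b : Fin d → (Fin n →₀ ℕ)}

/-- The rigid homogeneous point `cI` straightens the universal point over a domain containing `Λ`. -/
lemma straight_domain.{u} {Λ : Type u} [CommRing Λ] [IsDomain Λ] [IsNoetherianRing Λ] [Algebra k Λ]
    (cΛ : (Fin n →₀ ℕ) → Fin d → Λ) (hcΛ : IsPoint b cΛ) (ev : Λ →ₐ[k] k)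
    {cI : (Fin n →₀ ℕ) → Fin d → k} (hI : IsPoint b cI) (hgr : Graded b cI) (hrig : RigidC b cI)
    (hev : ∀ m j, ev (cΛ m j) = cI m j) :
    ∃ (D : Type u) (_ : CommRing D) (_ : IsDomain D) (_ : Algebra k D) (φ : Λ →+* D)
      (a : Fin n → D) (g g' : Matrix (Fin n) (Fin n) D),
      Function.Injective φ ∧ φ.comp (algebraMap k Λ) = algebraMap k D ∧
      Straight b cI (fun m j => φ (cΛ m j)) a g g' := by
  set P : Ideal Λ := RingHom.ker ev with hP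
  have hsurj : Function.Surjective ev := fun x => ⟨algebraMap k Λ x, by simp⟩
  have hPmax : P.IsMaximal := RingHom.ker_isMaximal_of_surjective ev hsurj
  -- straightening over the Artinian quotients
  have hart : ∀ N : ℕ, ∃ (a : Fin n → Λ ⧸ P ^ N) (g g' : Matrix (Fin n) (Fin n) (Λ ⧸ P ^ N)),
      Straight b cI (fun m j => Ideal.Quotient.mk (P ^ N) (cΛ m j)) a g g' := by
    intro N
    have := isArtinianRing_quot_pow P N
    refine straighten (k := k) (P.map (Ideal.Quotient.mk (P ^ N))) N ?_ ?_ hI hgr hrig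
      (hcΛ.map (Ideal.Quotient.mk (P ^ N))) ?_
    · rw [← Ideal.map_pow]
      exact Ideal.map_quotient_self _
    · intro r
      obtain ⟨x, rfl⟩ := Ideal.Quotient.mk_surjective r
      refine ⟨ev x, ?_⟩
      have h1 : Ideal.Quotient.mk (P ^ N) x - algebraMap k (Λ ⧸ P ^ N) (ev x) =
          Ideal.Quotient.mk (P ^ N) (x - algebraMap k Λ (ev x)) := by
        rw [map_sub]; rfl
      rw [h1]
      apply Ideal.mem_map_of_mem
      rw [hP, RingHom.mem_ker, map_sub]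
      simp
    · intro m j
      have h1 : Ideal.Quotient.mk (P ^ N) (cΛ m j) - algebraMap k (Λ ⧸ P ^ N) (cI m j) =
          Ideal.Quotient.mk (P ^ N) (cΛ m j - algebraMap k Λ (cI m j)) := by
        rw [map_sub]; rfl
      rw [h1]
      apply Ideal.mem_map_of_mem
      rw [hP, RingHom.mem_ker, map_sub, hev]
      simp
  obtain ⟨a, g, g', hs⟩ := straight_pi (k := k) (Rs := fun N => Λ ⧸ P ^ N)
    (c := fun m j N => Ideal.Quotient.mk (P ^ N) (cΛ m j)) hart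
  obtain ⟨D, iD, iD', φ, hφ⟩ := exists_domain Λ P hPmax.ne_top
  let iA : Algebra k D := (φ.comp (algebraMap k ((N : ℕ) → Λ ⧸ P ^ N))).toAlgebra
  refine ⟨D, iD, iD', iA, φ.comp (RingHom.pi fun N => Ideal.Quotient.mk (P ^ N)), fun i => φ (a i),
    g.map φ, g'.map φ, hφ, rfl, ?_⟩
  exact straight_map (k := k) φ rfl hs

theorem generic_equiv.{u} {Λ : Type u} [CommRing Λ] [IsDomain Λ] [IsNoetherianRing Λ] [Algebra k Λ]
    (hd : 0 < d)
    (cΛ : (Fin n →₀ ℕ) → Fin d → Λ) (hcΛ : IsPoint b cΛ) (ev1 ev2 : Λ →ₐ[k] k)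
    {cI1 : (Fin n →₀ ℕ) → Fin d → k} (hI1 : IsPoint b cI1) (hgr1 : Graded b cI1)
    (hrig1 : RigidC b cI1) (hev1 : ∀ m j, ev1 (cΛ m j) = cI1 m j)
    {cI2 : (Fin n →₀ ℕ) → Fin d → k} (hI2 : IsPoint b cI2) (hgr2 : Graded b cI2)
    (hrig2 : RigidC b cI2) (hev2 : ∀ m j, ev2 (cΛ m j) = cI2 m j) :
    ∃ (Ω : Type u) (_ : Field Ω) (_ : Algebra k Ω) (A A' : Matrix (Fin n) (Fin n) Ω), A * A' = 1 ∧
      ∀ f : MvPolynomial (Fin n) k, nf cI1 f = 0 →
        nf (fun m j => algebraMap k Ω (cI2 m j)) (subst 0 A (map (algebraMap k Ω) f)) = 0 := by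
  obtain ⟨D1, i1, j1, k1, φ1, a1, g1, g1', hinj1, hφ1, hs1⟩ :=
    straight_domain cΛ hcΛ ev1 hI1 hgr1 hrig1 hev1
  obtain ⟨D2, i2, j2, k2, φ2, a2, g2, g2', hinj2, hφ2, hs2⟩ :=
    straight_domain cΛ hcΛ ev2 hI2 hgr2 hrig2 hev2
  obtain ⟨Ω, iΩ, ψ1, ψ2, hψ⟩ := exists_field Λ D1 D2 φ1 φ2 hinj1 hinj2
  let iA : Algebra k Ω := ((ψ1.comp φ1).comp (algebraMap k Λ)).toAlgebra
  have hs1' := straight_map (k := k) ψ1 (by rw [← hφ1]; rfl) hs1
  have hs2' := straight_map (k := k) ψ2 (by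
    rw [← hφ2, ← RingHom.comp_assoc, ← hψ]; rfl) hs2
  have hc : (fun m j => ψ2 (φ2 (cΛ m j))) = (fun m j => ψ1 (φ1 (cΛ m j))) := by
    funext m j
    have := RingHom.congr_fun hψ (cΛ m j)
    simpa using this.symm
  have hpt : IsPoint b (fun m j => ψ1 (φ1 (cΛ m j))) := hcΛ.map (ψ1.comp φ1)
  rw [hc] at hs2'
  obtain ⟨A, A', hA, hA'⟩ := compare hd hI1 hgr1 hI2 hgr2 hpt hs1' hs2'
  exact ⟨Ω, iΩ, iA, A, A', hA, hA'⟩

end Pool.H7.HilbRigid
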