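import Pool.Agent.H7.HilbRigidBasic

set_option autoImplicit false

namespace Pool.H7.HilbRigid

open MvPolynomial

variable {n d : ℕ}

/-- the affine substitution `x_i ↦ a_i + ∑_j g_ij x_j`. -/
noncomputable def subst {R : Type*} [CommRing R] (a : Fin n → R) (g : Matrix (Fin n) (Fin n) R) :
    MvPolynomial (Fin n) R →ₐ[R] MvPolynomial (Fin n) R :=
  aeval (fun i => C (a i) + ∑ j, C (g i j) * X j)

lemma subst_X {R : Type*} [CommRing R] (a : Fin n → R) (g : Matrix (Fin n) (Fin n) R) (i : Fin n) :
    subst a g (X i) = C (a i) + ∑ j, C (g i j) * X j := by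
  rw [subst, aeval_X]

lemma subst_comp {R : Type*} [CommRing R] (a a' : Fin n → R) (g g' : Matrix (Fin n) (Fin n) R)
    (p : MvPolynomial (Fin n) R) :
    subst a g (subst a' g' p) = subst (a' + g'.mulVec a) (g' * g) p := by
  have : (subst a g).comp (subst a' g') = subst (a' + g'.mulVec a) (g' * g) := by
    apply algHom_ext
    intro i
    rw [AlgHom.comp_apply, subst_X, subst_X, map_add, map_sum]
    simp only [map_mul, subst_X]
    have hC : ∀ r : R, subst a g (C r) = C r := by
      intro r; rw [subst, aeval_C]; rfl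
    simp only [hC]
    simp only [Pi.add_apply, Matrix.mulVec, dotProduct, Matrix.mul_apply, map_add, map_sum, map_mul,
      mul_add, Finset.mul_sum, Finset.sum_add_distrib, Finset.sum_mul, mul_assoc]
    rw [add_assoc]
    congr 2
    rw [Finset.sum_comm]
  exact DFunLike.congr_fun this p

lemma subst_one {R : Type*} [CommRing R] (p : MvPolynomial (Fin n) R) :
    subst (0 : Fin n → R) 1 p = p := by
  have : subst (0 : Fin n → R) 1 = AlgHom.id R _ := by
    apply algHom_ext
    intro i
    rw [subst_X]
    simp [Matrix.one_apply, Finset.sum_ite_eq]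
  rw [this]; rfl

variable {k : Type*} [Field k] {b : Fin d → (Fin n →₀ ℕ)}

/-- the `k`-point `cI` is homogeneous. -/
def Graded (b : Fin d → (Fin n →₀ ℕ)) (cI : (Fin n →₀ ℕ) → Fin d → k) : Prop :=
  ∀ m j, cI m j ≠ 0 → (b j).degree = m.degree

/-- the affine vector field `∑ (α_i + ∑ γ_ij x_j) ∂_i`. -/
noncomputable def vf (α : Fin n → k) (γ : Fin n → Fin n → k) (f : MvPolynomial (Fin n) k) :
    MvPolynomial (Fin n) k :=
  ∑ i, (C (α i) + ∑ j, C (γ i j) * X j) * pderiv i f

lemma vf_add (α : Fin n → k) (γ : Fin n → Fin n → k) (f g : MvPolynomial (Fin n) k) :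
    vf α γ (f + g) = vf α γ f + vf α γ g := by
  simp only [vf, map_add, mul_add, Finset.sum_add_distrib]

lemma vf_C (α : Fin n → k) (γ : Fin n → Fin n → k) (r : k) : vf α γ (C r) = 0 := by
  simp [vf]

lemma vf_mul_X (α : Fin n → k) (γ : Fin n → Fin n → k) (p : MvPolynomial (Fin n) k) (i : Fin n) :
    vf α γ (p * X i) = vf α γ p * X i + p * (C (α i) + ∑ j, C (γ i j) * X j) := by
  simp only [vf, Derivation.leibniz, pderiv_X, smul_eq_mul, mul_add, Finset.sum_add_distrib,
    Finset.sum_mul]
  rw [add_comm]
  congr 1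
  · refine Finset.sum_congr rfl fun l _ => ?_
    ring
  · rw [Finset.sum_eq_single i]
    · simp; ring
    · intro l _ hl
      rw [Pi.single_eq_of_ne (Ne.symm hl)]; simp
    · simp

/-- Rigidity in coordinates. -/
def RigidC (b : Fin d → (Fin n →₀ ℕ)) (cI : (Fin n →₀ ℕ) → Fin d → k) : Prop :=
  ∀ ψ : MvPolynomial (Fin n) k →ₗ[k] (Fin d → k),
    (∀ f, nf cI f = 0 → ∀ i, ψ (X i * f) = ∑ j, ψ f j • cI (b j + Finsupp.single i 1)) →
    (∀ e f, f.IsHomogeneous e → nf cI f = 0 → ∀ j, e < (b j).degree → ψ f j = 0) →
    ∃ (α : Fin n → k) (γ : Fin n → Fin n → k), ∀ f, nf cI f = 0 → ψ f = nf cI (vf α γ f)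

lemma nf_homogeneousComponent {cI : (Fin n →₀ ℕ) → Fin d → k} (hgr : Graded b cI)
    (e : ℕ) (f : MvPolynomial (Fin n) k) (j : Fin d) :
    nf cI (homogeneousComponent e f) j = if (b j).degree = e then nf cI f j else 0 := by
  induction f using MvPolynomial.induction_on' with
  | monomial m r =>
    by_cases hm : m.degree = e
    · have h1 : homogeneousComponent e (monomial m r) = monomial m r :=
        homogeneousComponent_eq_self (isHomogeneous_monomial r hm)
      rw [h1, nf_monomial]
      split
      · rfl
      · rename_i hj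
        by_contra hne
        apply hj
        have : cI m j ≠ 0 := by
          intro h0; apply hne; simp [h0]
        rw [hgr m j this, hm]
    · have h1 : homogeneousComponent e (monomial m r) = 0 := by
        have h2 : (monomial m r : MvPolynomial (Fin n) k) ∈ homogeneousSubmodule (Fin n) k m.degree := by
          rw [mem_homogeneousSubmodule]
          exact isHomogeneous_monomial r rfl
        rw [homogeneousComponent_of_mem h2, if_neg (fun h => hm h.symm)]
      rw [h1, map_zero, nf_monomial]
      split
      · rename_i hj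
        by_cases h0 : cI m j = 0
        · simp [h0]
        · exact absurd ((hgr m j h0).symm.trans hj) hm
      · rfl
  | add p q hp hq =>
    rw [map_add, map_add, Pi.add_apply, hp, hq, map_add, Pi.add_apply]
    split <;> simp

end Pool.H7.HilbRigid
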