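import Pool.Agent.H7.HilbRigidCore3

set_option autoImplicit false

namespace Pool.H7.HilbRigid

open MvPolynomial

variable {n d : ℕ} {k : Type*} [Field k] {b : Fin d → (Fin n →₀ ℕ)}
variable {R : Type*} [CommRing R] [Algebra k R]

/-- `(a, g)` straightens the `R`-point `c` to one whose ideal has initial ideal `I`. -/
def Straight (b : Fin d → (Fin n →₀ ℕ)) (cI : (Fin n →₀ ℕ) → Fin d → k)
    (c : (Fin n →₀ ℕ) → Fin d → R) (a : Fin n → R) (g g' : Matrix (Fin n) (Fin n) R) : Prop :=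
  g * g' = 1 ∧ ∀ (e : ℕ) (f : MvPolynomial (Fin n) k), f.IsHomogeneous e → nf cI f = 0 →
    ∃ h : Fin d → R, (∀ j, (b j).degree ≤ e → h j = 0) ∧
      nf c (subst a g (map (algebraMap k R) f - lift b h)) = 0

/-- The statement `P(𝔞)` of the induction. -/
def PA (b : Fin d → (Fin n →₀ ℕ)) (cI : (Fin n →₀ ℕ) → Fin d → k)
    (c : (Fin n →₀ ℕ) → Fin d → R) (𝔪 𝔞 : Ideal R) : Prop :=
  𝔞 ≤ 𝔪 ∧ ∃ (a : Fin n → R) (g g' : Matrix (Fin n) (Fin n) R) (c' : (Fin n →₀ ℕ) → Fin d → R),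
    g * g' = 1 ∧ IsPoint b c' ∧ (∀ m j, c' m j - algebraMap k R (cI m j) ∈ 𝔪) ∧
    (∀ p, nf c' p = 0 → nf c (subst a g p) = 0) ∧
    (∀ e (f : MvPolynomial (Fin n) k), f.IsHomogeneous e → nf cI f = 0 →
      ∀ j, (b j).degree ≤ e → nf c' (map (algebraMap k R) f) j ∈ 𝔞)

lemma stepG_inv (u : R) (N : ℕ) (hu : u ^ N = 0) (γ : Fin n → Fin n → k) :
    ∃ g', stepG R u γ * g' = 1 := by
  have : IsUnit (stepG R u γ) := by
    rw [stepG]
    apply IsNilpotent.isUnit_one_sub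
    refine ⟨N, ?_⟩
    rw [smul_pow, hu, zero_smul]
  exact this.exists_right_inv

theorem PA_step (𝔪 𝔞 : Ideal R) (N : ℕ) (h𝔪 : 𝔪 ^ N = ⊥)
    (hres : ∀ r : R, ∃ r0 : k, r - algebraMap k R r0 ∈ 𝔪)
    {cI : (Fin n →₀ ℕ) → Fin d → k} (hI : IsPoint b cI) (hgr : Graded b cI) (hrig : RigidC b cI)
    {c : (Fin n →₀ ℕ) → Fin d → R} (hP : PA b cI c 𝔪 𝔞) (hne : 𝔞 ≠ ⊥) :
    ∃ 𝔞' : Ideal R, 𝔞' < 𝔞 ∧ PA b cI c 𝔪 𝔞' := by
  obtain ⟨hle, a, g, g', c', hgg', hc', hcm, hlink, hca⟩ := hP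
  -- Nakayama
  have hlt : ¬ 𝔞 ≤ 𝔪 * 𝔞 := by
    intro h
    have : ∀ s : ℕ, 𝔞 ≤ 𝔪 ^ s * 𝔞 := by
      intro s
      induction s with
      | zero => simp
      | succ s ih =>
        calc 𝔞 ≤ 𝔪 ^ s * 𝔞 := ih
          _ ≤ 𝔪 ^ s * (𝔪 * 𝔞) := Ideal.mul_mono_right h
          _ = 𝔪 ^ (s + 1) * 𝔞 := by rw [pow_succ, mul_assoc]
    have h2 := this N
    rw [h𝔪, Ideal.bot_mul] at h2
    exact hne (le_bot_iff.mp h2)
  obtain ⟨u, hu, hu'⟩ := SetLike.not_le_iff_exists.mp hlt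
  obtain ⟨θ, hθu, hθ⟩ : ∃ θ : R →ₗ[k] k, θ u = 1 ∧ ∀ x ∈ 𝔪 * 𝔞, θ x = 0 := by
    have hu'' : u ∉ (Submodule.restrictScalars k (𝔪 * 𝔞) : Submodule k R) := hu'
    obtain ⟨θ, hθ1, hθ2⟩ := Submodule.exists_le_ker_of_notMem hu''
    refine ⟨(θ u)⁻¹ • θ, ?_, fun x hx => ?_⟩
    · rw [LinearMap.smul_apply, smul_eq_mul, inv_mul_cancel₀ hθ1]
    · have : θ x = 0 := hθ2 hx
      rw [LinearMap.smul_apply, this, smul_zero]
  obtain ⟨α, γ, c'', hc'', hcm'', hlink'', hca''⟩ :=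
    step_core 𝔪 𝔞 hle N h𝔪 hI hgr hrig hc' hcm hca u hu θ hθu hθ
  -- the new ideal
  let 𝔞' : Ideal R :=
    { carrier := {x | x ∈ 𝔞 ∧ θ x = 0}
      add_mem' := by
        rintro x y ⟨hx, hx'⟩ ⟨hy, hy'⟩
        exact ⟨𝔞.add_mem hx hy, by rw [map_add, hx', hy', add_zero]⟩
      zero_mem' := ⟨𝔞.zero_mem, map_zero _⟩
      smul_mem' := by
        rintro r x ⟨hx, hx'⟩
        refine ⟨𝔞.mul_mem_left _ hx, ?_⟩
        obtain ⟨r0, hr0⟩ := hres r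
        have h1 : r • x = r0 • x + (r - algebraMap k R r0) * x := by
          rw [smul_eq_mul, Algebra.smul_def]; ring
        rw [h1, map_add, map_smul, hx', hθ _ (Ideal.mul_mem_mul hr0 hx)]
        simp }
  have hmem : ∀ x, x ∈ 𝔞' ↔ (x ∈ 𝔞 ∧ θ x = 0) := fun x => Iff.rfl
  refine ⟨𝔞', ?_, ?_⟩
  · refine lt_of_le_of_ne (fun x hx => ((hmem x).mp hx).1) ?_
    intro heq
    have : u ∈ 𝔞' := by rw [heq]; exact hu
    have := ((hmem u).mp this).2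
    rw [hθu] at this
    exact one_ne_zero this
  · have hunil : u ^ N = 0 := by
      have : u ^ N ∈ 𝔪 ^ N := Ideal.pow_mem_pow (hle hu) N
      rwa [h𝔪, Ideal.mem_bot] at this
    obtain ⟨g1, hg1⟩ := stepG_inv u N hunil γ
    refine ⟨fun x hx => hle ((hmem x).mp hx).1, ?_⟩
    refine ⟨stepA R u α + (stepG R u γ).mulVec a, stepG R u γ * g, g' * g1, c'', ?_, hc'', hcm'', ?_,
      ?_⟩
    · calc stepG R u γ * g * (g' * g1) = stepG R u γ * (g * g') * g1 := by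
            simp only [Matrix.mul_assoc]
        _ = 1 := by rw [hgg', Matrix.mul_one, hg1]
    · intro p hp
      have h1 := hlink _ (hlink'' p hp)
      rwa [subst_comp] at h1
    · intro e f hfe hf j hj
      exact (hmem _).mpr (hca'' e f hfe hf j hj)

theorem straighten [IsArtinianRing R] (𝔪 : Ideal R) (N : ℕ) (h𝔪 : 𝔪 ^ N = ⊥)
    (hres : ∀ r : R, ∃ r0 : k, r - algebraMap k R r0 ∈ 𝔪)
    {cI : (Fin n →₀ ℕ) → Fin d → k} (hI : IsPoint b cI) (hgr : Graded b cI) (hrig : RigidC b cI)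
    {c : (Fin n →₀ ℕ) → Fin d → R} (hc : IsPoint b c)
    (hcm : ∀ m j, c m j - algebraMap k R (cI m j) ∈ 𝔪) :
    ∃ (a : Fin n → R) (g g' : Matrix (Fin n) (Fin n) R), Straight b cI c a g g' := by
  have h0 : PA b cI c 𝔪 𝔪 := by
    refine ⟨le_rfl, 0, 1, 1, c, one_mul _, hc, hcm, fun p hp => by rwa [subst_one], ?_⟩
    intro e f _ hf j _
    have := nf_sub_mem 𝔪 hcm f j
    rwa [hf, Pi.zero_apply, map_zero, sub_zero] at this
  obtain ⟨𝔞, hP, hmin⟩ := WellFounded.has_min (wellFounded_lt (α := Ideal R)) {𝔞 | PA b cI c 𝔪 𝔞}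
    ⟨𝔪, h0⟩
  have hbot : 𝔞 = ⊥ := by
    by_contra hne
    obtain ⟨𝔞', hlt, hP'⟩ := PA_step 𝔪 𝔞 N h𝔪 hres hI hgr hrig hP hne
    exact hmin 𝔞' hP' hlt
  obtain ⟨hle, a, g, g', c', hgg', hc', hcm', hlink, hca⟩ := hP
  refine ⟨a, g, g', hgg', ?_⟩
  intro e f hfe hf
  refine ⟨fun j => if (b j).degree ≤ e then 0 else nf c' (map (algebraMap k R) f) j, ?_, ?_⟩
  · intro j hj
    simp [hj]
  · apply hlink
    rw [map_sub, hc'.nf_lift, sub_eq_zero]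
    ext j
    by_cases hj : (b j).degree ≤ e
    · have := hca e f hfe hf j hj
      rw [hbot, Ideal.mem_bot] at this
      simp [hj, this]
    · simp [hj]

end Pool.H7.HilbRigid
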