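import Pool.Agent.H7.HilbRigidDescend

set_option autoImplicit false

namespace Pool.H7.HilbRigid

open MvPolynomial

/-- A closed point of the Hilbert scheme `Hilb^d(𝔸ⁿ)` over an algebraically closed field `k`:
an ideal `I` of `k[x_1,…,x_n]` with `dim_k k[x_1,…,x_n]/I = d`. -/
structure HilbPt (k : Type*) [Field k] (n d : ℕ) where
  /-- the ideal -/
  ideal : Ideal (MvPolynomial (Fin n) k)
  finite : Module.Finite k (MvPolynomial (Fin n) k ⧸ ideal)
  finrank_eq : Module.finrank k (MvPolynomial (Fin n) k ⧸ ideal) = d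

section defs

variable {k : Type*} [Field k] {n d : ℕ}

/-- `J` lies in the chart `U_b` of the Hilbert scheme given by the monomials
`x^(b 0), …, x^(b (d-1))` and has coordinates `c` there: for every monomial `x^m`,
`x^m ≡ ∑_j c m j x^(b j)` modulo `J`.  (As `J` has colength `d`, the monomials `x^(b j)` are then a
basis of `k[x]/J`, and `c` is unique.) -/
def HasCoords (b : Fin d → (Fin n →₀ ℕ)) (J : HilbPt k n d) (c : (Fin n →₀ ℕ) → Fin d → k) : Prop :=
  ∀ m : Fin n →₀ ℕ, monomial m 1 - ∑ j, monomial (b j) (c m j) ∈ J.ideal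

/-- The basic open set of the chart `U_b` where the regular function `f` (a polynomial in the
coordinates) does not vanish. -/
def basicOpen (b : Fin d → (Fin n →₀ ℕ)) (f : MvPolynomial ((Fin n →₀ ℕ) × Fin d) k) :
    Set (HilbPt k n d) :=
  {J | ∃ c, HasCoords b J c ∧ eval (fun p => c p.1 p.2) f ≠ 0}

/-- The Zariski topology on the set of closed points of the Hilbert scheme: it is generated by the
basic open subsets of the affine charts `U_b`. -/
instance : TopologicalSpace (HilbPt k n d) :=
  TopologicalSpace.generateFrom {U | ∃ b f, U = basicOpen b f}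

end defs

variable {n d : ℕ} {k : Type*} [Field k] {b : Fin d → (Fin n →₀ ℕ)}

lemma isOpen_basicOpen (b : Fin d → (Fin n →₀ ℕ)) (f : MvPolynomial ((Fin n →₀ ℕ) × Fin d) k) :
    IsOpen (basicOpen b f) :=
  TopologicalSpace.isOpen_generateFrom_of_mem ⟨b, f, rfl⟩

lemma HasCoords.sub_mem {J : HilbPt k n d} {c : (Fin n →₀ ℕ) → Fin d → k} (h : HasCoords b J c)
    (f : MvPolynomial (Fin n) k) : f - lift b (nf c f) ∈ J.ideal := by
  induction f using MvPolynomial.induction_on' with
  | monomial m r =>
    have h1 : (monomial m r : MvPolynomial (Fin n) k) - lift b (nf c (monomial m r)) =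
        C r * (monomial m 1 - lift b (c m)) := by
      rw [nf_monomial, lift_smul, mul_sub, C_mul_monomial, mul_one]
    rw [h1]
    exact J.ideal.mul_mem_left _ (h m)
  | add p q hp hq =>
    have h1 : (p + q) - lift b (nf c (p + q)) = (p - lift b (nf c p)) + (q - lift b (nf c q)) := by
      rw [map_add, lift_add]; ring
    rw [h1]
    exact J.ideal.add_mem hp hq

lemma HasCoords.indep {J : HilbPt k n d} {c : (Fin n →₀ ℕ) → Fin d → k} (h : HasCoords b J c)
    (v : Fin d → k) (hv : lift b v ∈ J.ideal) : v = 0 := by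
  have := J.finite
  have hsum : ∀ w : Fin d → k, Ideal.Quotient.mk J.ideal (lift b w) =
      ∑ j, w j • Ideal.Quotient.mk J.ideal (monomial (b j) (1 : k)) := by
    intro w
    rw [lift, map_sum]
    refine Finset.sum_congr rfl fun j _ => ?_
    have h2 : (monomial (b j) (w j) : MvPolynomial (Fin n) k) = w j • monomial (b j) (1 : k) := by
      rw [smul_monomial, smul_eq_mul, mul_one]
    rw [h2]
    rfl
  have hspan : ⊤ ≤ Submodule.span k (Set.range fun j => Ideal.Quotient.mk J.ideal
      (monomial (b j) (1 : k))) := by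
    intro x _
    obtain ⟨f, rfl⟩ := Ideal.Quotient.mk_surjective x
    have h1 : Ideal.Quotient.mk J.ideal f = Ideal.Quotient.mk J.ideal (lift b (nf c f)) :=
      Ideal.Quotient.eq.mpr (h.sub_mem f)
    rw [h1, hsum]
    exact Submodule.sum_mem _ fun j _ => Submodule.smul_mem _ _ (Submodule.subset_span ⟨j, rfl⟩)
  have hli := linearIndependent_of_top_le_span_of_card_eq_finrank hspan
    (by rw [Fintype.card_fin]; exact J.finrank_eq.symm)
  rw [Fintype.linearIndependent_iff] at hli
  funext j
  apply hli v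
  rw [← hsum]
  exact Ideal.Quotient.eq_zero_iff_mem.mpr hv

lemma HasCoords.nf_eq_zero_iff {J : HilbPt k n d} {c : (Fin n →₀ ℕ) → Fin d → k}
    (h : HasCoords b J c) (f : MvPolynomial (Fin n) k) : nf c f = 0 ↔ f ∈ J.ideal := by
  constructor
  · intro hf
    have := h.sub_mem f
    rwa [hf, lift_zero, sub_zero] at this
  · intro hf
    apply h.indep
    have := J.ideal.sub_mem hf (h.sub_mem f)
    rwa [sub_sub_cancel] at this

lemma HasCoords.isPoint {J : HilbPt k n d} {c : (Fin n →₀ ℕ) → Fin d → k}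
    (h : HasCoords b J c) : IsPoint b c := by
  classical
  apply IsPoint.mk'
  · intro j
    have h1 : lift b (c (b j) - Pi.single j 1) ∈ J.ideal := by
      have h2 := J.ideal.neg_mem (h (b j))
      have h3 : lift b (Pi.single j (1 : k)) = monomial (b j) 1 := by
        rw [lift, Finset.sum_eq_single j]
        · simp
        · intro l _ hl
          rw [Pi.single_eq_of_ne hl, monomial_zero]
        · simp
      rw [lift_sub, h3]
      rwa [neg_sub] at h2
    have := h.indep _ h1
    exact sub_eq_zero.mp this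
  · intro p i hp
    rw [h.nf_eq_zero_iff] at hp ⊢
    exact J.ideal.mul_mem_left _ hp

lemma HasCoords.unique {J : HilbPt k n d} {c c' : (Fin n →₀ ℕ) → Fin d → k}
    (h : HasCoords b J c) (h' : HasCoords b J c') : c = c' := by
  funext m
  have h1 : lift b (c m - c' m) ∈ J.ideal := by
    have := J.ideal.sub_mem (h' m) (h m)
    rw [lift_sub]
    convert this using 1
    simp only [lift]
    ring
  exact sub_eq_zero.mp (h.indep _ h1)

/-- the ideal of the regular functions vanishing on `Z ∩ U_b`. -/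
noncomputable def vanish (b : Fin d → (Fin n →₀ ℕ)) (Z : Set (HilbPt k n d)) :
    Ideal (MvPolynomial ((Fin n →₀ ℕ) × Fin d) k) where
  carrier := {f | ∀ J ∈ Z, ∀ c, HasCoords b J c → eval (fun p => c p.1 p.2) f = 0}
  add_mem' := by
    intro f g hf hg J hJ c hc
    rw [map_add, hf J hJ c hc, hg J hJ c hc, add_zero]
  zero_mem' := by
    intro J _ c _
    rw [map_zero]
  smul_mem' := by
    intro g f hf J hJ c hc
    rw [smul_eq_mul, map_mul, hf J hJ c hc, mul_zero]

lemma vanish_isPrime {Z : Set (HilbPt k n d)} (hZ : IsPreirreducible Z) {J0 : HilbPt k n d}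
    (hJ0 : J0 ∈ Z) {c0 : (Fin n →₀ ℕ) → Fin d → k} (hc0 : HasCoords b J0 c0) :
    (vanish b Z).IsPrime where
  ne_top' := by
    rw [Ideal.ne_top_iff_one]
    intro h1
    have := h1 J0 hJ0 c0 hc0
    rw [map_one] at this
    exact one_ne_zero this
  mem_or_mem' := by
    intro f g hfg
    by_contra hne
    rw [not_or] at hne
    obtain ⟨hf, hg⟩ := hne
    have hf' : ∃ J ∈ Z, ∃ c, HasCoords b J c ∧ eval (fun p => c p.1 p.2) f ≠ 0 := by
      by_contra hcon
      apply hf
      intro J hJ c hc
      by_contra hne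
      exact hcon ⟨J, hJ, c, hc, hne⟩
    have hg' : ∃ J ∈ Z, ∃ c, HasCoords b J c ∧ eval (fun p => c p.1 p.2) g ≠ 0 := by
      by_contra hcon
      apply hg
      intro J hJ c hc
      by_contra hne
      exact hcon ⟨J, hJ, c, hc, hne⟩
    obtain ⟨J1, hJ1, hJ1'⟩ := hf'
    obtain ⟨J2, hJ2, hJ2'⟩ := hg'
    obtain ⟨J, hJ, ⟨c, hc, hcf⟩, ⟨c', hc', hcg⟩⟩ :=
      hZ (basicOpen b f) (basicOpen b g) (isOpen_basicOpen b f) (isOpen_basicOpen b g)
        ⟨J1, hJ1, hJ1'⟩ ⟨J2, hJ2, hJ2'⟩
    rw [← hc.unique hc'] at hcg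
    have := hfg J hJ c hc
    rw [map_mul] at this
    exact (mul_ne_zero hcf hcg) this

end Pool.H7.HilbRigid
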